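import Pool.Agent.P.MP_bebcd6_lc.Defs

/-! Shared constructions: modules from algebra maps, the functor `F`, matrices acting on `ι → V`. -/

namespace Pool.Agent.P.MP_bebcd6_lc

section OfHom

variable {k Λ N : Type} [Field k] [Ring Λ] [Algebra k Λ] [AddCommGroup N] [Module k N]

/-- `N` with the `Λ`-module structure given by `ρ`. -/
def OfHom (_ρ : Λ →ₐ[k] Module.End k N) : Type := N

variable (ρ : Λ →ₐ[k] Module.End k N)

instance : AddCommGroup (OfHom ρ) := inferInstanceAs (AddCommGroup N)
instance : Module k (OfHom ρ) := inferInstanceAs (Module k N)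
instance : Module Λ (OfHom ρ) := Module.compHom N ρ.toRingHom
instance [FiniteDimensional k N] : FiniteDimensional k (OfHom ρ) :=
  inferInstanceAs (FiniteDimensional k N)

theorem OfHom.smul_def (a : Λ) (x : OfHom ρ) : a • x = (ρ a : N → N) x := rfl

instance : IsScalarTower k Λ (OfHom ρ) where
  smul_assoc c a x := by
    rw [OfHom.smul_def, OfHom.smul_def, map_smul]; rfl

theorem OfHom.finrank : Module.finrank k (OfHom ρ) = Module.finrank k N := rfl

end OfHom

section MatAct

variable (k S ι M : Type) [Field k] [Ring S] [Algebra k S] [Fintype ι] [DecidableEq ι]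
  [AddCommGroup M] [Module k M] [Module S M] [IsScalarTower k S M]

/-- rectangular matrices over `S` acting on tuples from an `S`-module -/
def matMap {p q : Type} [Fintype q] (B : Matrix p q S) : (q → M) →ₗ[k] (p → M) where
  toFun x i := ∑ j, B i j • x j
  map_add' x y := by ext i; simp [Finset.sum_add_distrib]
  map_smul' c x := by ext i; simp [Finset.smul_sum, smul_comm c]

@[simp] theorem matMap_apply {p q : Type} [Fintype q] (B : Matrix p q S) (x : q → M) (i : p) :
    matMap k S M B x i = ∑ j, B i j • x j := rfl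

theorem matMap_mul {p q r : Type} [Fintype q] [Fintype r] (B : Matrix p q S) (C : Matrix q r S) :
    matMap k S M (B * C) = matMap k S M B ∘ₗ matMap k S M C := by
  refine LinearMap.ext fun x => funext fun i => ?_
  simp only [LinearMap.comp_apply, matMap_apply, Matrix.mul_apply, Finset.sum_smul, Finset.smul_sum, mul_smul]
  rw [Finset.sum_comm]

/-- square matrices over `S` act on `ι → M` -/
def matAct : Matrix ι ι S →ₐ[k] Module.End k (ι → M) where
  toFun B := matMap k S M B
  map_one' := by
    refine LinearMap.ext fun x => funext fun i => ?_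
    simp [Matrix.one_apply]
  map_mul' B C := matMap_mul k S M B C
  map_zero' := by
    refine LinearMap.ext fun x => funext fun i => ?_
    simp
  map_add' B C := by
    refine LinearMap.ext fun x => funext fun i => ?_
    simp [add_smul, Finset.sum_add_distrib]
  commutes' c := by
    refine LinearMap.ext fun x => funext fun i => ?_
    simp [Matrix.algebraMap_matrix_apply]

@[simp] theorem matAct_apply (B : Matrix ι ι S) (x : ι → M) (i : ι) :
    matAct k S ι M B x i = ∑ j, B i j • x j := rfl

end MatAct

section FM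

variable {k Λ S ι : Type} [Field k] [Ring Λ] [Algebra k Λ] [Ring S] [Algebra k S] [Fintype ι]
  [DecidableEq ι] (ψ : Λ →ₐ[k] Matrix ι ι S)

/-- The functor `F`: `ι → M` with `Λ` acting through the matrices `ψ a`. -/
abbrev FM (M : Type) [AddCommGroup M] [Module k M] [Module S M] [IsScalarTower k S M] : Type :=
  OfHom ((matAct k S ι M).comp ψ)

variable {M M' M'' : Type} [AddCommGroup M] [Module k M] [Module S M] [IsScalarTower k S M]
  [AddCommGroup M'] [Module k M'] [Module S M'] [IsScalarTower k S M']
  [AddCommGroup M''] [Module k M''] [Module S M''] [IsScalarTower k S M'']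

theorem FM.smul_apply (a : Λ) (x : FM ψ M) (i : ι) :
    (a • x : FM ψ M) i = ∑ j, ψ a i j • x j := rfl

/-- `F` on maps -/
def Fmap (f : M →ₗ[S] M') : FM ψ M →ₗ[Λ] FM ψ M' where
  toFun x i := f (x i)
  map_add' x y := funext fun i => map_add f (x i) (y i)
  map_smul' a x := funext fun i => by
    change f (∑ j, ψ a i j • x j) = ∑ j, ψ a i j • f (x j)
    simp

@[simp] theorem Fmap_apply (f : M →ₗ[S] M') (x : FM ψ M) (i : ι) : Fmap ψ f x i = f (x i) := rfl

end FM

section RMod

variable {k G M : Type} [Field k] [AddCommGroup M] [Module k M]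

/-- the module over the free algebra given by a family of operators -/
abbrev RMod (X : G → Module.End k M) : Type := OfHom (FreeAlgebra.lift k X)

theorem RMod.ι_smul (X : G → Module.End k M) (j : G) (x : RMod X) :
    (FreeAlgebra.ι k j • x : RMod X) = (X j : M → M) x := by
  rw [OfHom.smul_def, FreeAlgebra.lift_ι_apply]

/-- a `k`-linear map commuting with the generators is linear over the free algebra -/
def freeLin {M' : Type} [AddCommGroup M'] [Module k M'] [Module (FreeAlgebra k G) M]
    [IsScalarTower k (FreeAlgebra k G) M] [Module (FreeAlgebra k G) M']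
    [IsScalarTower k (FreeAlgebra k G) M'] (f : M →ₗ[k] M')
    (h : ∀ (j : G) x, f (FreeAlgebra.ι k j • x) = FreeAlgebra.ι k j • f x) :
    M →ₗ[FreeAlgebra k G] M' where
  toFun := f
  map_add' := f.map_add
  map_smul' r x := by
    simp only [RingHom.id_apply]
    induction r using FreeAlgebra.induction generalizing x with
    | grade0 c => simp
    | grade1 j => exact h j x
    | mul a b ha hb => rw [mul_smul, mul_smul, ha, hb]
    | add a b ha hb => rw [add_smul, add_smul, map_add, ha, hb]

@[simp] theorem freeLin_apply {M' : Type} [AddCommGroup M'] [Module k M']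
    [Module (FreeAlgebra k G) M]
    [IsScalarTower k (FreeAlgebra k G) M] [Module (FreeAlgebra k G) M']
    [IsScalarTower k (FreeAlgebra k G) M'] (f : M →ₗ[k] M') (h) (x : M) :
    freeLin (G := G) f h x = f x := rfl

end RMod

section Tens

variable {k ι : Type} [Field k] [Fintype ι] [DecidableEq ι]
  {V V' V'' : Type} [AddCommGroup V] [Module k V] [AddCommGroup V'] [Module k V']
  [AddCommGroup V''] [Module k V'']

/-- the operator `X ⊗ g` from `ι → V` to `ι → V'` -/
def tens (X : V →ₗ[k] V') (g : Matrix ι ι k) : (ι → V) →ₗ[k] (ι → V') where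
  toFun x i := ∑ j, g i j • X (x j)
  map_add' x y := by ext i; simp [Finset.sum_add_distrib]
  map_smul' c x := by ext i; simp [Finset.smul_sum, smul_comm c]

omit [DecidableEq ι] in
@[simp] theorem tens_apply (X : V →ₗ[k] V') (g : Matrix ι ι k) (x : ι → V) (i : ι) :
    tens X g x i = ∑ j, g i j • X (x j) := rfl

/-- the coefficient matrix of `f` at the vector `v` and the functional `y` -/
def coef (v : V) (y : V' →ₗ[k] k) (f : (ι → V) →ₗ[k] (ι → V')) : Matrix ι ι k :=
  Matrix.of fun i j => y (f (Pi.single j v) i)

/-- A vector space `V` with finitely many operators `X j`, each attached to an element `e j`. -/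
structure Fam (k E : Type) [Field k] where
  V : Type
  [acg : AddCommGroup V]
  [mod : Module k V]
  J : Type
  [fin : Fintype J]
  e : J → E
  X : J → Module.End k V

attribute [instance] Fam.acg Fam.mod Fam.fin

variable {E 𝒜 : Type} [AddCommGroup E] [Module k E]

/-- the operator `1 ⊗ α a + ∑ X j ⊗ D (e j) a` -/
def Fam.act (α : 𝒜 → Matrix ι ι k) (D : E →ₗ[k] 𝒜 → Matrix ι ι k) (F : Fam k E) (a : 𝒜) :
    Module.End k (ι → F.V) :=
  tens LinearMap.id (α a) + ∑ j, tens (F.X j) (D (F.e j) a)

/-- `f` intertwines the operators of the two families -/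
def Intw (α : 𝒜 → Matrix ι ι k) (D : E →ₗ[k] 𝒜 → Matrix ι ι k) (F F' : Fam k E)
    (f : (ι → F.V) →ₗ[k] (ι → F'.V)) : Prop :=
  ∀ a, f ∘ₗ F.act α D a = F'.act α D a ∘ₗ f

/-- the family with `1` attached to `e₀` and `X j` attached to `e j` -/
def scaf {G : Type} [Fintype G] (e₀ : E) (e : G → E) (V : Type) [AddCommGroup V] [Module k V]
    (X : G → Module.End k V) : Fam k E where
  V := V
  J := Option G
  e o := o.elim e₀ e
  X o := o.elim 1 X

/-- the projection to the coordinates where `p` holds -/
def proj (k : Type) [Field k] (p : ι → Prop) [DecidablePred p] : Matrix ι ι k :=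
  Matrix.diagonal fun i => if p i then 1 else 0

/-- `g` lowers the flag `Φ` by one step -/
def Lowers (Φ : ℕ → Submodule k (ι → k)) (g : Matrix ι ι k) : Prop :=
  ∀ m, ∀ z ∈ Φ (m + 1), g.mulVec z ∈ Φ m

/-- `g` preserves the flag, and its blocks between different labels lower it -/
def Par {P : Type} [DecidableEq P] (lab : ι → P) (Φ : ℕ → Submodule k (ι → k))
    (g : Matrix ι ι k) : Prop :=
  (∀ m, ∀ z ∈ Φ m, g.mulVec z ∈ Φ m) ∧
    ∀ x y : P, x ≠ y → Lowers Φ (proj k (fun i => lab i = x) * g * proj k (fun i => lab i = y))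

/-- the cocycle `D` changed by the coboundary of `t` -/
def shiftD (α : 𝒜 → Matrix ι ι k) (D : E →ₗ[k] 𝒜 → Matrix ι ι k) (t : E →ₗ[k] Matrix ι ι k) :
    E →ₗ[k] 𝒜 → Matrix ι ι k where
  toFun e a := D e a - (α a * t e - t e * α a)
  map_add' e e' := by ext1 a; simp [mul_add, add_mul]; abel
  map_smul' c e := by ext1 a; simp [smul_sub]

end Tens

section Def2

/-- a binary relation on right `A`-modules that is given by a formula -/
def Def2 (A : Type) [Ring A]
    (P : ∀ (N : Type) [AddCommGroup N] [Module Aᵐᵒᵖ N], N → N → Prop) : Prop :=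
  ∀ i j : ℕ, ∃ p : Formula A, ∀ (N : Type) [AddCommGroup N] [Module Aᵐᵒᵖ N] (v : ℕ → N),
    p.Sat v ↔ P N (v i) (v j)

end Def2

section Nul

variable {K : Type} [Field K] {p q : Type} [Fintype q]

/-- nullity of a matrix over the free algebra evaluated at a pair of operators -/
noncomputable def nul (Ψ : Matrix p q (FreeAlgebra K (Fin 2))) {W : Type} [AddCommGroup W]
    [Module K W] (X : Fin 2 → Module.End K W) : ℕ :=
  Module.finrank K (LinearMap.ker (matMap K (FreeAlgebra K (Fin 2)) (RMod X) Ψ))

/-- `m` times the dimension is a lower bound for the nullity -/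
def NulLB (Ψ : Matrix p q (FreeAlgebra K (Fin 2))) (m : ℕ) : Prop :=
  ∀ (W : Type) [AddCommGroup W] [Module K W] [FiniteDimensional K W]
    (X : Fin 2 → Module.End K W), m * Module.finrank K W ≤ nul Ψ X

/-- the pair of operators on `Fin n → K` with matrix entries `x` -/
def pt {n : ℕ} (x : Fin 2 × Fin n × Fin n → K) : Fin 2 → Module.End K (Fin n → K) :=
  fun i => Matrix.mulVecLin (Matrix.of fun a b => x (i, a, b))

end Nul

end Pool.Agent.P.MP_bebcd6_lc
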