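import Pool.Agent.P.MP_bebcd6_lc.CaseT4

/-! From many modules of one dimension to the input of the layer argument. -/

namespace Pool.Agent.P.MP_bebcd6_lc

open Matrix

namespace CaseT

/-- the sinks -/
def snk (r : ℕ) (x : Fin r ⊕ Fin r) : Prop := x.isLeft = true

instance (r : ℕ) : DecidablePred (snk r) := fun x => inferInstanceAs (Decidable (x.isLeft = true))

/-- the level of the flag of a block -/
def lev {r : ℕ} (x : Fin r ⊕ Fin r) (m : ℕ) : ℕ := if snk r x then (m + 1) / 2 else m / 2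

variable {k Λ ι B : Type} [Field k] [Ring Λ] [Algebra k Λ] [Fintype ι] [DecidableEq ι]
  [Fintype B] [DecidableEq B] {ψ : Λ →ₐ[k] Matrix ι ι (FA k)} {l n r : ℕ} (T : TFam ψ l n r)
  (ξ : B → Fin 2 → Matrix ((Fin r ⊕ Fin r) × Fin n) ((Fin r ⊕ Fin r) × Fin n) k)

theorem phi_mono (M : FMod k (FA k)) : Monotone fun i => T.φ i M :=
  monotone_nat_of_le_succ fun i => T.le_succ i M

omit [DecidableEq B] in
theorem cls_UU (y : Fin r ⊕ Fin r) {S : Set (Fin r ⊕ Fin r)} (hS : ∀ x, Ar (snk r) x y → x ∈ S) :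
    T.Cls S (UU (B := B) T.L (snk r) y) :=
  (T.closed S).pi _ _ fun j => T.mem S _ (hS _ j.2.2)

omit [DecidableEq B] in
theorem cls_WW (x : Fin r ⊕ Fin r) {S : Set (Fin r ⊕ Fin r)} (hS : ∀ y, Ar (snk r) x y → y ∈ S) :
    T.Cls S (WW (B := B) T.L (snk r) x) :=
  (T.closed S).pi _ _ fun j => T.mem S _ (hS _ j.2.2)

omit [DecidableEq B] in
theorem cls_PM (y : Fin r ⊕ Fin r) :
    T.Cls {x | x = y ∨ Ar (snk r) x y} (PM T.L (snk r) ξ y) :=
  (T.closed _).ext _ _ _ (extSES _ _ _) (cls_UU T y fun _ h => Or.inr h) (T.mem _ _ (Or.inl rfl))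

omit [DecidableEq B] in
theorem cls_IM (x : Fin r ⊕ Fin r) :
    T.Cls {y | y = x ∨ Ar (snk r) x y} (IM T.L (snk r) ξ x) :=
  (T.closed _).ext _ _ _ (extSES _ _ _) (T.mem _ _ (Or.inl rfl)) (cls_WW T x fun _ h => Or.inr h)

omit [DecidableEq B] in
theorem exists_sigma (y : Fin r ⊕ Fin r) :
    ∃ σ : FM ψ (matMod (T.L y)).C →ₗ[k] FM ψ (PM T.L (snk r) ξ y).C,
      (∀ z i, (σ z i).2 = z i) ∧
        ∀ j, ∀ z ∈ T.φ j (matMod (T.L y)), σ z ∈ T.φ j (PM T.L (snk r) ξ y) := by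
  obtain ⟨σ, h1, h2⟩ := exists_flag_sec
    ((Fmap ψ (extSES _ _ (zP T.L (snk r) ξ y)).p).restrictScalars k)
    (fun i => T.φ i (PM T.L (snk r) ξ y)) (fun i => T.φ i (matMod (T.L y)))
    (phi_mono T _) (phi_mono T _)
    (fun i => T.epi i _ _ _ (extSES _ _ (zP T.L (snk r) ξ y))
      (cls_UU T y fun _ _ => Set.mem_univ _) (T.mem _ _ (Set.mem_univ _))) l
  refine ⟨σ, fun z i => ?_, fun j z hz => ?_⟩
  · have := congrFun (h1 z (by rw [T.top]; trivial)) i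
    exact (extSES_p _ _ _ _).symm.trans this
  · rcases le_total j l with h | h
    · exact h2 j h z hz
    · exact phi_mono T _ h (by simp only [T.top]; trivial)

variable {ξ}
  {σ : ∀ y, FM ψ (matMod (T.L y)).C →ₗ[k] FM ψ (PM T.L (snk r) ξ y).C}
  (hσ : ∀ y z i, (σ y z i).2 = z i)
  (hσ' : ∀ y j, ∀ z ∈ T.φ j (matMod (T.L y)), σ y z ∈ T.φ j (PM T.L (snk r) ξ y))

include hσ hσ' in
theorem rho_mem (x : Fin r ⊕ Fin r) (j : ℕ) (m : FM ψ (IM T.L (snk r) ξ x).C)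
    (hm : m ∈ T.φ j (IM T.L (snk r) ξ x)) :
    rho ψ T.L (snk r) ξ σ x m ∈ T.φ j (matMod (T.L x)) := by
  refine T.pure j _ _ _ (extSES _ _ (zI T.L (snk r) ξ x)) (T.mem _ _ (Set.mem_univ _))
    (cls_WW T x fun _ _ => Set.mem_univ _) _ ?_
  rw [← sub_eq_rho ψ T.L σ hσ]
  refine sub_mem hm (Submodule.sum_mem _ fun c _ => T.nat j _ _ _ _ (hσ' _ _ _ ?_))
  have := T.nat j (IM T.L (snk r) ξ x) (matMod (T.L c.2.1))
    (Fmap ψ (LinearMap.proj (R := FA k)
      (φ := fun c : B × {y // Ar (snk r) x y} => (matMod (T.L c.2.1)).C) c ∘ₗ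
        (extSES _ _ (zI T.L (snk r) ξ x)).p)) m hm
  exact (congrArg (· ∈ T.φ j (matMod (T.L c.2.1)))
    (funext fun i => congrFun (extSES_p _ _ _ (m i)) c)).mp this

/-- the flag -/
def flag (m : ℕ) : Submodule k (ι × ((Fin r ⊕ Fin r) × Fin n) → k) :=
  ⨅ x, (T.φ (lev x m) (matMod (T.L x))).comap (blk ψ T.L x)

theorem mem_flag {m : ℕ} {z : ι × ((Fin r ⊕ Fin r) × Fin n) → k} :
    z ∈ flag T m ↔ ∀ x, blk ψ T.L x z ∈ T.φ (lev x m) (matMod (T.L x)) := by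
  simp only [flag, Submodule.mem_iInf, Submodule.mem_comap]

theorem emb_mem {m : ℕ} {x : Fin r ⊕ Fin r} {w : FM ψ (matMod (T.L x)).C}
    (hw : w ∈ T.φ (lev x m) (matMod (T.L x))) : emb ψ T.L x w ∈ flag T m :=
  (mem_flag T).2 fun x' => by
    by_cases h : x' = x
    · subst h
      rwa [blk_emb]
    · rw [blk_emb_ne _ _ h]
      exact zero_mem _

theorem par_of_blocks (g : Matrix (ι × ((Fin r ⊕ Fin r) × Fin n)) (ι × ((Fin r ⊕ Fin r) × Fin n)) k)
    (h1 : ∀ x y j, ∀ z ∈ T.φ j (matMod (T.L y)),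
      blk ψ T.L x (g *ᵥ emb ψ T.L y z) ∈ T.φ j (matMod (T.L x)))
    (h2 : ∀ x y, x ≠ y → ¬ Ar (snk r) x y → ∀ j, ∀ z ∈ T.φ (j + 1) (matMod (T.L y)),
      blk ψ T.L x (g *ᵥ emb ψ T.L y z) ∈ T.φ j (matMod (T.L x))) :
    Par (fun p => p.2.1) (flag T) g := by
  have h3 : ∀ x y, x ≠ y → ¬ Ar (snk r) x y → ∀ j j', j ≤ j' + 1 → ∀ z ∈ T.φ j (matMod (T.L y)),
      blk ψ T.L x (g *ᵥ emb ψ T.L y z) ∈ T.φ j' (matMod (T.L x)) :=
    fun x y hxy ha j j' hj z hz => h2 x y hxy ha j' z (phi_mono T _ hj hz)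
  refine ⟨fun m z hz => (mem_flag T).2 fun x => ?_, fun x y hxy m z hz => ?_⟩
  · rw [← sum_emb_blk ψ T.L z, Matrix.mulVec_sum, map_sum]
    refine Submodule.sum_mem _ fun y _ => ?_
    have hy := (mem_flag T).1 hz y
    by_cases h : lev y m ≤ lev x m
    · exact phi_mono T _ h (h1 x y _ _ hy)
    · refine h3 x y (fun e => h (e ▸ le_rfl)) (fun ha => h ?_) _ _ ?_ _ hy
      · simp only [lev, ha.1, ha.2, if_true, if_false]
        omega
      · simp only [lev]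
        split_ifs <;> omega
  · rw [← Matrix.mulVec_mulVec, ← Matrix.mulVec_mulVec, proj_eq ψ T.L, proj_eq ψ T.L]
    refine emb_mem T ?_
    have hy := (mem_flag T).1 hz y
    by_cases ha : Ar (snk r) x y
    · refine phi_mono T _ ?_ (h1 x y _ _ hy)
      simp only [lev, ha.1, ha.2, if_true, if_false, le_refl]
    · refine h3 x y hxy ha _ _ ?_ _ hy
      simp only [lev]
      split_ifs <;> omega

include hσ hσ' in
theorem par_coef (hξ : ∀ b i, UR (fun p : (Fin r ⊕ Fin r) × Fin n => snk r p.1) (ξ b i))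
    (F F' : Fam k (B → k)) (f)
    (hf : Intw (alph ψ (Lm T.L))
      (linD fun b => D2 ψ (Lm T.L) (ξ b) (tM ψ T.L (snk r) ξ σ b)) F F' f) (v η) :
    Par (fun p => p.2.1) (flag T) (coef v η f) := by
  have hf' := fun a => by
    have := hf a
    rw [act_linD, act_linD] at this
    exact this
  refine par_of_blocks T _ (fun x y j z hz => ?_) fun x y hxy ha j z hz => ?_
  · obtain ⟨h, hh⟩ := block_eq ψ T.L σ hξ hσ f hf' v η x y
    rw [hh]
    exact rho_mem T hσ hσ' x j _ (T.nat j _ _ h _ (hσ' y j z hz))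
  · obtain ⟨h, hh⟩ := block_eq ψ T.L σ hξ hσ f hf' v η x y
    rw [hh]
    refine rho_mem T hσ hσ' x j _
      (T.low j _ _ _ _ h ?_ (cls_PM T ξ y) (cls_IM T ξ x) _ (hσ' y _ z hz))
    rw [Set.disjoint_left]
    rintro u (rfl | h1) (h2 | h2)
    · exact hxy h2.symm
    · exact ha h2
    · exact ha (h2 ▸ h1)
    · exact h2.2 h1.1

/-- upper right matrices -/
def urSub (k : Type) [Field k] {I : Type} (s : I → Prop) : Submodule k (Matrix I I k) where
  carrier := {g | UR s g}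
  add_mem' := UR.add
  zero_mem' := fun _ _ _ => rfl
  smul_mem' c _ h := h.smul c

theorem exists_xi (hn : 0 < n) (L : Fin r ⊕ Fin r → Fin 2 → Matrix (Fin n) (Fin n) k) :
    ∃ (N : ℕ) (ξ : Fin N → Fin 2 → Matrix ((Fin r ⊕ Fin r) × Fin n) ((Fin r ⊕ Fin r) × Fin n) k),
      r * r ≤ N ∧ (∀ b i, UR (fun p : (Fin r ⊕ Fin r) × Fin n => snk r p.1) (ξ b i)) ∧
        ∀ c : Fin N → k, (∃ w, UR (fun p : (Fin r ⊕ Fin r) × Fin n => snk r p.1) w ∧
          ∀ i, ∑ b, c b • ξ b i = Lm L i * w - w * Lm L i) → c = 0 := by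
  let U := urSub k fun p : (Fin r ⊕ Fin r) × Fin n => snk r p.1
  let δ : U →ₗ[k] (Fin 2 → U) := LinearMap.pi fun i =>
    ((LinearMap.mulLeft k (Lm L i) - LinearMap.mulRight k (Lm L i)) ∘ₗ U.subtype).codRestrict U
      fun t => ((bd_Lm L (snk r) i).mul_ur t.2).sub (UR.mul_bd t.2 (bd_Lm L (snk r) i))
  obtain ⟨N, ξ, h1, h2⟩ := exists_indep δ
  refine ⟨N, fun b i => ξ b i, le_trans ?_ h1, fun b i => (ξ b i).2, fun c ⟨w, hw, hc⟩ =>
    h2 c ⟨⟨w, hw⟩, funext fun i => Subtype.ext ?_⟩⟩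
  · let q : U →ₗ[k] Matrix (Fin r) (Fin r) k :=
      { toFun := fun t => Matrix.of fun x y => t.1 (Sum.inl x, ⟨0, hn⟩) (Sum.inr y, ⟨0, hn⟩)
        map_add' := fun _ _ => rfl
        map_smul' := fun _ _ => rfl }
    have hq : Function.Surjective q := fun m =>
      ⟨⟨Matrix.of fun p q => Sum.elim (fun x => Sum.elim 0 (m x) q.1) 0 p.1, by
        rintro ⟨x | x, a⟩ ⟨y | y, b⟩ h
        · rfl
        · exact (h ⟨rfl, Bool.false_ne_true⟩).elim
        · rfl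
        · rfl⟩, rfl⟩
    simpa [Module.finrank_matrix] using LinearMap.finrank_le_finrank_of_surjective hq
  · rw [Finset.sum_apply, Submodule.coe_sum]
    exact (hc i).symm

end CaseT

open CaseT in
theorem lfam_of_tdata {k Λ ι : Type} [Field k] [Ring Λ] [Algebra k Λ] [Fintype ι] [DecidableEq ι]
    (ψ : Λ →ₐ[k] Matrix ι ι (FA k)) (h1 : H1 ψ) (hT : TData ψ) (g : ℕ) : Nonempty (LFam k Λ g) := by
  obtain ⟨l, hl⟩ := hT
  obtain ⟨n, r, hn, hr, ⟨T⟩⟩ := hl (8 * (g + 1) * l * Fintype.card ι ^ 7)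
  obtain ⟨N, ξ, hN, hξ, hind⟩ := exists_xi hn T.L
  choose σ hσ hσ' using exists_sigma T ξ
  have hL := bd_Lm T.L (snk r)
  have ht := ur_tM ψ T.L (snk r) ξ σ
  refine ⟨{
    ι := ι × ((Fin r ⊕ Fin r) × Fin n)
    P := Fin r ⊕ Fin r
    E := Fin N → k
    lab := fun p => p.2.1
    snk := fun p => snk r p.2.1
    hsnk := fun i j h hi => h ▸ hi
    b := Fintype.card ι * n
    l := 2 * l
    hb := fun x => ?_
    Φ := flag T
    hmono := fun m m' h z hz => (mem_flag T).2 fun x => phi_mono T _ ?_ ((mem_flag T).1 hz x)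
    h0 := ?_
    hl := eq_top_iff.2 fun z _ => (mem_flag T).2 fun x => ?_
    hΦ := fun x m z hz => ?_
    α := alph ψ (Lm T.L)
    D := linD fun b => D2 ψ (Lm T.L) (ξ b) (tM ψ T.L (snk r) ξ σ b)
    hα := fun a => bd_iff.1 (bd_alph ψ hL a)
    hD := fun e a => (UR.sum fun b => (ur_D2 ψ hL (hξ b) (ht b) a).smul _).eq_proj
    D_add := fun e a a' => ?_
    D_smul := fun e c a => ?_
    D_mul := fun e a a' => ?_
    hP := fun F F' f hf v η => par_coef T hσ hσ' hξ F F' f hf v η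
    hinj := fun e ⟨t, h⟩ => hind e (cob_of_cob ψ h1 hL hξ _ e t h)
    hcount := ?_ }⟩
  · have := Fintype.card_le_of_injective
      (fun p : {p : ι × ((Fin r ⊕ Fin r) × Fin n) // p.2.1 = x} => (p.1.1, p.1.2.2)) (by
        rintro ⟨⟨i, y, a⟩, rfl⟩ ⟨⟨j, z, b⟩, h⟩ e
        obtain ⟨rfl, rfl⟩ := Prod.ext_iff.1 e
        obtain rfl : z = y := h
        rfl)
    simpa using this
  · simp only [lev]
    split_ifs <;> omega
  · refine eq_bot_iff.2 fun z hz => ?_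
    rw [Submodule.mem_bot, ← sum_emb_blk ψ T.L z]
    refine Finset.sum_eq_zero fun y _ => ?_
    have hy := (mem_flag T).1 hz y
    have : lev y 0 = 0 := by simp [lev]
    rw [this, T.zero, Submodule.mem_bot] at hy
    rw [hy, map_zero]
  · have : lev x (2 * l) = l := by
      simp only [lev]
      split_ifs <;> omega
    rw [this, T.top]
    trivial
  · exact (proj_eq ψ T.L x z).symm ▸ emb_mem T ((mem_flag T).1 hz x)
  · simp only [linD_apply, D2_add, smul_add, Finset.sum_add_distrib]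
  · simp only [linD_apply, D2_smul, Finset.smul_sum, smul_comm c]
  · simp only [linD_apply, D2_mul ψ hL (hξ _), smul_add, Finset.sum_add_distrib, Finset.mul_sum,
      Finset.sum_mul, mul_smul_comm, smul_mul_assoc]
  · rw [Module.finrank_fin_fun, Fintype.card_sum, Fintype.card_fin]
    refine lt_of_lt_of_le ?_ hN
    have := Nat.mul_lt_mul_of_pos_right (k := r) hr (by omega)
    calc _ = 8 * (g + 1) * l * Fintype.card ι ^ 7 * n ^ 7 * r := by ring
      _ < _ := this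

end Pool.Agent.P.MP_bebcd6_lc
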