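import Pool.Agent.P.MP_bebcd6_lc.Iface

/-! Linear algebra for the case of many modules of one dimension. -/

namespace Pool.Agent.P.MP_bebcd6_lc.CaseT

open Matrix

section Tens

variable {k I B : Type} [Field k] [Fintype I] [Fintype B]
  {V V' V'' : Type} [AddCommGroup V] [Module k V] [AddCommGroup V'] [Module k V']
  [AddCommGroup V''] [Module k V'']

theorem tens_comp (X : V' →ₗ[k] V'') (Y : V →ₗ[k] V') (g h : Matrix I I k) :
    tens X g ∘ₗ tens Y h = tens (X ∘ₗ Y) (g * h) := by
  refine LinearMap.ext fun x => funext fun i => ?_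
  simp only [LinearMap.comp_apply, tens_apply, map_sum, map_smul, Finset.smul_sum,
    Matrix.mul_apply, Finset.sum_smul, mul_smul]
  rw [Finset.sum_comm]

theorem tens_add (X : V →ₗ[k] V') (g h : Matrix I I k) :
    tens X (g + h) = tens X g + tens X h := by
  refine LinearMap.ext fun x => funext fun i => ?_
  simp [add_smul, Finset.sum_add_distrib]

theorem tens_zero (X : V →ₗ[k] V') : tens X (0 : Matrix I I k) = 0 := by
  refine LinearMap.ext fun x => funext fun i => ?_
  simp

theorem tens_smul (X : V →ₗ[k] V') (c : k) (g : Matrix I I k) :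
    tens X (c • g) = tens (c • X) g := by
  refine LinearMap.ext fun x => funext fun i => ?_
  simp [smul_smul, mul_comm]

theorem tens_sum {J : Type} [Fintype J] (X : V →ₗ[k] V') (g : J → Matrix I I k) :
    tens X (∑ j, g j) = ∑ j, tens X (g j) := by
  refine LinearMap.ext fun x => funext fun i => ?_
  simp only [tens_apply, LinearMap.sum_apply, Finset.sum_apply, Matrix.sum_apply, Finset.sum_smul]
  rw [Finset.sum_comm]

theorem sum_tens {J : Type} [Fintype J] (X : J → V →ₗ[k] V') (g : Matrix I I k) :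
    tens (∑ j, X j) g = ∑ j, tens (X j) g := by
  refine LinearMap.ext fun x => funext fun i => ?_
  simp only [tens_apply, LinearMap.sum_apply, Finset.sum_apply, Finset.smul_sum]
  rw [Finset.sum_comm]

/-- the simple tensor -/
def st (z : I → k) (v : V) : I → V := fun p => z p • v

/-- contraction with a functional -/
def ct (y : V →ₗ[k] k) (m : I → V) : I → k := fun p => y (m p)

omit [Fintype I] in
theorem st_add (z z' : I → k) (v : V) : st (z + z') v = st z v + st z' v := by
  funext p; simp [st, add_smul]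

omit [Fintype I] in
theorem st_zero (v : V) : st (0 : I → k) v = 0 := by
  funext p; simp [st]

omit [Fintype I] in
theorem st_smul (c : k) (z : I → k) (v : V) : st (c • z) v = c • st z v := by
  funext p; simp [st, mul_smul]

omit [Fintype I] in
theorem ct_add (y : V →ₗ[k] k) (m m' : I → V) : ct y (m + m') = ct y m + ct y m' := by
  funext p; simp [ct]

omit [Fintype I] in
theorem ct_smul (y : V →ₗ[k] k) (c : k) (m : I → V) : ct y (c • m) = c • ct y m := by
  funext p; simp [ct]

omit [Fintype I] in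
theorem ct_sum {J : Type} [Fintype J] (y : V →ₗ[k] k) (m : J → I → V) :
    ct y (∑ j, m j) = ∑ j, ct y (m j) := by
  funext p; simp [ct, Finset.sum_apply]

theorem tens_st (X : V →ₗ[k] V') (g : Matrix I I k) (z : I → k) (v : V) :
    tens X g (st z v) = st (g *ᵥ z) (X v) := by
  funext p
  simp [st, Matrix.mulVec, dotProduct, Finset.sum_smul, mul_smul]

theorem ct_tens (y : V' →ₗ[k] k) (X : V →ₗ[k] V') (g : Matrix I I k) (m : I → V) :
    ct y (tens X g m) = g *ᵥ ct (y ∘ₗ X) m := by
  funext p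
  simp [ct, Matrix.mulVec, dotProduct]

theorem coef_mulVec [DecidableEq I] (v : V) (y : V' →ₗ[k] k) (f : (I → V) →ₗ[k] (I → V'))
    (z : I → k) : coef v y f *ᵥ z = ct y (f (st z v)) := by
  have h : st z v = ∑ j, z j • (Pi.single j v : I → V) := by
    funext p
    simp [st, Finset.sum_apply, Pi.single_apply]
  funext p
  rw [h]
  simp [ct, coef, Matrix.mulVec, dotProduct, Finset.sum_apply, mul_comm]

/-- the operator `1 ⊗ g₀ + ∑ X b ⊗ g b` -/
def opr (g₀ : Matrix I I k) (g : B → Matrix I I k) (X : B → Module.End k V) :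
    Module.End k (I → V) :=
  tens LinearMap.id g₀ + ∑ b, tens (X b) (g b)

theorem opr_mul (g₀ h₀ : Matrix I I k) (g h : B → Matrix I I k) (X : B → Module.End k V)
    (H : ∀ b b', g b * h b' = 0) :
    opr g₀ g X * opr h₀ h X = opr (g₀ * h₀) (fun b => g₀ * h b + g b * h₀) X := by
  simp only [opr, add_mul, mul_add, Finset.sum_mul, Finset.mul_sum, Module.End.mul_eq_comp,
    tens_comp, H, tens_zero, tens_add, Finset.sum_add_distrib, LinearMap.id_comp,
    LinearMap.comp_id, Finset.sum_const_zero, add_zero]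
  abel

theorem opr_add (g₀ h₀ : Matrix I I k) (g h : B → Matrix I I k) (X : B → Module.End k V) :
    opr g₀ g X + opr h₀ h X = opr (g₀ + h₀) (fun b => g b + h b) X := by
  simp only [opr, tens_add, Finset.sum_add_distrib]
  abel

theorem opr_scalar [DecidableEq I] (c : k) (X : B → Module.End k V) :
    opr (algebraMap k (Matrix I I k) c) (fun _ => 0) X = algebraMap k _ c := by
  refine LinearMap.ext fun x => funext fun i => ?_
  simp [opr, tens_zero, Matrix.algebraMap_matrix_apply]

theorem opr_one [DecidableEq I] (X : B → Module.End k V) :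
    opr (1 : Matrix I I k) (fun _ => 0) X = 1 := by
  simpa using opr_scalar (I := I) (1 : k) X

theorem opr_st (g₀ : Matrix I I k) (g : B → Matrix I I k) (X : B → Module.End k V)
    (z : I → k) (v : V) :
    opr g₀ g X (st z v) = st (g₀ *ᵥ z) v + ∑ b, st (g b *ᵥ z) (X b v) := by
  simp [opr, tens_st, LinearMap.sum_apply]

theorem ct_opr (g₀ : Matrix I I k) (g : B → Matrix I I k) (X : B → Module.End k V)
    (y : V →ₗ[k] k) (m : I → V) :
    ct y (opr g₀ g X m) = g₀ *ᵥ ct y m + ∑ b, g b *ᵥ ct (y ∘ₗ X b) m := by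
  simp only [opr, LinearMap.add_apply, LinearMap.sum_apply, ct_add, ct_sum, ct_tens,
    LinearMap.comp_id]

theorem opr_scalars (g₀ : Matrix I I k) (g : B → Matrix I I k) (c : B → k) :
    opr g₀ g (fun b => c b • (LinearMap.id : Module.End k k)) =
      Matrix.mulVecLin (g₀ + ∑ b, c b • g b) := by
  refine LinearMap.ext fun x => funext fun i => ?_
  simp only [opr, LinearMap.add_apply, LinearMap.sum_apply, Pi.add_apply, Finset.sum_apply,
    tens_apply, Matrix.mulVecLin_apply, Matrix.mulVec, dotProduct, Matrix.add_apply,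
    Matrix.sum_apply, Matrix.smul_apply, add_mul, Finset.sum_mul, Finset.sum_add_distrib,
    LinearMap.smul_apply, LinearMap.id_apply, smul_eq_mul]
  congr 1
  rw [Finset.sum_comm]
  refine Finset.sum_congr rfl fun _ _ => Finset.sum_congr rfl fun _ _ => by ring

/-- the linear extension of a family of cocycles -/
def linD {𝒜 : Type} (D : B → 𝒜 → Matrix I I k) : (B → k) →ₗ[k] 𝒜 → Matrix I I k where
  toFun c a := ∑ b, c b • D b a
  map_add' c c' := by ext1 a; simp [add_smul, Finset.sum_add_distrib]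
  map_smul' c e := by ext1 a; simp [Finset.smul_sum, smul_smul]

omit [Fintype I] in
theorem linD_apply {𝒜 : Type} (D : B → 𝒜 → Matrix I I k) (c : B → k) (a : 𝒜) :
    linD D c a = ∑ b, c b • D b a := rfl

/-- the operators of a family, collected along the coordinates -/
def famX (F : Fam k (B → k)) (b : B) : Module.End k F.V := ∑ j, F.e j b • F.X j

theorem act_linD {𝒜 : Type} (α : 𝒜 → Matrix I I k) (D : B → 𝒜 → Matrix I I k)
    (F : Fam k (B → k)) (a : 𝒜) :
    F.act α (linD D) a = opr (α a) (fun b => D b a) (famX F) := by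
  simp only [Fam.act, opr, linD_apply, tens_sum, tens_smul, famX, sum_tens]
  rw [Finset.sum_comm]

end Tens

section Sec

variable {k A C : Type} [Field k] [AddCommGroup A] [Module k A] [AddCommGroup C] [Module k C]

theorem exists_sec (π : A →ₗ[k] C) (p : Submodule k A) (q : Submodule k C)
    (h : ∀ z ∈ q, ∃ x ∈ p, π x = z) :
    ∃ σ : C →ₗ[k] A, (∀ z, σ z ∈ p) ∧ ∀ z ∈ q, π (σ z) = z := by
  obtain ⟨s, hs⟩ := LinearMap.exists_rightInverse_of_surjective
    (π ∘ₗ p.subtype).rangeRestrict (LinearMap.range_rangeRestrict _)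
  obtain ⟨t, ht⟩ := LinearMap.exists_leftInverse_of_injective
    (LinearMap.range (π ∘ₗ p.subtype)).subtype (Submodule.ker_subtype _)
  refine ⟨p.subtype ∘ₗ s ∘ₗ t, fun z => (s (t z)).2, fun z hz => ?_⟩
  obtain ⟨x, hx, rfl⟩ := h z hz
  have h1 : t (π x) = ⟨π x, ⟨⟨x, hx⟩, rfl⟩⟩ := LinearMap.congr_fun ht ⟨π x, ⟨⟨x, hx⟩, rfl⟩⟩
  have h2 := congrArg Subtype.val (LinearMap.congr_fun hs ⟨π x, ⟨⟨x, hx⟩, rfl⟩⟩)
  simp only [LinearMap.comp_apply, h1]
  exact h2

theorem exists_flag_sec (π : A →ₗ[k] C) (φ : ℕ → Submodule k A) (χ : ℕ → Submodule k C)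
    (hφ : Monotone φ) (hχ : Monotone χ) (h : ∀ i, ∀ z ∈ χ i, ∃ x ∈ φ i, π x = z) (i : ℕ) :
    ∃ σ : C →ₗ[k] A, (∀ z ∈ χ i, π (σ z) = z) ∧ ∀ j ≤ i, ∀ z ∈ χ j, σ z ∈ φ j := by
  induction i with
  | zero =>
    obtain ⟨σ, h1, h2⟩ := exists_sec π (φ 0) (χ 0) (h 0)
    refine ⟨σ, h2, fun j hj z _ => ?_⟩
    obtain rfl : j = 0 := by omega
    exact h1 z
  | succ i ih =>
    obtain ⟨σ, h1, h2⟩ := ih
    obtain ⟨σ', h1', h2'⟩ := exists_sec π (φ (i + 1)) (χ (i + 1)) (h (i + 1))
    obtain ⟨q, hq1, hq2⟩ := exists_sec LinearMap.id (χ i) (χ i) fun z hz => ⟨z, hz, rfl⟩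
    refine ⟨σ ∘ₗ q + σ' ∘ₗ (LinearMap.id - q), fun z hz => ?_, fun j hj z hz => ?_⟩
    · have : z - q z ∈ χ (i + 1) := sub_mem hz (hχ (Nat.le_succ i) (hq1 z))
      simp only [LinearMap.add_apply, LinearMap.comp_apply, LinearMap.sub_apply,
        LinearMap.id_apply, map_add, h1 _ (hq1 z), h2' _ this]
      abel
    · rcases Nat.lt_or_ge i j with hij | hij
      · obtain rfl : j = i + 1 := by omega
        exact add_mem (hφ (Nat.le_succ i) (h2 i le_rfl _ (hq1 z))) (h1' _)
      · have hz' : q z = z := hq2 z (hχ hij hz)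
        simp only [LinearMap.add_apply, LinearMap.comp_apply, LinearMap.sub_apply,
          LinearMap.id_apply, hz', sub_self, map_zero, add_zero]
        exact h2 j hij z hz

theorem exists_indep {U : Type} [AddCommGroup U] [Module k U] [FiniteDimensional k U]
    (δ : U →ₗ[k] (Fin 2 → U)) :
    ∃ (N : ℕ) (ξ : Fin N → Fin 2 → U), Module.finrank k U ≤ N ∧
      ∀ c : Fin N → k, (∃ t, δ t = ∑ b, c b • ξ b) → c = 0 := by
  obtain ⟨Q, hQ⟩ := Submodule.exists_isCompl (LinearMap.range δ)
  let β := Module.finBasis k Q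
  refine ⟨Module.finrank k Q, fun b => β b, ?_, fun c hc => ?_⟩
  · have h1 := Submodule.finrank_add_eq_of_isCompl hQ
    have h2 := LinearMap.finrank_range_le δ
    have h3 : Module.finrank k (Fin 2 → U) = 2 * Module.finrank k U := by
      rw [Module.finrank_pi_fintype]; simp [two_mul]
    omega
  · have h1 : (∑ b, c b • (β b : Fin 2 → U)) = ((∑ b, c b • β b : Q) : Fin 2 → U) := by simp
    have h2 : ((∑ b, c b • β b : Q) : Fin 2 → U) = 0 :=
      (Submodule.disjoint_def.1 hQ.disjoint) _ (h1 ▸ hc) (Subtype.property _)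
    have h3 : (∑ b, c b • β b : Q) = 0 := Subtype.ext h2
    exact funext (Fintype.linearIndependent_iff.1 β.linearIndependent c h3)

end Sec

section Miyata

variable {k 𝒜 G : Type} [Field k] [Ring 𝒜] [Algebra k 𝒜]

/-- maps to the submodule -/
def homTo (k : Type) [Field k] [Algebra k 𝒜] (ε : 𝒜) (L L' : G → 𝒜) : Submodule k 𝒜 where
  carrier := {T | ε * T = T ∧ ∀ i, T * L' i = L i * T}
  add_mem' := by
    rintro a b ⟨h1, h2⟩ ⟨h3, h4⟩
    exact ⟨by rw [mul_add, h1, h3], fun i => by rw [add_mul, mul_add, h2, h4]⟩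
  zero_mem' := ⟨by simp, by simp⟩
  smul_mem' := by
    rintro c a ⟨h1, h2⟩
    exact ⟨by rw [mul_smul_comm, h1], fun i => by rw [smul_mul_assoc, mul_smul_comm, h2]⟩

theorem miyata [FiniteDimensional k 𝒜] (ε : 𝒜) (L ξ : G → 𝒜) (Θ Θ' : 𝒜) (hΘ : Θ * Θ' = 1)
    (hL : ∀ i, Θ * (L i + ξ i) = L i * Θ) (he : ε * ε = ε) (hc : ∀ i, ε * L i = L i * ε)
    (h1 : ∀ i, ε * ξ i = ξ i) (h2 : ∀ i, ξ i * ε = 0) :
    ∃ t, ε * t = t ∧ t * ε = 0 ∧ ∀ i, ξ i = L i * t - t * L i := by
  let H := homTo k ε L fun i => L i + ξ i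
  let H0 := homTo k ε L L
  let m : 𝒜 →ₗ[k] 𝒜 := LinearMap.mulRight k ε
  have hker : H ⊓ LinearMap.ker m = H0 ⊓ LinearMap.ker m := by
    ext T
    have key : T * ε = 0 → ∀ i, T * (L i + ξ i) = T * L i := fun hT i => by
      rw [mul_add, ← h1 i, ← mul_assoc, hT, zero_mul, add_zero]
    constructor
    · rintro ⟨⟨a, b⟩, c⟩
      exact ⟨⟨a, fun i => by rw [← key c i]; exact b i⟩, c⟩
    · rintro ⟨⟨a, b⟩, c⟩
      exact ⟨⟨a, fun i => by rw [key c i]; exact b i⟩, c⟩
  have hle : H.map m ≤ H0.map m := by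
    rintro _ ⟨T, ⟨a, b⟩, rfl⟩
    refine ⟨T * ε, ⟨by rw [← mul_assoc, a], fun i => ?_⟩, ?_⟩
    · have := congrArg (· * ε) (b i)
      simp only [mul_assoc, add_mul, h2, add_zero] at this
      rw [mul_assoc, hc, this]
    · change T * ε * ε = T * ε
      rw [mul_assoc, he]
  have hdim : Module.finrank k H0 ≤ Module.finrank k H := by
    have hinj : Function.Injective (LinearMap.mulRight k Θ) := fun a b hab => by
      have : a * Θ * Θ' = b * Θ * Θ' := congrArg (· * Θ') hab
      rwa [mul_assoc, mul_assoc, hΘ, mul_one, mul_one] at this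
    rw [(Submodule.equivMapOfInjective _ hinj H0).finrank_eq]
    refine Submodule.finrank_mono ?_
    rintro _ ⟨T, ⟨a, b⟩, rfl⟩
    refine ⟨?_, fun i => ?_⟩
    · change ε * (T * Θ) = T * Θ
      rw [← mul_assoc, a]
    · change T * Θ * (L i + ξ i) = L i * (T * Θ)
      rw [mul_assoc, hL, ← mul_assoc, b, mul_assoc]
  have rk : ∀ p : Submodule k 𝒜, Module.finrank k (p.map m) +
      Module.finrank k (p ⊓ LinearMap.ker m : Submodule k 𝒜) = Module.finrank k p := fun p => by
    have := LinearMap.finrank_range_add_finrank_ker (m ∘ₗ p.subtype)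
    rw [LinearMap.range_comp, Submodule.range_subtype, LinearMap.ker_comp] at this
    rw [← this, ← Submodule.finrank_map_subtype_eq p, Submodule.map_comap_subtype]
  have heq : H.map m = H0.map m := by
    refine Submodule.eq_of_le_of_finrank_le hle ?_
    have a := rk H
    have b := rk H0
    rw [hker] at a
    omega
  have hε : ε ∈ H.map m := by
    rw [heq]
    exact ⟨ε, ⟨he, hc⟩, he⟩
  obtain ⟨T, ⟨a, b⟩, c⟩ := hε
  have c' : T * ε = ε := c
  refine ⟨T - ε, by rw [mul_sub, a, he], by rw [sub_mul, c', he, sub_self], fun i => ?_⟩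
  have d : T * ξ i = ξ i := by rw [← h1 i, ← mul_assoc, c']
  have e := b i
  rw [mul_add, d] at e
  rw [mul_sub, sub_mul, ← e, hc]
  abel

end Miyata

section UR

variable {k I : Type} [Field k] [Fintype I] [DecidableEq I] (s : I → Prop) [DecidablePred s]

/-- maps from the coordinates outside `s` to those inside -/
def UR (g : Matrix I I k) : Prop := ∀ p q, ¬ (s p ∧ ¬ s q) → g p q = 0

/-- maps respecting the two kinds of coordinates -/
def BD (g : Matrix I I k) : Prop := ∀ p q, ¬ (s p ↔ s q) → g p q = 0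

theorem proj_mul_apply (g : Matrix I I k) (p q : I) :
    (proj k s * g) p q = if s p then g p q else 0 := by
  simp [proj, Matrix.diagonal_mul]

theorem mul_proj_apply (g : Matrix I I k) (p q : I) :
    (g * proj k s) p q = if s q then g p q else 0 := by
  simp [proj, Matrix.mul_diagonal]

theorem proj_mulVec (z : I → k) (p : I) :
    (proj k s *ᵥ z) p = if s p then z p else 0 := by
  simp [proj, Matrix.mulVec_diagonal]

theorem proj_idem : proj k s * proj k s = proj k s := by
  ext p q
  rw [proj_mul_apply]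
  by_cases h : s p <;> by_cases h' : p = q <;> simp_all [proj]

variable {s}

theorem ur_iff {g : Matrix I I k} : UR s g ↔ proj k s * g = g ∧ g * proj k s = 0 := by
  constructor
  · intro h
    constructor
    · ext p q
      rw [proj_mul_apply]
      split_ifs with hp
      · rfl
      · exact (h p q fun h' => hp h'.1).symm
    · ext p q
      rw [mul_proj_apply]
      split_ifs with hq
      · exact h p q fun h' => h'.2 hq
      · rfl
  · rintro ⟨h1, h2⟩ p q h
    by_cases hp : s p
    · have hq : s q := by by_contra hq; exact h ⟨hp, hq⟩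
      have := congrFun (congrFun h2 p) q
      rwa [mul_proj_apply, if_pos hq] at this
    · have := congrFun (congrFun h1 p) q
      rw [proj_mul_apply, if_neg hp] at this
      exact this.symm

theorem bd_iff {g : Matrix I I k} : BD s g ↔ proj k s * g = g * proj k s := by
  constructor
  · intro h
    ext p q
    rw [proj_mul_apply, mul_proj_apply]
    by_cases hp : s p <;> by_cases hq : s q <;> simp only [hp, hq, if_true, if_false]
    · exact h p q (by tauto)
    · exact (h p q (by tauto)).symm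
  · intro h p q h'
    have := congrFun (congrFun h p) q
    rw [proj_mul_apply, mul_proj_apply] at this
    by_cases hp : s p <;> by_cases hq : s q <;> simp only [hp, hq, if_true, if_false] at this
    · tauto
    · exact this
    · exact this.symm
    · tauto

theorem UR.mul_ur {g h : Matrix I I k} (hg : UR s g) (hh : UR s h) : g * h = 0 := by
  rw [← (ur_iff.1 hh).1, ← mul_assoc, (ur_iff.1 hg).2, zero_mul]

theorem BD.mul_ur {g h : Matrix I I k} (hg : BD s g) (hh : UR s h) : UR s (g * h) :=
  ur_iff.2 ⟨by rw [← mul_assoc, bd_iff.1 hg, mul_assoc, (ur_iff.1 hh).1],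
    by rw [mul_assoc, (ur_iff.1 hh).2, mul_zero]⟩

theorem UR.mul_bd {g h : Matrix I I k} (hg : UR s g) (hh : BD s h) : UR s (g * h) :=
  ur_iff.2 ⟨by rw [← mul_assoc, (ur_iff.1 hg).1],
    by rw [mul_assoc, ← bd_iff.1 hh, ← mul_assoc, (ur_iff.1 hg).2, zero_mul]⟩

theorem BD.mul {g h : Matrix I I k} (hg : BD s g) (hh : BD s h) : BD s (g * h) :=
  bd_iff.2 (by rw [← mul_assoc, bd_iff.1 hg, mul_assoc, bd_iff.1 hh, mul_assoc])

omit [Fintype I] [DecidableEq I] [DecidablePred s] in
theorem UR.add {g h : Matrix I I k} (hg : UR s g) (hh : UR s h) : UR s (g + h) :=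
  fun p q H => by simp [hg p q H, hh p q H]

omit [Fintype I] [DecidableEq I] [DecidablePred s] in
theorem UR.sub {g h : Matrix I I k} (hg : UR s g) (hh : UR s h) : UR s (g - h) :=
  fun p q H => by simp [hg p q H, hh p q H]

omit [Fintype I] [DecidableEq I] [DecidablePred s] in
theorem UR.neg {g : Matrix I I k} (hg : UR s g) : UR s (-g) :=
  fun p q H => by simp [hg p q H]

omit [Fintype I] [DecidableEq I] [DecidablePred s] in
theorem UR.smul {g : Matrix I I k} (c : k) (hg : UR s g) : UR s (c • g) :=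
  fun p q H => by simp [hg p q H]

omit [Fintype I] [DecidableEq I] [DecidablePred s] in
theorem UR.sum {J : Type} [Fintype J] {g : J → Matrix I I k} (hg : ∀ j, UR s (g j)) :
    UR s (∑ j, g j) :=
  fun p q H => by simp [Matrix.sum_apply, fun j => hg j p q H]

omit [Fintype I] [DecidableEq I] [DecidablePred s] in
theorem BD.add {g h : Matrix I I k} (hg : BD s g) (hh : BD s h) : BD s (g + h) :=
  fun p q H => by simp [hg p q H, hh p q H]

omit [DecidablePred s] in
theorem bd_scalar (c : k) : BD s (algebraMap k (Matrix I I k) c) := fun p q H => by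
  rw [Matrix.algebraMap_matrix_apply, if_neg]
  rintro rfl
  exact H Iff.rfl

theorem UR.eq_proj {g : Matrix I I k} (hg : UR s g) : g = proj k s * g * (1 - proj k s) := by
  rw [(ur_iff.1 hg).1, mul_sub, (ur_iff.1 hg).2, mul_one, sub_zero]

theorem ur_proj (g : Matrix I I k) : UR s (proj k s * g * (1 - proj k s)) :=
  ur_iff.2 ⟨by rw [← mul_assoc, ← mul_assoc, proj_idem],
    by rw [mul_assoc, sub_mul, proj_idem, one_mul, sub_self, mul_zero]⟩

end UR

end Pool.Agent.P.MP_bebcd6_lc.CaseT
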