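import Pool.Agent.P.MP_bebcd6_lc.CaseT1

/-! The modules of a family of operators, and the functor `F` on them. -/

namespace Pool.Agent.P.MP_bebcd6_lc.CaseT

open Matrix

section Ev

variable {k Λ ι I B : Type} [Field k] [Ring Λ] [Algebra k Λ] [Fintype ι] [DecidableEq ι]
  [Fintype I] [DecidableEq I] [Fintype B]

/-- the matrices by which `Λ` acts on `F` of the module given by `Y` -/
noncomputable def alph (ψ : Λ →ₐ[k] Matrix ι ι (FA k)) (Y : Fin 2 → Matrix I I k) :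
    Λ →ₐ[k] Matrix (ι × I) (ι × I) k :=
  (Matrix.compAlgEquiv ι I k k).toAlgHom.comp ((FreeAlgebra.lift k Y).mapMatrix.comp ψ)

theorem alph_apply (ψ : Λ →ₐ[k] Matrix ι ι (FA k)) (Y : Fin 2 → Matrix I I k) (a : Λ)
    (p q : ι × I) : alph ψ Y a p q = FreeAlgebra.lift k Y (ψ a p.1 q.1) p.2 q.2 := rfl

/-- the derivation of the free algebra with values `ζ` on the generators -/
noncomputable def Dr (L ζ : Fin 2 → Matrix I I k) (r : FA k) : Matrix I I k :=
  FreeAlgebra.lift k (fun i => L i + ζ i) r - FreeAlgebra.lift k L r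

/-- the derivation of `Λ` -/
noncomputable def D1 (ψ : Λ →ₐ[k] Matrix ι ι (FA k)) (L ζ : Fin 2 → Matrix I I k) (a : Λ) :
    Matrix (ι × I) (ι × I) k :=
  alph ψ (fun i => L i + ζ i) a - alph ψ L a

theorem D1_apply (ψ : Λ →ₐ[k] Matrix ι ι (FA k)) (L ζ : Fin 2 → Matrix I I k) (a : Λ)
    (p q : ι × I) : D1 ψ L ζ a p q = Dr L ζ (ψ a p.1 q.1) p.2 q.2 := rfl

theorem der_mul {A M : Type} [Mul A] [Ring M] (u w : A → M) (a b : A)
    (hu : u (a * b) = u a * u b) (hw : w (a * b) = w a * w b)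
    (h : (u a - w a) * (u b - w b) = 0) :
    u (a * b) - w (a * b) = w a * (u b - w b) + (u a - w a) * w b := by
  rw [hu, hw, ← add_zero (_ + _), ← h]
  noncomm_ring

theorem proj_comm {M : Type} [Ring M] (ε a u : M) (hc : ε * a = a * ε) :
    ε * (a * u - u * a) * (1 - ε) = a * (ε * u * (1 - ε)) - ε * u * (1 - ε) * a := by
  have hc' : a * (1 - ε) = (1 - ε) * a := by rw [mul_sub, sub_mul, hc, mul_one, one_mul]
  rw [mul_sub ε, sub_mul, ← mul_assoc, hc, mul_assoc ε (u * a), mul_assoc u, hc']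
  simp only [mul_assoc]

variable {s : I → Prop} [DecidablePred s] {L : Fin 2 → Matrix I I k}

theorem bd_lift (hL : ∀ i, BD s (L i)) (r : FA k) : BD s (FreeAlgebra.lift k L r) := by
  induction r using FreeAlgebra.induction with
  | grade0 c => rw [AlgHom.commutes]; exact bd_scalar c
  | grade1 j => rw [FreeAlgebra.lift_ι_apply]; exact hL j
  | mul a b ha hb => rw [map_mul]; exact ha.mul hb
  | add a b ha hb => rw [map_add]; exact ha.add hb

theorem Dr_mul' {ζ : Fin 2 → Matrix I I k} (a b : FA k) (ha : UR s (Dr L ζ a))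
    (hb : UR s (Dr L ζ b)) :
    Dr L ζ (a * b) = FreeAlgebra.lift k L a * Dr L ζ b + Dr L ζ a * FreeAlgebra.lift k L b :=
  der_mul _ _ a b (map_mul _ a b) (map_mul _ a b) (ha.mul_ur hb)

theorem Dr_add (ζ : Fin 2 → Matrix I I k) (a b : FA k) :
    Dr L ζ (a + b) = Dr L ζ a + Dr L ζ b := by
  simp only [Dr, map_add]; abel

theorem ur_Dr (hL : ∀ i, BD s (L i)) {ζ : Fin 2 → Matrix I I k} (hζ : ∀ i, UR s (ζ i))
    (r : FA k) : UR s (Dr L ζ r) := by
  induction r using FreeAlgebra.induction with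
  | grade0 c => intro p q _; simp [Dr]
  | grade1 j => simpa [Dr] using hζ j
  | mul a b ha hb =>
    rw [Dr_mul' a b ha hb]
    exact ((bd_lift hL a).mul_ur hb).add (ha.mul_bd (bd_lift hL b))
  | add a b ha hb => rw [Dr_add]; exact ha.add hb

theorem bd_alph (ψ : Λ →ₐ[k] Matrix ι ι (FA k)) (hL : ∀ i, BD s (L i)) (a : Λ) :
    BD (fun p : ι × I => s p.2) (alph ψ L a) :=
  fun p q H => bd_lift hL (ψ a p.1 q.1) p.2 q.2 H

theorem ur_D1 (ψ : Λ →ₐ[k] Matrix ι ι (FA k)) (hL : ∀ i, BD s (L i))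
    {ζ : Fin 2 → Matrix I I k} (hζ : ∀ i, UR s (ζ i)) (a : Λ) :
    UR (fun p : ι × I => s p.2) (D1 ψ L ζ a) :=
  fun p q H => ur_Dr hL hζ (ψ a p.1 q.1) p.2 q.2 H

theorem D1_mul (ψ : Λ →ₐ[k] Matrix ι ι (FA k)) (hL : ∀ i, BD s (L i))
    {ζ : Fin 2 → Matrix I I k} (hζ : ∀ i, UR s (ζ i)) (a b : Λ) :
    D1 ψ L ζ (a * b) = alph ψ L a * D1 ψ L ζ b + D1 ψ L ζ a * alph ψ L b :=
  der_mul _ _ a b (map_mul _ a b) (map_mul _ a b) ((ur_D1 ψ hL hζ a).mul_ur (ur_D1 ψ hL hζ b))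

/-- the derivation changed by the coboundary of `t` -/
noncomputable def D2 (ψ : Λ →ₐ[k] Matrix ι ι (FA k)) (L ζ : Fin 2 → Matrix I I k)
    (t : Matrix (ι × I) (ι × I) k) (a : Λ) : Matrix (ι × I) (ι × I) k :=
  D1 ψ L ζ a + (alph ψ L a * t - t * alph ψ L a)

theorem ur_D2 (ψ : Λ →ₐ[k] Matrix ι ι (FA k)) (hL : ∀ i, BD s (L i))
    {ζ : Fin 2 → Matrix I I k} (hζ : ∀ i, UR s (ζ i)) {t : Matrix (ι × I) (ι × I) k}
    (ht : UR (fun p : ι × I => s p.2) t) (a : Λ) :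
    UR (fun p : ι × I => s p.2) (D2 ψ L ζ t a) :=
  (ur_D1 ψ hL hζ a).add (((bd_alph ψ hL a).mul_ur ht).sub (ht.mul_bd (bd_alph ψ hL a)))

theorem D2_mul (ψ : Λ →ₐ[k] Matrix ι ι (FA k)) (hL : ∀ i, BD s (L i))
    {ζ : Fin 2 → Matrix I I k} (hζ : ∀ i, UR s (ζ i)) (t : Matrix (ι × I) (ι × I) k) (a b : Λ) :
    D2 ψ L ζ t (a * b) = alph ψ L a * D2 ψ L ζ t b + D2 ψ L ζ t a * alph ψ L b := by
  simp only [D2, D1_mul ψ hL hζ, map_mul]
  noncomm_ring

theorem D2_add (ψ : Λ →ₐ[k] Matrix ι ι (FA k)) (ζ : Fin 2 → Matrix I I k)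
    (t : Matrix (ι × I) (ι × I) k) (a b : Λ) :
    D2 ψ L ζ t (a + b) = D2 ψ L ζ t a + D2 ψ L ζ t b := by
  simp only [D2, D1, map_add]
  noncomm_ring

theorem D2_smul (ψ : Λ →ₐ[k] Matrix ι ι (FA k)) (ζ : Fin 2 → Matrix I I k)
    (t : Matrix (ι × I) (ι × I) k) (c : k) (a : Λ) :
    D2 ψ L ζ t (c • a) = c • D2 ψ L ζ t a := by
  simp only [D2, D1, map_smul, smul_add, smul_sub, smul_mul_assoc, mul_smul_comm]

variable {V V' : Type} [AddCommGroup V] [Module k V] [AddCommGroup V'] [Module k V']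

/-- the module over the free algebra of a family of operators -/
abbrev ModX (L : Fin 2 → Matrix I I k) (ξ : B → Fin 2 → Matrix I I k) (X : B → Module.End k V) :
    Type :=
  RMod fun i => opr (L i) (fun b => ξ b i) X

variable {ξ : B → Fin 2 → Matrix I I k}

theorem lift_opr (hL : ∀ i, BD s (L i)) (hξ : ∀ b i, UR s (ξ b i)) (X : B → Module.End k V)
    (r : FA k) :
    FreeAlgebra.lift k (fun i => opr (L i) (fun b => ξ b i) X) r =
      opr (FreeAlgebra.lift k L r) (fun b => Dr L (ξ b) r) X := by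
  induction r using FreeAlgebra.induction with
  | grade0 c => simp only [Dr, AlgHom.commutes, sub_self, opr_scalar]
  | grade1 j => simp [Dr]
  | mul a b ha hb =>
    rw [map_mul, ha, hb, opr_mul _ _ _ _ _ fun c c' =>
      (ur_Dr hL (hξ c) a).mul_ur (ur_Dr hL (hξ c') b), map_mul]
    congr 1
    funext c
    rw [Dr_mul' a b (ur_Dr hL (hξ c) a) (ur_Dr hL (hξ c) b)]
  | add a b ha hb =>
    rw [map_add, ha, hb, opr_add, map_add]
    congr 1
    funext c
    rw [Dr_add]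

/-- currying -/
def cur (ψ : Λ →ₐ[k] Matrix ι ι (FA k)) (L : Fin 2 → Matrix I I k)
    (ξ : B → Fin 2 → Matrix I I k) (X : B → Module.End k V) :
    (ι × I → V) ≃ₗ[k] FM ψ (ModX L ξ X) where
  toFun m i p := m (i, p)
  invFun x p := x p.1 p.2
  map_add' _ _ := rfl
  map_smul' _ _ := rfl
  left_inv _ := rfl
  right_inv _ := rfl

theorem smul_cur (ψ : Λ →ₐ[k] Matrix ι ι (FA k)) (hL : ∀ i, BD s (L i))
    (hξ : ∀ b i, UR s (ξ b i)) (X : B → Module.End k V) (a : Λ) (m : ι × I → V) :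
    a • cur ψ L ξ X m = cur ψ L ξ X (opr (alph ψ L a) (fun b => D1 ψ L (ξ b) a) X m) := by
  funext i
  have h : ∀ j, (ψ a i j • cur ψ L ξ X m j : ModX L ξ X) =
      opr (FreeAlgebra.lift k L (ψ a i j)) (fun b => Dr L (ξ b) (ψ a i j)) X
        (fun p => m (j, p)) := fun j => by
    rw [← lift_opr hL hξ]; rfl
  rw [FM.smul_apply]
  simp only [h]
  funext p
  change (∑ j, opr (FreeAlgebra.lift k L (ψ a i j)) (fun b => Dr L (ξ b) (ψ a i j)) X
        (fun p => m (j, p))) p = opr (alph ψ L a) (fun b => D1 ψ L (ξ b) a) X m (i, p)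
  simp only [opr, Finset.sum_apply, LinearMap.add_apply, LinearMap.sum_apply, Pi.add_apply,
    tens_apply, alph_apply, D1_apply, Fintype.sum_prod_type, Finset.sum_add_distrib]
  congr 1
  rw [Finset.sum_comm]

/-- an intertwiner as a `Λ`-linear map -/
def toLam (ψ : Λ →ₐ[k] Matrix ι ι (FA k)) (hL : ∀ i, BD s (L i))
    (hξ : ∀ b i, UR s (ξ b i)) {X : B → Module.End k V} {X' : B → Module.End k V'}
    (f : (ι × I → V) →ₗ[k] (ι × I → V'))
    (hf : ∀ a m, f (opr (alph ψ L a) (fun b => D1 ψ L (ξ b) a) X m) =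
      opr (alph ψ L a) (fun b => D1 ψ L (ξ b) a) X' (f m)) :
    FM ψ (ModX L ξ X) →ₗ[Λ] FM ψ (ModX L ξ X') where
  toFun x := cur ψ L ξ X' (f ((cur ψ L ξ X).symm x))
  map_add' x y := by simp only [map_add]
  map_smul' a x := by
    obtain ⟨m, rfl⟩ := (cur ψ L ξ X).surjective x
    rw [smul_cur ψ hL hξ, RingHom.id_apply, smul_cur ψ hL hξ, LinearEquiv.symm_apply_apply,
      LinearEquiv.symm_apply_apply, hf]

theorem toLam_cur (ψ : Λ →ₐ[k] Matrix ι ι (FA k)) (hL : ∀ i, BD s (L i))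
    (hξ : ∀ b i, UR s (ξ b i)) {X : B → Module.End k V} {X' : B → Module.End k V'}
    (f : (ι × I → V) →ₗ[k] (ι × I → V')) (hf) (m : ι × I → V) :
    toLam ψ hL hξ (X := X) (X' := X') f hf (cur ψ L ξ X m) = cur ψ L ξ X' (f m) := rfl

omit [DecidableEq ι] in
theorem opr_inv {J : Type} [Fintype J] [DecidableEq J] {σ : J → Prop} [DecidablePred σ]
    {t t' : B → Matrix J J k} (ht : ∀ b, UR σ (t b)) (h : ∀ b, t' b = - t b)
    (X : B → Module.End k V) : opr 1 t X * opr 1 t' X = 1 := by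
  rw [opr_mul _ _ _ _ _ fun b b' => (ht b).mul_ur (h b' ▸ (ht b').neg)]
  simp only [h, mul_one, one_mul, neg_add_cancel, opr_one]

theorem exists_lam (ψ : Λ →ₐ[k] Matrix ι ι (FA k)) (hL : ∀ i, BD s (L i))
    (hξ : ∀ b i, UR s (ξ b i)) {t : B → Matrix (ι × I) (ι × I) k}
    (ht : ∀ b, UR (fun p : ι × I => s p.2) (t b))
    {X : B → Module.End k V} {X' : B → Module.End k V'}
    (f : (ι × I → V) →ₗ[k] (ι × I → V'))
    (hf : ∀ a, f ∘ₗ opr (alph ψ L a) (fun b => D2 ψ L (ξ b) (t b) a) X =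
      opr (alph ψ L a) (fun b => D2 ψ L (ξ b) (t b) a) X' ∘ₗ f) :
    ∃ h : FM ψ (ModX L ξ X) →ₗ[Λ] FM ψ (ModX L ξ X'), ∀ m,
      h (cur ψ L ξ X (opr 1 t X m)) = cur ψ L ξ X' (opr 1 t X' (f m)) := by
  have conj : ∀ {W : Type} [AddCommGroup W] [Module k W] (Y : B → Module.End k W) (a : Λ),
      opr (alph ψ L a) (fun b => D1 ψ L (ξ b) a) Y * opr 1 t Y =
        opr 1 t Y * opr (alph ψ L a) (fun b => D2 ψ L (ξ b) (t b) a) Y := fun Y a => by
    rw [opr_mul _ _ _ _ _ fun b b' => (ur_D1 ψ hL (hξ b) a).mul_ur (ht b'),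
      opr_mul _ _ _ _ _ fun b b' => (ht b).mul_ur (ur_D2 ψ hL (hξ b') (ht b') a)]
    simp only [mul_one, one_mul, D2]
    congr 1
    funext b
    abel
  have inv1 : opr 1 t X * opr 1 (fun b => - t b) X = 1 := opr_inv ht (fun _ => rfl) X
  have inv2 : opr 1 (fun b => - t b) X * opr 1 t X = 1 :=
    opr_inv (fun b => (ht b).neg) (fun _ => (neg_neg _).symm) X
  have e2 : ∀ m, opr 1 (fun b => - t b) X (opr 1 t X m) = m := fun m =>
    LinearMap.congr_fun inv2 m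
  refine ⟨toLam ψ hL hξ (opr 1 t X' ∘ₗ f ∘ₗ opr 1 (fun b => - t b) X) fun a m => ?_, fun m => ?_⟩
  · obtain ⟨m, rfl⟩ : ∃ m', opr 1 t X m' = m := ⟨_, LinearMap.congr_fun inv1 m⟩
    have c1 := LinearMap.congr_fun (conj X a) m
    have c2 := LinearMap.congr_fun (conj X' a) (f m)
    have c3 := LinearMap.congr_fun (hf a) m
    simp only [Module.End.mul_apply, LinearMap.comp_apply] at c1 c2 c3 ⊢
    rw [c1, e2, e2, c2, c3]
  · rw [toLam_cur]
    simp only [LinearMap.comp_apply, e2]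

theorem cob_of_cob (ψ : Λ →ₐ[k] Matrix ι ι (FA k)) (h1 : H1 ψ) (hL : ∀ i, BD s (L i))
    (hξ : ∀ b i, UR s (ξ b i)) (t : B → Matrix (ι × I) (ι × I) k) (c : B → k)
    (u : Matrix (ι × I) (ι × I) k)
    (hu : ∀ a, ∑ b, c b • D2 ψ L (ξ b) (t b) a = alph ψ L a * u - u * alph ψ L a) :
    ∃ w, UR s w ∧ ∀ i, ∑ b, c b • ξ b i = L i * w - w * L i := by
  let ε := proj k fun p : ι × I => s p.2
  let u' := u - ∑ b, c b • t b
  let u'' := ε * u' * (1 - ε)
  have hu'' : UR (fun p : ι × I => s p.2) u'' := ur_proj u'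
  have hD : ∀ a, UR (fun p : ι × I => s p.2) (∑ b, c b • D1 ψ L (ξ b) a) := fun a =>
    UR.sum fun b => (ur_D1 ψ hL (hξ b) a).smul _
  have h2 : ∀ a, ∑ b, c b • D1 ψ L (ξ b) a = alph ψ L a * u' - u' * alph ψ L a := fun a => by
    have := hu a
    simp only [D2, smul_add, smul_sub, Finset.sum_add_distrib, Finset.sum_sub_distrib] at this
    simp only [u', mul_sub, sub_mul, Finset.mul_sum, Finset.sum_mul, mul_smul_comm, smul_mul_assoc]
    rw [eq_sub_of_add_eq this]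
    abel
  have h3 : ∀ a, ∑ b, c b • D1 ψ L (ξ b) a = alph ψ L a * u'' - u'' * alph ψ L a := fun a => by
    have hc : ε * alph ψ L a = alph ψ L a * ε := bd_iff.1 (bd_alph ψ hL a)
    rw [(hD a).eq_proj, h2]
    exact proj_comm ε _ u' hc
  let Xc : B → Module.End k k := fun b => c b • LinearMap.id
  let X0 : B → Module.End k k := fun b => (0 : B → k) b • LinearMap.id
  have o1 : ∀ {J : Type} [Fintype J] (g₀ : Matrix J J k) (g : B → Matrix J J k),
      opr g₀ g Xc = Matrix.mulVecLin (g₀ + ∑ b, c b • g b) := fun g₀ g => opr_scalars g₀ g c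
  have o2 : ∀ {J : Type} [Fintype J] (g₀ : Matrix J J k) (g : B → Matrix J J k),
      opr g₀ g X0 = Matrix.mulVecLin g₀ := fun g₀ g => by
    rw [opr_scalars g₀ g 0]; simp
  have a1 : ∀ a, (1 + u'') * (alph ψ L a + ∑ b, c b • D1 ψ L (ξ b) a) = alph ψ L a * (1 + u'') :=
    fun a => by
      rw [mul_add, add_mul 1 u'' (∑ b, _), hu''.mul_ur (hD a), h3]
      noncomm_ring
  have a2 : ∀ a, (1 - u'') * alph ψ L a = (alph ψ L a + ∑ b, c b • D1 ψ L (ξ b) a) * (1 - u'') :=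
    fun a => by
      rw [add_mul, mul_sub (∑ b, _), (hD a).mul_ur hu'', h3]
      noncomm_ring
  have a3 : (1 + u'') * (1 - u'') = 1 := by
    rw [mul_sub, add_mul 1 u'' u'', hu''.mul_ur hu'']; simp
  have a4 : (1 - u'') * (1 + u'') = 1 := by
    rw [mul_add, sub_mul 1 u'' u'', hu''.mul_ur hu'']; simp
  let f : FM ψ (ModX L ξ Xc) →ₗ[Λ] FM ψ (ModX L ξ X0) :=
    toLam ψ hL hξ (Matrix.mulVecLin (1 + u'')) fun a m => by
      simp only [o1, o2, Matrix.mulVecLin_apply, Matrix.mulVec_mulVec, a1]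
  let f' : FM ψ (ModX L ξ X0) →ₗ[Λ] FM ψ (ModX L ξ Xc) :=
    toLam ψ hL hξ (Matrix.mulVecLin (1 - u'')) fun a m => by
      simp only [o1, o2, Matrix.mulVecLin_apply, Matrix.mulVec_mulVec, a2]
  have b1 : f ∘ₗ f' = LinearMap.id := LinearMap.ext fun x => by
    obtain ⟨m, rfl⟩ := (cur ψ L ξ X0).surjective x
    simp only [f, f', LinearMap.comp_apply, toLam_cur, Matrix.mulVecLin_apply,
      Matrix.mulVec_mulVec, a3, Matrix.one_mulVec, LinearMap.id_apply]
  have b2 : f' ∘ₗ f = LinearMap.id := LinearMap.ext fun x => by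
    obtain ⟨m, rfl⟩ := (cur ψ L ξ Xc).surjective x
    simp only [f, f', LinearMap.comp_apply, toLam_cur, Matrix.mulVecLin_apply,
      Matrix.mulVec_mulVec, a4, Matrix.one_mulVec, LinearMap.id_apply]
  obtain ⟨e⟩ := h1 ⟨ModX L ξ Xc⟩ ⟨ModX L ξ X0⟩ ⟨LinearEquiv.ofLinearMap f f' b1 b2⟩
  let θ : (I → k) →ₗ[k] (I → k) := (e.restrictScalars k).toLinearMap
  let θ' : (I → k) →ₗ[k] (I → k) := (e.symm.restrictScalars k).toLinearMap
  have t1 : θ ∘ₗ θ' = LinearMap.id := LinearMap.ext fun x => e.apply_symm_apply x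
  have t2 : ∀ i, θ ∘ₗ Matrix.mulVecLin (L i + ∑ b, c b • ξ b i) = Matrix.mulVecLin (L i) ∘ₗ θ :=
    fun i => LinearMap.ext fun x => by
      rw [← o1, ← o2 (L i) fun b => ξ b i]
      exact (congrArg e (RMod.ι_smul _ i x)).symm.trans
        ((e.map_smul (FreeAlgebra.ι k i) x).trans (RMod.ι_smul _ i (e x)))
  obtain ⟨w, w1, w2, w3⟩ := miyata (k := k) (proj k s) L (fun i => ∑ b, c b • ξ b i)
    (LinearMap.toMatrix' θ) (LinearMap.toMatrix' θ')
    (by rw [← LinearMap.toMatrix'_comp, t1, LinearMap.toMatrix'_id])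
    (fun i => by
      have := congrArg LinearMap.toMatrix' (t2 i)
      rwa [LinearMap.toMatrix'_comp, LinearMap.toMatrix'_comp, ← Matrix.toLin'_apply',
        ← Matrix.toLin'_apply', LinearMap.toMatrix'_toLin', LinearMap.toMatrix'_toLin'] at this)
    (proj_idem s) (fun i => bd_iff.1 (hL i))
    (fun i => (ur_iff.1 (UR.sum fun b => (hξ b i).smul _)).1)
    (fun i => (ur_iff.1 (UR.sum fun b => (hξ b i).smul _)).2)
  exact ⟨w, ur_iff.2 ⟨w1, w2⟩, w3⟩

end Ev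

section Ext

variable {k : Type} [Field k] (U W : FMod k (FA k)) (ζ : Fin 2 → W.C →ₗ[k] U.C)

/-- the operators of the extension with cocycle `ζ` -/
def extOp (i : Fin 2) : Module.End k (U.C × W.C) where
  toFun x := (FreeAlgebra.ι k i • x.1 + ζ i x.2, FreeAlgebra.ι k i • x.2)
  map_add' x y := by
    simp only [Prod.fst_add, Prod.snd_add, smul_add, map_add, Prod.mk_add_mk]
    congr 1
    abel
  map_smul' c x := by
    simp only [Prod.smul_fst, Prod.smul_snd, map_smul, RingHom.id_apply, Prod.smul_mk, smul_add,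
      smul_comm c]

/-- the extension with cocycle `ζ` -/
abbrev extMod : FMod k (FA k) := ⟨RMod (extOp U W ζ)⟩

theorem ext_smul (i : Fin 2) (x : (extMod U W ζ).C) :
    FreeAlgebra.ι k i • x =
      ((FreeAlgebra.ι k i • x.1 + ζ i x.2, FreeAlgebra.ι k i • x.2) : U.C × W.C) :=
  RMod.ι_smul (extOp U W ζ) i x

/-- the underlying space of the extension -/
def extMk : (U.C × W.C) ≃ₗ[k] (extMod U W ζ).C := LinearEquiv.refl k _

variable {M : Type} [AddCommGroup M] [Module k M] [Module (FA k) M] [IsScalarTower k (FA k) M]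

/-- maps to the extension -/
def toExt (f : M →ₗ[k] U.C) (g : M →ₗ[k] W.C)
    (hf : ∀ i x, f (FreeAlgebra.ι k i • x) = FreeAlgebra.ι k i • f x + ζ i (g x))
    (hg : ∀ (i : Fin 2) x, g (FreeAlgebra.ι k i • x) = FreeAlgebra.ι k i • g x) :
    M →ₗ[FA k] (extMod U W ζ).C :=
  freeLin (G := Fin 2) ((extMk U W ζ).toLinearMap ∘ₗ f.prod g) fun j x =>
    (Prod.ext (hf j x) (hg j x)).trans (ext_smul U W ζ j (f x, g x)).symm

theorem toExt_apply (f : M →ₗ[k] U.C) (g : M →ₗ[k] W.C) (hf hg) (x : M) :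
    toExt U W ζ f g hf hg x = ((f x, g x) : U.C × W.C) := rfl

/-- maps from the extension -/
def ofExt (f : U.C →ₗ[k] M) (g : W.C →ₗ[k] M)
    (hf : ∀ (i : Fin 2) u, f (FreeAlgebra.ι k i • u) = FreeAlgebra.ι k i • f u)
    (hg : ∀ i w, f (ζ i w) + g (FreeAlgebra.ι k i • w) = FreeAlgebra.ι k i • g w) :
    (extMod U W ζ).C →ₗ[FA k] M :=
  freeLin (G := Fin 2) (f.coprod g ∘ₗ (extMk U W ζ).symm.toLinearMap) fun j x => by
    rw [ext_smul]
    change f (_ + _) + g _ = _ • (f x.1 + g x.2)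
    rw [map_add, smul_add, hf, ← hg, add_assoc]
    rfl

theorem ofExt_apply (f : U.C →ₗ[k] M) (g : W.C →ₗ[k] M) (hf hg) (x : (extMod U W ζ).C) :
    ofExt U W ζ f g hf hg x = f x.1 + g x.2 := rfl

/-- the short exact sequence of the extension -/
def extSES : SES U (extMod U W ζ) W where
  i := toExt U W ζ LinearMap.id 0 (fun i x => by simp) (fun i x => by simp)
  p := ofExt U W ζ 0 LinearMap.id (fun i x => by simp) (fun i x => by simp)
  inj := fun x y h => congrArg Prod.fst h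
  surj := fun w => ⟨((0, w) : U.C × W.C), zero_add w⟩
  exact := by
    ext x
    constructor
    · rintro ⟨y, rfl⟩
      exact zero_add (0 : W.C)
    · intro hx
      exact ⟨x.1, Prod.ext rfl (Eq.symm ((zero_add x.2).symm.trans hx))⟩

theorem extSES_i (u : U.C) : (extSES U W ζ).i u = ((u, 0) : U.C × W.C) := rfl

theorem extSES_p (x : (extMod U W ζ).C) : (extSES U W ζ).p x = x.2 := zero_add x.2

end Ext

end Pool.Agent.P.MP_bebcd6_lc.CaseT
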