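import Pool.Agent.P.MP_bebcd6_lc.CaseT2

/-! Blocks, and the test modules. -/

namespace Pool.Agent.P.MP_bebcd6_lc.CaseT

open Matrix

section Blocks

variable {k Q : Type} [Field k] [Fintype Q] [DecidableEq Q] {n : ℕ}

/-- a vector placed in one block -/
def emb0 (y : Q) : (Fin n → k) →ₗ[k] (Q × Fin n → k) where
  toFun w p := if p.1 = y then w p.2 else 0
  map_add' w w' := by funext p; by_cases h : p.1 = y <;> simp [h]
  map_smul' c w := by funext p; by_cases h : p.1 = y <;> simp [h]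

/-- one block of a vector -/
def blk0 (x : Q) : (Q × Fin n → k) →ₗ[k] (Fin n → k) where
  toFun z a := z (x, a)
  map_add' _ _ := rfl
  map_smul' _ _ := rfl

omit [Fintype Q] in
theorem emb0_apply (y : Q) (w : Fin n → k) (p : Q × Fin n) :
    emb0 y w p = if p.1 = y then w p.2 else 0 := rfl

omit [Fintype Q] [DecidableEq Q] in
theorem blk0_apply (x : Q) (z : Q × Fin n → k) (a : Fin n) : blk0 x z a = z (x, a) := rfl

/-- the block diagonal matrices -/
def Lm (L : Q → Fin 2 → Matrix (Fin n) (Fin n) k) (i : Fin 2) :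
    Matrix (Q × Fin n) (Q × Fin n) k :=
  Matrix.of fun p q => if p.1 = q.1 then L p.1 i p.2 q.2 else 0

variable (L : Q → Fin 2 → Matrix (Fin n) (Fin n) k) (sn : Q → Prop) [DecidablePred sn]

omit [Fintype Q] [DecidablePred sn] in
theorem bd_Lm (i : Fin 2) : BD (fun p : Q × Fin n => sn p.1) (Lm L i) := fun p q h => by
  rw [Lm, Matrix.of_apply, if_neg]
  intro h'
  exact h (by simp only [h'])

theorem blk0_Lm (x : Q) (i : Fin 2) (z : Q × Fin n → k) :
    blk0 x (Lm L i *ᵥ z) = L x i *ᵥ blk0 x z := by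
  funext a
  simp [blk0_apply, Lm, Matrix.mulVec, dotProduct, Fintype.sum_prod_type]

theorem Lm_emb0 (y : Q) (i : Fin 2) (w : Fin n → k) :
    Lm L i *ᵥ emb0 y w = emb0 y (L y i *ᵥ w) := by
  funext p
  obtain ⟨x, a⟩ := p
  have := congrFun (blk0_Lm L x i (emb0 y w)) a
  rw [blk0_apply] at this
  rw [this, emb0_apply]
  by_cases h : x = y
  · subst h
    simp [Matrix.mulVec, dotProduct, blk0_apply, emb0_apply]
  · simp [Matrix.mulVec, dotProduct, blk0_apply, emb0_apply, h]

/-- from a source `y` to a sink `x` -/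
abbrev Ar (x y : Q) : Prop := sn x ∧ ¬ sn y

/-- one block of a matrix -/
def xb (g : Matrix (Q × Fin n) (Q × Fin n) k) (x y : Q) : (Fin n → k) →ₗ[k] (Fin n → k) :=
  blk0 x ∘ₗ Matrix.mulVecLin g ∘ₗ emb0 y

theorem xb_apply (g : Matrix (Q × Fin n) (Q × Fin n) k) (x y : Q) (w : Fin n → k) :
    xb g x y w = blk0 x (g *ᵥ emb0 y w) := rfl

variable {sn} {g : Matrix (Q × Fin n) (Q × Fin n) k}

omit [DecidablePred sn] in
theorem xb_zero (hg : UR (fun p : Q × Fin n => sn p.1) g) {x y : Q} (h : ¬ Ar sn x y)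
    (w : Fin n → k) : xb g x y w = 0 := by
  funext a
  rw [xb_apply, blk0_apply, Matrix.mulVec, dotProduct]
  refine Finset.sum_eq_zero fun q _ => ?_
  rw [emb0_apply]
  split_ifs with hq
  · rw [hg (x, a) q (by subst hq; exact h), zero_mul]
  · rw [mul_zero]

theorem sum_emb0 {p : Q → Prop} [DecidablePred p] (u : {x // p x} → Fin n → k)
    (x : Q) (a : Fin n) :
    (∑ j : {x // p x}, emb0 j.1 (u j)) (x, a) = if h : p x then u ⟨x, h⟩ a else 0 := by
  rw [Finset.sum_apply]
  split_ifs with h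
  · rw [Finset.sum_eq_single ⟨x, h⟩, emb0_apply, if_pos rfl]
    · intro j _ hj
      rw [emb0_apply, if_neg]
      intro hx
      exact hj (Subtype.ext (Eq.symm hx))
    · simp
  · refine Finset.sum_eq_zero fun j _ => ?_
    rw [emb0_apply, if_neg]
    intro hx
    have hx' : x = j.1 := hx
    exact h (hx' ▸ j.2)

theorem dec1 (hg : UR (fun p : Q × Fin n => sn p.1) g) (y : Q) (w : Fin n → k) :
    g *ᵥ emb0 y w = ∑ x : {x // Ar sn x y}, emb0 x.1 (xb g x.1 y w) := by
  funext p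
  obtain ⟨x, a⟩ := p
  rw [sum_emb0 (p := fun x => Ar sn x y) fun x => xb g x.1 y w]
  split_ifs with h
  · rfl
  · exact congrFun (xb_zero hg h w) a

theorem sum_emb0_blk0 (z : Q × Fin n → k) : ∑ y, emb0 y (blk0 y z) = z := by
  funext p
  simp [Finset.sum_apply, emb0_apply, blk0_apply]

theorem dec2 (hg : UR (fun p : Q × Fin n => sn p.1) g) (x : Q) (z : Q × Fin n → k) :
    blk0 x (g *ᵥ z) = ∑ y : {y // Ar sn x y}, xb g x y.1 (blk0 y.1 z) := by
  have h1 : blk0 x (g *ᵥ z) = ∑ y, xb g x y (blk0 y z) := by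
    conv_lhs => rw [← sum_emb0_blk0 z]
    rw [Matrix.mulVec_sum, map_sum]
    rfl
  rw [h1, ← Finset.sum_subtype (Finset.univ.filter fun y => Ar sn x y) (by simp)
    fun y => xb g x y (blk0 y z), Finset.sum_filter]
  refine Finset.sum_congr rfl fun y _ => ?_
  split_ifs with h
  · rfl
  · exact xb_zero hg h _

theorem ur_emb0 (hg : UR (fun p : Q × Fin n => sn p.1) g) {x : Q} (hx : sn x) (w : Fin n → k) :
    g *ᵥ emb0 x w = 0 := by
  rw [dec1 hg]
  exact Finset.sum_eq_zero fun j _ => (j.2.2 hx).elim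

theorem blk0_ur (hg : UR (fun p : Q × Fin n => sn p.1) g) {y : Q} (hy : ¬ sn y)
    (z : Q × Fin n → k) : blk0 y (g *ᵥ z) = 0 := by
  rw [dec2 hg]
  exact Finset.sum_eq_zero fun j _ => (hy j.2.1).elim

end Blocks

section Test

variable {k Q B : Type} [Field k] [Fintype Q] [DecidableEq Q] [Fintype B] [DecidableEq B] {n : ℕ}

/-- the underlying space of a matrix module -/
def matMk (Y : Fin 2 → Matrix (Fin n) (Fin n) k) : (Fin n → k) ≃ₗ[k] (matMod Y).C :=
  LinearEquiv.refl k _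

theorem mat_smul (Y : Fin 2 → Matrix (Fin n) (Fin n) k) (i : Fin 2) (w : (matMod Y).C) :
    FreeAlgebra.ι k i • w = matMk Y (Y i *ᵥ (matMk Y).symm w) :=
  RMod.ι_smul _ i w

variable (L : Q → Fin 2 → Matrix (Fin n) (Fin n) k) (sn : Q → Prop) [DecidablePred sn]
  (ξ : B → Fin 2 → Matrix (Q × Fin n) (Q × Fin n) k)

/-- submodule of the test module for inputs -/
abbrev UU (y : Q) : FMod k (FA k) := FMod.pi fun j : B × {x // Ar sn x y} => matMod (L j.2.1)

/-- cocycle of the test module for inputs -/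
def zP (y : Q) (i : Fin 2) : (matMod (L y)).C →ₗ[k] (UU (B := B) L sn y).C :=
  LinearMap.pi fun j => (matMk (L j.2.1)).toLinearMap ∘ₗ xb (ξ j.1 i) j.2.1 y ∘ₗ
    (matMk (L y)).symm.toLinearMap

/-- the test module for inputs -/
abbrev PM (y : Q) : FMod k (FA k) := extMod (UU (B := B) L sn y) (matMod (L y)) (zP L sn ξ y)

/-- quotient of the test module for outputs -/
abbrev WW (x : Q) : FMod k (FA k) := FMod.pi fun j : B × {y // Ar sn x y} => matMod (L j.2.1)

/-- cocycle of the test module for outputs -/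
def zI (x : Q) (i : Fin 2) : (WW (B := B) L sn x).C →ₗ[k] (matMod (L x)).C :=
  ∑ j : B × {y // Ar sn x y}, (matMk (L x)).toLinearMap ∘ₗ xb (ξ j.1 i) x j.2.1 ∘ₗ
    (matMk (L j.2.1)).symm.toLinearMap ∘ₗ LinearMap.proj j

omit [DecidableEq B] in
theorem zI_apply (x : Q) (i : Fin 2) (w : (WW (B := B) L sn x).C) :
    zI L sn ξ x i w = ∑ j : B × {y // Ar sn x y},
      matMk (L x) (xb (ξ j.1 i) x j.2.1 ((matMk (L j.2.1)).symm (w j))) :=
  LinearMap.sum_apply _ _ _

/-- the test module for outputs -/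
abbrev IM (x : Q) : FMod k (FA k) := extMod (matMod (L x)) (WW (B := B) L sn x) (zI L sn ξ x)

/-- the map between the test modules -/
def cM (b : B) (x y : Q) (h : Ar sn x y) : (PM L sn ξ y).C →ₗ[FA k] (IM L sn ξ x).C :=
  toExt _ _ _
    (LinearMap.proj (R := k) (φ := fun j : B × {x // Ar sn x y} => (matMod (L j.2.1)).C)
      (b, ⟨x, h⟩) ∘ₗ LinearMap.fst k _ _ ∘ₗ (extMk _ _ (zP L sn ξ y)).symm.toLinearMap)
    (LinearMap.single k (fun j : B × {y // Ar sn x y} => (matMod (L j.2.1)).C)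
      (b, ⟨y, h⟩) ∘ₗ LinearMap.snd k _ _ ∘ₗ (extMk _ _ (zP L sn ξ y)).symm.toLinearMap)
    (fun i p => by
      rw [ext_smul, zI_apply, Finset.sum_eq_single (b, ⟨y, h⟩)]
      · simp only [LinearMap.comp_apply, LinearMap.single_apply, Pi.single_eq_same]
        rfl
      · intro j _ hj
        simp only [LinearMap.comp_apply, LinearMap.single_apply, Pi.single_eq_of_ne hj, map_zero]
      · simp)
    (fun i p => by
      rw [ext_smul]
      exact (LinearMap.single (FA k) (fun j : B × {y // Ar sn x y} => (matMod (L j.2.1)).C)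
        (b, ⟨y, h⟩)).map_smul (FreeAlgebra.ι k i) p.2)

theorem cM_apply (b : B) (x y : Q) (h : Ar sn x y) (p : (PM L sn ξ y).C) :
    cM L sn ξ b x y h p = ((p.1 (b, ⟨x, h⟩), Pi.single (b, ⟨y, h⟩) p.2) :
      (matMod (L x)).C × (WW (B := B) L sn x).C) := rfl

variable {V : Type} [AddCommGroup V] [Module k V]

/-- the underlying space of the module of a family -/
def modMk {I : Type} [Fintype I] (Y : Fin 2 → Matrix I I k) (ζ : B → Fin 2 → Matrix I I k)
    (X : B → Module.End k V) : (I → V) ≃ₗ[k] ModX Y ζ X :=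
  LinearEquiv.refl k _

omit [DecidableEq B] in
theorem mod_smul {I : Type} [Fintype I] (Y : Fin 2 → Matrix I I k) (ζ : B → Fin 2 → Matrix I I k)
    (X : B → Module.End k V) (i : Fin 2) (m : I → V) :
    FreeAlgebra.ι k i • modMk Y ζ X m = modMk Y ζ X (opr (Y i) (fun b => ζ b i) X m) :=
  RMod.ι_smul _ i m

/-- the simple tensor as a linear map -/
def stL {I : Type} (v : V) : (I → k) →ₗ[k] (I → V) where
  toFun z := st z v
  map_add' z z' := st_add z z' v
  map_smul' c z := st_smul c z v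

/-- contraction as a linear map -/
def ctL {I : Type} (y : V →ₗ[k] k) : (I → V) →ₗ[k] (I → k) where
  toFun m := ct y m
  map_add' := ct_add y
  map_smul' := ct_smul y

theorem stL_apply {I : Type} (v : V) (z : I → k) : stL v z = st z v := rfl

theorem ctL_apply {I : Type} (y : V →ₗ[k] k) (m : I → V) : ctL y m = ct y m := rfl

theorem st_sum {I J : Type} [Fintype J] (z : J → I → k) (v : V) :
    st (∑ j, z j) v = ∑ j, st (z j) v := map_sum (stL v) z _

variable {sn ξ}

/-- the part of `aY` on the submodule -/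
def aU (X : B → Module.End k V) (v : V) (y : Q) :
    (UU (B := B) L sn y).C →ₗ[k] ModX (Lm L) ξ X :=
  (modMk (Lm L) ξ X).toLinearMap ∘ₗ ∑ j : B × {x // Ar sn x y},
    stL (X j.1 v) ∘ₗ emb0 j.2.1 ∘ₗ (matMk (L j.2.1)).symm.toLinearMap ∘ₗ LinearMap.proj j

omit [DecidableEq B] in
theorem aU_apply (X : B → Module.End k V) (v : V) (y : Q) (u : (UU (B := B) L sn y).C) :
    aU L (ξ := ξ) X v y u = modMk (Lm L) ξ X (∑ j : B × {x // Ar sn x y},
      st (emb0 j.2.1 ((matMk (L j.2.1)).symm (u j))) (X j.1 v)) :=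
  congrArg (modMk (Lm L) ξ X) (LinearMap.sum_apply _ _ _)

/-- the map from the test module for inputs -/
def aY (hξ : ∀ b i, UR (fun p : Q × Fin n => sn p.1) (ξ b i)) (X : B → Module.End k V) (v : V)
    (y : Q) : (PM L sn ξ y).C →ₗ[FA k] ModX (Lm L) ξ X :=
  ofExt _ _ _ (aU L X v y)
    ((modMk (Lm L) ξ X).toLinearMap ∘ₗ stL v ∘ₗ emb0 y ∘ₗ (matMk (L y)).symm.toLinearMap)
    (fun i u => by
      rw [aU_apply, aU_apply, mod_smul, map_sum (opr _ _ _)]
      congr 1
      refine Finset.sum_congr rfl fun j _ => ?_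
      rw [opr_st, Lm_emb0, Pi.smul_apply, mat_smul, LinearEquiv.symm_apply_apply]
      simp only [ur_emb0 (hξ _ i) j.2.2.1, st_zero, Finset.sum_const_zero, add_zero])
    (fun i w => by
      simp only [LinearMap.comp_apply, LinearEquiv.coe_coe, stL_apply]
      rw [aU_apply, mod_smul, ← map_add, opr_st, Lm_emb0, mat_smul, LinearEquiv.symm_apply_apply,
        add_comm, Fintype.sum_prod_type]
      congr 2
      refine Finset.sum_congr rfl fun b _ => ?_
      rw [dec1 (hξ b i), st_sum]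
      rfl)

omit [DecidableEq B] in
theorem aY_apply (hξ : ∀ b i, UR (fun p : Q × Fin n => sn p.1) (ξ b i)) (X : B → Module.End k V)
    (v : V) (y : Q) (p : (PM L sn ξ y).C) :
    aY L hξ X v y p = aU L X v y p.1 +
      modMk (Lm L) ξ X (st (emb0 y ((matMk (L y)).symm p.2)) v) := rfl

/-- the map to the test module for outputs -/
def bX (hξ : ∀ b i, UR (fun p : Q × Fin n => sn p.1) (ξ b i)) (X : B → Module.End k V)
    (η : V →ₗ[k] k) (x : Q) : ModX (Lm L) ξ X →ₗ[FA k] (IM L sn ξ x).C :=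
  toExt _ _ _
    ((matMk (L x)).toLinearMap ∘ₗ blk0 x ∘ₗ ctL η ∘ₗ (modMk (Lm L) ξ X).symm.toLinearMap)
    (LinearMap.pi fun j => (matMk (L j.2.1)).toLinearMap ∘ₗ blk0 j.2.1 ∘ₗ ctL (η ∘ₗ X j.1) ∘ₗ
      (modMk (Lm L) ξ X).symm.toLinearMap)
    (fun i m => by
      obtain ⟨m, rfl⟩ := (modMk (Lm L) ξ X).surjective m
      rw [mod_smul, zI_apply, mat_smul]
      simp only [LinearMap.comp_apply, LinearEquiv.coe_coe, ctL_apply, LinearMap.pi_apply,
        LinearEquiv.symm_apply_apply, ct_opr, map_add, map_sum, blk0_Lm, dec2 (hξ _ i),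
        Fintype.sum_prod_type])
    (fun i m => by
      obtain ⟨m, rfl⟩ := (modMk (Lm L) ξ X).surjective m
      funext j
      rw [mod_smul, Pi.smul_apply, mat_smul]
      simp only [LinearMap.comp_apply, LinearEquiv.coe_coe, ctL_apply, LinearMap.pi_apply,
        LinearEquiv.symm_apply_apply, ct_opr, map_add, map_sum, blk0_Lm,
        blk0_ur (hξ _ i) j.2.2.2, Finset.sum_const_zero, add_zero])

omit [DecidableEq B] in
theorem bX_apply (hξ : ∀ b i, UR (fun p : Q × Fin n => sn p.1) (ξ b i)) (X : B → Module.End k V)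
    (η : V →ₗ[k] k) (x : Q) (m : Q × Fin n → V) :
    bX L hξ X η x (modMk (Lm L) ξ X m) =
      ((matMk (L x) (blk0 x (ct η m)), fun j => matMk (L j.2.1) (blk0 j.2.1 (ct (η ∘ₗ X j.1) m))) :
        (matMod (L x)).C × (WW (B := B) L sn x).C) := rfl

end Test

end Pool.Agent.P.MP_bebcd6_lc.CaseT
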