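import Pool.Agent.P.MP_bebcd6_lc.CaseT3

/-! The correction `t` of the cocycle and the block form of the coefficient matrices. -/

namespace Pool.Agent.P.MP_bebcd6_lc.CaseT

open Matrix

section Level

variable {k Λ ι Q B : Type} [Field k] [Ring Λ] [Algebra k Λ] [Fintype ι] [DecidableEq ι]
  [Fintype Q] [DecidableEq Q] [Fintype B] [DecidableEq B] {n : ℕ}
  (ψ : Λ →ₐ[k] Matrix ι ι (FA k)) (L : Q → Fin 2 → Matrix (Fin n) (Fin n) k)

/-- a tuple as an element of `F M` -/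
def fm {M : Type} [AddCommGroup M] [Module k M] [Module (FA k) M] [IsScalarTower k (FA k) M]
    (x : ι → M) : FM ψ M := x

/-- one block of a vector -/
def blk (x : Q) : (ι × (Q × Fin n) → k) →ₗ[k] FM ψ (matMod (L x)).C where
  toFun z i := matMk (L x) fun a => z (i, (x, a))
  map_add' _ _ := rfl
  map_smul' _ _ := rfl

/-- a vector placed in one block -/
def emb (y : Q) : FM ψ (matMod (L y)).C →ₗ[k] (ι × (Q × Fin n) → k) where
  toFun w p := emb0 y ((matMk (L y)).symm (w p.1)) p.2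
  map_add' w w' := funext fun p => congrFun ((emb0 y).map_add (w p.1) (w' p.1)) p.2
  map_smul' c w := funext fun p => congrFun ((emb0 y).map_smul c (w p.1)) p.2

omit [Fintype Q] [DecidableEq Q] in
theorem blk_apply (x : Q) (z : ι × (Q × Fin n) → k) (i : ι) (a : Fin n) :
    blk ψ L x z i a = z (i, (x, a)) := rfl

omit [Fintype Q] in
theorem emb_apply (y : Q) (w : FM ψ (matMod (L y)).C) (p : ι × (Q × Fin n)) :
    emb ψ L y w p = if p.2.1 = y then w p.1 p.2.2 else 0 := rfl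

omit [Fintype Q] in
theorem blk_emb (y : Q) (w : FM ψ (matMod (L y)).C) : blk ψ L y (emb ψ L y w) = w :=
  funext fun i => funext fun a => by rw [blk_apply, emb_apply, if_pos rfl]

omit [Fintype Q] in
theorem blk_emb_ne {x y : Q} (h : x ≠ y) (w : FM ψ (matMod (L y)).C) :
    blk ψ L x (emb ψ L y w) = 0 :=
  funext fun i => funext fun a => by rw [blk_apply, emb_apply, if_neg h]; rfl

theorem sum_emb_blk (z : ι × (Q × Fin n) → k) : ∑ y, emb ψ L y (blk ψ L y z) = z := by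
  funext p
  rw [Finset.sum_apply, Finset.sum_eq_single p.2.1, emb_apply, if_pos rfl, blk_apply]
  · intro y _ hy
    rw [emb_apply, if_neg hy.symm]
  · simp

theorem proj_eq (y : Q) (z : ι × (Q × Fin n) → k) :
    (proj k fun p : ι × (Q × Fin n) => p.2.1 = y) *ᵥ z = emb ψ L y (blk ψ L y z) := by
  funext p
  rw [proj_mulVec, emb_apply, blk_apply]
  split_ifs with h
  · subst h; rfl
  · rfl

variable (sn : Q → Prop) [DecidablePred sn] (ξ : B → Fin 2 → Matrix (Q × Fin n) (Q × Fin n) k)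
  (σ : ∀ y, FM ψ (matMod (L y)).C →ₗ[k] FM ψ (PM L sn ξ y).C)

/-- the blocks of the correction -/
def tau (b : B) (x y : Q) (h : Ar sn x y) :
    FM ψ (matMod (L y)).C →ₗ[k] FM ψ (matMod (L x)).C where
  toFun z i := (σ y z i).1 (b, ⟨x, h⟩)
  map_add' z z' := by rw [map_add]; rfl
  map_smul' c z := by rw [map_smul]; rfl

omit [DecidableEq B] in
theorem tau_apply (b : B) (x y : Q) (h : Ar sn x y) (z : FM ψ (matMod (L y)).C) (i : ι) :
    tau ψ L sn ξ σ b x y h z i = (σ y z i).1 (b, ⟨x, h⟩) := rfl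

/-- the correction as a linear map -/
def tL (b : B) : (ι × (Q × Fin n) → k) →ₗ[k] (ι × (Q × Fin n) → k) :=
  ∑ x, emb ψ L x ∘ₗ ∑ y : {y // Ar sn x y}, tau ψ L sn ξ σ b x y.1 y.2 ∘ₗ blk ψ L y.1

omit [DecidableEq B] in
theorem blk_tL (b : B) (x : Q) (z : ι × (Q × Fin n) → k) :
    blk ψ L x (tL ψ L sn ξ σ b z) =
      ∑ y : {y // Ar sn x y}, tau ψ L sn ξ σ b x y.1 y.2 (blk ψ L y.1 z) := by
  rw [tL, LinearMap.sum_apply, map_sum, Finset.sum_eq_single x]
  · rw [LinearMap.comp_apply, blk_emb, LinearMap.sum_apply]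
    rfl
  · intro x' _ hx
    rw [LinearMap.comp_apply, blk_emb_ne _ _ hx.symm]
  · simp

omit [DecidableEq B] in
theorem blk_tL_emb (b : B) (x y : Q) (w : FM ψ (matMod (L y)).C) :
    blk ψ L x (tL ψ L sn ξ σ b (emb ψ L y w)) =
      if h : Ar sn x y then tau ψ L sn ξ σ b x y h w else 0 := by
  rw [blk_tL]
  split_ifs with h
  · rw [Finset.sum_eq_single ⟨y, h⟩, blk_emb]
    · intro j _ hj
      rw [blk_emb_ne _ _ fun h' => hj (Subtype.ext h'), map_zero]
    · simp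
  · refine Finset.sum_eq_zero fun j _ => ?_
    rw [blk_emb_ne _ _ fun h' : j.1 = y => h (h' ▸ j.2), map_zero]

/-- the correction as a matrix -/
def tM (b : B) : Matrix (ι × (Q × Fin n)) (ι × (Q × Fin n)) k :=
  LinearMap.toMatrix' (tL ψ L sn ξ σ b)

omit [DecidableEq B] in
theorem tM_mulVec (b : B) (z : ι × (Q × Fin n) → k) :
    tM ψ L sn ξ σ b *ᵥ z = tL ψ L sn ξ σ b z := LinearMap.toMatrix'_mulVec _ _

omit [DecidableEq B] in
theorem ur_tM (b : B) : UR (fun p : ι × (Q × Fin n) => sn p.2.1) (tM ψ L sn ξ σ b) := by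
  intro p q h
  have h1 : (Pi.single q 1 : ι × (Q × Fin n) → k) =
      emb ψ L q.2.1 (blk ψ L q.2.1 (Pi.single q 1)) := by
    rw [← proj_eq]
    funext p'
    rw [proj_mulVec]
    split_ifs with h'
    · rfl
    · exact Pi.single_eq_of_ne (by rintro rfl; exact h' rfl) _
  have h2 := blk_tL_emb ψ L sn ξ σ b p.2.1 q.2.1 (blk ψ L q.2.1 (Pi.single q 1))
  rw [dif_neg h, ← h1] at h2
  rw [tM, LinearMap.toMatrix'_apply]
  exact congrFun (congrFun h2 p.1) p.2.2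

/-- the retraction on the test module for outputs -/
def rho (x : Q) (m : FM ψ (IM L sn ξ x).C) : FM ψ (matMod (L x)).C :=
  fm ψ (fun i => (m i).1) -
    ∑ j : B × {y // Ar sn x y}, tau ψ L sn ξ σ j.1 x j.2.1 j.2.2 (fm ψ fun i => (m i).2 j)

variable {V : Type} [AddCommGroup V] [Module k V] {sn ξ}

omit [DecidableEq B] in
theorem input_eq (hξ : ∀ b i, UR (fun p : Q × Fin n => sn p.1) (ξ b i))
    (hσ : ∀ y z i, (σ y z i).2 = z i) (X : B → Module.End k V) (v : V) (y : Q)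
    (z : FM ψ (matMod (L y)).C) :
    Fmap ψ (aY L hξ X v y) (σ y z) =
      cur ψ (Lm L) ξ X (opr 1 (tM ψ L sn ξ σ) X (st (emb ψ L y z) v)) := by
  funext i
  rw [Fmap_apply, aY_apply, aU_apply, hσ, opr_st, Matrix.one_mulVec, ← map_add,
    Fintype.sum_prod_type, add_comm]
  funext p
  obtain ⟨x, a⟩ := p
  change (st (emb0 y ((matMk (L y)).symm (z i))) v + ∑ b, ∑ x : {x // Ar sn x y},
      st (emb0 x.1 ((matMk (L x.1)).symm ((σ y z i).1 (b, x)))) (X b v)) (x, a) =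
    (st (emb ψ L y z) v + ∑ b, st (tM ψ L sn ξ σ b *ᵥ emb ψ L y z) (X b v)) (i, (x, a))
  simp only [Pi.add_apply, ← st_sum]
  congr 1
  rw [Finset.sum_apply, Finset.sum_apply]
  refine Finset.sum_congr rfl fun b _ => ?_
  rw [st, st, sum_emb0 (p := fun x => Ar sn x y)
    fun x => (matMk (L x.1)).symm ((σ y z i).1 (b, x)), tM_mulVec]
  congr 1
  refine Eq.trans ?_ (congrFun (congrFun (blk_tL_emb ψ L sn ξ σ b x y z) i) a).symm
  split_ifs <;> rfl

omit [DecidableEq B] in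
theorem output_eq (hξ : ∀ b i, UR (fun p : Q × Fin n => sn p.1) (ξ b i))
    (X : B → Module.End k V) (η : V →ₗ[k] k) (x : Q) (m : ι × (Q × Fin n) → V) :
    rho ψ L sn ξ σ x (Fmap ψ (bX L hξ X η x)
      (cur ψ (Lm L) ξ X (opr 1 (tM ψ L sn ξ σ) X m))) = blk ψ L x (ct η m) := by
  have inv : opr 1 (fun b => - tM ψ L sn ξ σ b) X (opr 1 (tM ψ L sn ξ σ) X m) = m :=
    LinearMap.congr_fun (opr_inv (fun b => (ur_tM ψ L sn ξ σ b).neg)
      (fun _ => (neg_neg _).symm) X) m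
  generalize opr 1 (tM ψ L sn ξ σ) X m = m' at inv ⊢
  rw [← inv, ct_opr, Matrix.one_mulVec, map_add, map_sum, rho, Fintype.sum_prod_type,
    sub_eq_add_neg, ← Finset.sum_neg_distrib]
  congr 1
  refine Finset.sum_congr rfl fun b _ => ?_
  rw [Matrix.neg_mulVec, map_neg, tM_mulVec, blk_tL]
  rfl

omit [DecidableEq B] in
theorem block_eq (hξ : ∀ b i, UR (fun p : Q × Fin n => sn p.1) (ξ b i))
    (hσ : ∀ y z i, (σ y z i).2 = z i) {V' : Type} [AddCommGroup V'] [Module k V']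
    {X : B → Module.End k V} {X' : B → Module.End k V'}
    (f : (ι × (Q × Fin n) → V) →ₗ[k] (ι × (Q × Fin n) → V'))
    (hf : ∀ a, f ∘ₗ opr (alph ψ (Lm L) a) (fun b => D2 ψ (Lm L) (ξ b) (tM ψ L sn ξ σ b) a) X =
      opr (alph ψ (Lm L) a) (fun b => D2 ψ (Lm L) (ξ b) (tM ψ L sn ξ σ b) a) X' ∘ₗ f)
    (v : V) (η : V' →ₗ[k] k) (x y : Q) :
    ∃ h : FM ψ (PM L sn ξ y).C →ₗ[Λ] FM ψ (IM L sn ξ x).C, ∀ z,
      blk ψ L x (coef v η f *ᵥ emb ψ L y z) = rho ψ L sn ξ σ x (h (σ y z)) := by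
  obtain ⟨h, hh⟩ := exists_lam ψ (bd_Lm L sn) hξ (ur_tM ψ L sn ξ σ) f hf
  refine ⟨Fmap ψ (bX L hξ X' η x) ∘ₗ h ∘ₗ Fmap ψ (aY L hξ X v y), fun z => ?_⟩
  rw [LinearMap.comp_apply, LinearMap.comp_apply, input_eq ψ L σ hξ hσ, hh, output_eq, coef_mulVec]

theorem sub_eq_rho (hσ : ∀ y z i, (σ y z i).2 = z i) (x : Q) (m : FM ψ (IM L sn ξ x).C) :
    m - ∑ j : B × {y // Ar sn x y}, Fmap ψ (cM L sn ξ j.1 x j.2.1 j.2.2)
        (σ j.2.1 (fm ψ fun i => (m i).2 j)) =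
      Fmap ψ (extSES _ _ (zI L sn ξ x)).i (rho ψ L sn ξ σ x m) := by
  funext i
  have e : ∀ (u : B × {y // Ar sn x y} → FM ψ (IM L sn ξ x).C), (m - ∑ j, u j) i =
      (((m i).1 - ∑ j, (u j i).1, (m i).2 - ∑ j, (u j i).2) :
        (matMod (L x)).C × (WW (B := B) L sn x).C) := fun u => by
    have e1 : (∑ j, u j) i = ∑ j, u j i := Finset.sum_apply i _ _
    change m i - (∑ j, u j) i = _
    rw [e1]
    exact Prod.ext (congrArg ((m i).1 - ·) Prod.fst_sum) (congrArg ((m i).2 - ·) Prod.snd_sum)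
  rw [e, Fmap_apply, extSES_i]
  refine Prod.ext ?_ ?_
  · exact congrArg ((m i).1 - ·) (Finset.sum_apply i _ fun j : B × {y // Ar sn x y} =>
      tau ψ L sn ξ σ j.1 x j.2.1 j.2.2 (fm ψ fun i => (m i).2 j)).symm
  · change (m i).2 - ∑ j : B × {y // Ar sn x y},
      Pi.single j (σ j.2.1 (fm ψ fun i => (m i).2 j) i).2 = 0
    simp only [hσ]
    exact sub_eq_zero.2 (Finset.univ_sum_single _).symm

end Level

end Pool.Agent.P.MP_bebcd6_lc.CaseT
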