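import Pool.Agent.P.MP_bebcd6_lc.GenM

/-! Pointed modules as matrices; descent of matrices; base change of `F`. -/

namespace Pool.Agent.P.MP_bebcd6_lc

open scoped TensorProduct

section Link

variable {K Λ S ι : Type} [Field K] [Ring Λ] [Algebra K Λ] [FiniteDimensional K Λ] [Ring S]
  [Algebra K S] [Fintype ι] [DecidableEq ι] (ψ : Λ →ₐ[K] Matrix ι ι S)

/-- `F M`, bundled -/
abbrev FF (M : FMod K S) : FMod K Λ := ⟨FM ψ M.C⟩

/-- index of a basis -/
abbrev Ix (K V : Type) [Field K] [AddCommGroup V] [Module K V] : Type := Fin (Module.finrank K V)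

/-- relations for homomorphisms from `C` -/
noncomputable def relM (C : FMod K Λ) : Matrix (Ix K Λ × Ix K C.C × ι) (Ix K C.C × ι) S :=
  fun x y => (if x.2.2 = y.2 then algebraMap K S ((Module.finBasis K C.C).repr
      (Module.finBasis K Λ x.1 • Module.finBasis K C.C x.2.1) y.1) else 0) -
    if x.2.1 = y.1 then ψ (Module.finBasis K Λ x.1) x.2.2 y.2 else 0

variable (S ι) in
/-- evaluation at `c` -/
noncomputable def evM {C : FMod K Λ} (c : C.C) : Matrix ι (Ix K C.C × ι) S :=
  fun i y => if i = y.2 then algebraMap K S ((Module.finBasis K C.C).repr c y.1) else 0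

omit [FiniteDimensional K Λ] [Fintype ι] in
theorem evM_add_smul {C : FMod K Λ} (c c' : C.C) (a : K) :
    evM S ι (c + a • c') = evM S ι c + a • evM S ι c' := by
  ext i y
  simp only [evM, Matrix.add_apply, Matrix.smul_apply]
  split_ifs
  · simp [Algebra.smul_def]
  · simp

omit [FiniteDimensional K Λ] in
theorem matMap_evM {C : FMod K Λ} (c : C.C) (M : FMod K S) (w : Ix K C.C × ι → M.C) (i : ι) :
    matMap K S M.C (evM S ι c) w i = ∑ s, (Module.finBasis K C.C).repr c s • w (s, i) := by
  rw [matMap_apply, Fintype.sum_prod_type]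
  refine Finset.sum_congr rfl fun s _ => ?_
  simp [evM, ite_smul]

theorem matMap_relM (C : FMod K Λ) (M : FMod K S) (w : Ix K C.C × ι → M.C) (t s i) :
    matMap K S M.C (relM ψ C) w (t, s, i) =
      ∑ s', (Module.finBasis K C.C).repr (Module.finBasis K Λ t • Module.finBasis K C.C s) s' •
        w (s', i) - ∑ j, ψ (Module.finBasis K Λ t) i j • w (s, j) := by
  rw [matMap_apply]
  simp only [relM, sub_smul, Finset.sum_sub_distrib]
  congr 1
  · rw [Fintype.sum_prod_type]
    refine Finset.sum_congr rfl fun s' _ => ?_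
    simp [ite_smul]
  · rw [Fintype.sum_prod_type_right]
    refine Finset.sum_congr rfl fun j _ => ?_
    simp [ite_smul]

/-- a homomorphism as a tuple -/
noncomputable def toW (C : FMod K Λ) (M : FMod K S) :
    (C.C →ₗ[Λ] (FF ψ M).C) →ₗ[K] (Ix K C.C × ι → M.C) where
  toFun h y := h (Module.finBasis K C.C y.1) y.2
  map_add' _ _ := rfl
  map_smul' _ _ := rfl

omit [FiniteDimensional K Λ] in
theorem FM.sum_apply {J : Type} (s : Finset J) (M : FMod K S) (x : J → (FF ψ M).C) (i : ι) :
    (∑ j ∈ s, x j) i = ∑ j ∈ s, x j i := Finset.sum_apply i s x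

omit [FiniteDimensional K Λ] in
theorem evM_toW {C : FMod K Λ} (c : C.C) (M : FMod K S) (h : C.C →ₗ[Λ] (FF ψ M).C) :
    matMap K S M.C (evM S ι c) (toW ψ C M h) = h c := by
  funext i
  rw [matMap_evM]
  conv_rhs => rw [← (Module.finBasis K C.C).sum_repr c, map_sum, FM.sum_apply]
  refine Finset.sum_congr rfl fun s _ => ?_
  rw [LinearMap.map_smul_of_tower]; rfl

omit [FiniteDimensional K Λ] in
theorem toW_inj (C : FMod K Λ) (M : FMod K S) : Function.Injective (toW ψ C M) := fun h h' e =>
  LinearMap.ext fun c => by rw [← evM_toW, ← evM_toW, e]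

theorem range_toW (C : FMod K Λ) (M : FMod K S) :
    LinearMap.range (toW ψ C M) = kerM (relM ψ C) M := by
  ext w
  constructor
  · rintro ⟨h, rfl⟩
    refine funext fun ⟨t, s, i⟩ => ?_
    rw [matMap_relM, ← matMap_evM, evM_toW, map_smul]
    exact sub_self _
  · intro hw
    let b := Module.finBasis K C.C
    let h₀ : C.C →ₗ[K] (FF ψ M).C := b.constr K fun s => (fun i => w (s, i) : ι → M.C)
    have h1 : ∀ s i, h₀ (b s) i = w (s, i) := fun s i => by rw [b.constr_basis]
    have h2 : ∀ t s, h₀ (Module.finBasis K Λ t • b s) = Module.finBasis K Λ t • h₀ (b s) := by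
      intro t s
      funext i
      have e := congrFun (show matMap K S M.C (relM ψ C) w = 0 from hw) (t, s, i)
      rw [matMap_relM, Pi.zero_apply, sub_eq_zero] at e
      rw [FM.smul_apply]
      simp only [h1]
      rw [← e]
      conv_lhs => rw [← b.sum_repr (Module.finBasis K Λ t • b s), map_sum, FM.sum_apply]
      refine Finset.sum_congr rfl fun s' _ => ?_
      rw [map_smul, ← h1]; rfl
    let h : C.C →ₗ[Λ] (FF ψ M).C :=
      { toFun := h₀
        map_add' := h₀.map_add
        map_smul' := fun a x => by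
          rw [RingHom.id_apply, ← (Module.finBasis K Λ).sum_repr a, ← b.sum_repr x]
          simp only [Finset.sum_smul, Finset.smul_sum, map_sum, smul_assoc, map_smul]
          refine Finset.sum_congr rfl fun s _ => Finset.sum_congr rfl fun t _ => ?_
          rw [smul_comm (Module.finBasis K Λ t), map_smul, h2, smul_comm (Module.finBasis K Λ t)] }
    exact ⟨h, funext fun y => h1 y.1 y.2⟩

theorem matMap_fromRows {p p' q : Type} [Fintype q] (A : Matrix p q S) (B : Matrix p' q S)
    (M : FMod K S) (w : q → M.C) : matMap K S M.C (Matrix.fromRows A B) w =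
      Sum.elim (matMap K S M.C A w) (matMap K S M.C B w) := by
  funext i
  cases i <;> rfl

/-- the matrix of a pointed module -/
noncomputable def ptM (P : Pt K Λ) : Matrix ((Ix K Λ × Ix K P.M.C × ι) ⊕ ι) (Ix K P.M.C × ι) S :=
  Matrix.fromRows (relM ψ P.M) (evM S ι P.c)

theorem nu_eq_nulM (P : Pt K Λ) (M : FMod K S) : P.nu (FF ψ M).C = nulM (ptM ψ P) M := by
  have : (LinearMap.ker (evalAt K Λ (FF ψ M).C P.c)).map (toW ψ P.M M) = kerM (ptM ψ P) M := by
    ext w
    constructor
    · rintro ⟨h, hh, rfl⟩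
      change matMap K S M.C _ _ = 0
      have h1 : matMap K S M.C (relM ψ P.M) (toW ψ P.M M h) = 0 := by
        have : toW ψ P.M M h ∈ kerM (relM ψ P.M) M := range_toW ψ P.M M ▸ ⟨h, rfl⟩
        exact this
      have h2 : h P.c = 0 := hh
      rw [ptM, matMap_fromRows, h1, evM_toW, h2]
      exact Sum.elim_zero_zero
    · intro hw
      have h0 : matMap K S M.C (ptM ψ P) w = 0 := hw
      rw [ptM, matMap_fromRows] at h0
      have h1 : w ∈ kerM (relM ψ P.M) M := funext fun i => congrFun h0 (Sum.inl i)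
      rw [← range_toW] at h1
      obtain ⟨h, rfl⟩ := h1
      refine ⟨h, ?_, rfl⟩
      change h P.c = 0
      rw [← evM_toW]
      exact funext fun i => congrFun h0 (Sum.inr i)
  rw [nulM, ← this, Pt.nu]
  exact (Submodule.equivMapOfInjective _ (toW_inj ψ P.M M) _).finrank_eq

theorem mem_ev_iff (P : Pt K Λ) (M : FMod K S) (x : (FF ψ M).C) : x ∈ P.ev (FF ψ M).C ↔
    ∃ w, matMap K S M.C (Matrix.fromRows 0 (-1)) x + matMap K S M.C (ptM ψ P) w = 0 := by
  have key : ∀ w, matMap K S M.C (Matrix.fromRows 0 (-1)) x + matMap K S M.C (ptM ψ P) w = 0 ↔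
      w ∈ kerM (relM ψ P.M) M ∧ matMap K S M.C (evM S ι P.c) w = x := by
    intro w
    rw [ptM, matMap_fromRows, matMap_fromRows, funext_iff, Sum.forall]
    refine and_congr ?_ ?_
    · change _ ↔ matMap K S M.C _ w = 0
      rw [funext_iff]
      simp
    · rw [funext_iff]
      refine forall_congr' fun i => ?_
      have : matMap K S M.C (-1 : Matrix ι ι S) x i = -x i := by
        simp [Matrix.one_apply, ite_smul]
      simp only [Pi.add_apply, Sum.elim_inr, Pi.zero_apply, this]
      rw [neg_add_eq_zero, eq_comm]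
  simp only [key, ← range_toW]
  constructor
  · rintro ⟨h, rfl⟩
    exact ⟨_, ⟨h, rfl⟩, evM_toW ψ P.c M h⟩
  · rintro ⟨_, ⟨h, rfl⟩, e⟩
    exact ⟨h, (evM_toW ψ P.c M h).symm.trans e⟩

end Link

section Desc

variable {k K : Type} [Field k] [Field K] [Algebra k K]

theorem span_emb : Submodule.span K (Set.range (emb k K)) = ⊤ := by
  rw [eq_top_iff]
  rintro r -
  induction r using FreeAlgebra.induction with
  | grade0 a =>
    rw [Algebra.algebraMap_eq_smul_one]
    exact Submodule.smul_mem _ _ (Submodule.subset_span ⟨1, map_one _⟩)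
  | grade1 j => exact Submodule.subset_span ⟨FreeAlgebra.ι k j, FreeAlgebra.lift_ι_apply _ _⟩
  | add a b ha hb => exact Submodule.add_mem _ ha hb
  | mul a b ha hb =>
    have := Submodule.mul_mem_mul ha hb
    rw [Submodule.span_mul_span] at this
    refine Submodule.span_mono ?_ this
    rintro _ ⟨_, ⟨x, rfl⟩, _, ⟨y, rfl⟩, rfl⟩
    exact ⟨x * y, map_mul _ _ _⟩

theorem exists_expand {I : Type} [Finite I] (f : I → FA K) :
    ∃ (s : Finset (FA k)) (κ : I → FA k → K), ∀ i, f i = ∑ r ∈ s, κ i r • emb k K r := by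
  classical
  have : ∀ i, ∃ c : FA k →₀ K, c.sum (fun r a => a • emb k K r) = f i := fun i =>
    Finsupp.mem_span_range_iff_exists_finsupp.1 (by rw [span_emb]; trivial)
  choose c hc using this
  have := Fintype.ofFinite I
  refine ⟨Finset.univ.biUnion fun i => (c i).support, fun i => c i, fun i => ?_⟩
  rw [← hc]
  exact Finsupp.sum_of_support_subset _
    (Finset.subset_biUnion_of_mem (fun i => (c i).support) (Finset.mem_univ i)) _
    fun _ _ => zero_smul _ _

theorem exists_coords [Algebra.IsAlgebraic k K] {I : Type} [Finite I] (κ : I → K) :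
    ∃ (U : Type) (_ : Fintype U) (θ : U → K) (l : U → K →ₗ[k] k),
      (∀ i u c, l u (κ i * c) = ∑ u', l u' c * l u (κ i * θ u')) ∧
      (∀ i u', κ i * θ u' = ∑ u, l u (κ i * θ u') • θ u) ∧ ∀ i, κ i = ∑ u, l u (κ i) • θ u := by
  let E := IntermediateField.adjoin k (Set.range κ)
  have : Finite (Set.range κ) := Set.finite_range κ
  have : FiniteDimensional k E :=
    IntermediateField.finiteDimensional_adjoin fun x _ => Algebra.IsIntegral.isIntegral x
  obtain ⟨m, hm⟩ := exists_ctr E K
  let b := Module.finBasis k E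
  have hE : ∀ y : E, m y = y := fun y => by
    have := m.map_smul y 1
    rwa [hm, smul_eq_mul, mul_one, Algebra.smul_def, mul_one] at this
  have hb : ∀ y : E, (y : K) = ∑ u, b.repr (m y) u • (b u : K) := fun y => by
    rw [hE]
    have := congrArg E.val (b.sum_repr y)
    rw [map_sum] at this
    exact this.symm
  let κ' : I → E := fun i => ⟨κ i, IntermediateField.subset_adjoin _ _ ⟨i, rfl⟩⟩
  refine ⟨_, inferInstance, fun u => b u, fun u => b.coord u ∘ₗ m.restrictScalars k,
    fun i u c => ?_, fun i u' => hb (κ' i * b u'), fun i => hb (κ' i)⟩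
  change b.repr (m (κ' i • c)) u = ∑ u', b.repr (m c) u' * b.repr (m ((κ' i * b u' : E) : K)) u
  simp only [hE]
  rw [map_smul, smul_eq_mul]
  conv_lhs => rw [← b.sum_repr (m c), Finset.mul_sum, map_sum, Finsupp.finsetSum_apply]
  refine Finset.sum_congr rfl fun u' _ => ?_
  rw [mul_smul_comm, map_smul, Finsupp.smul_apply, smul_eq_mul]

theorem exists_descent [Algebra.IsAlgebraic k K] {p ι q : Type} [Finite p] [Fintype ι] [Fintype q]
    (A : Matrix p ι (FA K)) (B : Matrix p q (FA K)) :
    ∃ (p' q' : Type) (_ : Fintype p') (_ : Fintype q') (A₀ : Matrix p' ι (FA k))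
      (B₀ : Matrix p' q' (FA k)), ∀ (M : FMod k (FA k)) (x : ι → M.C),
      (∃ w, matMap K (FA K) (bc K M).C A (fun i => tm 1 (x i)) +
        matMap K (FA K) (bc K M).C B w = 0) ↔
      ∃ w, matMap k (FA k) M.C A₀ x + matMap k (FA k) M.C B₀ w = 0 := by
  obtain ⟨s, κ, hκ⟩ := exists_expand (k := k)
    (fun z : p × (ι ⊕ q) => Sum.elim (A z.1) (B z.1) z.2)
  obtain ⟨U, _, θ, l, h1, h2, h3⟩ :=
    exists_coords (k := k) (fun z : (p × (ι ⊕ q)) × s => κ z.1 z.2)
  have := Fintype.ofFinite p
  have hA : ∀ a i, A a i = ∑ r : s, κ (a, Sum.inl i) r • emb k K r := fun a i =>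
    (hκ (a, Sum.inl i)).trans (Finset.sum_coe_sort s _).symm
  have hB : ∀ a j, B a j = ∑ r : s, κ (a, Sum.inr j) r • emb k K r := fun a j =>
    (hκ (a, Sum.inr j)).trans (Finset.sum_coe_sort s _).symm
  refine ⟨p × U, q × U, inferInstance, inferInstance,
    fun z i => ∑ r : s, l z.2 (κ (z.1, Sum.inl i) r) • (r : FA k),
    fun z y => ∑ r : s, l z.2 (κ (z.1, Sum.inr y.1) r * θ y.2) • (r : FA k), fun M x => ⟨?_, ?_⟩⟩
  · rintro ⟨w, hw⟩
    refine ⟨fun y => ctr (l y.2) M (w y.1), funext fun ⟨a, u⟩ => ?_⟩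
    have e := congrArg (ctr (l u) M) (congrFun hw a)
    rw [Pi.zero_apply, map_zero] at e
    rw [Pi.zero_apply, ← e]
    simp only [Pi.add_apply, matMap_apply, map_add, map_sum, hA, hB, Finset.sum_smul, smul_assoc,
      emb_tm, smul_tm, ctr_tm, mul_one]
    congr 1
    rw [Fintype.sum_prod_type]
    refine Finset.sum_congr rfl fun j _ => ?_
    rw [Finset.sum_comm]
    refine Finset.sum_congr rfl fun r _ => ?_
    dsimp only
    generalize w j = v
    induction v using bc_induction with
    | h0 => simp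
    | h1 c y =>
      rw [emb_tm, smul_tm, ctr_tm, h1 ((a, Sum.inr j), r), Finset.sum_smul]
      refine Finset.sum_congr rfl fun u' _ => ?_
      rw [ctr_tm, smul_comm (r : FA k), smul_smul, mul_comm]
    | h2 v v' hv hv' => simp only [map_add, smul_add, Finset.sum_add_distrib, hv, hv']
  · rintro ⟨w, hw⟩
    refine ⟨fun j => ∑ u', tm (θ u') (w (j, u')), funext fun a => ?_⟩
    have e : ∑ u, tm (θ u) ((_ : p × U → M.C) (a, u)) = ∑ u, tm (θ u) ((0 : p × U → M.C) (a, u)) :=
      Finset.sum_congr rfl fun u _ => congrArg (tm (θ u)) (congrFun hw (a, u))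
    simp only [Pi.zero_apply, tm_zero, Finset.sum_const_zero] at e
    rw [Pi.zero_apply, ← e]
    simp only [Pi.add_apply, matMap_apply, hA, hB, Finset.sum_smul, smul_assoc,
      emb_tm, smul_tm, mul_one, tm_add, tm_sum, tm_smul, Finset.smul_sum, Finset.sum_add_distrib]
    congr 1
    · rw [Finset.sum_comm (s := Finset.univ (α := U))]
      refine Finset.sum_congr rfl fun i _ => ?_
      rw [Finset.sum_comm (s := Finset.univ (α := U))]
      refine Finset.sum_congr rfl fun r _ => ?_
      rw [← sum_tm, ← h3 ((a, Sum.inl i), r)]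
    · rw [Finset.sum_comm (s := Finset.univ (α := U)), Fintype.sum_prod_type]
      refine Finset.sum_congr rfl fun j _ => Finset.sum_congr rfl fun u' _ => ?_
      rw [Finset.sum_comm (s := Finset.univ (α := U))]
      refine Finset.sum_congr rfl fun r _ => ?_
      rw [← sum_tm, ← h2 ((a, Sum.inr j), r)]

end Desc

section Bar

variable {k Λ ι : Type} (K : Type) [Field k] [Field K] [Algebra k K] [Ring Λ] [Algebra k Λ]
  [Fintype ι] [DecidableEq ι] (ψ : Λ →ₐ[k] Matrix ι ι (FA k))

/-- base change of the bimodule -/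
noncomputable def psiK : K ⊗[k] Λ →ₐ[K] Matrix ι ι (FA K) :=
  AlgHom.liftEquiv k K Λ _ ((emb k K).mapMatrix.comp ψ)

/-- base change of `F M` -/
noncomputable def NN (M : FMod k (FA k)) : FMod K (K ⊗[k] Λ) := FF (psiK K ψ) (bc K M)

noncomputable instance (M : FMod k (FA k)) : Module k (NN K ψ M).C :=
  Module.compHom _ (algebraMap k K)

instance (M : FMod k (FA k)) : IsScalarTower k K (NN K ψ M).C :=
  IsScalarTower.of_algebraMap_smul fun _ _ => rfl

/-- the inclusion of `F M` into its base change -/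
noncomputable def one (M : FMod k (FA k)) : (FF ψ M).C →ₗ[k] (NN K ψ M).C where
  toFun x := (fun i => tm 1 (x i) : ι → (bc K M).C)
  map_add' x y := funext fun i => tm_add 1 (x i) (y i)
  map_smul' c x := funext fun i => by
    change tm (1 : K) (c • x i) = algebraMap k K c • tm (1 : K) (x i)
    rw [tm_smul, smul_tm, Algebra.smul_def]

theorem one_smul' (M : FMod k (FA k)) (a : Λ) (x : (FF ψ M).C) :
    one K ψ M (a • x) = ((1 : K) ⊗ₜ[k] a) • one K ψ M x := by
  funext i
  change tm (1 : K) (∑ j, ψ a i j • x j) = ∑ j, psiK K ψ (1 ⊗ₜ a) i j • tm (1 : K) (x j)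
  rw [psiK, AlgHom.liftEquiv_tmul, one_smul, tm_sum]
  exact Finset.sum_congr rfl fun j _ => (emb_tm _ _ _).symm

theorem one_baseChange (M : FMod k (FA k)) : IsBaseChange K (one K ψ M) :=
  IsBaseChange.of_equiv (TensorProduct.piRight k K K fun _ : ι => M.C) fun _ => rfl

theorem finrank_NN (M : FMod k (FA k)) :
    Module.finrank K (NN K ψ M).C = Fintype.card ι * Module.finrank k M.C := by
  change Module.finrank K (ι → (bc K M).C) = _
  rw [Module.finrank_pi_fintype]
  simp [finrank_bc]

theorem exists_bar {M M' : FMod k (FA k)} (f : (FF ψ M).C →ₗ[Λ] (FF ψ M').C) :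
    ∃ g : (NN K ψ M).C →ₗ[K ⊗[k] Λ] (NN K ψ M').C, ∀ x, g (one K ψ M x) = one K ψ M' (f x) := by
  let g₀ := (one_baseChange K ψ M).lift (one K ψ M' ∘ₗ f.restrictScalars k)
  have h0 : ∀ x, g₀ (one K ψ M x) = one K ψ M' (f x) := fun x =>
    (one_baseChange K ψ M).lift_eq _ x
  have h1 : ∀ (a : Λ) u, g₀ (((1 : K) ⊗ₜ[k] a) • u) = ((1 : K) ⊗ₜ[k] a) • g₀ u := by
    intro a u
    refine (one_baseChange K ψ M).inductionOn u _ (by simp) (fun x => ?_) (fun c u hu => ?_)
      fun u v hu hv => ?_
    · rw [← one_smul', h0, h0, map_smul, one_smul']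
    · rw [smul_comm, map_smul, hu, map_smul, smul_comm]
    · rw [smul_add, map_add, map_add, smul_add, hu, hv]
  refine ⟨{ toFun := g₀, map_add' := g₀.map_add, map_smul' := fun a u => ?_ }, h0⟩
  rw [RingHom.id_apply]
  induction a using TensorProduct.induction_on with
  | zero => simp
  | tmul c a =>
    have : c ⊗ₜ[k] a = c • ((1 : K) ⊗ₜ[k] a) := by rw [TensorProduct.smul_tmul', smul_eq_mul, mul_one]
    rw [this, smul_assoc, smul_assoc, map_smul, h1]
  | add a b ha hb => rw [add_smul, add_smul, map_add, ha, hb]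

end Bar

end Pool.Agent.P.MP_bebcd6_lc
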