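import Pool.Agent.P.MP_bebcd6_lc.GenB

/-! Generic nullity along pencils of matrices over the free algebra. -/

namespace Pool.Agent.P.MP_bebcd6_lc

open Matrix MvPolynomial Module

namespace Gn

variable {K p q : Type} [Field K] [Infinite K] [Fintype p] [Fintype q]
  (Ψ : Matrix p q (FreeAlgebra K (Fin 2)))

lemma rho_le_of_equiv {n n' : Type} [Fintype n] [DecidableEq n] [Fintype n'] [DecidableEq n']
    (e : n ≃ n') : rho n Ψ ≤ rho n' Ψ := by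
  simpa using mul_rho_le Ψ ((Equiv.prodUnique n Unit).trans e)

lemma dvd_rho {N : ℕ} (hN : 0 < N) : N ∣ rho (Fin N) Ψ := by
  have : NeZero N := ⟨hN.ne'⟩
  rw [le_antisymm (rho_le_of_equiv Ψ (ZMod.finEquiv N).toEquiv)
    (rho_le_of_equiv Ψ (ZMod.finEquiv N).toEquiv.symm)]
  exact dvd_rho_zmod Ψ N

/-- The stable rank. -/
noncomputable def rk : ℕ := sSup {r | ∃ n, 0 < n ∧ rho (Fin n) Ψ = r * n}

omit [Infinite K] [Fintype p] in
lemma le_card {r : ℕ} (h : r ∈ {r | ∃ n, 0 < n ∧ rho (Fin n) Ψ = r * n}) : r ≤ Fintype.card q := by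
  obtain ⟨n, hn, h⟩ := h
  have := rho_le_card (n := Fin n) Ψ
  rw [h, Fintype.card_fin] at this
  exact Nat.le_of_mul_le_mul_right this hn

omit [Infinite K] [Fintype p] in
lemma rk_mem : ∃ n, 0 < n ∧ rho (Fin n) Ψ = rk Ψ * n :=
  Nat.sSup_mem (s := {r | ∃ n, 0 < n ∧ rho (Fin n) Ψ = r * n}) ⟨_, 1, one_pos, (mul_one _).symm⟩
    ⟨_, fun _ => le_card Ψ⟩

omit [Infinite K] [Fintype p] in
lemma rk_le_card : rk Ψ ≤ Fintype.card q := le_card Ψ (rk_mem Ψ)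

lemma rho_le_rk (n : ℕ) : rho (Fin n) Ψ ≤ rk Ψ * n := by
  rcases n.eq_zero_or_pos with rfl | hn
  · simpa using rho_le_card (n := Fin 0) Ψ
  · obtain ⟨r, hr⟩ := dvd_rho Ψ hn
    rw [mul_comm] at hr
    rw [hr]
    exact Nat.mul_le_mul_right n (le_csSup ⟨_, fun _ => le_card Ψ⟩ ⟨n, hn, hr⟩)

lemma good_of_dvd {n N : ℕ} (h : rho (Fin n) Ψ = rk Ψ * n) (hN : n ∣ N) :
    rho (Fin N) Ψ = rk Ψ * N := by
  obtain ⟨m, rfl⟩ := hN
  refine le_antisymm (rho_le_rk Ψ _) ?_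
  simpa [h, mul_assoc] using mul_rho_le Ψ (finProdFinEquiv (m := n) (n := m))

lemma pencil_good (Ψ₀ Ψ₁ : Matrix p q (FreeAlgebra K (Fin 2))) :
    ∃ N, 0 < N ∧ ∀ c : K, rho (Fin N) (Ψ₀ + c • Ψ₁) = rk (Ψ₀ + c • Ψ₁) * N := by
  classical
  have hb : BddAbove (Set.range fun c : K => rk (Ψ₀ + c • Ψ₁)) :=
    ⟨_, by rintro _ ⟨c, rfl⟩; exact rk_le_card _⟩
  obtain ⟨c0, hc0⟩ := Nat.sSup_mem (Set.range_nonempty _) hb
  have hmax : ∀ c : K, rk (Ψ₀ + c • Ψ₁) ≤ rk (Ψ₀ + c0 • Ψ₁) := fun c =>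
    (le_csSup hb ⟨c, rfl⟩).trans_eq hc0.symm
  choose n hn hn' using fun c : K => rk_mem (Ψ₀ + c • Ψ₁)
  obtain ⟨f, g, hfg⟩ := exists_minor_rho (Fin (n c0)) (Ψ₀ + c0 • Ψ₁)
  obtain ⟨x, hx⟩ := exists_point hfg
  rw [aeval_minorP] at hx
  set T : Fin 2 → Matrix (Fin (n c0)) (Fin (n c0)) K := fun i => Matrix.of fun a b => x (i, a, b)
  let h : Polynomial K := (((big Ψ₀ T).map Polynomial.C +
    (Polynomial.X : Polynomial K) • (big Ψ₁ T).map Polynomial.C).submatrix f g).det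
  have hh : ∀ c, h.eval c = ((big (Ψ₀ + c • Ψ₁) T).submatrix f g).det := fun c => by
    rw [big_pencil, ← Polynomial.coe_evalRingHom, RingHom.map_det]
    congr 1
    ext a b
    simpa using mul_comm _ _
  have h0 : h ≠ 0 := fun h0 => hx (by rw [← hh, h0, Polynomial.eval_zero])
  refine ⟨n c0 * ∏ c ∈ h.roots.toFinset, n c, mul_pos (hn c0) (Finset.prod_pos fun c _ => hn c),
    fun c => ?_⟩
  by_cases hc : c ∈ h.roots.toFinset
  · exact good_of_dvd _ (hn' c) (Dvd.dvd.mul_left (Finset.dvd_prod_of_mem n hc) _)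
  · refine good_of_dvd _ (le_antisymm (rho_le_rk _ _) ?_) (dvd_mul_right _ _)
    have h1 := card_le_rank (big (Ψ₀ + c • Ψ₁) T) (f := f) (g := g) (by
      rw [← hh]
      exact fun h1 => hc (Multiset.mem_toFinset.2 ((Polynomial.mem_roots h0).2 h1)))
    rw [Fintype.card_fin, hn'] at h1
    exact (Nat.mul_le_mul_right _ (hmax c)).trans (h1.trans (rank_le_rho _ T))

omit [Infinite K] in
lemma pencil_degree (Ψ₀ Ψ₁ : Matrix p q (FreeAlgebra K (Fin 2))) (N : ℕ) :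
    ∃ D, ∀ (c : K) (f : Fin (rho (Fin N) (Ψ₀ + c • Ψ₁)) → p × Fin N)
      (g : Fin (rho (Fin N) (Ψ₀ + c • Ψ₁)) → q × Fin N),
      (minorP (Ψ₀ + c • Ψ₁) f g).totalDegree ≤ D := by
  obtain ⟨E, hE⟩ := (Set.finite_range fun a : (p × Fin N) × (q × Fin N) =>
    max (big Ψ₀ (Gm K (Fin N)) a.1 a.2).totalDegree
      (big Ψ₁ (Gm K (Fin N)) a.1 a.2).totalDegree).bddAbove
  refine ⟨Fintype.card q * Fintype.card (Fin N) * E, fun c f g =>
    (totalDegree_det_le _ (E := E) fun i j => ?_).trans ?_⟩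
  · rw [big_pencil]
    exact (totalDegree_add _ _).trans ((max_le_max le_rfl (totalDegree_smul_le c _)).trans
      (hE ⟨(f i, g j), rfl⟩))
  · rw [Fintype.card_fin]
    exact Nat.mul_le_mul_right E (rho_le_card _)

lemma nulLB : NulLB Ψ (Fintype.card q - rk Ψ) := by
  intro W _ _ _ X
  have h1 := nul_add_rank Ψ (finBasis K W) X
  have h2 := (rank_le_rho Ψ fun i =>
    LinearMap.toMatrix (finBasis K W) (finBasis K W) (X i)).trans (rho_le_rk Ψ _)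
  rw [Fintype.card_fin] at h1
  rw [Nat.sub_mul]
  omega

end Gn

open Gn

theorem generic_nullity (K : Type) [Field K] [Infinite K] (B : Type) [Fintype B]
    (p q : B → Type) [∀ b, Fintype (p b)] [∀ b, Fintype (q b)]
    (Ψ₀ Ψ₁ : ∀ b, Matrix (p b) (q b) (FreeAlgebra K (Fin 2))) :
    ∃ N D : ℕ, 0 < N ∧ ∀ (b : B) (c : K), ∃ (m : ℕ) (f : MvPolynomial (Fin 2 × Fin N × Fin N) K),
      NulLB (Ψ₀ b + c • Ψ₁ b) m ∧ f ≠ 0 ∧ f.totalDegree ≤ D ∧
      ∀ x, MvPolynomial.eval x f ≠ 0 → nul (Ψ₀ b + c • Ψ₁ b) (pt x) = m * N := by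
  choose n hn hn' using fun b => pencil_good (Ψ₀ b) (Ψ₁ b)
  choose D hD using fun b => pencil_degree (Ψ₀ b) (Ψ₁ b) (∏ b, n b)
  refine ⟨∏ b, n b, Finset.univ.sup D, Finset.prod_pos fun b _ => hn b, fun b c => ?_⟩
  obtain ⟨f, g, hfg⟩ := exists_minor_rho (Fin (∏ b, n b)) (Ψ₀ b + c • Ψ₁ b)
  refine ⟨_, _, nulLB _, hfg, (hD b c f g).trans (Finset.le_sup (Finset.mem_univ b)),
    fun x hx => ?_⟩
  have h1 := nul_add_rank (Ψ₀ b + c • Ψ₁ b) (Pi.basisFun K _) (pt x)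
  have h2 : (fun i => LinearMap.toMatrix (Pi.basisFun K _) (Pi.basisFun K _) (pt x i)) =
      fun i => Matrix.of fun a b => x (i, a, b) := by
    funext i
    rw [LinearMap.toMatrix_eq_toMatrix']
    exact LinearMap.toMatrix'_toLin' _
  rw [h2, rank_eq_rho _ (f := f) (g := g) hx,
    good_of_dvd _ (hn' b c) (Finset.dvd_prod_of_mem n (Finset.mem_univ b)), Fintype.card_fin] at h1
  rw [Nat.sub_mul]
  omega

end Pool.Agent.P.MP_bebcd6_lc
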