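import Pool.Agent.P.MP_bebcd6_lc.GenM
import Pool.Agent.P.MP_bebcd6_lc.Generic

/-! Generic modules defined over the ground field. -/

namespace Pool.Agent.P.MP_bebcd6_lc

open scoped TensorProduct

section Res

variable {k K k' : Type} [Field k] [Field K] [Field k'] [Algebra k K] [Algebra k k']
  [FiniteDimensional k k']

/-- a point over a finite extension, read as a module over the ground field -/
noncomputable def resMod (k : Type) [Field k] [Algebra k k'] [FiniteDimensional k k'] {N : ℕ}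
    (x : Fin 2 × Fin N × Fin N → k') : FMod k (FA k) :=
  ⟨RMod fun i => ((pt x i).restrictScalars k : Module.End k (Fin N → k'))⟩

theorem finrank_resMod {N : ℕ} (x : Fin 2 × Fin N × Fin N → k') :
    Module.finrank k (resMod k x).C = N * Module.finrank k k' := by
  change Module.finrank k (Fin N → k') = _
  rw [Module.finrank_pi_fintype]; simp

theorem eq_zero_of_embeddings [IsAlgClosed K] [Algebra.IsSeparable k k'] {U : Type} [Fintype U]
    (θ : Module.Basis U k k') (c : U → K) (h : ∀ τ : k' →ₐ[k] K, ∑ u, c u * τ (θ u) = 0) :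
    c = 0 := by
  classical
  let e : U ≃ (k' →ₐ[k] K) :=
    Fintype.equivOfCardEq ((Module.finrank_eq_card_basis θ).symm.trans (AlgHom.card k k' K).symm)
  have hd : (Algebra.embeddingsMatrixReindex k K θ e).det ≠ 0 := by
    intro h0
    have := Algebra.discr_eq_det_embeddingsMatrixReindex_pow_two k K θ e
    rw [h0, zero_pow two_ne_zero, map_eq_zero] at this
    exact Algebra.discr_not_zero_of_basis k θ this
  exact Matrix.eq_zero_of_vecMul_eq_zero hd (funext fun j => h (e j))

theorem nulM_resMod [IsAlgClosed K] [Algebra.IsSeparable k k'] {p q : Type} [Fintype q]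
    (Ψ : Matrix p q (FA K)) {N : ℕ} (x : Fin 2 × Fin N × Fin N → k') :
    nulM Ψ (bc K (resMod k x)) ≤ ∑ τ : k' →ₐ[k] K, nul Ψ (pt (τ ∘ x)) := by
  let Θ : ∀ τ : k' →ₐ[k] K, (bc K (resMod k x)).C →ₗ[K] RMod (pt (τ ∘ x)) := fun τ =>
    show K ⊗[k] (Fin N → k') →ₗ[K] (Fin N → K) from
      LinearMap.liftBaseChange K (τ.toLinearMap.compLeft (Fin N))
  have hΘ : ∀ τ (c : K) (v : (resMod k x).C) a,
      Θ τ (tm c v) a = c * τ ((show Fin N → k' from v) a) := fun τ c v a => rfl
  have hlin : ∀ τ (j : Fin 2) u, Θ τ (FreeAlgebra.ι K j • u) = FreeAlgebra.ι K j • Θ τ u := by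
    intro τ j u
    induction u using bc_induction with
    | h0 => simp
    | h1 c v =>
      rw [ι_tm, RMod.ι_smul]
      funext a
      have : FreeAlgebra.ι k j • v = pt x j v :=
        RMod.ι_smul (fun i => ((pt x i).restrictScalars k : Module.End k (Fin N → k'))) j v
      rw [hΘ, this]
      change c * τ (∑ b, x (j, a, b) * (show Fin N → k' from v) b) =
        ∑ b, τ (x (j, a, b)) * Θ τ (tm c v) b
      simp only [hΘ, map_sum, map_mul, Finset.mul_sum]
      exact Finset.sum_congr rfl fun b _ => by ring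
    | h2 u v hu hv => rw [smul_add, map_add, map_add, smul_add, hu, hv]
  refine nulM_le_sum Ψ (N := fun τ : k' →ₐ[k] K => ⟨RMod (pt (τ ∘ x))⟩)
    (fun τ => freeLin (Θ τ) (hlin τ)) fun u hu => ?_
  let θ := Module.finBasis k k'
  let b := (Pi.basis fun _ : Fin N => θ).baseChange K
  have hb : ∀ τ z a, Θ τ (b z) a = if a = z.1 then τ (θ z.2) else 0 := by
    intro τ z a
    have : b z = tm (M := resMod k x) (1 : K) (Pi.single z.1 (θ z.2) : Fin N → k') := by
      simp only [b, Module.Basis.baseChange_apply, Pi.basis_apply]; rfl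
    rw [this, hΘ, one_mul]
    by_cases h : a = z.1
    · subst h; simp
    · simp [h]
  refine b.repr.injective (Finsupp.ext fun z => ?_)
  have h1 := eq_zero_of_embeddings θ (fun w => b.repr u ⟨z.1, w⟩) fun τ => by
    have h2 : Θ τ u z.1 = 0 := congrFun (hu τ) z.1
    have h3 : Θ τ u = ∑ y, b.repr u y • Θ τ (b y) := by
      conv_lhs => rw [← b.sum_repr u]
      exact (map_sum (Θ τ) _ _).trans (Finset.sum_congr rfl fun y _ => map_smul (Θ τ) _ _)
    have h4 : Θ τ u z.1 = ∑ y, b.repr u y * Θ τ (b y) z.1 := by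
      rw [h3]; exact Finset.sum_apply _ _ _
    rw [h4, Fintype.sum_sigma, Finset.sum_eq_single z.1] at h2
    · simpa [hb] using h2
    · intro a _ ha
      simp [hb, Ne.symm ha]
    · simp
  exact (congrFun h1 z.2).trans (DFunLike.congr_fun (map_zero b.repr) z).symm

theorem exists_point [IsAlgClosed K] [Algebra.IsAlgebraic k K] [Algebra.IsSeparable k k']
    {σ I : Type} [Finite σ] (t : Finset I) (f : I → MvPolynomial σ K) (D : ℕ)
    (hf : ∀ i, f i ≠ 0) (hD : ∀ i, (f i).totalDegree ≤ D) (S : Finset k')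
    (hS : t.card * Module.finrank k k' * D < S.card) :
    ∃ x : σ → k', ∀ i ∈ t, ∀ τ : k' →ₐ[k] K, MvPolynomial.eval (τ ∘ x) (f i) ≠ 0 := by
  let τ₀ : k' →ₐ[k] K := IsAlgClosed.lift
  let : Algebra k' K := τ₀.toAlgebra
  have : IsScalarTower k k' K := IsScalarTower.of_algebraMap_eq fun c => (τ₀.commutes c).symm
  have : IsAlgClosure k K := ⟨inferInstance, inferInstance⟩
  let L : (k' →ₐ[k] K) → K ≃ₐ[k] K := fun τ =>
    AlgEquiv.ofBijective (τ.liftNormal K) (Algebra.IsAlgebraic.algHom_bijective _)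
  have hL : ∀ τ y, L τ (τ₀ y) = τ y := fun τ y => τ.liftNormal_commutes K y
  let g : MvPolynomial σ K :=
    ∏ i ∈ t, ∏ τ : k' →ₐ[k] K, MvPolynomial.map ((L τ).symm : K →+* K) (f i)
  have hg : g ≠ 0 := Finset.prod_ne_zero_iff.2 fun i _ => Finset.prod_ne_zero_iff.2 fun τ _ h =>
    hf i (MvPolynomial.map_injective _ (L τ).symm.injective (by rw [h, map_zero]))
  have hdeg : g.totalDegree ≤ t.card * Module.finrank k k' * D := by
    refine (MvPolynomial.totalDegree_finsetProd _ _).trans ?_
    rw [mul_assoc, ← smul_eq_mul]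
    refine Finset.sum_le_card_nsmul _ _ _ fun i _ => ?_
    refine (MvPolynomial.totalDegree_finsetProd _ _).trans ?_
    rw [← AlgHom.card k k' K, ← smul_eq_mul]
    refine Finset.sum_le_card_nsmul _ _ _ fun τ _ => le_trans ?_ (hD i)
    exact Finset.sup_mono (MvPolynomial.support_map_subset _ _)
  by_contra hc
  apply hg
  refine MvPolynomial.eq_zero_of_eval_zero_at_prod_finset g
    (fun _ => S.map ⟨τ₀, τ₀.injective⟩) (fun i => ?_) fun y hy => ?_
  · rw [Finset.card_map]
    exact ((MvPolynomial.degreeOf_le_totalDegree _ _).trans hdeg).trans_lt hS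
  · have : ∀ s, ∃ z, τ₀ z = y s := fun s => by
      obtain ⟨z, -, hz⟩ := Finset.mem_map.1 (hy s)
      exact ⟨z, hz⟩
    choose x hx using this
    by_contra hne
    refine hc ⟨x, fun i hi τ h0 => hne ?_⟩
    simp only [g, map_prod]
    refine Finset.prod_eq_zero hi (Finset.prod_eq_zero (Finset.mem_univ τ) ?_)
    have e := MvPolynomial.map_eval ((L τ).symm : K →+* K) (τ ∘ x) (f i)
    rw [h0, map_zero] at e
    rw [e]
    congr 2
    funext s
    rw [← hx, Function.comp_apply, Function.comp_apply, ← hL τ]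
    exact ((L τ).symm_apply_apply _).symm

end Res

theorem exists_pow_lt (c s : ℕ) : ∃ n, 0 < n ∧ c * n ^ s < 2 ^ n := by
  have h := tendsto_pow_const_div_const_pow_of_one_lt s (r := 2) one_lt_two
  have h1 : (0 : ℝ) < 1 / (c + 1) := by positivity
  obtain ⟨n, h2, h3⟩ := ((h.eventually (gt_mem_nhds h1)).and (Filter.eventually_gt_atTop 0)).exists
  refine ⟨n, h3, ?_⟩
  rw [div_lt_div_iff₀ (by positivity) (by positivity), one_mul] at h2
  have h4 : (0 : ℝ) ≤ (n : ℝ) ^ s := by positivity
  have : ((c * n ^ s : ℕ) : ℝ) < ((2 ^ n : ℕ) : ℝ) := by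
    push_cast; nlinarith
  exact_mod_cast this

theorem exists_ext (k : Type) [Field k] (c s : ℕ) :
    ∃ (k' : Type) (_ : Field k') (_ : Algebra k k') (_ : FiniteDimensional k k')
      (_ : Algebra.IsSeparable k k') (S : Finset k'), c * Module.finrank k k' ^ s < S.card := by
  cases finite_or_infinite k with
  | inr h =>
    obtain ⟨S, hS⟩ := Infinite.exists_subset_card_eq k (c + 1)
    exact ⟨k, inferInstance, inferInstance, inferInstance, inferInstance, S, by simp [hS]⟩
  | inl h =>
    obtain ⟨n, hn, h2⟩ := exists_pow_lt c s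
    have : NeZero n := ⟨hn.ne'⟩
    obtain ⟨p, hp⟩ := CharP.exists k
    have : Fact p.Prime := ⟨CharP.char_is_prime k p⟩
    have := Fintype.ofFinite (FiniteField.Extension k p n)
    refine ⟨FiniteField.Extension k p n, inferInstance, inferInstance, inferInstance, inferInstance,
      Finset.univ, ?_⟩
    rw [FiniteField.finrank_extension, Finset.card_univ, ← Nat.card_eq_fintype_card,
      FiniteField.natCard_extension]
    exact h2.trans_le (Nat.pow_le_pow_left Finite.one_lt_card _)

theorem point_lemma (k K : Type) [Field k] [Field K] [Algebra k K] [IsAlgClosed K]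
    [Algebra.IsAlgebraic k K] (B : Type) [Fintype B] (p q : B → Type) [∀ b, Fintype (p b)]
    [∀ b, Fintype (q b)] (Ψ₀ Ψ₁ : ∀ b, Matrix (p b) (q b) (FA K)) :
    ∃ N : ℕ, 0 < N ∧ ∀ c s : ℕ, ∃ e : ℕ, 0 < e ∧ ∀ t : Finset (B × K), t.card ≤ c * e ^ s →
      ∃ M : FMod k (FA k), Module.finrank k M.C = N * e ∧
        ∀ z ∈ t, Gen (Ψ₀ z.1 + z.2 • Ψ₁ z.1) M := by
  obtain ⟨N, D, hN, H⟩ := generic_nullity K B p q Ψ₀ Ψ₁
  choose m f h1 h2 h3 h4 using H
  refine ⟨N, hN, fun c s => ?_⟩
  obtain ⟨k', _, _, _, _, S, hS⟩ := exists_ext k (c * D) (s + 1)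
  refine ⟨Module.finrank k k', Module.finrank_pos, fun t ht => ?_⟩
  obtain ⟨x, hx⟩ := exists_point (k := k) t (fun z => f z.1 z.2) D (fun z => h2 _ _)
    (fun z => h3 _ _) S (lt_of_le_of_lt (by
      calc t.card * Module.finrank k k' * D ≤ c * Module.finrank k k' ^ s * Module.finrank k k' * D := by
            gcongr
        _ = c * D * Module.finrank k k' ^ (s + 1) := by ring) hS)
  refine ⟨resMod k x, finrank_resMod x, fun z hz => (nulM_resMod _ x).trans ?_⟩
  rw [Finset.sum_congr rfl fun τ _ => h4 z.1 z.2 _ (hx z hz τ), Finset.sum_const,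
    Finset.card_univ, AlgHom.card, finrank_resMod, smul_eq_mul, mul_comm, mul_assoc]
  exact Nat.mul_le_mul_right _ (le_rho (h1 z.1 z.2))

end Pool.Agent.P.MP_bebcd6_lc
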