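import Pool.Agent.P.MP_bebcd6_lc.RetA

/-! Large indecomposable modules in a class closed under extensions and direct summands. -/

namespace Pool.Agent.P.MP_bebcd6_lc

namespace Rt

section Summand

variable {k R : Type} [Field k] [Ring R] [Algebra k R]

lemma exists_summand (Cls : FMod k R → Prop)
    (hs : ∀ (M : FMod k R) (p q : Submodule R M.C), IsCompl p q → Cls M → Cls (M.sub p))
    (r : R) (j B n : ℕ) : ∀ M : FMod k R, Module.finrank k M.C = n → Cls M →
      (∀ x : M.C, r ^ j • x = 0) → (∃ x : M.C, r ^ B • x ≠ 0) →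
      ∃ U : FMod k R, Cls U ∧ Indec R U.C ∧ B < Module.finrank k U.C := by
  induction n using Nat.strong_induction_on with
  | _ n ih =>
  rintro M hn hM hj ⟨x, hx⟩
  by_cases hI : Indec R M.C
  · refine ⟨M, hM, hI, ?_⟩
    by_contra hle
    push Not at hle
    let ρ : R →ₐ[k] Module.End k M.C := Algebra.lsmul k k M.C
    have h1 : x ∈ LinearMap.ker (ρ r ^ j) := by
      rw [LinearMap.mem_ker, ← map_pow]; exact hj x
    have h2 := Module.End.ker_pow_le_ker_pow_finrank (ρ r) j h1
    rw [LinearMap.mem_ker, ← map_pow] at h2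
    have h3 : r ^ Module.finrank k M.C • x = 0 := h2
    apply hx
    rw [← Nat.sub_add_cancel hle, pow_add, mul_smul, h3, smul_zero]
  · have hnt : Nontrivial M.C := ⟨⟨_, _, hx⟩⟩
    have step : ∀ p q : Submodule R M.C, IsCompl p q → q ≠ ⊥ → ∀ y ∈ p, r ^ B • y ≠ 0 →
        ∃ U : FMod k R, Cls U ∧ Indec R U.C ∧ B < Module.finrank k U.C := by
      intro p q hpq hq y hy hy0
      have hp : p.restrictScalars k ≠ ⊤ := by
        intro h
        rw [Submodule.restrictScalars_eq_top_iff] at h
        subst h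
        exact hq (top_disjoint.1 hpq.disjoint)
      have hlt : Module.finrank k (M.sub p).C < n := hn ▸ Submodule.finrank_lt hp
      refine ih _ hlt (M.sub p) rfl (hs M p q hpq hM) (fun z => Subtype.ext (hj z.1))
        ⟨⟨y, hy⟩, fun h => hy0 (congrArg Subtype.val h)⟩
    unfold Indec at hI
    push Not at hI
    obtain ⟨p, q, hpq, hp, hq⟩ := hI hnt
    obtain ⟨y, hy, z, hz, rfl⟩ := Submodule.mem_sup.1
      (show x ∈ p ⊔ q from hpq.sup_eq_top ▸ Submodule.mem_top)
    by_cases h : r ^ B • y = 0
    · refine step q p hpq.symm hp z hz fun h' => hx ?_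
      rw [smul_add, h, h', add_zero]
    · exact step p q hpq hq y hy h

end Summand

section Tower

variable {k : Type} [Field k] (L : FMod k (FA k))

/-- the operators of the iterated self-extension -/
noncomputable def twOp (j : ℕ) (i : Fin 2) : Module.End k (Fin j → L.C) where
  toFun w t := FreeAlgebra.ι k i • w t +
    if _h : i = 1 ∧ t.val ≠ 0 then w ⟨t.val - 1, by omega⟩ else 0
  map_add' x y := by
    funext t
    simp only [Pi.add_apply, smul_add]
    split_ifs <;> abel
  map_smul' c x := by
    funext t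
    simp only [Pi.smul_apply, smul_add, RingHom.id_apply, smul_comm c]
    split_ifs <;> simp

lemma twOp_apply (j : ℕ) (i : Fin 2) (w : Fin j → L.C) (t : Fin j) :
    twOp L j i w t = FreeAlgebra.ι k i • w t +
      if _h : i = 1 ∧ t.val ≠ 0 then w ⟨t.val - 1, by omega⟩ else 0 := rfl

/-- the iterated self-extension -/
noncomputable abbrev tw (j : ℕ) : FMod k (FA k) := ⟨RMod (twOp L j)⟩

lemma tw_inc (j : ℕ) (i : Fin 2) (x : L.C) :
    (Pi.single (Fin.last j) (FreeAlgebra.ι k i • x) : Fin (j + 1) → L.C) =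
      twOp L (j + 1) i (Pi.single (Fin.last j) x) := by
  funext t
  rw [twOp_apply]
  have h1 : (if _h : i = 1 ∧ t.val ≠ 0 then
      (Pi.single (Fin.last j) x : Fin (j + 1) → L.C) ⟨t.val - 1, by omega⟩ else 0) = 0 := by
    split_ifs with h
    · refine Pi.single_eq_of_ne ?_ _
      intro h'
      have := congrArg Fin.val h'
      simp only [Fin.val_last] at this
      omega
    · rfl
  rw [h1, add_zero]
  by_cases ht : t = Fin.last j
  · subst ht; simp
  · simp [Pi.single_eq_of_ne ht]

lemma tw_proj (j : ℕ) (i : Fin 2) (w : Fin (j + 1) → L.C) :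
    (fun t : Fin j => twOp L (j + 1) i w t.castSucc) = twOp L j i fun t => w t.castSucc := rfl

/-- the inclusion -/
noncomputable def twI (j : ℕ) : L.C →ₗ[k] (tw L (j + 1)).C :=
  LinearMap.single k (fun _ : Fin (j + 1) => L.C) (Fin.last j)

/-- the projection -/
noncomputable def twP (j : ℕ) : (tw L (j + 1)).C →ₗ[k] (tw L j).C :=
  LinearMap.funLeft k L.C Fin.castSucc

/-- the exact sequence -/
noncomputable def twSES (j : ℕ) : SES L (tw L (j + 1)) (tw L j) where
  i := freeLin (twI L j) fun i x =>
    (tw_inc L j i x).trans (RMod.ι_smul (twOp L (j + 1)) i _).symm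
  p := freeLin (twP L j) fun i x =>
    ((congrArg (twP L j) (RMod.ι_smul (twOp L (j + 1)) i x)).trans (tw_proj L j i x)).trans
      (RMod.ι_smul (twOp L j) i _).symm
  inj := Pi.single_injective (M := fun _ : Fin (j + 1) => L.C) (Fin.last j)
  surj := LinearMap.funLeft_surjective_of_injective k L.C _ (Fin.castSucc_injective j)
  exact := by
    ext w
    constructor
    · rintro ⟨x, rfl⟩
      funext t
      exact Pi.single_eq_of_ne (M := fun _ : Fin (j + 1) => L.C) (Fin.castSucc_lt_last t).ne x
    · intro hw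
      refine ⟨w (Fin.last j), funext fun t => ?_⟩
      induction t using Fin.lastCases with
      | last => exact Pi.single_eq_same (M := fun _ : Fin (j + 1) => L.C) _ _
      | cast t =>
        exact (Pi.single_eq_of_ne (M := fun _ : Fin (j + 1) => L.C)
          (Fin.castSucc_lt_last t).ne _).trans (congrFun hw t).symm

instance : Subsingleton (tw L 0).C := inferInstanceAs (Subsingleton (Fin 0 → L.C))

lemma tw_cls (Cls : FMod k (FA k) → Prop) (hC : ExtClosed Cls) (hL : Cls L) (j : ℕ) :
    Cls (tw L j) := by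
  induction j with
  | zero =>
    refine hC.iso (FMod.pi fun _ : Fin 0 => L) _ (LinearEquiv.ofSubsingleton _ _) ?_
    exact hC.pi _ _ fun _ => hL
  | succ j ih => exact hC.ext _ _ _ (twSES L j) hL ih

lemma tw_nil (r : FA k) (hr : ∀ x : L.C, r • x = 0) (j : ℕ) (w : (tw L j).C) : r ^ j • w = 0 := by
  induction j with
  | zero => exact Subsingleton.elim _ _
  | succ j ih =>
    have h1 : r ^ j • w ∈ LinearMap.range (twSES L j).i := by
      rw [(twSES L j).exact, LinearMap.mem_ker, map_smul, ih]
    obtain ⟨x, hx⟩ := h1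
    rw [pow_succ', mul_smul, ← hx, ← map_smul, hr, map_zero]

lemma tw_pow (j : ℕ) (x : L.C) (s : ℕ) (t : Fin (j + 1)) :
    (s < t.val → (twOp L (j + 1) 1 ^ s) (Pi.single 0 x) t = 0) ∧
      (s = t.val → (twOp L (j + 1) 1 ^ s) (Pi.single 0 x) t = x) := by
  induction s generalizing t with
  | zero =>
    constructor
    · intro h
      exact Pi.single_eq_of_ne (M := fun _ : Fin (j + 1) => L.C) (Fin.pos_iff_ne_zero.1 h) x
    · intro h
      have : t = 0 := Fin.ext h.symm
      subst this
      simp
  | succ s ih =>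
    rw [pow_succ', Module.End.mul_apply, twOp_apply]
    constructor
    · intro h
      rw [(ih t).1 (by omega), dif_pos ⟨rfl, by omega⟩, (ih _).1 (by simp only; omega)]
      simp
    · intro h
      rw [(ih t).1 (by omega), dif_pos ⟨rfl, by omega⟩, (ih _).2 (by simp only; omega)]
      simp

lemma tw_monic (P : Polynomial k) (hP : P.Monic) (x : L.C) :
    Polynomial.aeval (twOp L (P.natDegree + 1) 1) P (Pi.single 0 x) (Fin.last _) = x := by
  rw [Polynomial.aeval_eq_sum_range, Finset.sum_range_succ, LinearMap.add_apply, Pi.add_apply,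
    LinearMap.sum_apply, Finset.sum_apply, Finset.sum_eq_zero, zero_add, hP.coeff_natDegree,
    one_smul]
  · exact (tw_pow L P.natDegree x P.natDegree (Fin.last _)).2 (Fin.val_last _).symm
  intro s hs
  rw [LinearMap.smul_apply, Pi.smul_apply, (tw_pow L _ x _ _).1 (Finset.mem_range.1 hs), smul_zero]

end Tower

end Rt

open Rt in
/-- S8b -/
theorem exists_big_indec {k : Type} [Field k] (Cls : FMod k (FA k) → Prop) (hC : ExtClosed Cls)
    (hs : ∀ (M : FMod k (FA k)) (p q : Submodule (FA k) M.C), IsCompl p q → Cls M → Cls (M.sub p))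
    (L : FMod k (FA k)) [Nontrivial L.C] (hL : Cls L) (B : ℕ) :
    ∃ U : FMod k (FA k), Cls U ∧ Indec (FA k) U.C ∧ B < Module.finrank k U.C := by
  let ρ : FA k →ₐ[k] Module.End k L.C := Algebra.lsmul k k L.C
  let q := (ρ (FreeAlgebra.ι k 1)).charpoly
  have hq : (q ^ B).Monic := (LinearMap.charpoly_monic _).pow B
  let r : FA k := Polynomial.aeval (FreeAlgebra.ι k 1) q
  have hr : ∀ x : L.C, r • x = 0 := by
    intro x
    change ρ r x = 0
    rw [← Polynomial.aeval_algHom_apply, LinearMap.aeval_self_charpoly, LinearMap.zero_apply]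
  obtain ⟨x, hx⟩ := exists_ne (0 : L.C)
  refine exists_summand Cls hs r _ B _ (tw L ((q ^ B).natDegree + 1)) rfl (tw_cls L Cls hC hL _)
    (tw_nil L r hr _) ⟨(Pi.single 0 x : Fin _ → L.C), fun h => hx ?_⟩
  have h1 := tw_monic L _ hq x
  have h2 : FreeAlgebra.lift k (twOp L ((q ^ B).natDegree + 1)) (r ^ B) =
      Polynomial.aeval (twOp L ((q ^ B).natDegree + 1) 1) (q ^ B) := by
    rw [← map_pow, ← Polynomial.aeval_algHom_apply, FreeAlgebra.lift_ι_apply]
  rw [← h2] at h1
  exact h1.symm.trans (congrFun h _)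

end Pool.Agent.P.MP_bebcd6_lc
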