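import Pool.Agent.P.MP_bebcd6_lc.Spec
import Pool.Agent.P.MP_bebcd6_lc.Link
import Pool.Agent.P.MP_bebcd6_lc.Point
import Pool.Agent.P.MP_bebcd6_lc.Retract

/-! The generic filter; the first case is impossible, the second gives the families. -/

namespace Pool.Agent.P.MP_bebcd6_lc

open Filter
open scoped TensorProduct

/-- a pencil of matrices over the free algebra -/
structure Pencil (K : Type) [Field K] where
  p : Type
  q : Type
  [fp : Fintype p]
  [fq : Fintype q]
  A : Matrix p q (FA K)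
  B : Matrix p q (FA K)

attribute [instance] Pencil.fp Pencil.fq

variable {k K : Type} [Field k] [Field K] [Algebra k K]

/-- generic for a member of the pencil -/
def Pencil.G (T : Pencil K) (a : K) (M : FMod k (FA k)) : Prop := Gen (T.A + a • T.B) M

variable (k K) in
/-- modules generic for finitely many matrices -/
def genF : Filter (FMod k (FA k)) where
  sets := {P | ∃ (B : Type) (_ : Fintype B) (T : B → Pencil K),
    ∀ M : FMod k (FA k), 0 < Module.finrank k M.C → (∀ b, (T b).G 0 M) → M ∈ P}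
  univ_sets := ⟨Empty, inferInstance, Empty.elim, fun _ _ _ => trivial⟩
  sets_of_superset := fun ⟨B, i, T, h⟩ hs => ⟨B, i, T, fun M h1 h2 => hs (h M h1 h2)⟩
  inter_sets := fun ⟨B, _, T, h⟩ ⟨B', _, T', h'⟩ => ⟨B ⊕ B', inferInstance, Sum.elim T T',
    fun M h1 h2 => ⟨h M h1 fun b => h2 (Sum.inl b), h' M h1 fun b => h2 (Sum.inr b)⟩⟩

theorem gen_eventually {p q : Type} [Fintype p] [Fintype q] (Ψ : Matrix p q (FA K)) :
    ∀ᶠ M in genF k K, Gen Ψ M :=
  ⟨Unit, inferInstance, fun _ => ⟨p, q, Ψ, 0⟩, fun M _ h => by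
    have := h ()
    simpa [Pencil.G] using this⟩

theorem gen_of_finrank_zero {p q : Type} [Fintype q] (Ψ : Matrix p q (FA K)) {M : FMod k (FA k)}
    (h : Module.finrank k M.C = 0) : Gen Ψ M := by
  refine (Submodule.finrank_le _).trans ?_
  rw [Module.finrank_pi_fintype]
  simp [finrank_bc, h]

theorem exists_matMod (M : FMod k (FA k)) {n : ℕ} (h : Module.finrank k M.C = n) :
    ∃ L : Fin 2 → Matrix (Fin n) (Fin n) k, Nonempty (M.C ≃ₗ[FA k] (matMod L).C) := by
  let b := Module.finBasisOfFinrankEq k M.C h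
  let L : Fin 2 → Matrix (Fin n) (Fin n) k := fun i => LinearMap.toMatrix b b (ops M i)
  let f : M.C →ₗ[k] (matMod L).C := b.equivFun.toLinearMap
  refine ⟨L, ⟨LinearEquiv.ofBijective (freeLin f fun j x => ?_) b.equivFun.bijective⟩⟩
  refine Eq.trans ?_ (RMod.ι_smul
    (fun i => (Matrix.mulVecLin (L i) : Module.End k (Fin n → k))) j (f x)).symm
  exact (LinearMap.toMatrix_mulVec_repr b b (ops M j) x).symm

theorem exists_seq {α I : Type*} (good : α → Prop) (G : I → α → Prop) (m R : ℕ)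
    (hbad : ∀ M, good M → ∃ s : Finset I, s.card ≤ m ∧ ∀ t ∉ s, G t M)
    (hstep : ∀ s : Finset I, s.card ≤ R * m → ∃ M, good M ∧ ∀ t ∈ s, G t M) :
    ∃ L : Fin R → α, (∀ x, good (L x)) ∧ ∀ x y, x ≠ y → ∀ t, G t (L x) ∨ G t (L y) := by
  classical
  suffices ∀ R' ≤ R, ∃ L : Fin R' → α, (∀ x, good (L x)) ∧
      ∀ x y, x ≠ y → ∀ t, G t (L x) ∨ G t (L y) from this R le_rfl
  intro R'
  induction R' with
  | zero => exact fun _ => ⟨Fin.elim0, fun x => x.elim0, fun x => x.elim0⟩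
  | succ R' ih =>
    intro hR
    obtain ⟨L, h1, h2⟩ := ih (Nat.le_of_succ_le hR)
    choose s hs1 hs2 using fun x => hbad (L x) (h1 x)
    obtain ⟨M, h3, h4⟩ := hstep (Finset.univ.biUnion s) (by
      refine (Finset.card_biUnion_le_card_mul _ _ m fun x _ => hs1 x).trans ?_
      rw [Finset.card_univ, Fintype.card_fin]
      exact Nat.mul_le_mul_right _ (Nat.le_of_succ_le hR))
    have key : ∀ x t, G t M ∨ G t (L x) := fun x t => by
      by_cases ht : t ∈ s x
      · exact Or.inl (h4 t (Finset.mem_biUnion.2 ⟨x, Finset.mem_univ _, ht⟩))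
      · exact Or.inr (hs2 x t ht)
    refine ⟨Fin.cons M L, fun x => Fin.cases h3 h1 x, fun x y => ?_⟩
    refine Fin.cases ?_ (fun x => ?_) x <;> refine Fin.cases ?_ (fun y => ?_) y
    · exact fun h => absurd rfl h
    · exact fun _ t => key y t
    · exact fun _ t => (key x t).symm
    · exact fun h t => h2 x y (fun e => h (e ▸ rfl)) t

theorem matMap_fromCols {S p q q' : Type} [Ring S] [Algebra k S] [Fintype q] [Fintype q']
    (A : Matrix p q S) (B : Matrix p q' S) (M : FMod k S) (w : q ⊕ q' → M.C) :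
    matMap k S M.C (Matrix.fromCols A B) w =
      matMap k S M.C A (w ∘ Sum.inl) + matMap k S M.C B (w ∘ Sum.inr) := by
  funext i
  simp [Fintype.sum_sum_type]

variable [IsAlgClosed K] [Algebra.IsAlgebraic k K]

theorem exists_generic {B : Type} [Fintype B] (T : B → Pencil K) :
    ∃ M : FMod k (FA k), 0 < Module.finrank k M.C ∧ ∀ b, (T b).G 0 M := by
  classical
  obtain ⟨N, hN, H⟩ := point_lemma k K B (fun b => (T b).p) (fun b => (T b).q)
    (fun b => (T b).A) (fun b => (T b).B)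
  obtain ⟨e, he, H⟩ := H (Fintype.card B) 0
  obtain ⟨M, h1, h2⟩ := H (Finset.univ.image fun b => (b, 0)) (by
    simpa using Finset.card_image_le (s := Finset.univ) (f := fun b : B => (b, (0 : K))))
  exact ⟨M, h1 ▸ Nat.mul_pos hN he, fun b => h2 (b, 0) (Finset.mem_image_of_mem _ (Finset.mem_univ b))⟩

theorem genF_neBot : (genF k K).NeBot := by
  refine ⟨fun h => ?_⟩
  obtain ⟨B, _, T, hT⟩ : ∅ ∈ genF k K := h ▸ mem_bot
  obtain ⟨M, h1, h2⟩ := exists_generic (k := k) T
  exact hT M h1 h2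

variable {Λ ι : Type} [Ring Λ] [Algebra k Λ] [FiniteDimensional k Λ] [Fintype ι] [DecidableEq ι]
  (ψ : Λ →ₐ[k] Matrix ι ι (FA k))

omit [IsAlgClosed K] [Algebra.IsAlgebraic k K] in
theorem nu_NN (P : Pt K (K ⊗[k] Λ)) (M : FMod k (FA k)) :
    P.nu (NN K ψ M).C = nulM (ptM (psiK K ψ) P) (bc K M) := nu_eq_nulM (psiK K ψ) P (bc K M)

variable (K) in
/-- the generic context of `F` -/
noncomputable def ctx : GCtx K (K ⊗[k] Λ) where
  R := FMod k (FA k)
  F := genF k K
  ne := genF_neBot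
  n M := Module.finrank k M.C
  N M := NN K ψ M
  pos := ⟨Empty, inferInstance, Empty.elim, fun _ h _ => h⟩
  gen P := ⟨rho (ptM (psiK K ψ) P), (gen_eventually _).mono fun M hM => (nu_NN ψ P M).trans hM.eq⟩
  d := Fintype.card ι
  hd M := finrank_NN K ψ M

theorem no_summand (h2 : H2 ψ) (C : FMod K (K ⊗[k] Λ)) [Nontrivial C.C] :
    ¬ ∀ᶠ M in genF k K, ∃ (i : C.C →ₗ[K ⊗[k] Λ] (NN K ψ M).C)
      (r : (NN K ψ M).C →ₗ[K ⊗[k] Λ] C.C), r ∘ₗ i = LinearMap.id := by
  rintro ⟨B, _, T, hT⟩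
  obtain ⟨b, hb⟩ := dim_le_of_retract (k := k) C
  obtain ⟨L, h1, h3⟩ := exists_generic (k := k) T
  have := Module.nontrivial_of_finrank_pos h1
  obtain ⟨U, hU1, hU2, hU3⟩ := exists_big_indec (fun M => ∀ b, (T b).G 0 M)
    ⟨fun M M' e h b => (gen_closed _).iso M M' e (h b),
      fun M' M M'' s h h' b => (gen_closed _).ext M' M M'' s (h b) (h' b),
      fun J _ M h b => (gen_closed _).pi J M fun j => h j b⟩
    (fun M p q hc h b => Gen.summand p q hc (h b)) L h3 b
  obtain ⟨i, r, hr⟩ := hT U (Nat.zero_lt_of_lt hU3) hU1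
  have h4 := hb (FF ψ U) (NN K ψ U) (one K ψ U) (one_baseChange K ψ U) (one_smul' K ψ U)
    (h2 U hU2) i r hr
  have h5 : Module.finrank k (FF ψ U).C = Fintype.card ι * Module.finrank k U.C := by
    change Module.finrank k (ι → U.C) = _
    rw [Module.finrank_pi_fintype]; simp
  have h6 : Nontrivial (FF ψ U).C := (h2 U hU2).1
  have h7 : 0 < Module.finrank k (FF ψ U).C := Module.finrank_pos
  rw [h5] at h4 h7
  have := Nat.le_mul_of_pos_left (Module.finrank k U.C) (Nat.pos_of_mul_pos_right h7)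
  omega

omit [IsAlgClosed K] in
theorem exists_pp (P : Pt K (K ⊗[k] Λ)) :
    ∃ T T' : Pencil K, ∀ (M' M M'' : FMod k (FA k)) (s : SES M' M M''),
      T.G 0 M' → T.G 0 M'' → T'.G 0 M' → T'.G 0 M'' →
      (∀ z, one K ψ M'' z ∈ P.ev (NN K ψ M'').C →
        ∃ x, one K ψ M x ∈ P.ev (NN K ψ M).C ∧ Fmap ψ s.p x = z) ∧
      ∀ x, one K ψ M (Fmap ψ s.i x) ∈ P.ev (NN K ψ M).C → one K ψ M' x ∈ P.ev (NN K ψ M').C := by
  obtain ⟨p, q, _, _, A, B, H⟩ := exists_descent (k := k)
    (Matrix.fromRows 0 (-1) : Matrix _ ι (FA K)) (ptM (psiK K ψ) P)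
  have H' : ∀ (M : FMod k (FA k)) (x : (FF ψ M).C), one K ψ M x ∈ P.ev (NN K ψ M).C ↔
      ∃ w, matMap k (FA k) M.C A x + matMap k (FA k) M.C B w = 0 := fun M x =>
    (mem_ev_iff (psiK K ψ) P (bc K M) _).trans (H M x)
  refine ⟨⟨p, ι ⊕ q, (Matrix.fromCols A B).map (emb k K), 0⟩, ⟨p, q, B.map (emb k K), 0⟩,
    fun M' M M'' s h1 h2 h3 h4 => ?_⟩
  simp only [Pencil.G, smul_zero, add_zero] at h1 h2 h3 h4
  simp only [H']
  constructor
  · rintro z ⟨w, hw⟩
    obtain ⟨u, hu, e⟩ := s.ker_surj_of_gen _ h1 h2 (Sum.elim z w)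
      ((matMap_fromCols A B M'' _).trans hw)
    exact ⟨u ∘ Sum.inl, ⟨u ∘ Sum.inr, (matMap_fromCols A B M _).symm.trans hu⟩,
      funext fun i => congrFun e (Sum.inl i)⟩
  · rintro x ⟨w, hw⟩
    have hw' : cmap p s.i (matMap k (FA k) M'.C A x) + matMap k (FA k) M.C B w = 0 := by
      rw [← matMap_cmap]; exact hw
    obtain ⟨u, hu, e⟩ := s.ker_surj_of_gen _ h3 h4 (cmap q s.p w) (by
      change matMap k (FA k) M''.C B _ = 0
      rw [matMap_cmap, ← neg_eq_of_add_eq_zero_right hw']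
      funext i
      simp only [cmap_apply, Pi.neg_apply, map_neg, s.comp_zero, neg_zero, Pi.zero_apply])
    obtain ⟨y, hy⟩ := s.lift (w - u) fun j => by
      rw [Pi.sub_apply, map_sub, sub_eq_zero]; exact (congrFun e j).symm
    refine ⟨y, funext fun i => s.inj ?_⟩
    have e1 : cmap q s.i y = w - u := funext hy
    have e2 := congrFun (matMap_cmap B s.i y) i
    have e3 : matMap k (FA k) M.C B u = 0 := hu
    rw [e1, map_sub, e3, sub_zero, cmap_apply] at e2
    rw [Pi.add_apply, map_add, ← e2, Pi.zero_apply, map_zero]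
    exact congrFun hw' i

omit [IsAlgClosed K] [Algebra.IsAlgebraic k K] [FiniteDimensional k Λ] in
theorem one_inj (M : FMod k (FA k)) (x : (FF ψ M).C) (h : one K ψ M x = 0) : x = 0 := by
  obtain ⟨l, hl⟩ := exists_ctr k K
  funext i
  have h1 : tm (1 : K) (x i) = 0 := congrFun h i
  have := congrArg (ctr l M) h1
  rwa [ctr_tm, hl, one_smul, map_zero] at this

theorem exists_pencil {χ φ : Pt K (K ⊗[k] Λ)} {D : FMod K (K ⊗[k] Λ)} {c c' : D.C}
    (hF : ∀ᶠ M in genF k K, Fn χ φ D c c' (NN K ψ M))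
    (hI : ∀ a : K, ∀ᶠ M in genF k K, Inj χ D c c' a (NN K ψ M)) :
    ∃ T T' : Pencil K, ∀ M : FMod k (FA k), Fn χ φ D c c' (NN K ψ M) → T'.G 0 M →
      ∀ a, Inj χ D c c' a (NN K ψ M) ↔ T.G a M := by
  let S := ptM (psiK K ψ) ⟨D.prod χ.M, (c, -χ.c)⟩
  let T : Pencil K := ⟨_, _, ptM (psiK K ψ) ⟨D.prod χ.M, (c', -χ.c)⟩,
    Matrix.fromRows 0 (evM (FA K) ι (C := D.prod χ.M) (-c, 0))⟩
  have hT : ∀ a : K, T.A + a • T.B = ptM (psiK K ψ) ⟨D.prod χ.M, (c' - a • c, -χ.c)⟩ := by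
    intro a
    have : ((c' - a • c, -χ.c) : (D.prod χ.M).C) = (c', -χ.c) + a • (-c, 0) := by
      ext <;> simp [sub_eq_add_neg]
    have e := evM_add_smul (S := FA K) (ι := ι) (C := D.prod χ.M) (c', -χ.c) (-c, 0) a
    rw [← this] at e
    ext (i | i) j
    · change relM _ _ i j + a • (0 : FA K) = relM _ _ i j
      rw [smul_zero, add_zero]
    · exact (congrFun (congrFun e i) j).symm
  have := genF_neBot (k := k) (K := K)
  have hρ : ∀ a : K, rho (T.A + a • T.B) = rho S := by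
    intro a
    obtain ⟨M, h1, h2, h3, h4, h5⟩ := (hF.and ((hI a).and ((gen_eventually S).and
      ((gen_eventually (T.A + a • T.B)).and (ctx K ψ).pos)))).exists
    have e := (inj_iff_nu h1 a).1 h2
    rw [nu_NN, nu_NN, ← hT, h3.eq, h4.eq] at e
    exact Nat.eq_of_mul_eq_mul_right h5 e
  refine ⟨T, ⟨_, _, S, 0⟩, fun M h1 h2 a => ?_⟩
  simp only [Pencil.G, smul_zero, add_zero] at h2 ⊢
  rw [inj_iff_nu h1, nu_NN, nu_NN, ← hT, h2.eq, ← hρ a]
  exact ⟨fun h => h.le, fun h => h.eq⟩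

omit [IsAlgClosed K] [Algebra.IsAlgebraic k K] [FiniteDimensional k Λ] in
theorem fn_of_finrank_zero {χ φ : Pt K (K ⊗[k] Λ)} {D : FMod K (K ⊗[k] Λ)} {c c' : D.C}
    {M : FMod k (FA k)} (h : Module.finrank k M.C = 0) : Fn χ φ D c c' (NN K ψ M) := by
  have : Subsingleton (NN K ψ M).C :=
    Module.finrank_zero_iff.1 (by rw [finrank_NN, h, mul_zero])
  have z : ∀ (p : Submodule K (NN K ψ M).C) x, x ∈ p := fun p x =>
    Subsingleton.elim 0 x ▸ p.zero_mem
  exact ⟨fun _ => ⟨z _ _, z _ _⟩, fun _ _ => ⟨0, z _ _⟩, fun _ _ => z _ _⟩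

theorem tdata_of_h2 (h2 : H2 ψ) : TData ψ := by
  classical
  let K := AlgebraicClosure k
  obtain ⟨C, hC, h⟩ | ⟨φ, h0, h1, hm, h3⟩ := (ctx K ψ).dichotomy
  · exact absurd h (no_summand ψ h2 C)
  choose D c c' hF hI using h3
  choose T T' hT using fun i => exists_pencil ψ (hF i) (hI i)
  choose Q Q' hQ using fun i => exists_pp ψ (φ i)
  let l := Fintype.card ι + 1
  replace h1 : ∀ N : FMod K (K ⊗[k] Λ), (φ l).ev N.C = ⊤ := h1
  let base : FMod k (FA k) → Prop := fun M => ∀ i : Fin (l + 1),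
    Fn (φ i) (φ (i + 1)) (D i) (c i) (c' i) (NN K ψ M) ∧ (T' i).G 0 M ∧ (Q i).G 0 M ∧ (Q' i).G 0 M
  obtain ⟨B, _, U, hU⟩ : ∀ᶠ M in genF k K, base M := eventually_all.2 fun i =>
    (hF i).and ((gen_eventually _).and ((gen_eventually _).and (gen_eventually _)))
  have hbase : ∀ M : FMod k (FA k), (∀ b, (U b).G 0 M) → base M := fun M hM => by
    rcases Nat.eq_zero_or_pos (Module.finrank k M.C) with h | h
    · exact fun i => ⟨fn_of_finrank_zero ψ h, gen_of_finrank_zero _ h, gen_of_finrank_zero _ h,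
        gen_of_finrank_zero _ h⟩
    · exact hU M h hM
  let W : B ⊕ Fin (l + 1) → Pencil K := Sum.elim U fun i => T i
  obtain ⟨N, hN, H⟩ := point_lemma k K _ (fun b => (W b).p) (fun b => (W b).q)
    (fun b => (W b).A) (fun b => (W b).B)
  let δ := ∑ i : Fin (l + 1), Module.finrank K (D i).C
  refine ⟨l, fun c₀ => ?_⟩
  obtain ⟨e, he, H⟩ := H (Fintype.card B + 2 * (c₀ * N ^ 7 + 1) * (δ * (Fintype.card ι * N))) 8
  let r := c₀ * (N * e) ^ 7 + 1
  obtain ⟨L₀, hL1, hL2⟩ := exists_seq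
    (fun M : FMod k (FA k) => Module.finrank k M.C = N * e ∧ ∀ b, (U b).G 0 M)
    (fun (t : Fin (l + 1) × K) M => (T t.1).G t.2 M) (δ * (Fintype.card ι * (N * e))) (r + r)
    (fun M hM => by
      choose s hs1 hs2 using fun i : Fin (l + 1) => spec_card (hbase M hM.2 i).1
      refine ⟨Finset.univ.biUnion fun i => (s i).image fun a => (i, a), ?_, fun t ht => ?_⟩
      · refine Finset.card_biUnion_le.trans ?_
        rw [Finset.sum_mul]
        refine Finset.sum_le_sum fun i _ => Finset.card_image_le.trans ((hs1 i).trans ?_)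
        rw [finrank_NN, hM.1]
      · refine (hT t.1 M (hbase M hM.2 _).1 (hbase M hM.2 _).2.1 t.2).1 (hs2 _ _ fun h => ht ?_)
        exact Finset.mem_biUnion.2 ⟨t.1, Finset.mem_univ _, Finset.mem_image_of_mem _ h⟩)
    (fun s hs => by
      obtain ⟨M, e1, e2⟩ := H ((Finset.univ.image fun b => (Sum.inl b, 0)) ∪
        s.image fun t => (Sum.inr t.1, t.2)) (by
          refine (Finset.card_union_le _ _).trans ?_
          have a1 : 1 ≤ e ^ 7 := Nat.one_le_pow _ _ he
          have a2 : r ≤ (c₀ * N ^ 7 + 1) * e ^ 7 := by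
            rw [add_mul, one_mul, mul_assoc, ← mul_pow]; exact Nat.add_le_add_left a1 _
          rw [add_mul]
          refine Nat.add_le_add (Finset.card_image_le.trans ?_) (Finset.card_image_le.trans
            (hs.trans ?_))
          · exact Nat.le_mul_of_pos_right _ (Nat.pow_pos he)
          · calc (r + r) * (δ * (Fintype.card ι * (N * e)))
                ≤ (2 * ((c₀ * N ^ 7 + 1) * e ^ 7)) * (δ * (Fintype.card ι * (N * e))) :=
                  Nat.mul_le_mul_right _ (by omega)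
              _ = _ := by ring)
      exact ⟨M, ⟨e1, fun b => e2 (Sum.inl b, 0) (Finset.mem_union_left _
        (Finset.mem_image_of_mem _ (Finset.mem_univ b)))⟩, fun t ht => e2 (Sum.inr t.1, t.2)
        (Finset.mem_union_right _ (Finset.mem_image_of_mem _ ht))⟩)
  choose L hL using fun x : Fin r ⊕ Fin r => exists_matMod (L₀ (finSumFinEquiv x)) (hL1 _).1
  have tr : ∀ (P : Pencil K) a x, P.G a (L₀ (finSumFinEquiv x)) → P.G a (matMod (L x)) :=
    fun P a x h => (gen_closed _).iso _ _ (hL x).some h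
  let Cls : Set (Fin r ⊕ Fin r) → FMod k (FA k) → Prop := fun S M =>
    ∀ (P : Pencil K) (a : K), (∀ x ∈ S, P.G a (matMod (L x))) → P.G a M
  have cb : ∀ S M, Cls S M → base M := fun S M h =>
    hbase M fun b => h _ _ fun x _ => tr _ _ _ ((hL1 _).2 b)
  have hmin : ∀ i, min i l < l + 1 := fun i => Nat.lt_succ_of_le (min_le_right _ _)
  refine ⟨N * e, r, Nat.mul_pos hN he, Nat.lt_succ_self _, ⟨
    { L := L
      Cls := Cls
      φ := fun i M => (((φ (min i l)).ev (NN K ψ M).C).restrictScalars k).comap (one K ψ M)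
      closed := fun S => ⟨fun M M' e h P a hP => (gen_closed _).iso M M' e (h P a hP),
        fun M' M M'' s h h' P a hP => (gen_closed _).ext M' M M'' s (h P a hP) (h' P a hP),
        fun J _ M h P a hP => (gen_closed _).pi J M fun j => h j P a hP⟩
      mem := fun S x hx P a hP => hP x hx
      mono := fun S S' M hS h P a hP => h P a fun x hx => hP x (hS hx)
      zero := fun M => eq_bot_iff.2 fun x hx => one_inj (K := K) ψ M x ?_
      top := fun M => eq_top_iff.2 fun x _ => ?_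
      le_succ := fun i M x hx => ?_
      nat := fun i M M' f x hx => ?_
      low := fun i S S' M M' f hd hM hM' x hx => ?_
      epi := fun i M' M M'' s hM' hM'' =>
        (hQ (min i l) M' M M'' s (cb _ _ hM' ⟨_, hmin i⟩).2.2.1 (cb _ _ hM'' ⟨_, hmin i⟩).2.2.1
          (cb _ _ hM' ⟨_, hmin i⟩).2.2.2 (cb _ _ hM'' ⟨_, hmin i⟩).2.2.2).1
      pure := fun i M' M M'' s hM' hM'' =>
        (hQ (min i l) M' M M'' s (cb _ _ hM' ⟨_, hmin i⟩).2.2.1 (cb _ _ hM'' ⟨_, hmin i⟩).2.2.1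
          (cb _ _ hM' ⟨_, hmin i⟩).2.2.2 (cb _ _ hM'' ⟨_, hmin i⟩).2.2.2).2 }⟩⟩
  · have : one K ψ M x ∈ (φ (min 0 l)).ev (NN K ψ M).C := hx
    rwa [Nat.zero_min, h0] at this
  · change one K ψ M x ∈ (φ (min l l)).ev (NN K ψ M).C
    rw [min_self, h1]; trivial
  · change one K ψ M x ∈ (φ (min (i + 1) l)).ev (NN K ψ M).C
    have hx' : one K ψ M x ∈ (φ (min i l)).ev (NN K ψ M).C := hx
    rcases Nat.lt_or_ge i l with h | h
    · rw [min_eq_left h]; rw [min_eq_left h.le] at hx'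
      exact hm i _ hx'
    · rw [min_eq_right (by omega)]; rwa [min_eq_right h] at hx'
  · obtain ⟨g, hg⟩ := exists_bar K ψ f
    change one K ψ M' (f x) ∈ (φ (min i l)).ev (NN K ψ M').C
    rw [← hg]
    exact Pt.map_mem hx g
  · obtain ⟨g, hg⟩ := exists_bar K ψ f
    change one K ψ M' (f x) ∈ (φ (min i l)).ev (NN K ψ M').C
    have hx' : one K ψ M x ∈ (φ (min (i + 1) l)).ev (NN K ψ M).C := hx
    rcases Nat.lt_or_ge i l with h | h
    · rw [min_eq_left h.le, ← hg]; rw [min_eq_left h] at hx'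
      have b1 := cb _ _ hM ⟨i, by omega⟩
      have b2 := cb _ _ hM' ⟨i, by omega⟩
      refine lower b1.1 b2.1 (fun a => ?_) g _ hx'
      rw [hT i M b1.1 b1.2.1, hT i M' b2.1 b2.2.1]
      by_cases hS : ∀ x ∈ S, (T i).G a (matMod (L x))
      · exact Or.inl (hM _ _ hS)
      · push Not at hS
        obtain ⟨x, hx, hn⟩ := hS
        refine Or.inr (hM' _ _ fun y hy => tr _ _ _ ?_)
        have hne : finSumFinEquiv x ≠ finSumFinEquiv y := fun e =>
          Set.disjoint_left.1 hd hx (finSumFinEquiv.injective e ▸ hy)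
        exact (hL2 _ _ hne (⟨i, by omega⟩, a)).resolve_left fun h => hn (tr _ _ _ h)
    · rw [min_eq_right h, h1]; trivial

end Pool.Agent.P.MP_bebcd6_lc
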