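import Pool.Agent.P.MP_bebcd6_lc.FMod

/-! Generic dimensions along a filter, minimal pairs, maximal chains. -/

namespace Pool.Agent.P.MP_bebcd6_lc

open Filter

variable {K Λ : Type} [Field K] [Ring Λ] [Algebra K Λ]

/-- a family of modules with a filter along which all nullities are linear -/
structure GCtx (K Λ : Type) [Field K] [Ring Λ] [Algebra K Λ] where
  R : Type 1
  F : Filter R
  ne : F.NeBot
  n : R → ℕ
  N : R → FMod K Λ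
  pos : ∀ᶠ M in F, 0 < n M
  gen : ∀ P : Pt K Λ, ∃ ρ : ℕ, ∀ᶠ M in F, P.nu (N M).C = ρ * n M
  d : ℕ
  hd : ∀ M, Module.finrank K (N M).C = d * n M

namespace GCtx

variable (Γ : GCtx K Λ)

instance : Γ.F.NeBot := Γ.ne

/-- eventually linear -/
def Lin (f : Γ.R → ℕ) (ρ : ℕ) : Prop := ∀ᶠ M in Γ.F, f M = ρ * Γ.n M

variable {Γ}

theorem Lin.sub {f g h : Γ.R → ℕ} {a b : ℕ} (H : ∀ M, f M + g M = h M) (hg : Γ.Lin g a)
    (hh : Γ.Lin h b) : Γ.Lin f (b - a) := by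
  filter_upwards [hg, hh] with M h1 h2
  have := H M
  rw [Nat.sub_mul]; omega

theorem Lin.le {f g : Γ.R → ℕ} {a b : ℕ} (hf : Γ.Lin f a) (hg : Γ.Lin g b)
    (H : ∀ᶠ M in Γ.F, f M ≤ g M) : a ≤ b := by
  obtain ⟨M, h1, h2, h3, h4⟩ := (hf.and (hg.and (H.and Γ.pos))).exists
  rw [h1, h2] at h3
  exact Nat.le_of_mul_le_mul_right h3 h4

variable (Γ)

theorem hom_lin (C : FMod K Λ) :
    ∃ ρ, Γ.Lin (fun M => Module.finrank K (C.C →ₗ[Λ] (Γ.N M).C)) ρ := by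
  obtain ⟨ρ, h⟩ := Γ.gen ⟨C, 0⟩
  refine ⟨ρ, ?_⟩
  filter_upwards [h] with M hM
  rw [← hM, nu_zero]

theorem ev_lin (P : Pt K Λ) : ∃ ρ, Γ.Lin (fun M => Module.finrank K (P.ev (Γ.N M).C)) ρ := by
  obtain ⟨a, ha⟩ := Γ.gen P
  obtain ⟨b, hb⟩ := Γ.hom_lin P.M
  exact ⟨_, Lin.sub (fun M => finrank_ev_add P (Γ.N M)) ha hb⟩

theorem pre_lin {C C' : FMod K Λ} (u : C.C →ₗ[Λ] C'.C) :
    ∃ ρ, Γ.Lin (fun M => Module.finrank K (LinearMap.range (pre K (Γ.N M).C u))) ρ := by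
  obtain ⟨a, ha⟩ := Γ.hom_lin (C'.quot (LinearMap.range u))
  obtain ⟨b, hb⟩ := Γ.hom_lin C'
  refine ⟨_, Lin.sub (fun M => ?_) ha hb⟩
  rw [← finrank_ker_pre u (Γ.N M)]
  exact LinearMap.finrank_range_add_finrank_ker _

/-- generic rank of a pointed module -/
noncomputable def rk (P : Pt K Λ) : ℕ := (Γ.ev_lin P).choose

theorem rk_lin (P : Pt K Λ) : Γ.Lin (fun M => Module.finrank K (P.ev (Γ.N M).C)) (Γ.rk P) :=
  (Γ.ev_lin P).choose_spec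

theorem rk_le (P : Pt K Λ) : Γ.rk P ≤ Γ.d := by
  refine (Γ.rk_lin P).le (g := fun M => Module.finrank K (Γ.N M).C)
    (Eventually.of_forall Γ.hd) (Eventually.of_forall fun M => Submodule.finrank_le _)

theorem rk_mono {P Q : Pt K Λ} (h : ∀ᶠ M in Γ.F, P.ev (Γ.N M).C ≤ Q.ev (Γ.N M).C) :
    Γ.rk P ≤ Γ.rk Q :=
  (Γ.rk_lin P).le (Γ.rk_lin Q) (h.mono fun _ hM => Submodule.finrank_mono hM)

theorem ge_of_rk_le {P Q : Pt K Λ} (h : ∀ᶠ M in Γ.F, P.ev (Γ.N M).C ≤ Q.ev (Γ.N M).C)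
    (hr : Γ.rk Q ≤ Γ.rk P) : ∀ᶠ M in Γ.F, Q.ev (Γ.N M).C ≤ P.ev (Γ.N M).C := by
  filter_upwards [h, Γ.rk_lin P, Γ.rk_lin Q] with M h1 h2 h3
  refine (Submodule.eq_of_le_of_finrank_le h1 ?_).ge
  rw [h2, h3]; exact Nat.mul_le_mul_right _ hr

theorem not_le_of_not {P Q : Pt K Λ} (h : ∀ᶠ M in Γ.F, P.ev (Γ.N M).C ≤ Q.ev (Γ.N M).C)
    (hn : ¬ ∀ᶠ M in Γ.F, Q.ev (Γ.N M).C ≤ P.ev (Γ.N M).C) :
    ∀ᶠ M in Γ.F, ¬ Q.ev (Γ.N M).C ≤ P.ev (Γ.N M).C := by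
  have hlt : Γ.rk P < Γ.rk Q := by
    by_contra hc
    exact hn (Γ.ge_of_rk_le h (not_lt.1 hc))
  filter_upwards [Γ.rk_lin P, Γ.rk_lin Q, Γ.pos] with M h2 h3 h4 hle
  have := Submodule.finrank_mono hle
  rw [h2, h3] at this
  exact absurd (Nat.le_of_mul_le_mul_right this h4) (not_le.2 hlt)

/-- generically nothing definable lies strictly between `ψ` and `φ` -/
def MinPair (ψ φ : Pt K Λ) : Prop :=
  ∀ χ : Pt K Λ, (∀ᶠ M in Γ.F, χ.ev (Γ.N M).C ⊓ φ.ev (Γ.N M).C ≤ ψ.ev (Γ.N M).C) ∨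
    ∀ᶠ M in Γ.F, φ.ev (Γ.N M).C ≤ χ.ev (Γ.N M).C ⊔ ψ.ev (Γ.N M).C

theorem exists_next [FiniteDimensional K Λ] (ψ : Pt K Λ) :
    ∃ φ : Pt K Λ, (∀ N : FMod K Λ, ψ.ev N.C ≤ φ.ev N.C) ∧ Γ.MinPair ψ φ ∧
      (Γ.rk ψ < Γ.rk φ ∨ ∀ N : FMod K Λ, φ.ev N.C = ⊤) := by
  classical
  by_cases hex : ∃ m, ∃ χ : Pt K Λ, (∀ N : FMod K Λ, ψ.ev N.C ≤ χ.ev N.C) ∧ Γ.rk ψ < Γ.rk χ ∧
      Γ.rk χ = m
  · obtain ⟨φ, h1, h2, h3⟩ := Nat.find_spec hex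
    refine ⟨φ, h1, fun χ => ?_, Or.inl h2⟩
    obtain ⟨ω₁, hω₁⟩ := exists_inf χ φ
    obtain ⟨ω, hω⟩ := exists_sup ω₁ ψ
    have hψω : ∀ N : FMod K Λ, ψ.ev N.C ≤ ω.ev N.C := fun N => by rw [hω]; exact le_sup_right
    have hωφ : ∀ N : FMod K Λ, ω.ev N.C ≤ φ.ev N.C := fun N => by
      rw [hω, hω₁]; exact sup_le inf_le_right (h1 N)
    by_cases hlt : Γ.rk ψ < Γ.rk ω
    · right
      have := Nat.find_min' hex ⟨ω, hψω, hlt, rfl⟩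
      filter_upwards [Γ.ge_of_rk_le (Eventually.of_forall fun M => hωφ (Γ.N M)) (h3 ▸ this)]
        with M hM
      refine hM.trans ?_
      rw [hω, hω₁]; exact sup_le_sup_right inf_le_left _
    · left
      filter_upwards [Γ.ge_of_rk_le (Eventually.of_forall fun M => hψω (Γ.N M)) (not_lt.1 hlt)]
        with M hM
      refine le_trans ?_ hM
      rw [hω, hω₁]; exact le_sup_left
  · refine ⟨⟨reg K Λ, (1 : Λ)⟩, fun N => by rw [ev_one]; exact le_top, fun χ => Or.inl ?_,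
      Or.inr fun N => ev_one _⟩
    have hle : ∀ N : FMod K Λ, ψ.ev N.C ≤ (Pt.mk (reg K Λ) (1 : Λ)).ev N.C := fun N => by
      rw [ev_one]; exact le_top
    have : Γ.rk ⟨reg K Λ, (1 : Λ)⟩ ≤ Γ.rk ψ := by
      by_contra hc
      exact hex ⟨_, _, hle, not_le.1 hc, rfl⟩
    filter_upwards [Γ.ge_of_rk_le (Eventually.of_forall fun M => hle (Γ.N M)) this] with M hM
    exact inf_le_right.trans hM

theorem exists_chain [FiniteDimensional K Λ] :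
    ∃ φ : ℕ → Pt K Λ, (∀ N : FMod K Λ, (φ 0).ev N.C = ⊥) ∧
      (∀ N : FMod K Λ, (φ (Γ.d + 1)).ev N.C = ⊤) ∧
      (∀ i, ∀ N : FMod K Λ, (φ i).ev N.C ≤ (φ (i + 1)).ev N.C) ∧
      ∀ i, Γ.MinPair (φ i) (φ (i + 1)) := by
  choose nx h1 h2 h3 using Γ.exists_next
  let φ : ℕ → Pt K Λ := fun i => nx^[i] ⟨reg K Λ, 0⟩
  have hs : ∀ i, φ (i + 1) = nx (φ i) := fun i => Function.iterate_succ_apply' _ _ _
  refine ⟨φ, fun N => ev_zero _ _, ?_, fun i => hs i ▸ h1 _, fun i => hs i ▸ h2 _⟩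
  have key : ∀ i, i ≤ Γ.rk (φ i) ∨ ∀ N : FMod K Λ, (φ i).ev N.C = ⊤ := by
    intro i
    induction i with
    | zero => exact Or.inl (Nat.zero_le _)
    | succ i ih =>
      rw [hs]
      rcases ih with ih | ih
      · rcases h3 (φ i) with h | h
        · left; omega
        · exact Or.inr h
      · exact Or.inr fun N => eq_top_iff.2 (ih N ▸ h1 (φ i) N)
  rcases key (Γ.d + 1) with h | h
  · have := Γ.rk_le (φ (Γ.d + 1)); omega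
  · exact h

end GCtx

end Pool.Agent.P.MP_bebcd6_lc
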