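import Pool.Agent.P.MP_bebcd6_lc.Basic

/-! Closure properties of definable terms and predicates. -/

namespace Pool.Agent.P.MP_bebcd6_lc

open Function (update)

variable {A : Type}

/-- universal closure over a list of variables -/
def allL (l : List ℕ) (p : Formula A) : Formula A := l.foldr Formula.all p

theorem free_allL (l : List ℕ) (p : Formula A) : (allL l p).free = p.free \ l.toFinset := by
  induction l with
  | nil => simp [allL]
  | cons a l ih =>
    change (allL l p).free.erase a = _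
    rw [ih]
    ext n
    simp only [Finset.mem_erase, Finset.mem_sdiff, List.toFinset_cons, Finset.mem_insert]
    tauto

variable [Ring A]

theorem sat_allL {N : Type} [AddCommGroup N] [Module Aᵐᵒᵖ N] (l : List ℕ) (p : Formula A)
    (v : ℕ → N) : (allL l p).Sat v ↔ ∀ v' : ℕ → N, (∀ n, n ∉ l → v' n = v n) → p.Sat v' := by
  induction l generalizing v with
  | nil =>
    constructor
    · intro h v' hv
      have : v' = v := funext fun n => hv n (by simp)
      exact this ▸ h
    · exact fun h => h v fun _ _ => rfl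
  | cons a l ih =>
    change (∀ x, (allL l p).Sat (update v a x)) ↔ _
    simp only [ih]
    constructor
    · intro h v' hv
      refine h (v' a) v' fun n hn => ?_
      by_cases e : n = a
      · subst e
        simp
      · rw [Function.update_of_ne e]
        exact hv n (by simp [e, hn])
    · intro h x v' hv
      refine h v' fun n hn => ?_
      rw [List.mem_cons, not_or] at hn
      rw [hv n hn.2, Function.update_of_ne hn.1]

variable (A)

/-- a function given by a term, for every naming of the variables -/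
def DefT (I : Type) (τ : ∀ (N : Type) [AddCommGroup N] [Module Aᵐᵒᵖ N], (I → N) → N) : Prop :=
  ∀ ν : I → ℕ, ∃ s : Term A, ∀ (N : Type) [AddCommGroup N] [Module Aᵐᵒᵖ N] (v : ℕ → N),
    s.eval v = τ N (v ∘ ν)

/-- a predicate given by a formula, for every naming of the variables -/
def DefI (I : Type) (P : ∀ (N : Type) [AddCommGroup N] [Module Aᵐᵒᵖ N], (I → N) → Prop) : Prop :=
  ∀ ν : I → ℕ, ∃ p : Formula A, ∀ (N : Type) [AddCommGroup N] [Module Aᵐᵒᵖ N] (v : ℕ → N),
    p.Sat v ↔ P N (v ∘ ν)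

variable {A} {I : Type} {σ τ : ∀ (N : Type) [AddCommGroup N] [Module Aᵐᵒᵖ N], (I → N) → N}
  {P Q : ∀ (N : Type) [AddCommGroup N] [Module Aᵐᵒᵖ N], (I → N) → Prop}

theorem DefT.var (i : I) : DefT A I fun _ _ _ w => w i := fun ν => ⟨.var (ν i), fun _ _ _ _ => rfl⟩

theorem DefT.zero : DefT A I fun _ _ _ _ => 0 := fun _ => ⟨.zero, fun _ _ _ _ => rfl⟩

theorem DefT.add (h1 : DefT A I σ) (h2 : DefT A I τ) : DefT A I fun N _ _ w => σ N w + τ N w := by
  intro ν
  obtain ⟨s, hs⟩ := h1 ν
  obtain ⟨t, ht⟩ := h2 ν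
  exact ⟨.add s t, fun N _ _ v => congrArg₂ (· + ·) (hs N v) (ht N v)⟩

theorem DefT.smul (a : Aᵐᵒᵖ) (h : DefT A I σ) : DefT A I fun N _ _ w => a • σ N w := by
  intro ν
  obtain ⟨s, hs⟩ := h ν
  exact ⟨.act a.unop s, fun N _ _ v => congrArg (a • ·) (hs N v)⟩

theorem DefT.sum {J : Type} (s : Finset J)
    {τ : J → ∀ (N : Type) [AddCommGroup N] [Module Aᵐᵒᵖ N], (I → N) → N}
    (h : ∀ j, DefT A I (τ j)) : DefT A I fun N _ _ w => ∑ j ∈ s, τ j N w := by
  classical
  induction s using Finset.induction_on with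
  | empty => simpa using DefT.zero
  | insert a s ha ih =>
    simp only [Finset.sum_insert ha]
    exact (h a).add ih

theorem DefT.eq (h1 : DefT A I σ) (h2 : DefT A I τ) : DefI A I fun N _ _ w => σ N w = τ N w := by
  intro ν
  obtain ⟨s, hs⟩ := h1 ν
  obtain ⟨t, ht⟩ := h2 ν
  exact ⟨.eq s t, fun N _ _ v => Eq.congr (hs N v) (ht N v)⟩

theorem DefI.congr (h : DefI A I P)
    (e : ∀ (N : Type) [AddCommGroup N] [Module Aᵐᵒᵖ N] (w : I → N), P N w ↔ Q N w) : DefI A I Q := by
  intro ν
  obtain ⟨p, hp⟩ := h ν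
  exact ⟨p, fun N _ _ v => (hp N v).trans (e N _)⟩

theorem DefI.bot : DefI A I fun _ _ _ _ => False := fun _ => ⟨.bot, fun _ _ _ _ => Iff.rfl⟩

theorem DefI.imp (h1 : DefI A I P) (h2 : DefI A I Q) : DefI A I fun N _ _ w => P N w → Q N w := by
  intro ν
  obtain ⟨p, hp⟩ := h1 ν
  obtain ⟨q, hq⟩ := h2 ν
  exact ⟨.imp p q, fun N _ _ v => imp_congr (hp N v) (hq N v)⟩

theorem DefI.not (h : DefI A I P) : DefI A I fun N _ _ w => ¬ P N w := h.imp DefI.bot

theorem DefI.and (h1 : DefI A I P) (h2 : DefI A I Q) : DefI A I fun N _ _ w => P N w ∧ Q N w :=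
  (h1.imp h2.not).not.congr fun _ _ _ _ => by tauto

theorem DefI.iff (h1 : DefI A I P) (h2 : DefI A I Q) : DefI A I fun N _ _ w => P N w ↔ Q N w :=
  ((h1.imp h2).and (h2.imp h1)).congr fun _ _ _ _ => iff_iff_implies_and_implies.symm

theorem DefI.conj {J : Type} (s : Finset J)
    {P : J → ∀ (N : Type) [AddCommGroup N] [Module Aᵐᵒᵖ N], (I → N) → Prop}
    (h : ∀ j ∈ s, DefI A I (P j)) : DefI A I fun N _ _ w => ∀ j ∈ s, P j N w := by
  classical
  induction s using Finset.induction_on with
  | empty => exact DefI.bot.not.congr fun _ _ _ _ => by simp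
  | insert a s ha ih =>
    exact ((h a (by simp)).and (ih fun j hj => h j (by simp [hj]))).congr fun _ _ _ _ => by simp

theorem DefI.all [Finite I] {J : Type} [Finite J]
    {P : ∀ (N : Type) [AddCommGroup N] [Module Aᵐᵒᵖ N], (I ⊕ J → N) → Prop}
    (h : DefI A (I ⊕ J) P) : DefI A I fun N _ _ w => ∀ u : J → N, P N (Sum.elim w u) := by
  classical
  intro ν
  obtain ⟨M, hM⟩ := (Set.finite_range ν).bddAbove
  obtain ⟨c, hc⟩ := Countable.exists_injective_nat J
  have := Fintype.ofFinite J
  let μ : J → ℕ := fun j => M + 1 + c j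
  have hμ : Function.Injective μ := fun a b e => hc (by simpa [μ] using e)
  have hne : ∀ i j, ν i ≠ μ j := fun i j => by
    have := hM (Set.mem_range_self i)
    simp only [μ]
    omega
  obtain ⟨p, hp⟩ := h (Sum.elim ν μ)
  refine ⟨allL (Finset.univ.image μ).toList p, fun N _ _ v => ?_⟩
  rw [sat_allL]
  constructor
  · intro H u
    have h1 := (hp N _).1 (H (Function.extend μ u v) fun n hn =>
      Function.extend_apply' _ _ _ fun ⟨j, hj⟩ => hn (by simp [← hj]))
    convert h1 using 1
    funext x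
    rcases x with i | j
    · exact (Function.extend_apply' _ _ _ fun ⟨j, hj⟩ => hne i j hj.symm).symm
    · exact (hμ.extend_apply u v j).symm
  · intro H v' hv
    rw [hp]
    convert H (v' ∘ μ) using 1
    funext x
    rcases x with i | j
    · exact hv _ (by simpa using fun j => (hne i j).symm)
    · rfl

theorem DefI.ex [Finite I] {J : Type} [Finite J]
    {P : ∀ (N : Type) [AddCommGroup N] [Module Aᵐᵒᵖ N], (I ⊕ J → N) → Prop}
    (h : DefI A (I ⊕ J) P) : DefI A I fun N _ _ w => ∃ u : J → N, P N (Sum.elim w u) :=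
  h.not.all.not.congr fun _ _ _ _ => by simp

variable {R R' : ∀ (N : Type) [AddCommGroup N] [Module Aᵐᵒᵖ N], N → N → Prop}

theorem Def2.defI (h : Def2 A R) (i j : I) : DefI A I fun N _ _ w => R N (w i) (w j) :=
  fun ν => h (ν i) (ν j)

theorem DefI.def2 (h : DefI A Bool fun N _ _ w => R N (w false) (w true)) : Def2 A R :=
  fun i j => h fun b => cond b j i

end Pool.Agent.P.MP_bebcd6_lc
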