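import Pool.Agent.P.MP_bebcd6_lc.DefLib

/-! Natural relations given by matrices are definable. -/

namespace Pool.Agent.P.MP_bebcd6_lc

section

variable {k A S ι : Type} [Field k] [Ring A] [Algebra k A] [Ring S] [Algebra k S] [Fintype ι]
  [DecidableEq ι] (ψ : Aᵐᵒᵖ →ₐ[k] Matrix ι ι S)

/-- the relations that make `b ↦ (q (b, i))_i` a homomorphism -/
noncomputable def relV : (FM ψ S × FM ψ S) × ι ⊕ (Aᵐᵒᵖ × FM ψ S) × ι → ((FM ψ S × ι) →₀ S)
  | .inl ((b, b'), i) =>
    Finsupp.single (b + b', i) 1 - (Finsupp.single (b, i) 1 + Finsupp.single (b', i) 1)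
  | .inr ((a, b), i) => Finsupp.single (a • b, i) 1 - ∑ j, ψ a i j • Finsupp.single (b, j) 1

/-- the target of the universal homomorphism -/
abbrev UQ : Type := ((FM ψ S × ι) →₀ S) ⧸ Submodule.span S (Set.range (relV ψ))

/-- the universal homomorphism -/
noncomputable def univHom : FM ψ S →ₗ[Aᵐᵒᵖ] FM ψ (UQ ψ) where
  toFun b i := Submodule.Quotient.mk (Finsupp.single (b, i) 1)
  map_add' b b' := funext fun i => by
    change (Submodule.Quotient.mk _ : UQ ψ) = Submodule.Quotient.mk _ + Submodule.Quotient.mk _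
    rw [← Submodule.Quotient.mk_add, Submodule.Quotient.eq]
    exact Submodule.subset_span ⟨.inl ((b, b'), i), rfl⟩
  map_smul' a b := funext fun i => by
    change (Submodule.mkQ _) _ = ∑ j, ψ a i j • (Submodule.mkQ _) (Finsupp.single (b, j) 1)
    simp only [← map_smul, ← map_sum]
    rw [Submodule.mkQ_apply, Submodule.mkQ_apply, Submodule.Quotient.eq]
    exact Submodule.subset_span ⟨.inr ((a, b), i), rfl⟩

/-- an identity that holds for all homomorphisms follows from finitely many instances of the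
homomorphism laws -/
theorem exists_finite_laws {u : Type} [Fintype u] (b₁ b₂ : FM ψ S) (π₁ π₂ : Matrix u ι S)
    (h : matMap k S (UQ ψ) π₁ (univHom ψ b₁) + matMap k S (UQ ψ) π₂ (univHom ψ b₂) = 0) :
    ∃ (Ad : Finset (FM ψ S × FM ψ S)) (Sc : Finset (Aᵐᵒᵖ × FM ψ S)),
      ∀ (V : Type) [AddCommGroup V] [Module k V] [Module S V] [IsScalarTower k S V]
        (w : FM ψ S → FM ψ V), (∀ z ∈ Ad, w (z.1 + z.2) = w z.1 + w z.2) →
        (∀ z ∈ Sc, w (z.1 • z.2) = z.1 • w z.2) →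
        matMap k S V π₁ (w b₁) + matMap k S V π₂ (w b₂) = 0 := by
  classical
  have h1 : ∀ c : u, ∃ T : (FM ψ S × FM ψ S) × ι ⊕ (Aᵐᵒᵖ × FM ψ S) × ι →₀ S,
      T.sum (fun r a => a • relV ψ r) = ∑ i, π₁ c i • Finsupp.single (b₁, i) (1 : S) +
        ∑ i, π₂ c i • Finsupp.single (b₂, i) (1 : S) := by
    intro c
    rw [← Finsupp.mem_span_range_iff_exists_finsupp, ← Submodule.Quotient.mk_eq_zero,
      ← Submodule.mkQ_apply]
    simp only [map_add, map_sum, map_smul]
    exact congrFun h c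
  choose T hT using h1
  let U := Finset.univ.biUnion fun c => (T c).support
  refine ⟨U.toLeft.image Prod.fst, U.toRight.image Prod.fst, fun V _ _ _ _ w h1 h2 => ?_⟩
  funext c
  let ev : ((FM ψ S × ι) →₀ S) →ₗ[S] V := Finsupp.linearCombination S fun z => w z.1 z.2
  have hev : ∀ z, ev (Finsupp.single z 1) = w z.1 z.2 := fun z => by simp [ev]
  have h3 := congrArg ev (hT c)
  simp only [map_add, map_sum, map_smul, hev, Finsupp.sum] at h3
  change ∑ i, π₁ c i • w b₁ i + ∑ i, π₂ c i • w b₂ i = 0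
  rw [← h3]
  refine Finset.sum_eq_zero fun r hr => ?_
  have hU : r ∈ U := Finset.mem_biUnion.2 ⟨c, Finset.mem_univ _, hr⟩
  have : ev (relV ψ r) = 0 := by
    rcases r with ⟨⟨b, b'⟩, i⟩ | ⟨⟨a, b⟩, i⟩
    · have := h1 (b, b') (Finset.mem_image.2 ⟨((b, b'), i), Finset.mem_toLeft.2 hU, rfl⟩)
      simp only [relV, map_sub, map_add, hev]
      rw [this]
      exact sub_self _
    · have := h2 (a, b) (Finset.mem_image.2 ⟨((a, b), i), Finset.mem_toRight.2 hU, rfl⟩)
      simp only [relV, map_sub, map_sum, map_smul, hev]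
      rw [this]
      exact sub_self _
  rw [this, smul_zero]

end

/-- a finite system of homomorphism laws is definable -/
theorem def2_laws {A B t : Type} [Ring A] [AddCommGroup B] [Module Aᵐᵒᵖ B] [Fintype t]
    (Ad : Finset (B × B)) (Sc : Finset (Aᵐᵒᵖ × B)) (b₁ b₂ : t → B) :
    Def2 A fun N _ _ x y => ∃ w : t → B → N, (∀ s, ∀ z ∈ Ad, w s (z.1 + z.2) = w s z.1 + w s z.2) ∧
      (∀ s, ∀ z ∈ Sc, w s (z.1 • z.2) = z.1 • w s z.2) ∧ x = ∑ s, w s (b₁ s) ∧
      y = ∑ s, w s (b₂ s) := by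
  classical
  let D : Finset B := Ad.image (fun z => z.1 + z.2) ∪ Ad.image Prod.fst ∪ Ad.image Prod.snd ∪
    Sc.image (fun z => z.1 • z.2) ∪ Sc.image Prod.snd ∪ Finset.univ.image b₁ ∪ Finset.univ.image b₂
  let τ : t → B → ∀ (N : Type) [AddCommGroup N] [Module Aᵐᵒᵖ N], (Bool ⊕ t × D → N) → N :=
    fun s b N _ _ w => if h : b ∈ D then w (.inr (s, ⟨b, h⟩)) else 0
  have hτ : ∀ s b, DefT A _ (τ s b) := by
    intro s b
    by_cases h : b ∈ D
    · simpa [τ, h] using DefT.var (A := A) (Sum.inr (s, ⟨b, h⟩) : Bool ⊕ t × D)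
    · simpa [τ, h] using DefT.zero
  have h1 := DefI.conj Finset.univ fun s _ => DefI.conj Ad fun z _ =>
    (hτ s (z.1 + z.2)).eq ((hτ s z.1).add (hτ s z.2))
  have h2 := DefI.conj Finset.univ fun s _ => DefI.conj Sc fun z _ =>
    (hτ s (z.1 • z.2)).eq ((hτ s z.2).smul z.1)
  have h3 := (DefT.var (Sum.inl false)).eq (DefT.sum Finset.univ fun s => hτ s (b₁ s))
  have h4 := (DefT.var (Sum.inl true)).eq (DefT.sum Finset.univ fun s => hτ s (b₂ s))
  refine DefI.def2 ((h1.and (h2.and (h3.and h4))).ex.congr fun N _ _ v => ?_)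
  constructor
  · rintro ⟨u, a1, a2, a3, a4⟩
    exact ⟨fun s b => τ s b N (Sum.elim v u), fun s => a1 s (Finset.mem_univ _),
      fun s => a2 s (Finset.mem_univ _), a3, a4⟩
  · rintro ⟨w, a1, a2, a3, a4⟩
    have e : ∀ s, ∀ b ∈ D, τ s b N (Sum.elim v fun z => w z.1 z.2.1) = w s b := by
      intro s b hb
      simp [τ, hb]
    have m : ∀ {b}, (b ∈ Ad.image (fun z => z.1 + z.2) ∨ b ∈ Ad.image Prod.fst ∨
        b ∈ Ad.image Prod.snd ∨ b ∈ Sc.image (fun z => z.1 • z.2) ∨ b ∈ Sc.image Prod.snd ∨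
        b ∈ Finset.univ.image b₁ ∨ b ∈ Finset.univ.image b₂) → b ∈ D := by
      intro b hb
      simp only [D, Finset.mem_union]
      tauto
    refine ⟨fun z => w z.1 z.2.1, fun s _ z hz => ?_, fun s _ z hz => ?_, ?_, ?_⟩
    · rw [e s _ (m (.inl (Finset.mem_image_of_mem _ hz))),
        e s _ (m (.inr (.inl (Finset.mem_image_of_mem _ hz)))),
        e s _ (m (.inr (.inr (.inl (Finset.mem_image_of_mem _ hz)))))]
      exact a1 s z hz
    · rw [e s _ (m (.inr (.inr (.inr (.inl (Finset.mem_image_of_mem _ hz)))))),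
        e s _ (m (.inr (.inr (.inr (.inr (.inl (Finset.mem_image_of_mem _ hz)))))))]
      exact a2 s z hz
    · refine a3.trans (Finset.sum_congr rfl fun s _ => (e s _ (m ?_)).symm)
      simp
    · refine a4.trans (Finset.sum_congr rfl fun s _ => (e s _ (m ?_)).symm)
      simp

theorem def2_of_natural {k A S ι t u : Type} [Field k] [Ring A] [Algebra k A] [Ring S]
    [Algebra k S] [Fintype ι] [DecidableEq ι] [Fintype t] [Fintype u]
    (ψ : Aᵐᵒᵖ →ₐ[k] Matrix ι ι S) (ζ₁ ζ₂ : Matrix ι t S) (π₁ π₂ : Matrix u ι S)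
    (hsurj : ∀ (V : Type) [AddCommGroup V] [Module k V] [Module S V] [IsScalarTower k S V]
      (x y : ι → V), matMap k S V π₁ x + matMap k S V π₂ y = 0 →
      ∃ v : t → V, x = matMap k S V ζ₁ v ∧ y = matMap k S V ζ₂ v)
    (hnat : ∀ (V : Type) [AddCommGroup V] [Module k V] [Module S V] [IsScalarTower k S V]
      (f : FM ψ S →ₗ[Aᵐᵒᵖ] FM ψ V) (s : t),
      matMap k S V π₁ (f fun a => ζ₁ a s) + matMap k S V π₂ (f fun a => ζ₂ a s) = 0) :
    ∃ Q : ∀ (N : Type) [AddCommGroup N] [Module Aᵐᵒᵖ N], N → N → Prop, Def2 A Q ∧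
      ∀ (V : Type) [AddCommGroup V] [Module k V] [Module S V] [IsScalarTower k S V]
        (x y : FM ψ V), Q (FM ψ V) x y ↔ matMap k S V π₁ x + matMap k S V π₂ y = 0 := by
  classical
  choose Ad Sc hL using fun s : t => exists_finite_laws ψ (fun a => ζ₁ a s) (fun a => ζ₂ a s) π₁ π₂
    (hnat (UQ ψ) (univHom ψ) s)
  refine ⟨_, def2_laws (B := FM ψ S) (Finset.univ.biUnion Ad) (Finset.univ.biUnion Sc)
    (fun s a => ζ₁ a s) (fun s a => ζ₂ a s), fun V _ _ _ _ x y => ?_⟩
  constructor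
  · rintro ⟨w, a1, a2, rfl, rfl⟩
    have h := fun s => hL s V (w s)
      (fun z hz => a1 s z (Finset.mem_biUnion.2 ⟨s, Finset.mem_univ _, hz⟩))
      (fun z hz => a2 s z (Finset.mem_biUnion.2 ⟨s, Finset.mem_univ _, hz⟩))
    have e1 := map_sum (matMap k S V π₁) (fun s => w s fun a => ζ₁ a s) Finset.univ
    have e2 := map_sum (matMap k S V π₂) (fun s => w s fun a => ζ₂ a s) Finset.univ
    refine (congrArg₂ (· + ·) e1 e2).trans ?_
    rw [← Finset.sum_add_distrib]
    exact Finset.sum_eq_zero fun s _ => h s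
  · intro h
    obtain ⟨v, hx, hy⟩ := hsurj V x y h
    refine ⟨fun s => Fmap ψ (LinearMap.toSpanSingleton S V (v s)), fun s z _ => map_add _ _ _,
      fun s z _ => map_smul _ _ _, hx.trans ?_, hy.trans ?_⟩
    · funext i
      exact (Finset.sum_apply i Finset.univ
        (fun s => (fun i => ζ₁ i s • v s : ι → V))).symm
    · funext i
      exact (Finset.sum_apply i Finset.univ
        (fun s => (fun i => ζ₂ i s • v s : ι → V))).symm

end Pool.Agent.P.MP_bebcd6_lc
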