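import Mathlib

namespace Pool.Agent.P.MP_bebcd6_lc

open scoped TensorProduct

/-- Terms of the language of right `A`-modules: variables, `0`, `+`, and for each `a : A` a unary
function symbol. -/
inductive Term (A : Type) : Type
  | var (n : ℕ)
  | zero
  | add (s t : Term A)
  | act (a : A) (t : Term A)

/-- First-order formulas: equations, falsum, implication, universal quantifier. -/
inductive Formula (A : Type) : Type
  | eq (s t : Term A)
  | bot
  | imp (p q : Formula A)
  | all (n : ℕ) (p : Formula A)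

/-- The variables of a term. -/
def Term.vars {A : Type} : Term A → Finset ℕ
  | .var n => {n}
  | .zero => ∅
  | .add s t => s.vars ∪ t.vars
  | .act _ t => t.vars

/-- The free variables of a formula. -/
def Formula.free {A : Type} : Formula A → Finset ℕ
  | .eq s t => s.vars ∪ t.vars
  | .bot => ∅
  | .imp p q => p.free ∪ q.free
  | .all n p => p.free.erase n

/-- The value of a term in a right `A`-module `N`; the symbol of `a` is right multiplication
by `a`. -/
def Term.eval {A : Type} [Ring A] {N : Type} [AddCommGroup N] [Module Aᵐᵒᵖ N] (v : ℕ → N) :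
    Term A → N
  | .var n => v n
  | .zero => 0
  | .add s t => s.eval v + t.eval v
  | .act a t => MulOpposite.op a • t.eval v

/-- Satisfaction of a formula in a right `A`-module `N` under an assignment `v`. -/
def Formula.Sat {A : Type} [Ring A] {N : Type} [AddCommGroup N] [Module Aᵐᵒᵖ N] :
    Formula A → (ℕ → N) → Prop
  | .eq s t, v => s.eval v = t.eval v
  | .bot, _ => False
  | .imp p q, v => p.Sat v → q.Sat v
  | .all n p, v => ∀ x : N, p.Sat (Function.update v n x)

/-- The theory of right `A`-modules: the sentences true in every right `A`-module. -/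
def theory (A : Type) [Ring A] : Set (Formula A) :=
  {p | p.free = ∅ ∧ ∀ (N : Type) [AddCommGroup N] [Module Aᵐᵒᵖ N] (v : ℕ → N), p.Sat v}

/-- Goedel number of a term, given numbers `e a` for the elements of `A`. -/
def Term.code {A : Type} (e : A → ℕ) : Term A → ℕ
  | .var n => Nat.pair 0 n
  | .zero => Nat.pair 1 0
  | .add s t => Nat.pair 2 (Nat.pair (s.code e) (t.code e))
  | .act a t => Nat.pair 3 (Nat.pair (e a) (t.code e))

/-- Goedel number of a formula. -/
def Formula.code {A : Type} (e : A → ℕ) : Formula A → ℕ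
  | .eq s t => Nat.pair 0 (Nat.pair (s.code e) (t.code e))
  | .bot => Nat.pair 1 0
  | .imp p q => Nat.pair 2 (Nat.pair (p.code e) (q.code e))
  | .all n p => Nat.pair 3 (Nat.pair n (p.code e))

/-- A module is indecomposable: nonzero and not the direct sum of two nonzero submodules. -/
def Indec (S M : Type) [Ring S] [AddCommGroup M] [Module S M] : Prop :=
  Nontrivial M ∧ ∀ p q : Submodule S M, IsCompl p q → p = ⊥ ∨ q = ⊥

/-- The right `A`-submodule of `B ⊗[k] M` spanned by the elements `(s b) ⊗ m - b ⊗ (m s)`. -/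
def TenRel (k S A M B : Type) [Field k] [Ring S] [Ring A] [Algebra k A]
    [AddCommGroup M] [Module k M] [Module Sᵐᵒᵖ M]
    [AddCommGroup B] [Module k B] [Module S B] [Module Aᵐᵒᵖ B] [IsScalarTower k Aᵐᵒᵖ B] :
    Submodule Aᵐᵒᵖ (B ⊗[k] M) :=
  Submodule.span Aᵐᵒᵖ
    {z : B ⊗[k] M | ∃ (s : S) (b : B) (m : M), z = (s • b) ⊗ₜ[k] m - b ⊗ₜ[k] (MulOpposite.op s • m)}

/-- The tensor product over `S` of a right `S`-module `M` with an `S`-`A`-bimodule `B`, as a right
`A`-module: the tensor product over `k` modulo the elements `(s b) ⊗ m - b ⊗ (m s)`. -/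
abbrev Ten (k S A M B : Type) [Field k] [Ring S] [Ring A] [Algebra k A]
    [AddCommGroup M] [Module k M] [Module Sᵐᵒᵖ M]
    [AddCommGroup B] [Module k B] [Module S B] [Module Aᵐᵒᵖ B] [IsScalarTower k Aᵐᵒᵖ B] : Type :=
  (B ⊗[k] M) ⧸ TenRel k S A M B

/-- Tensoring with `B` preserves indecomposability of finite-dimensional right `S`-modules. -/
def Preserves (k S A B : Type) [Field k] [Ring S] [Algebra k S] [Ring A] [Algebra k A]
    [AddCommGroup B] [Module k B] [Module S B] [Module Aᵐᵒᵖ B] [IsScalarTower k Aᵐᵒᵖ B] : Prop :=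
  ∀ (M : Type) [AddCommGroup M] [Module k M] [Module Sᵐᵒᵖ M] [IsScalarTower k Sᵐᵒᵖ M]
    [FiniteDimensional k M], Indec Sᵐᵒᵖ M → Indec Aᵐᵒᵖ (Ten k S A M B)

/-- Tensoring with `B` reflects isomorphism of finite-dimensional right `S`-modules. -/
def Reflects (k S A B : Type) [Field k] [Ring S] [Algebra k S] [Ring A] [Algebra k A]
    [AddCommGroup B] [Module k B] [Module S B] [Module Aᵐᵒᵖ B] [IsScalarTower k Aᵐᵒᵖ B] : Prop :=
  ∀ (M M' : Type) [AddCommGroup M] [Module k M] [Module Sᵐᵒᵖ M] [IsScalarTower k Sᵐᵒᵖ M]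
    [FiniteDimensional k M] [AddCommGroup M'] [Module k M'] [Module Sᵐᵒᵖ M']
    [IsScalarTower k Sᵐᵒᵖ M'] [FiniteDimensional k M'],
    Nonempty (Ten k S A M B ≃ₗ[Aᵐᵒᵖ] Ten k S A M' B) → Nonempty (M ≃ₗ[Sᵐᵒᵖ] M')

/-- There is an `S`-`A`-bimodule `B`, finitely generated and free over `S`, such that tensoring
with `B` preserves indecomposability and reflects isomorphism. -/
def Embeds (k S A : Type) [Field k] [Ring S] [Algebra k S] [Ring A] [Algebra k A] : Prop :=
  ∃ (B : Type) (_ : AddCommGroup B) (_ : Module k B) (_ : Module S B) (_ : Module Aᵐᵒᵖ B)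
    (_ : IsScalarTower k S B) (_ : IsScalarTower k Aᵐᵒᵖ B) (_ : SMulCommClass S Aᵐᵒᵖ B),
    Module.Free S B ∧ Module.Finite S B ∧ Preserves k S A B ∧ Reflects k S A B

/-- `A` is wild: such a bimodule exists for `S = k⟨X,Y⟩`. -/
def Wild (k A : Type) [Field k] [Ring A] [Algebra k A] : Prop :=
  Embeds k (FreeAlgebra k (Fin 2)) A

end Pool.Agent.P.MP_bebcd6_lc
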