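import Pool.Agent.P.MP_bebcd6_lc.FMod

/-! A map through which all maps that are far from split factor. -/

namespace Pool.Agent.P.MP_bebcd6_lc

variable {K Λ : Type} [Field K] [Ring Λ] [Algebra K Λ]

theorem exists_trace_form {C β : Type} [AddCommGroup C] [Module K C] [Fintype β]
    (b : Module.Basis β K C) (τ : (C →ₗ[K] C) →ₗ[K] K) :
    ∃ w : β → C, ∀ f : C →ₗ[K] C, τ f = ∑ s, b.repr (f (w s)) s := by
  classical
  refine ⟨fun s' => ∑ s, τ ((b.coord s).smulRight (b s')) • b s, fun f => ?_⟩
  have hf : f = ∑ s', ∑ s, b.repr (f (b s)) s' • (b.coord s).smulRight (b s') := by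
    refine b.ext fun t => ?_
    simp only [LinearMap.sum_apply, LinearMap.smul_apply, LinearMap.smulRight_apply,
      Module.Basis.coord_apply, Module.Basis.repr_self, Finsupp.single_apply]
    conv_lhs => rw [← b.sum_repr (f (b t))]
    refine Finset.sum_congr rfl fun s' _ => ?_
    rw [Finset.sum_eq_single t]
    · simp
    · intro s _ hs
      rw [if_neg (Ne.symm hs)]; simp
    · simp
  conv_lhs => rw [hf]
  simp only [map_sum, map_smul, Finsupp.coe_finsetSum, Finset.sum_apply, Finsupp.coe_smul,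
    Pi.smul_apply, smul_eq_mul]
  refine Finset.sum_congr rfl fun s' _ => Finset.sum_congr rfl fun s _ => mul_comm _ _

theorem exists_rad [FiniteDimensional K Λ] (C : FMod K Λ) (J : Submodule K (C.C →ₗ[Λ] C.C))
    (hJ : LinearMap.id ∉ J) :
    ∃ (C₀ : FMod K Λ) (u₀ : C.C →ₗ[Λ] C₀.C), (∀ r : C₀.C →ₗ[Λ] C.C, r ∘ₗ u₀ ≠ LinearMap.id) ∧
      ∀ (N : FMod K Λ) (h : C.C →ₗ[Λ] N.C), (¬ ∃ h' : C₀.C →ₗ[Λ] N.C, h' ∘ₗ u₀ = h) →
        ∃ r : N.C →ₗ[Λ] C.C, r ∘ₗ h ∉ J := by
  classical
  let ρ : (C.C →ₗ[Λ] C.C) →ₗ[K] (C.C →ₗ[K] C.C) :=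
    { toFun := fun f => f.restrictScalars K
      map_add' := fun _ _ => rfl
      map_smul' := fun _ _ => rfl }
  have hid : (LinearMap.id : C.C →ₗ[K] C.C) ∉ J.map ρ := by
    rintro ⟨f, hf, hf'⟩
    apply hJ
    have : f = LinearMap.id := LinearMap.ext fun x => LinearMap.congr_fun hf' x
    exact this ▸ hf
  obtain ⟨τ, hτ1, hτ2⟩ := Submodule.exists_le_ker_of_notMem hid
  let b := Module.finBasis K C.C
  let a := Module.finBasis K Λ
  obtain ⟨w1, hw1⟩ := exists_trace_form b τ
  let T := Fin (Module.finrank K Λ) × Fin (Module.finrank K C.C)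
  let D : FMod K Λ := ⟨T → Λ⟩
  let w2 : Fin (Module.finrank K C.C) → T → Λ := fun s' =>
    ∑ t, (Pi.single (t, s') (a t) : T → Λ) -
      ∑ p : T, b.repr (a p.1 • b s') p.2 • (Pi.single p (1 : Λ) : T → Λ)
  obtain ⟨C₀, u₀, H⟩ := exists_po C D (fun s' => (w1 s', w2 s'))
  have hg : ∀ (N : FMod K Λ) (g : (T → Λ) →ₗ[Λ] N.C) (s'), g (w2 s') =
      ∑ t, a t • g (Pi.single (t, s') 1) -
        ∑ p : T, b.repr (a p.1 • b s') p.2 • g (Pi.single p 1) := by
    intro N g s'
    simp only [w2, map_sub, map_sum, LinearMap.map_smul_of_tower]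
    congr 1
    refine Finset.sum_congr rfl fun t _ => ?_
    rw [← map_smul, ← Pi.single_smul', smul_eq_mul, mul_one]
  have easy : ∀ (g : (T → Λ) →ₗ[Λ] C.C), ∑ s', b.repr (g (w2 s')) s' = 0 := by
    intro g
    simp only [hg C g, map_sub, map_sum, map_smul, Finsupp.coe_sub, Finsupp.coe_finsetSum,
      Finsupp.coe_smul, Pi.sub_apply, Finset.sum_apply, Pi.smul_apply, smul_eq_mul,
      Finset.sum_sub_distrib]
    rw [sub_eq_zero, Finset.sum_comm, ← Fintype.sum_prod_type', Finset.sum_comm]
    refine Finset.sum_congr rfl fun p _ => ?_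
    conv_lhs => rw [← b.sum_repr (g (Pi.single (p.1, p.2) 1))]
    simp only [Finset.smul_sum, map_sum, Finsupp.coe_finsetSum, Finset.sum_apply]
    refine Finset.sum_congr rfl fun s' _ => ?_
    rw [smul_comm, map_smul, Finsupp.coe_smul, Pi.smul_apply, smul_eq_mul, mul_comm]
  refine ⟨C₀, u₀, fun r hr => ?_, fun N h hh => ?_⟩
  · obtain ⟨g, hg'⟩ := (H C LinearMap.id).1 ⟨r, hr⟩
    apply hτ1
    rw [hw1, ← neg_eq_zero, ← easy g, ← Finset.sum_neg_distrib]
    refine Finset.sum_congr rfl fun s' _ => ?_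
    have := hg' s'
    simp only [LinearMap.id_coe, id_eq] at this ⊢
    rw [eq_neg_of_add_eq_zero_right this]; simp
  · let Θ : (T → N.C) →ₗ[K] (Fin (Module.finrank K C.C) → N.C) :=
      { toFun := fun n s' => ∑ t, a t • n (t, s') - ∑ p : T, b.repr (a p.1 • b s') p.2 • n p
        map_add' := fun n n' => by
          ext s'; simp [Finset.sum_add_distrib]; abel
        map_smul' := fun c n => by
          ext s'
          simp only [Pi.smul_apply, RingHom.id_apply, smul_sub, Finset.smul_sum]
          congr 1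
          · exact Finset.sum_congr rfl fun t _ => smul_comm _ _ _
          · exact Finset.sum_congr rfl fun t _ => smul_comm _ _ _ }
    have hnot : (fun s' => h (w1 s')) ∉ LinearMap.range Θ := by
      rintro ⟨n, hn⟩
      apply hh
      refine (H N h).2 ⟨-(Fintype.linearCombination Λ n), fun s' => ?_⟩
      have h1 := hg N (Fintype.linearCombination Λ n) s'
      simp only [Fintype.linearCombination_apply_single, one_smul] at h1
      rw [LinearMap.neg_apply, add_neg_eq_zero]
      exact (congrFun hn s').symm.trans h1.symm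
    obtain ⟨μ, hμ1, hμ2⟩ := Submodule.exists_le_ker_of_notMem hnot
    let r₀ : N.C →ₗ[K] C.C :=
      ∑ s', (μ ∘ₗ LinearMap.single K (fun _ => N.C) s').smulRight (b s')
    have hr₀ : ∀ n s, b.repr (r₀ n) s = μ (Pi.single s n) := by
      intro n s
      simp only [r₀, LinearMap.sum_apply, LinearMap.smulRight_apply, LinearMap.comp_apply,
        LinearMap.coe_single]
      exact congrFun (b.repr_sum_self _) s
    have hμsum : ∀ v : Fin (Module.finrank K C.C) → N.C, μ v = ∑ s, μ (Pi.single s (v s)) := by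
      intro v
      rw [← map_sum, Finset.univ_sum_single]
    have hlin : ∀ t n, r₀ (a t • n) = a t • r₀ n := by
      intro t n
      refine b.ext_elem fun s => ?_
      have h0 : μ (Θ (Pi.single (t, s) n)) = 0 := hμ2 ⟨_, rfl⟩
      rw [hμsum] at h0
      have h1 : ∀ s', Θ (Pi.single (t, s) n) s' =
          (Pi.single s (a t • n) : Fin (Module.finrank K C.C) → N.C) s' -
            b.repr (a t • b s') s • n := by
        intro s'
        change ∑ t', a t' • (Pi.single (t, s) n : T → N.C) (t', s') -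
          ∑ p : T, b.repr (a p.1 • b s') p.2 • (Pi.single (t, s) n : T → N.C) p = _
        congr 1
        · rw [Finset.sum_eq_single t]
          · by_cases hs : s' = s
            · subst hs; simp
            · rw [Pi.single_eq_of_ne hs, Pi.single_eq_of_ne (fun h => hs (Prod.ext_iff.1 h).2), smul_zero]
          · intro t' _ ht
            rw [Pi.single_eq_of_ne (fun h => ht (Prod.ext_iff.1 h).1), smul_zero]
          · simp
        · rw [Finset.sum_eq_single (t, s)]
          · simp
          · intro p _ hp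
            rw [Pi.single_eq_of_ne hp, smul_zero]
          · simp
      simp only [h1, Pi.single_sub, map_sub, Finset.sum_sub_distrib] at h0
      rw [← hμsum, sub_eq_zero] at h0
      rw [hr₀, h0]
      conv_rhs => rw [← b.sum_repr (r₀ n)]
      simp only [Finset.smul_sum, map_sum, Finsupp.coe_finsetSum, Finset.sum_apply]
      refine Finset.sum_congr rfl fun s' _ => ?_
      rw [smul_comm (a t), b.repr.map_smul, Finsupp.coe_smul, Pi.smul_apply, hr₀,
        Pi.single_smul', μ.map_smul, smul_eq_mul, smul_eq_mul, mul_comm]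
    let r : N.C →ₗ[Λ] C.C :=
      { toFun := r₀
        map_add' := r₀.map_add
        map_smul' := fun x n => by
          rw [RingHom.id_apply, ← a.sum_repr x]
          simp only [Finset.sum_smul, map_sum, smul_assoc, map_smul, hlin] }
    refine ⟨r, fun hmem => hμ1 ?_⟩
    have h2 : τ (ρ (r ∘ₗ h)) = 0 := hτ2 ⟨_, hmem, rfl⟩
    rw [hw1] at h2
    rw [hμsum, ← h2]
    exact Finset.sum_congr rfl fun s _ => (hr₀ _ _).symm

end Pool.Agent.P.MP_bebcd6_lc
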