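import Pool.Agent.P.MP_bebcd6_lc.Chain
import Pool.Agent.P.MP_bebcd6_lc.Rad

/-! The dichotomy: a generic direct summand, or definable endomorphisms without generic
eigenvalue. -/

namespace Pool.Agent.P.MP_bebcd6_lc

open Filter

variable {K Λ : Type} [Field K] [Ring Λ] [Algebra K Λ]

/-- `(D, c, c')` defines an endomorphism of `φ / ψ` on `N` -/
def Fn (ψ φ : Pt K Λ) (D : FMod K Λ) (c c' : D.C) (N : FMod K Λ) : Prop :=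
  (∀ h : D.C →ₗ[Λ] N.C, h c ∈ φ.ev N.C ∧ h c' ∈ φ.ev N.C) ∧
    (∀ x ∈ φ.ev N.C, ∃ h : D.C →ₗ[Λ] N.C, h c - x ∈ ψ.ev N.C) ∧
    ∀ h : D.C →ₗ[Λ] N.C, h c ∈ ψ.ev N.C → h c' ∈ ψ.ev N.C

/-- `a` is not an eigenvalue of that endomorphism -/
def Inj (ψ : Pt K Λ) (D : FMod K Λ) (c c' : D.C) (a : K) (N : FMod K Λ) : Prop :=
  ∀ h : D.C →ₗ[Λ] N.C, h c' - a • h c ∈ ψ.ev N.C → h c ∈ ψ.ev N.C

namespace GCtx

variable (Γ : GCtx K Λ)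

/-- generically all values at `y` lie in `χ` -/
def Into (χ : Pt K Λ) {C : FMod K Λ} (y : C.C) : Prop :=
  ∀ᶠ M in Γ.F, ∀ h : C.C →ₗ[Λ] (Γ.N M).C, h y ∈ χ.ev (Γ.N M).C

variable {Γ}

theorem Into.map {χ : Pt K Λ} {C C' : FMod K Λ} {y : C.C} (H : Γ.Into χ y)
    (u : C.C →ₗ[Λ] C'.C) : Γ.Into χ (u y) :=
  H.mono fun _ hM h => hM (h ∘ₗ u)

theorem MinPair.rel {ψ φ : Pt K Λ} (hm : Γ.MinPair ψ φ) {C : FMod K Λ} {y : C.C} (z : C.C)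
    (χ : Pt K Λ) (hy : Γ.Into φ y) :
    (∀ᶠ M in Γ.F, ∀ h : C.C →ₗ[Λ] (Γ.N M).C, h z ∈ χ.ev (Γ.N M).C → h y ∈ ψ.ev (Γ.N M).C) ∨
      ∀ᶠ M in Γ.F, ∀ t ∈ φ.ev (Γ.N M).C, ∃ h : C.C →ₗ[Λ] (Γ.N M).C,
        h z ∈ χ.ev (Γ.N M).C ∧ h y - t ∈ ψ.ev (Γ.N M).C := by
  obtain ⟨C', u, H⟩ := exists_po1 C z χ
  rcases hm ⟨C', u y⟩ with h1 | h1
  · left
    filter_upwards [h1, hy] with M h1 hy h hz
    obtain ⟨h', rfl⟩ := (H _ h).2 hz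
    exact h1 ⟨⟨h', rfl⟩, hy _⟩
  · right
    filter_upwards [h1] with M h1 t ht
    obtain ⟨_, ⟨h', rfl⟩, s, hs, rfl⟩ := Submodule.mem_sup.1 (h1 ht)
    refine ⟨h' ∘ₗ u, (H _ _).1 ⟨h', rfl⟩, ?_⟩
    simpa using hs

theorem MinPair.onto {ψ φ : Pt K Λ} (hm : Γ.MinPair ψ φ) {C : FMod K Λ} {y : C.C}
    (hy : Γ.Into φ y) (hb : ¬ Γ.Into ψ y) :
    ∀ᶠ M in Γ.F, ∀ t ∈ φ.ev (Γ.N M).C, ∃ h : C.C →ₗ[Λ] (Γ.N M).C, h y - t ∈ ψ.ev (Γ.N M).C := by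
  rcases hm.rel 0 ψ hy with h | h
  · exact absurd (h.mono fun M hM h => hM h (by simp)) hb
  · exact h.mono fun M hM t ht => (hM t ht).imp fun _ h => h.2

theorem scalar_of_not_inj {ψ φ : Pt K Λ} (hm : Γ.MinPair ψ φ) {D : FMod K Λ} {c c' : D.C} {a : K}
    (hF : ∀ᶠ M in Γ.F, Fn ψ φ D c c' (Γ.N M)) (hI : ¬ ∀ᶠ M in Γ.F, Inj ψ D c c' a (Γ.N M)) :
    ∀ᶠ M in Γ.F, ∀ h : D.C →ₗ[Λ] (Γ.N M).C, h c' - a • h c ∈ ψ.ev (Γ.N M).C := by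
  rcases hm.rel (y := c) (c' - a • c) ψ (hF.mono fun M hM h => (hM.1 h).1) with h1 | h1
  · refine absurd (h1.mono fun M hM h hh => hM h ?_) hI
    rwa [map_sub, LinearMap.map_smul_of_tower]
  · filter_upwards [h1, hF] with M h1 hF h
    obtain ⟨h₁, e1, e2⟩ := h1 _ (hF.1 h).1
    have e3 := hF.2.2 (h₁ - h) e2
    rw [map_sub, LinearMap.map_smul_of_tower] at e1
    have := Submodule.sub_mem _ e1 (Submodule.sub_mem _ e3 (Submodule.smul_mem _ a e2))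
    convert this using 1
    simp only [LinearMap.sub_apply, smul_sub]; abel

theorem exists_not_mem {ψ : Pt K Λ} {C : FMod K Λ} {y : C.C} (hb : ¬ Γ.Into ψ y) :
    ∀ᶠ M in Γ.F, ∃ h : C.C →ₗ[Λ] (Γ.N M).C, h y ∉ ψ.ev (Γ.N M).C := by
  obtain ⟨ω, hω⟩ := exists_sup ⟨C, y⟩ ψ
  have := Γ.not_le_of_not (P := ψ) (Q := ω)
    (Eventually.of_forall fun M => by rw [hω]; exact le_sup_right) (fun H => hb (by
      filter_upwards [H] with M hM h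
      refine hM ?_
      rw [hω]; exact Submodule.mem_sup_left ⟨h, rfl⟩))
  filter_upwards [this] with M hM
  by_contra hc
  push Not at hc
  apply hM
  rw [hω]
  refine sup_le ?_ le_rfl
  rintro _ ⟨h, rfl⟩
  exact hc h

variable (Γ) in
/-- `u` keeps `x` outside `ψ` and the maps factoring through `u` are generically fewest -/
def Good (ψ : Pt K Λ) {C C' : FMod K Λ} (x : C.C) (u : C.C →ₗ[Λ] C'.C) : Prop :=
  ¬ Γ.Into ψ (u x) ∧ ∀ (C'' : FMod K Λ) (u' : C'.C →ₗ[Λ] C''.C), ¬ Γ.Into ψ (u' (u x)) →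
    ∀ᶠ M in Γ.F, ∀ h : C'.C →ₗ[Λ] (Γ.N M).C, ∃ h'' : C''.C →ₗ[Λ] (Γ.N M).C,
      h'' ∘ₗ u' ∘ₗ u = h ∘ₗ u

theorem exists_good {ψ : Pt K Λ} {C : FMod K Λ} {x : C.C} (hb : ¬ Γ.Into ψ x) :
    ∃ (C' : FMod K Λ) (u : C.C →ₗ[Λ] C'.C), Γ.Good ψ x u := by
  classical
  have hex : ∃ m, ∃ (C' : FMod K Λ) (u : C.C →ₗ[Λ] C'.C), ¬ Γ.Into ψ (u x) ∧
      Γ.Lin (fun M => Module.finrank K (LinearMap.range (pre K (Γ.N M).C u))) m := by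
    obtain ⟨m, hm⟩ := Γ.pre_lin (LinearMap.id : C.C →ₗ[Λ] C.C)
    exact ⟨m, C, LinearMap.id, hb, hm⟩
  obtain ⟨C', u, h1, h2⟩ := Nat.find_spec hex
  refine ⟨C', u, h1, fun C'' u' h3 => ?_⟩
  obtain ⟨m, hm⟩ := Γ.pre_lin (u' ∘ₗ u)
  have hle := Nat.find_min' hex ⟨C'', u' ∘ₗ u, h3, hm⟩
  filter_upwards [h2, hm] with M e1 e2 h
  have hsub : LinearMap.range (pre K (Γ.N M).C (u' ∘ₗ u)) ≤
      LinearMap.range (pre K (Γ.N M).C u) := by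
    rintro _ ⟨g, rfl⟩
    exact ⟨g ∘ₗ u', rfl⟩
  have := Submodule.eq_of_le_of_finrank_le hsub (by
    rw [e1, e2]; exact Nat.mul_le_mul_right _ hle)
  have hmem : h ∘ₗ u ∈ LinearMap.range (pre K (Γ.N M).C (u' ∘ₗ u)) := this ▸ ⟨h, rfl⟩
  exact hmem

theorem Good.key {ψ : Pt K Λ} {C C' : FMod K Λ} {x : C.C} {u : C.C →ₗ[Λ] C'.C}
    (hg : Γ.Good ψ x u) (z : C.C) (χ : Pt K Λ) :
    Γ.Into χ (u z) ∨ ∀ᶠ M in Γ.F, ∀ h : C'.C →ₗ[Λ] (Γ.N M).C,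
      h (u z) ∈ χ.ev (Γ.N M).C → h (u x) ∈ ψ.ev (Γ.N M).C := by
  obtain ⟨C'', u', H⟩ := exists_po1 C' (u z) χ
  by_cases hb : Γ.Into ψ (u' (u x))
  · right
    filter_upwards [hb] with M hM h hz
    obtain ⟨h', rfl⟩ := (H _ h).2 hz
    exact hM h'
  · left
    filter_upwards [hg.2 C'' u' hb] with M hM h
    obtain ⟨h'', e⟩ := hM h
    have := (H _ (h'' ∘ₗ u')).1 ⟨h'', rfl⟩
    have e' : h'' (u' (u z)) = h (u z) := LinearMap.congr_fun e z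
    rwa [← e']

theorem Good.rad {ψ : Pt K Λ} {C C' : FMod K Λ} {x : C.C} {u : C.C →ₗ[Λ] C'.C}
    (hg : Γ.Good ψ x u) {χ χ' : Pt K Λ} (hm : Γ.MinPair χ χ') {z : C.C}
    (hz : Γ.Into χ' (u z)) : ∀ᶠ M in Γ.F, ∀ h : C'.C →ₗ[Λ] (Γ.N M).C,
      h (u x) ∈ ψ.ev (Γ.N M).C → h (u z) ∈ χ.ev (Γ.N M).C := by
  rcases hg.key z χ with h1 | h1
  · exact h1.mono fun M hM h _ => hM h
  rcases hm.rel (u x) ψ hz with h2 | h2
  · exact h2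
  · refine absurd ?_ hg.1
    filter_upwards [h1, h2, hz] with M h1 h2 hz h
    obtain ⟨h₁, e1, e2⟩ := h2 _ (hz h)
    have := Submodule.sub_mem _ e1 (h1 (h₁ - h) e2)
    simpa using this

theorem Good.step {ψ φ : Pt K Λ} (hm0 : Γ.MinPair ψ φ)
    (hA : ∀ (D : FMod K Λ) (c c' : D.C), (∀ᶠ M in Γ.F, Fn ψ φ D c c' (Γ.N M)) →
      ∃ a : K, ¬ ∀ᶠ M in Γ.F, Inj ψ D c c' a (Γ.N M))
    {C C' : FMod K Λ} {x : C.C} {u : C.C →ₗ[Λ] C'.C} (hx : Γ.Into φ x)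
    (hg : Γ.Good ψ x u) {χ χ' : Pt K Λ} (hm : Γ.MinPair χ χ') {z z' : C.C}
    (hz : Γ.Into χ' (u z)) (hz' : Γ.Into χ' (u z')) (hn : ¬ Γ.Into χ (u z)) :
    ∃ a : K, Γ.Into χ (u (z' - a • z)) := by
  obtain ⟨D, w, H⟩ := exists_po1 (C'.prod C') (-u z', u z) χ
  have H' : ∀ (N : FMod K Λ) (h h' : C'.C →ₗ[Λ] N.C), h' (u z) - h (u z') ∈ χ.ev N.C →
      ∃ g : D.C →ₗ[Λ] N.C, (∀ y, g (w (y, 0)) = h y) ∧ ∀ y, g (w (0, y)) = h' y := by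
    intro N h h' hh
    obtain ⟨g, hg⟩ := (H N (h.coprod h')).2 (by
      convert hh using 1
      simp only [LinearMap.coprod_apply, map_neg]; abel)
    refine ⟨g, fun y => ?_, fun y => ?_⟩
    · have := LinearMap.congr_fun hg (y, 0); simpa using this
    · have := LinearMap.congr_fun hg (0, y); simpa using this
  have H'' : ∀ (N : FMod K Λ) (g : D.C →ₗ[Λ] N.C),
      g (w (0, u z)) - g (w (u z', 0)) ∈ χ.ev N.C := by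
    intro N g
    have := (H N (g ∘ₗ w)).1 ⟨g, rfl⟩
    convert this using 1
    rw [LinearMap.comp_apply, ← map_sub, ← map_sub]
    congr 2
    ext <;> simp
  have hk : ∀ᶠ M in Γ.F, ∀ h : C'.C →ₗ[Λ] (Γ.N M).C,
      h (u z) ∈ χ.ev (Γ.N M).C → h (u x) ∈ ψ.ev (Γ.N M).C := (hg.key z χ).resolve_left hn
  have hF : ∀ᶠ M in Γ.F, Fn ψ φ D (w (u x, 0)) (w (0, u x)) (Γ.N M) := by
    filter_upwards [hx.map u, hm0.onto (hx.map u) hg.1, hm.onto hz hn, hz', hk, hg.rad hm hz']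
      with M e1 e2 e3 e4 e5 e6
    refine ⟨fun g => ⟨e1 (g ∘ₗ w ∘ₗ LinearMap.inl Λ _ _), e1 (g ∘ₗ w ∘ₗ LinearMap.inr Λ _ _)⟩,
      fun t ht => ?_, fun g hg => ?_⟩
    · obtain ⟨h, hh⟩ := e2 t ht
      obtain ⟨h', hh'⟩ := e3 _ (e4 h)
      obtain ⟨g, g1, -⟩ := H' _ h h' hh'
      exact ⟨g, by rwa [g1]⟩
    · have a1 := e6 (g ∘ₗ w ∘ₗ LinearMap.inl Λ _ _) hg
      have a2 := Submodule.add_mem _ (H'' _ g) a1
      refine e5 (g ∘ₗ w ∘ₗ LinearMap.inr Λ _ _) ?_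
      convert a2 using 1
      simp
  obtain ⟨a, ha⟩ := hA D _ _ hF
  refine ⟨a, ?_⟩
  filter_upwards [scalar_of_not_inj hm0 hF ha, hm.onto hz hn, hz', hg.rad hm hz]
    with M e1 e3 e4 e6 h
  obtain ⟨h', hh'⟩ := e3 _ (e4 h)
  obtain ⟨g, g1, g2⟩ := H' _ h h' hh'
  have a1 := e1 g
  rw [g1, g2] at a1
  have a2 := Submodule.sub_mem _ (e6 (h' - a • h) a1) hh'
  convert a2 using 1
  simp only [map_sub, LinearMap.map_smul_of_tower, LinearMap.sub_apply, LinearMap.smul_apply]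
  abel

variable (Γ) in
/-- elements whose values generically lie in `χ` -/
def Lev (χ : Pt K Λ) {C C' : FMod K Λ} (u : C.C →ₗ[Λ] C'.C) : Submodule K C.C where
  carrier := {z | Γ.Into χ (u z)}
  zero_mem' := Eventually.of_forall fun M h => by simp
  add_mem' := fun {a b} ha hb => by
    filter_upwards [ha, hb] with M h1 h2 h
    rw [map_add, map_add]; exact Submodule.add_mem _ (h1 h) (h2 h)
  smul_mem' := fun c a ha => by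
    filter_upwards [ha] with M h1 h
    rw [LinearMap.map_smul_of_tower, LinearMap.map_smul_of_tower]
    exact Submodule.smul_mem _ _ (h1 h)

variable (Γ) in
/-- elements generically killed -/
def Ker {C C' : FMod K Λ} (u : C.C →ₗ[Λ] C'.C) : Submodule Λ C.C where
  carrier := {z | ∀ᶠ M in Γ.F, ∀ h : C'.C →ₗ[Λ] (Γ.N M).C, h (u z) = 0}
  zero_mem' := Eventually.of_forall fun M h => by simp
  add_mem' := fun {a b} ha hb => by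
    filter_upwards [ha, hb] with M h1 h2 h
    rw [map_add, map_add, h1, h2, add_zero]
  smul_mem' := fun c a ha => by
    filter_upwards [ha] with M h1 h
    rw [map_smul, map_smul, h1, smul_zero]

theorem finrank_le_succ {V : Type} [AddCommGroup V] [Module K V] [FiniteDimensional K V]
    (p q : Submodule K V) (H : ∀ z ∈ q, ∀ z' ∈ q, z ∉ p → ∃ a : K, z' - a • z ∈ p) :
    Module.finrank K q ≤ Module.finrank K p + 1 := by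
  by_cases hle : q ≤ p
  · exact (Submodule.finrank_mono hle).trans (Nat.le_succ _)
  · obtain ⟨z, hz, hn⟩ := SetLike.not_le_iff_exists.1 hle
    have : q ≤ p ⊔ K ∙ z := fun z' hz' => by
      obtain ⟨a, ha⟩ := H z hz z' hz' hn
      exact Submodule.mem_sup.2 ⟨_, ha, a • z,
        Submodule.smul_mem _ _ (Submodule.mem_span_singleton_self z), by simp⟩
    refine (Submodule.finrank_mono this).trans ((Submodule.finrank_add_le_finrank_add_finrank _ _).trans ?_)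
    exact Nat.add_le_add_left (by simpa using finrank_span_le_card ({z} : Set V)) _

theorem Good.bound [FiniteDimensional K Λ] {ψ φ : Pt K Λ} (hm0 : Γ.MinPair ψ φ)
    (hA : ∀ (D : FMod K Λ) (c c' : D.C), (∀ᶠ M in Γ.F, Fn ψ φ D c c' (Γ.N M)) →
      ∃ a : K, ¬ ∀ᶠ M in Γ.F, Inj ψ D c c' a (Γ.N M))
    {C C' : FMod K Λ} {x : C.C} {u : C.C →ₗ[Λ] C'.C} (hx : Γ.Into φ x)
    (hg : Γ.Good ψ x u) : Module.finrank K (C.quot (Γ.Ker u)).C ≤ Γ.d + 1 := by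
  obtain ⟨χ, h0, h1, -, h3⟩ := Γ.exists_chain
  have key : ∀ j, Module.finrank K (Γ.Lev (χ j) u) ≤ Module.finrank K (Γ.Lev (χ 0) u) + j := by
    intro j
    induction j with
    | zero => exact le_rfl
    | succ j ih =>
      have := finrank_le_succ (Γ.Lev (χ j) u) (Γ.Lev (χ (j + 1)) u)
        fun z hz z' hz' hn => hg.step hm0 hA hx (h3 j) hz hz' hn
      omega
  have e1 : Γ.Lev (χ (Γ.d + 1)) u = ⊤ :=
    eq_top_iff.2 fun z _ => Eventually.of_forall fun M h => by rw [h1]; trivial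
  have e0 : Γ.Lev (χ 0) u = (Γ.Ker u).restrictScalars K := by
    ext z
    change Γ.Into (χ 0) (u z) ↔ ∀ᶠ M in Γ.F, ∀ h : C'.C →ₗ[Λ] (Γ.N M).C, h (u z) = 0
    simp only [Into, h0, Submodule.mem_bot]
  have e2 := key (Γ.d + 1)
  rw [e1, e0, finrank_top] at e2
  have e3 := LinearMap.finrank_range_add_finrank_ker ((Γ.Ker u).mkQ.restrictScalars K)
  rw [(LinearMap.range_eq_top (f := (Γ.Ker u).mkQ.restrictScalars K)).2 (Γ.Ker u).mkQ_surjective,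
    finrank_top,
    LinearMap.ker_restrictScalars, Submodule.ker_mkQ] at e3
  change Module.finrank K (C.C ⧸ Γ.Ker u) ≤ _
  omega

theorem Good.quot {ψ : Pt K Λ} {C C' : FMod K Λ} {x : C.C} {u : C.C →ₗ[Λ] C'.C}
    (hg : Γ.Good ψ x u) : ∃ (C₁ : FMod K Λ) (u₁ : (C.quot (Γ.Ker u)).C →ₗ[Λ] C₁.C),
      Γ.Good ψ (C := C.quot (Γ.Ker u)) ((Γ.Ker u).mkQ x) u₁ ∧ Γ.Ker u₁ = ⊥ := by
  let p : Submodule Λ C'.C := (Γ.Ker u).map u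
  let u₁ : (C.quot (Γ.Ker u)).C →ₗ[Λ] (C'.quot p).C :=
    (Γ.Ker u).mapQ p u (Submodule.le_comap_map _ _)
  have hu : ∀ z, u₁ ((Γ.Ker u).mkQ z) = p.mkQ (u z) := fun z => rfl
  have hfac : ∀ᶠ M in Γ.F, ∀ h : C'.C →ₗ[Λ] (Γ.N M).C,
      ∃ h₁ : (C'.quot p).C →ₗ[Λ] (Γ.N M).C, ∀ y, h₁ (p.mkQ y) = h y := by
    let b := Module.finBasis K ((Γ.Ker u).restrictScalars K)
    have : ∀ᶠ M in Γ.F, ∀ i, ∀ h : C'.C →ₗ[Λ] (Γ.N M).C, h (u (b i)) = 0 :=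
      eventually_all.2 fun i => (b i).2
    filter_upwards [this] with M hM h
    refine ⟨p.liftQ h ?_, fun y => rfl⟩
    rintro _ ⟨z, hz, rfl⟩
    have e : z = ∑ i, b.repr ⟨z, hz⟩ i • (b i : C.C) := by
      have := congrArg ((Γ.Ker u).restrictScalars K).subtype (b.sum_repr ⟨z, hz⟩)
      rw [map_sum] at this
      exact this.symm
    rw [LinearMap.mem_ker, e]
    simp [hM]
  refine ⟨C'.quot p, u₁, ⟨fun H => hg.1 ?_, fun C'' u' hb => ?_⟩, ?_⟩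
  · filter_upwards [H, hfac] with M h1 h2 h
    obtain ⟨h₁, e⟩ := h2 h
    rw [← e]; exact h1 h₁
  · filter_upwards [hg.2 C'' (u' ∘ₗ p.mkQ) hb] with M hM h
    obtain ⟨h'', e⟩ := hM (h ∘ₗ p.mkQ)
    refine ⟨h'', LinearMap.ext fun z => ?_⟩
    obtain ⟨z, rfl⟩ := (Γ.Ker u).mkQ_surjective z
    exact LinearMap.congr_fun e z
  · rw [eq_bot_iff]
    intro z hz
    obtain ⟨z, rfl⟩ := (Γ.Ker u).mkQ_surjective z
    refine (Submodule.Quotient.mk_eq_zero _).2 ?_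
    filter_upwards [hz, hfac] with M h1 h2 h
    obtain ⟨h₁, e⟩ := h2 h
    rw [← e]; exact h1 h₁

theorem Good.split {ψ φ : Pt K Λ} {C C' : FMod K Λ} {x : C.C} {u : C.C →ₗ[Λ] C'.C}
    (hx : Γ.Into φ x) (hg : Γ.Good ψ x u) (hK : Γ.Ker u = ⊥)
    (hmax : ∀ (C₁ C₂ : FMod K Λ) (y : C₁.C) (w : C₁.C →ₗ[Λ] C₂.C), Γ.Into φ y → Γ.Good ψ y w →
      Module.finrank K (C₁.quot (Γ.Ker w)).C ≤ Module.finrank K C.C) :
    ∃ r : C'.C →ₗ[Λ] C.C, r ∘ₗ u = LinearMap.id := by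
  obtain ⟨C'', u', hg'⟩ := exists_good hg.1
  have hinj : Function.Injective ((Γ.Ker u').mkQ ∘ₗ u) := by
    rw [← LinearMap.ker_eq_bot, eq_bot_iff, ← hK]
    intro z hz
    have hz' : u z ∈ Γ.Ker u' := (Submodule.Quotient.mk_eq_zero _).1 hz
    filter_upwards [hz', hg.2 C'' u' hg'.1] with M h1 h2 h
    obtain ⟨h'', e⟩ := h2 h
    exact (LinearMap.congr_fun e z).symm.trans (h1 h'')
  have hle := hmax C' C'' (u x) u' (hx.map u) hg'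
  let f : C.C →ₗ[K] (C'.quot (Γ.Ker u')).C := ((Γ.Ker u').mkQ ∘ₗ u).restrictScalars K
  have hsurj : Function.Surjective f :=
    (LinearMap.injective_iff_surjective_of_finrank_eq_finrank
      (le_antisymm (LinearMap.finrank_le_finrank_of_injective (f := f) hinj) hle)).1 hinj
  let e := LinearEquiv.ofBijective ((Γ.Ker u').mkQ ∘ₗ u) ⟨hinj, hsurj⟩
  exact ⟨e.symm.toLinearMap ∘ₗ (Γ.Ker u').mkQ, LinearMap.ext fun z => e.symm_apply_apply z⟩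

theorem Good.summand [FiniteDimensional K Λ] {ψ φ : Pt K Λ} {C C' : FMod K Λ} {x : C.C}
    {u : C.C →ₗ[Λ] C'.C} (hx : Γ.Into φ x) (hg : Γ.Good ψ x u) (hK : Γ.Ker u = ⊥)
    (hmax : ∀ (C₁ C₂ : FMod K Λ) (y : C₁.C) (w : C₁.C →ₗ[Λ] C₂.C), Γ.Into φ y → Γ.Good ψ y w →
      Module.finrank K (C₁.quot (Γ.Ker w)).C ≤ Module.finrank K C.C) :
    Nontrivial C.C ∧ ∀ᶠ M in Γ.F, ∃ (i : C.C →ₗ[Λ] (Γ.N M).C)
      (r : (Γ.N M).C →ₗ[Λ] C.C), r ∘ₗ i = LinearMap.id := by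
  obtain ⟨r, hr⟩ := hg.split hx hK hmax
  have hrx : ∀ z, r (u z) = z := fun z => LinearMap.congr_fun hr z
  have hb : ¬ Γ.Into ψ x := fun H => hg.1 (H.map u)
  have hall : ∀ (W : FMod K Λ) (w : C.C →ₗ[Λ] W.C), ¬ Γ.Into ψ (w x) →
      ∀ᶠ M in Γ.F, ∀ g : C.C →ₗ[Λ] (Γ.N M).C, ∃ h : W.C →ₗ[Λ] (Γ.N M).C, h ∘ₗ w = g := by
    intro W w hw
    filter_upwards [hg.2 W (w ∘ₗ r) (by rwa [LinearMap.comp_apply, hrx])] with M hM g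
    obtain ⟨h, e⟩ := hM (g ∘ₗ r)
    refine ⟨h, LinearMap.ext fun z => ?_⟩
    have := LinearMap.congr_fun e z
    simpa only [LinearMap.comp_apply, hrx] using this
  have hsplit : ∀ (W : FMod K Λ) (w : C.C →ₗ[Λ] W.C), ¬ Γ.Into ψ (w x) →
      ∃ s : W.C →ₗ[Λ] C.C, s ∘ₗ w = LinearMap.id := by
    intro W w hw
    refine Good.split (ψ := ψ) hx ⟨hw, fun C'' u' hu' => ?_⟩ ?_ hmax
    · exact (hall C'' (u' ∘ₗ w) hu').mono fun M hM h => hM _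
    · rw [eq_bot_iff, ← hK]
      intro z hz
      filter_upwards [hz, hall W w hw] with M h1 h2 h
      obtain ⟨g, e⟩ := h2 (h ∘ₗ u)
      exact (LinearMap.congr_fun e z).symm.trans (h1 g)
  let J : Submodule K (C.C →ₗ[Λ] C.C) :=
    (Γ.Lev ψ (LinearMap.id : C.C →ₗ[Λ] C.C)).comap (evalAt K Λ C.C x)
  obtain ⟨C₀, u₀, h1, h2⟩ := exists_rad C J hb
  have hs : Γ.Into ψ (u₀ x) := by
    by_contra hc
    obtain ⟨s, hs⟩ := hsplit C₀ u₀ hc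
    exact h1 s hs
  refine ⟨nontrivial_of_ne x 0 fun h0 => hb ?_, ?_⟩
  · rw [h0]; exact Eventually.of_forall fun M h => by simp
  filter_upwards [hs, exists_not_mem hb] with M e1 ⟨h, e2⟩
  obtain ⟨r', hr'⟩ := h2 (Γ.N M) h (by
    rintro ⟨h', rfl⟩
    exact e2 (e1 h'))
  obtain ⟨s, hs⟩ := hsplit C (r' ∘ₗ h) hr'
  exact ⟨h, s ∘ₗ r', hs⟩

theorem summand_of_scalar [FiniteDimensional K Λ] {ψ φ : Pt K Λ} (hm0 : Γ.MinPair ψ φ)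
    (hA : ∀ (D : FMod K Λ) (c c' : D.C), (∀ᶠ M in Γ.F, Fn ψ φ D c c' (Γ.N M)) →
      ∃ a : K, ¬ ∀ᶠ M in Γ.F, Inj ψ D c c' a (Γ.N M)) :
    ∃ C : FMod K Λ, Nontrivial C.C ∧ ∀ᶠ M in Γ.F, ∃ (i : C.C →ₗ[Λ] (Γ.N M).C)
      (r : (Γ.N M).C →ₗ[Λ] C.C), r ∘ₗ i = LinearMap.id := by
  classical
  have hφ : Γ.Into φ (C := φ.M) φ.c := Eventually.of_forall fun M h => ⟨h, rfl⟩
  have hb : ¬ Γ.Into ψ (C := φ.M) φ.c := by
    intro H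
    obtain ⟨a, ha⟩ := hA φ.M φ.c φ.c (Eventually.of_forall fun M =>
      ⟨fun h => ⟨⟨h, rfl⟩, ⟨h, rfl⟩⟩, by
        rintro _ ⟨h, rfl⟩
        exact ⟨h, by simp⟩, fun _ h => h⟩)
    exact ha (H.mono fun M hM h _ => hM h)
  let S : ℕ → Prop := fun m => ∃ (C₁ C₂ : FMod K Λ) (y : C₁.C) (w : C₁.C →ₗ[Λ] C₂.C),
    Γ.Into φ y ∧ Γ.Good ψ y w ∧ Module.finrank K (C₁.quot (Γ.Ker w)).C = m
  obtain ⟨C₂, w₂, hw₂⟩ := exists_good hb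
  obtain ⟨C₃, C₄, y, w, hy, hw, hm⟩ : S (Nat.findGreatest S (Γ.d + 1)) :=
    Nat.findGreatest_spec (hw₂.bound hm0 hA hφ) ⟨_, _, _, w₂, hφ, hw₂, rfl⟩
  obtain ⟨C', u, hg, hK⟩ := hw.quot
  have hx : Γ.Into φ (C := C₃.quot (Γ.Ker w)) ((Γ.Ker w).mkQ y) :=
    hy.map (C' := C₃.quot (Γ.Ker w)) (Γ.Ker w).mkQ
  have hmax : ∀ (C₁ C₂ : FMod K Λ) (y : C₁.C) (w' : C₁.C →ₗ[Λ] C₂.C), Γ.Into φ y →
      Γ.Good ψ y w' →
      Module.finrank K (C₁.quot (Γ.Ker w')).C ≤ Module.finrank K (C₃.quot (Γ.Ker w)).C := by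
    intro C₁ C₂ y' w' h1 h2
    rw [hm]
    exact Nat.le_findGreatest (h2.bound hm0 hA h1) ⟨_, _, _, w', h1, h2, rfl⟩
  exact ⟨_, hg.summand hx hK hmax⟩

variable (Γ) in
theorem dichotomy [FiniteDimensional K Λ] :
    (∃ C : FMod K Λ, Nontrivial C.C ∧ ∀ᶠ M in Γ.F, ∃ (i : C.C →ₗ[Λ] (Γ.N M).C)
      (r : (Γ.N M).C →ₗ[Λ] C.C), r ∘ₗ i = LinearMap.id) ∨
    ∃ φ : ℕ → Pt K Λ, (∀ N : FMod K Λ, (φ 0).ev N.C = ⊥) ∧
      (∀ N : FMod K Λ, (φ (Γ.d + 1)).ev N.C = ⊤) ∧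
      (∀ i, ∀ N : FMod K Λ, (φ i).ev N.C ≤ (φ (i + 1)).ev N.C) ∧
      ∀ i, ∃ (D : FMod K Λ) (c c' : D.C), (∀ᶠ M in Γ.F, Fn (φ i) (φ (i + 1)) D c c' (Γ.N M)) ∧
        ∀ a : K, ∀ᶠ M in Γ.F, Inj (φ i) D c c' a (Γ.N M) := by
  obtain ⟨φ, h0, h1, h2, h3⟩ := Γ.exists_chain
  by_cases H : ∀ i, ∃ (D : FMod K Λ) (c c' : D.C),
      (∀ᶠ M in Γ.F, Fn (φ i) (φ (i + 1)) D c c' (Γ.N M)) ∧
        ∀ a : K, ∀ᶠ M in Γ.F, Inj (φ i) D c c' a (Γ.N M)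
  · exact Or.inr ⟨φ, h0, h1, h2, H⟩
  · left
    obtain ⟨i, hi⟩ := not_forall.1 H
    refine summand_of_scalar (h3 i) fun D c c' hF => ?_
    by_contra hc
    exact hi ⟨D, c, c', hF, fun a => not_not.1 fun h => hc ⟨a, h⟩⟩

end GCtx

end Pool.Agent.P.MP_bebcd6_lc
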