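import Pool.Agent.P.MP_bebcd6_lc.Basic

/-! Finite-dimensional modules, pointed modules and the subgroups they define. -/

namespace Pool.Agent.P.MP_bebcd6_lc

/-- a finite-dimensional module, bundled -/
structure FMod (K Λ : Type) [Field K] [Ring Λ] [Algebra K Λ] where
  C : Type
  [acg : AddCommGroup C]
  [modK : Module K C]
  [modΛ : Module Λ C]
  [tower : IsScalarTower K Λ C]
  [fd : FiniteDimensional K C]

attribute [instance] FMod.acg FMod.modK FMod.modΛ FMod.tower FMod.fd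

variable {K Λ : Type} [Field K] [Ring Λ] [Algebra K Λ]

/-- product of two bundled modules -/
abbrev FMod.prod (C D : FMod K Λ) : FMod K Λ := ⟨C.C × D.C⟩

/-- quotient of a bundled module -/
abbrev FMod.quot (C : FMod K Λ) (p : Submodule Λ C.C) : FMod K Λ :=
  @FMod.mk K Λ _ _ _ (C.C ⧸ p) _ _ _ _
    (Module.Finite.of_surjective (p.mkQ.restrictScalars K) p.mkQ_surjective)

/-- a module with a chosen element -/
structure Pt (K Λ : Type) [Field K] [Ring Λ] [Algebra K Λ] where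
  M : FMod K Λ
  c : M.C

section Ev

variable {C N N' : Type} [AddCommGroup C] [Module Λ C]
  [AddCommGroup N] [Module K N] [Module Λ N] [IsScalarTower K Λ N]
  [AddCommGroup N'] [Module K N'] [Module Λ N'] [IsScalarTower K Λ N']

variable (K Λ N) in
/-- evaluation of homomorphisms at an element -/
def evalAt (c : C) : (C →ₗ[Λ] N) →ₗ[K] N where
  toFun h := h c
  map_add' _ _ := rfl
  map_smul' _ _ := rfl

@[simp] theorem evalAt_apply (c : C) (h : C →ₗ[Λ] N) : evalAt K Λ N c h = h c := rfl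

variable (N) in
/-- the subgroup of `N` defined by a pointed module -/
def Pt.ev (P : Pt K Λ) : Submodule K N := LinearMap.range (evalAt K Λ N P.c)

theorem Pt.mem_ev {P : Pt K Λ} {x : N} : x ∈ P.ev N ↔ ∃ h : P.M.C →ₗ[Λ] N, h P.c = x := Iff.rfl

theorem Pt.map_mem {P : Pt K Λ} {x : N} (hx : x ∈ P.ev N) (f : N →ₗ[Λ] N') : f x ∈ P.ev N' := by
  obtain ⟨h, rfl⟩ := hx
  exact ⟨f ∘ₗ h, rfl⟩

variable (N) in
/-- dimension of the space of homomorphisms killing the chosen element -/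
noncomputable def Pt.nu (P : Pt K Λ) : ℕ :=
  Module.finrank K (LinearMap.ker (evalAt K Λ N P.c))

variable (K N) in
/-- precomposition -/
def pre {C' : Type} [AddCommGroup C'] [Module Λ C'] (u : C →ₗ[Λ] C') :
    (C' →ₗ[Λ] N) →ₗ[K] (C →ₗ[Λ] N) where
  toFun h := h ∘ₗ u
  map_add' _ _ := rfl
  map_smul' _ _ := rfl

@[simp] theorem pre_apply {C' : Type} [AddCommGroup C'] [Module Λ C'] (u : C →ₗ[Λ] C')
    (h : C' →ₗ[Λ] N) : pre K N u h = h ∘ₗ u := rfl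

end Ev

/-- pushout lemma -/
theorem exists_po (C D : FMod K Λ) {s : Type} (w : s → C.C × D.C) :
    ∃ (C' : FMod K Λ) (u : C.C →ₗ[Λ] C'.C), ∀ (N : FMod K Λ) (h : C.C →ₗ[Λ] N.C),
      (∃ h' : C'.C →ₗ[Λ] N.C, h' ∘ₗ u = h) ↔
        ∃ g : D.C →ₗ[Λ] N.C, ∀ i, h (w i).1 + g (w i).2 = 0 := by
  let p : Submodule Λ (C.prod D).C := Submodule.span Λ (Set.range w)
  refine ⟨(C.prod D).quot p, p.mkQ ∘ₗ LinearMap.inl Λ C.C D.C, fun N h => ⟨?_, ?_⟩⟩
  · rintro ⟨h', rfl⟩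
    refine ⟨h' ∘ₗ p.mkQ ∘ₗ LinearMap.inr Λ C.C D.C, fun i => ?_⟩
    simp only [LinearMap.comp_apply]
    rw [← map_add, ← map_add]
    have : (LinearMap.inl Λ C.C D.C (w i).1 + LinearMap.inr Λ C.C D.C (w i).2) = w i := by simp
    rw [this]
    have h0 : p.mkQ (w i) = 0 :=
      (Submodule.Quotient.mk_eq_zero p).2 (Submodule.subset_span ⟨i, rfl⟩)
    rw [h0, map_zero]
  · rintro ⟨g, hg⟩
    refine ⟨p.liftQ (h.coprod g) ?_, ?_⟩
    · refine Submodule.span_le.2 ?_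
      rintro _ ⟨i, rfl⟩
      exact hg i
    · ext x; simp

theorem exists_po1 (C : FMod K Λ) (z : C.C) (χ : Pt K Λ) :
    ∃ (C' : FMod K Λ) (u : C.C →ₗ[Λ] C'.C), ∀ (N : FMod K Λ) (h : C.C →ₗ[Λ] N.C),
      (∃ h' : C'.C →ₗ[Λ] N.C, h' ∘ₗ u = h) ↔ h z ∈ χ.ev N.C := by
  obtain ⟨C', u, H⟩ := exists_po C χ.M (fun _ : Unit => (z, -χ.c))
  refine ⟨C', u, fun N h => (H N h).trans ?_⟩
  rw [Pt.mem_ev]
  refine exists_congr fun g => ?_
  simp only [map_neg, forall_const]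
  rw [add_neg_eq_zero, eq_comm]

theorem exists_inf (χ φ : Pt K Λ) :
    ∃ ω : Pt K Λ, ∀ N : FMod K Λ, ω.ev N.C = χ.ev N.C ⊓ φ.ev N.C := by
  obtain ⟨C', u, H⟩ := exists_po1 χ.M χ.c φ
  refine ⟨⟨C', u χ.c⟩, fun N => ?_⟩
  ext x
  rw [Submodule.mem_inf, Pt.mem_ev]
  constructor
  · rintro ⟨h, rfl⟩
    exact ⟨⟨h ∘ₗ u, rfl⟩, (H N (h ∘ₗ u)).1 ⟨h, rfl⟩⟩
  · rintro ⟨⟨h, rfl⟩, hx⟩
    obtain ⟨h', rfl⟩ := (H N h).2 hx
    exact ⟨h', rfl⟩

theorem exists_sup (χ φ : Pt K Λ) :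
    ∃ ω : Pt K Λ, ∀ N : FMod K Λ, ω.ev N.C = χ.ev N.C ⊔ φ.ev N.C := by
  refine ⟨⟨χ.M.prod φ.M, (χ.c, φ.c)⟩, fun N => ?_⟩
  ext x
  rw [Submodule.mem_sup, Pt.mem_ev]
  constructor
  · rintro ⟨h, rfl⟩
    refine ⟨_, ⟨h ∘ₗ LinearMap.inl Λ _ _, rfl⟩, _, ⟨h ∘ₗ LinearMap.inr Λ _ _, rfl⟩, ?_⟩
    simp only [evalAt_apply, LinearMap.comp_apply]
    rw [← map_add]; simp
  · rintro ⟨_, ⟨h, rfl⟩, _, ⟨g, rfl⟩, rfl⟩
    exact ⟨h.coprod g, rfl⟩

variable (K Λ) in
/-- the regular module -/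
abbrev reg [FiniteDimensional K Λ] : FMod K Λ := ⟨Λ⟩

theorem ev_zero (C : FMod K Λ) (N : Type) [AddCommGroup N] [Module K N] [Module Λ N]
    [IsScalarTower K Λ N] : (Pt.mk C 0).ev N = ⊥ := by
  rw [eq_bot_iff]
  rintro _ ⟨h, rfl⟩
  simp

theorem ev_one [FiniteDimensional K Λ] (N : Type) [AddCommGroup N] [Module K N] [Module Λ N]
    [IsScalarTower K Λ N] : (Pt.mk (reg K Λ) (1 : Λ)).ev N = ⊤ := by
  rw [eq_top_iff]
  intro x _
  exact ⟨LinearMap.toSpanSingleton Λ N x, by simp⟩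

theorem nu_zero (C N : FMod K Λ) : (Pt.mk C 0).nu N.C = Module.finrank K (C.C →ₗ[Λ] N.C) := by
  have : LinearMap.ker (evalAt K Λ N.C (0 : C.C)) = ⊤ := by
    ext h; simp
  rw [Pt.nu, this, finrank_top]

theorem finrank_ev_add (P : Pt K Λ) (N : FMod K Λ) :
    Module.finrank K (P.ev N.C) + P.nu N.C = Module.finrank K (P.M.C →ₗ[Λ] N.C) :=
  LinearMap.finrank_range_add_finrank_ker _

theorem finrank_ker_pre {C C' : FMod K Λ} (u : C.C →ₗ[Λ] C'.C) (N : FMod K Λ) :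
    Module.finrank K (LinearMap.ker (pre K N.C u)) =
      Module.finrank K ((C'.quot (LinearMap.range u)).C →ₗ[Λ] N.C) := by
  symm
  have hinj : Function.Injective (pre K N.C (LinearMap.range u).mkQ) := by
    intro h h' hh
    exact LinearMap.ext fun x => by
      obtain ⟨x, rfl⟩ := (LinearMap.range u).mkQ_surjective x
      exact LinearMap.congr_fun hh x
  have heq : LinearMap.range (pre K N.C (LinearMap.range u).mkQ) = LinearMap.ker (pre K N.C u) := by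
    ext h
    simp only [LinearMap.mem_range, LinearMap.mem_ker, pre_apply]
    constructor
    · rintro ⟨g, rfl⟩
      ext x
      have : (LinearMap.range u).mkQ (u x) = 0 :=
        (Submodule.Quotient.mk_eq_zero _).2 ⟨x, rfl⟩
      simp only [LinearMap.comp_apply, this, map_zero, LinearMap.zero_apply]
    · intro hh
      refine ⟨(LinearMap.range u).liftQ h ?_, ?_⟩
      · rintro _ ⟨x, rfl⟩
        exact LinearMap.congr_fun hh x
      · ext x; simp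
  rw [← LinearMap.finrank_range_of_inj hinj, heq]

end Pool.Agent.P.MP_bebcd6_lc
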