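import Pool.Agent.P.MP_bebcd6_lc.Basic

/-! Minors and the generic rank of a matrix over the free algebra. -/

namespace Pool.Agent.P.MP_bebcd6_lc.Gn

open Matrix MvPolynomial Module

section Minor

variable {F p q : Type} [Field F] [Fintype p] [Fintype q]

omit [Fintype p] in
lemma exists_cols (A : Matrix p q F) {r : ℕ} (h : A.rank = r) :
    ∃ g : Fin r → q, LinearIndependent F fun j => A.col (g j) := by
  obtain ⟨κ, a, ha, h1, h2⟩ := exists_linearIndependent' F A.col
  have : Finite κ := Finite.of_injective a ha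
  have := Fintype.ofFinite κ
  have hc : Fintype.card κ = r := by
    rw [← h, rank_eq_finrank_span_cols, ← h1, finrank_span_eq_card h2]
  exact ⟨fun j => a ((Fintype.equivFinOfCardEq hc).symm j),
    h2.comp _ (Fintype.equivFinOfCardEq hc).symm.injective⟩

lemma exists_minor (A : Matrix p q F) {r : ℕ} (h : A.rank = r) :
    ∃ (f : Fin r → p) (g : Fin r → q), (A.submatrix f g).det ≠ 0 := by
  obtain ⟨g, hg⟩ := exists_cols A h
  have h1 : (A.submatrix id g)ᵀ.rank = r := by
    simpa using LinearIndependent.rank_matrix (M := (A.submatrix id g)ᵀ) hg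
  obtain ⟨f, hf⟩ := exists_cols _ h1
  refine ⟨f, g, ?_⟩
  have h2 : IsUnit (A.submatrix f g) := linearIndependent_rows_iff_isUnit.1 hf
  exact ((isUnit_iff_isUnit_det _).1 h2).ne_zero

omit [Fintype p] in
lemma card_le_rank {ι : Type} [Fintype ι] [DecidableEq ι] (A : Matrix p q F) {f : ι → p}
    {g : ι → q} (h : (A.submatrix f g).det ≠ 0) : Fintype.card ι ≤ A.rank :=
  (rank_of_det_ne_zero h).symm.trans_le (rank_submatrix_le A f g)

lemma totalDegree_det_le {σ ι : Type} [Fintype ι] [DecidableEq ι]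
    (M : Matrix ι ι (MvPolynomial σ F)) {E : ℕ} (h : ∀ i j, (M i j).totalDegree ≤ E) :
    M.det.totalDegree ≤ Fintype.card ι * E := by
  rw [det_apply']
  refine totalDegree_finsetSum_le fun s _ => (totalDegree_mul _ _).trans ?_
  rw [← map_intCast (C : F →+* MvPolynomial σ F), totalDegree_C, zero_add]
  exact (totalDegree_finsetProd _ _).trans (by
    simpa using Finset.sum_le_card_nsmul Finset.univ _ E fun i _ => h (s i) i)

end Minor

variable {K : Type} [Field K] {p q : Type}

section Big

variable {n : Type} [Fintype n] [DecidableEq n] {R : Type} [CommRing R] [Algebra K R]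

/-- The matrix obtained by substituting a pair of square matrices. -/
noncomputable def big (Ψ : Matrix p q (FreeAlgebra K (Fin 2))) (T : Fin 2 → Matrix n n R) :
    Matrix (p × n) (q × n) R :=
  Matrix.of fun a b => FreeAlgebra.lift K T (Ψ a.1 b.1) a.2 b.2

lemma lift_hom {A B : Type} [Ring A] [Ring B] [Algebra K A] [Algebra K B] (θ : A →ₐ[K] B)
    (T : Fin 2 → A) (a : FreeAlgebra K (Fin 2)) :
    FreeAlgebra.lift K (fun i => θ (T i)) a = θ (FreeAlgebra.lift K T a) := by
  have : FreeAlgebra.lift K (fun i => θ (T i)) = θ.comp (FreeAlgebra.lift K T) := by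
    ext i
    simp
  rw [this, AlgHom.comp_apply]

lemma big_map {R' : Type} [CommRing R'] [Algebra K R'] (φ : R →ₐ[K] R')
    (Ψ : Matrix p q (FreeAlgebra K (Fin 2))) (T : Fin 2 → Matrix n n R) :
    big Ψ (fun i => (T i).map φ) = (big Ψ T).map φ := by
  ext a b
  have h := lift_hom (φ.mapMatrix : Matrix n n R →ₐ[K] Matrix n n R') T (Ψ a.1 b.1)
  exact congrFun (congrFun h a.2) b.2

lemma big_pencil (Ψ₀ Ψ₁ : Matrix p q (FreeAlgebra K (Fin 2))) (c : K)
    (T : Fin 2 → Matrix n n R) : big (Ψ₀ + c • Ψ₁) T = big Ψ₀ T + c • big Ψ₁ T := by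
  ext a b
  simp [big]

variable (K n) in
/-- The pair of generic matrices. -/
noncomputable def Gm : Fin 2 → Matrix n n (MvPolynomial (Fin 2 × n × n) K) :=
  fun i => Matrix.of fun a b => X (i, a, b)

/-- A minor at the generic matrices. -/
noncomputable def minorP (Ψ : Matrix p q (FreeAlgebra K (Fin 2))) {ι : Type} [Fintype ι]
    [DecidableEq ι] (f : ι → p × n) (g : ι → q × n) : MvPolynomial (Fin 2 × n × n) K :=
  ((big Ψ (Gm K n)).submatrix f g).det

lemma map_minorP (Ψ : Matrix p q (FreeAlgebra K (Fin 2))) {ι : Type} [Fintype ι]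
    [DecidableEq ι] (f : ι → p × n) (g : ι → q × n) (φ : MvPolynomial (Fin 2 × n × n) K →ₐ[K] R) :
    φ (minorP Ψ f g) = ((big Ψ fun i => (Gm K n i).map φ).submatrix f g).det := by
  rw [big_map, minorP, AlgHom.map_det]
  rfl

lemma aeval_minorP (Ψ : Matrix p q (FreeAlgebra K (Fin 2))) {ι : Type} [Fintype ι]
    [DecidableEq ι] (f : ι → p × n) (g : ι → q × n) (x : Fin 2 × n × n → R) :
    aeval x (minorP Ψ f g) =
      ((big Ψ fun i => Matrix.of fun a b => x (i, a, b)).submatrix f g).det := by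
  rw [map_minorP]
  congr 3
  funext i
  ext a b
  simp [Gm]

variable [Fintype p] [Fintype q]

variable (n) in
/-- The generic rank. -/
noncomputable def rho (Ψ : Matrix p q (FreeAlgebra K (Fin 2))) : ℕ :=
  (big Ψ fun i => (Gm K n i).map (IsScalarTower.toAlgHom K (MvPolynomial (Fin 2 × n × n) K)
    (FractionRing (MvPolynomial (Fin 2 × n × n) K)))).rank

variable (Ψ : Matrix p q (FreeAlgebra K (Fin 2)))

omit [Fintype p] in
lemma rho_le_card : rho n Ψ ≤ Fintype.card q * Fintype.card n :=
  (rank_le_card_width _).trans_eq (Fintype.card_prod _ _)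

omit [Fintype p] in
lemma card_le_rho {ι : Type} [Fintype ι] [DecidableEq ι] {f : ι → p × n} {g : ι → q × n}
    (h : minorP Ψ f g ≠ 0) : Fintype.card ι ≤ rho n Ψ := by
  refine card_le_rank _ (f := f) (g := g) ?_
  rw [← map_minorP]
  exact (map_ne_zero_iff _ (IsFractionRing.injective _ _)).2 h

variable (n) in
lemma exists_minor_rho : ∃ (f : Fin (rho n Ψ) → p × n) (g : Fin (rho n Ψ) → q × n),
    minorP Ψ f g ≠ 0 := by
  obtain ⟨f, g, h⟩ := exists_minor _ (rfl : _ = rho n Ψ)
  refine ⟨f, g, fun h0 => h ?_⟩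
  rw [← map_minorP, h0, map_zero]

lemma rank_le_rho {L : Type} [Field L] [Algebra K L] (T : Fin 2 → Matrix n n L) :
    (big Ψ T).rank ≤ rho n Ψ := by
  obtain ⟨f, g, h⟩ := exists_minor (big Ψ T) rfl
  have h1 : minorP Ψ f g ≠ 0 := fun h0 => h (by
    have := aeval_minorP Ψ f g fun v => T v.1 v.2.1 v.2.2
    rw [h0, map_zero] at this
    exact this.symm)
  simpa using card_le_rho Ψ h1

lemma rank_eq_rho {L : Type} [Field L] [Algebra K L] {f : Fin (rho n Ψ) → p × n}
    {g : Fin (rho n Ψ) → q × n} {x : Fin 2 × n × n → L} (h : aeval x (minorP Ψ f g) ≠ 0) :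
    (big Ψ fun i => Matrix.of fun a b => x (i, a, b)).rank = rho n Ψ := by
  refine le_antisymm (rank_le_rho Ψ _) ?_
  rw [aeval_minorP] at h
  simpa using card_le_rank _ h

lemma exists_point [Infinite K] {σ : Type} {P : MvPolynomial σ K} (h : P ≠ 0) :
    ∃ x : σ → K, aeval x P ≠ 0 := by
  by_contra! hc
  exact h (MvPolynomial.funext fun x => by rw [map_zero]; exact hc x)

/-- Repeating a square matrix along the diagonal. -/
noncomputable def rep (K : Type) [Field K] {n m n' : Type} [Fintype n] [DecidableEq n] [Fintype m]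
    [DecidableEq m] [Fintype n'] [DecidableEq n'] (e : n × m ≃ n') :
    Matrix n n K →ₐ[K] Matrix n' n' K :=
  (reindexAlgEquiv K K e).toAlgHom.comp (AlgHom.mk' ((blockDiagonalRingHom n m K).comp
    (Pi.constRingHom m _)) fun c A => blockDiagonal_smul c fun _ => A)

lemma mul_rho_le [Infinite K] {m n' : Type} [Fintype m] [DecidableEq m] [Fintype n']
    [DecidableEq n'] (e : n × m ≃ n') : rho n Ψ * Fintype.card m ≤ rho n' Ψ := by
  obtain ⟨f, g, h⟩ := exists_minor_rho n Ψ
  obtain ⟨x, hx⟩ := exists_point h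
  rw [aeval_minorP] at hx
  set T : Fin 2 → Matrix n n K := fun i => Matrix.of fun a b => x (i, a, b)
  refine le_trans ?_ (rank_le_rho Ψ fun i => rep K e (T i))
  have h1 := card_le_rank (big Ψ fun i => rep K e (T i))
    (f := fun j : Fin (rho n Ψ) × m => ((f j.1).1, e ((f j.1).2, j.2)))
    (g := fun j : Fin (rho n Ψ) × m => ((g j.1).1, e ((g j.1).2, j.2))) (by
      have : ((big Ψ fun i => rep K e (T i)).submatrix
          (fun j : Fin (rho n Ψ) × m => ((f j.1).1, e ((f j.1).2, j.2)))
          fun j : Fin (rho n Ψ) × m => ((g j.1).1, e ((g j.1).2, j.2))) =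
          blockDiagonal fun _ : m => (big Ψ T).submatrix f g := by
        ext a b
        simp only [big, submatrix_apply, of_apply, lift_hom]
        simp [rep, blockDiagonal_apply]
      rw [this, det_blockDiagonal]
      exact Finset.prod_ne_zero_iff.2 fun _ _ => hx)
  simpa using h1

end Big

lemma nul_add_rank [Fintype p] [Fintype q] (Ψ : Matrix p q (FreeAlgebra K (Fin 2))) {W n : Type}
    [AddCommGroup W] [Module K W] [Fintype n] [DecidableEq n] (e : Basis n K W)
    (X : Fin 2 → Module.End K W) :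
    nul Ψ X + (big Ψ fun i => LinearMap.toMatrix e e (X i)).rank =
      Fintype.card q * Fintype.card n := by
  let E : ∀ s : Type, (s → RMod X) ≃ₗ[K] (s × n → K) := fun s =>
    (LinearEquiv.piCongrRight fun _ : s => e.equivFun).trans (LinearEquiv.curry K K s n).symm
  have hE : ∀ (s : Type) (x : s → RMod X) (a : s × n), E s x a = e.repr (x a.1) a.2 :=
    fun _ _ _ => rfl
  have h1 : ∀ x, (big Ψ fun i => LinearMap.toMatrix e e (X i)).mulVecLin (E q x) =
      E p (matMap K (FreeAlgebra K (Fin 2)) (RMod X) Ψ x) := by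
    intro x
    funext a
    rw [hE, matMap_apply, mulVecLin_apply, mulVec, dotProduct, Fintype.sum_prod_type]
    change _ = e.repr (∑ j, (FreeAlgebra.lift K X (Ψ a.1 j) (x j) : W)) a.2
    rw [map_sum, Finsupp.finsetSum_apply]
    refine Finset.sum_congr rfl fun j _ => ?_
    have h2 := lift_hom (LinearMap.toMatrixAlgEquiv e).toAlgHom X (Ψ a.1 j)
    rw [← LinearMap.toMatrix_mulVec_repr e e]
    refine Finset.sum_congr rfl fun b _ => ?_
    exact congrArg (· * _) (congrFun (congrFun h2 a.2) b)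
  have h2 : LinearMap.ker (big Ψ fun i => LinearMap.toMatrix e e (X i)).mulVecLin =
      (LinearMap.ker (matMap K (FreeAlgebra K (Fin 2)) (RMod X) Ψ)).map (E q).toLinearMap := by
    ext y
    obtain ⟨x, rfl⟩ := (E q).surjective y
    rw [LinearMap.mem_ker, h1, map_eq_zero_iff _ (E p).injective]
    exact ⟨fun h => ⟨x, h, rfl⟩, fun ⟨x', h, h'⟩ => (E q).injective h' ▸ h⟩
  have h3 := LinearMap.finrank_range_add_finrank_ker
    (big Ψ fun i => LinearMap.toMatrix e e (X i)).mulVecLin
  rw [h2, LinearEquiv.finrank_map_eq, finrank_fintype_fun_eq_card, Fintype.card_prod,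
    add_comm] at h3
  exact h3

end Pool.Agent.P.MP_bebcd6_lc.Gn
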