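import Pool.Agent.P.MP_bebcd6_lc.GenA

/-! The size of the matrices divides the generic rank. -/

namespace Pool.Agent.P.MP_bebcd6_lc.Gn

open Matrix MvPolynomial Module

lemma exists_norm {L V : Type} [Field L] [AddCommGroup V] [Module L V] [FiniteDimensional L V]
    (σ : L →+* L) (S : V →ₛₗ[σ] V) (N : ℕ) (u : L) (h : ∀ v, S^[N] v = u • v) :
    ∃ δ : L, ∏ i ∈ Finset.range N, σ^[i] δ = u ^ finrank L V := by
  let e := finBasis L V
  let M : ℕ → Matrix (Fin (finrank L V)) (Fin (finrank L V)) L := fun k =>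
    Matrix.of fun i j => e.repr (S^[k] (e j)) i
  have h1 : ∀ k, M (k + 1) = M 1 * σ.mapMatrix (M k) := fun k => by
    ext i j
    simp only [M, of_apply, Function.iterate_succ_apply', Function.iterate_zero_apply, mul_apply,
      RingHom.mapMatrix_apply, map_apply]
    conv_lhs => rw [← e.sum_repr (S^[k] (e j))]
    simp only [map_sum, map_smulₛₗ, Finsupp.finsetSum_apply, Finsupp.smul_apply, smul_eq_mul,
      mul_comm, RingHom.id_apply]
  have h2 : ∀ k, (M k).det = ∏ i ∈ Finset.range k, σ^[i] (M 1).det := fun k => by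
    induction k with
    | zero =>
      have : M 0 = 1 := by
        ext i j
        simp [M, one_apply, Finsupp.single_apply, eq_comm]
      simp [this]
    | succ k ih =>
      rw [h1, det_mul, ← RingHom.map_det, ih, map_prod, Finset.prod_range_succ', mul_comm]
      simp only [Function.iterate_succ_apply', Function.iterate_zero_apply]
  refine ⟨(M 1).det, ?_⟩
  have h3 : M N = u • (1 : Matrix _ _ L) := by
    ext i j
    simp [M, h, one_apply, Finsupp.single_apply, eq_comm]
  rw [← h2, h3, det_smul, det_one, mul_one, Fintype.card_fin]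

lemma exists_point_of_span {K L n : Type} [Field K] [Infinite K] [Field L] [Algebra K L]
    [Fintype n] [DecidableEq n] (D : Subalgebra K (Matrix n n L))
    (hD : Submodule.span L (D : Set (Matrix n n L)) = ⊤) {P : MvPolynomial (Fin 2 × n × n) K}
    (hP : P ≠ 0) : ∃ T : Fin 2 → Matrix n n L, (∀ i, T i ∈ D) ∧
      aeval (fun v : Fin 2 × n × n => T v.1 v.2.1 v.2.2) P ≠ 0 := by
  obtain ⟨b, hb, h1, h2⟩ := exists_linearIndependent L (D : Set (Matrix n n L))
  have : Finite b := h2.finite
  have := Fintype.ofFinite b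
  let Q : MvPolynomial (Fin 2 × b) L := aeval
    (fun v : Fin 2 × n × n => ∑ j : b, X (v.1, j) * C (j.1 v.2.1 v.2.2)) P
  have hQ : ∀ a : Fin 2 × b → L, eval a Q = aeval
      (fun v : Fin 2 × n × n => (∑ j : b, a (v.1, j) • j.1) v.2.1 v.2.2) P := fun a => by
    have := comp_aeval_apply
      (f := fun v : Fin 2 × n × n => ∑ j : b, X (v.1, j) * C (j.1 v.2.1 v.2.2))
      ((aeval a : MvPolynomial (Fin 2 × b) L →ₐ[L] L).restrictScalars K) P
    refine this.trans ?_
    simp [Matrix.sum_apply]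
  by_contra! hc
  have hQ0 : Q = 0 := funext_set (fun _ => Set.range (algebraMap K L))
    (fun _ => Set.infinite_range_of_injective (algebraMap K L).injective) fun a ha => by
      rw [map_zero, hQ]
      refine hc (fun i => ∑ j : b, a (i, j) • j.1) fun i => sum_mem fun j _ => ?_
      obtain ⟨c, hc⟩ := ha (i, j) trivial
      rw [← hc, algebraMap_smul]
      exact D.smul_mem (hb j.2) c
  obtain ⟨x, hx⟩ := exists_point hP
  have h3 : ∀ M : Matrix n n L, ∃ c : b → L, ∑ j, c j • j.1 = M := fun M =>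
    (Submodule.mem_span_range_iff_exists_fun L).1 (by
      rw [Subtype.range_coe, h1, hD]; trivial)
  choose c hc' using h3
  have h4 := hQ fun j => c (Matrix.of fun a b => algebraMap K L (x (j.1, a, b))) j.2
  simp only [hc', of_apply, hQ0, map_zero] at h4
  exact hx ((map_eq_zero_iff _ (algebraMap K L).injective).1
    ((aeval_algebraMap_apply L x P).symm.trans h4.symm))

lemma eq_top_of_shift {L : Type} [Field L] {N : ℕ} [NeZero N]
    (A : Subalgebra L (Matrix (ZMod N) (ZMod N) L)) {t w : ZMod N → L}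
    (ht : Function.Injective t) (hw : ∀ a, w a ≠ 0) (h1 : diagonal t ∈ A)
    (h2 : (Matrix.of fun a b => if b = a - 1 then w a else 0) ∈ A) : A = ⊤ := by
  have h3 : ∀ a, single a a (1 : L) ∈ A := fun a => by
    have h4 : t ∈ A.comap (diagonalAlgHom L) := h1
    have h5 : ∏ b ∈ Finset.univ.erase a, (t a - t b)⁻¹ • (t - algebraMap L _ (t b)) ∈
        A.comap (diagonalAlgHom L) :=
      prod_mem fun b _ => Subalgebra.smul_mem _ (sub_mem h4 (Subalgebra.algebraMap_mem _ _)) _
    have h6 : ∏ b ∈ Finset.univ.erase a, (t a - t b)⁻¹ • (t - algebraMap L (ZMod N → L) (t b)) =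
        Pi.single a 1 := by
      funext x
      rw [Finset.prod_apply]
      by_cases hx : x = a
      · rw [hx, Pi.single_eq_same]
        exact Finset.prod_eq_one fun b hb => inv_mul_cancel₀
          (sub_ne_zero.2 (ht.ne (Finset.ne_of_mem_erase hb).symm))
      · rw [Pi.single_eq_of_ne hx]
        exact Finset.prod_eq_zero (i := x) (by simp [hx]) (by simp)
    rw [h6] at h5
    rw [← diagonal_single]
    exact h5
  have h4 : ∀ a, single (a + 1) a (1 : L) ∈ A := fun a => by
    have := A.smul_mem (A.mul_mem h2 (h3 a)) (w (a + 1))⁻¹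
    convert this using 1
    ext i j
    by_cases hj : j = a
    · subst hj
      by_cases hi : j + 1 = i
      · simp [← hi, hw]
      · have : j ≠ i - 1 := fun h => hi (by rw [h]; ring)
        simp [hi, this]
    · simp [hj, Ne.symm hj]
  have h5 : ∀ (k : ℕ) (a : ZMod N), single (a + k) a (1 : L) ∈ A := fun k a => by
    induction k with
    | zero => simpa using h3 a
    | succ k ih => simpa [add_assoc] using A.mul_mem (h4 (a + k)) ih
  refine eq_top_iff.2 fun M _ => ?_
  rw [matrix_eq_sum_single M]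
  refine sum_mem fun a _ => sum_mem fun b _ => ?_
  simpa using A.smul_mem (h5 (a - b).val b) (M a b)

section Twist

variable {K L : Type} [Field K] [Field L] [Algebra K L] {N : ℕ} [NeZero N]

/-- The twisted shift. -/
def tw (σ : L →ₐ[K] L) (w : ZMod N → L) (s : Type) :
    (s × ZMod N → L) →ₛₗ[(σ : L →+* L)] (s × ZMod N → L) where
  toFun c a := w a.2 * σ (c (a.1, a.2 - 1))
  map_add' c d := by ext a; simp [mul_add]
  map_smul' x c := by ext a; simp [mul_left_comm]

/-- Matrices commuting with the twisted shift. -/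
def Dd (σ : L →ₐ[K] L) (w : ZMod N → L) : Subalgebra K (Matrix (ZMod N) (ZMod N) L) where
  carrier := {T | ∀ c : ZMod N → L,
    T *ᵥ (fun a => w a * σ (c (a - 1))) = fun a => w a * σ ((T *ᵥ c) (a - 1))}
  mul_mem' {T T'} h h' c := by rw [← mulVec_mulVec, h', h, mulVec_mulVec]
  add_mem' {T T'} h h' c := by
    rw [add_mulVec, h, h', add_mulVec]
    ext a
    simp [mul_add]
  algebraMap_mem' r c := by
    ext a
    simp [Algebra.algebraMap_eq_smul_one, smul_mulVec]

omit [NeZero N] in
lemma tw_iterate (σ : L →ₐ[K] L) {w : ZMod N → L} (hw : ∀ a, σ (w a) = w a) (s : Type) (k : ℕ)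
    (c : s × ZMod N → L) (a : s × ZMod N) :
    (tw σ w s)^[k] c a = (∏ j ∈ Finset.range k, w (a.2 - j)) * σ^[k] (c (a.1, a.2 - k)) := by
  induction k generalizing a with
  | zero => simp
  | succ k ih =>
    rw [Function.iterate_succ_apply', Function.iterate_succ_apply', Finset.prod_range_succ']
    change w a.2 * σ ((tw σ w s)^[k] c (a.1, a.2 - 1)) = _
    simp only [ih, map_mul, map_prod, hw, Nat.cast_add, Nat.cast_one, Nat.cast_zero, sub_zero,
      sub_sub, add_comm (1 : ZMod N)]
    ring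

lemma big_tw {p q : Type} [Fintype q] (Ψ : Matrix p q (FreeAlgebra K (Fin 2))) (σ : L →ₐ[K] L)
    (w : ZMod N → L) {T : Fin 2 → Matrix (ZMod N) (ZMod N) L} (hT : ∀ i, T i ∈ Dd σ w)
    (c : q × ZMod N → L) : big Ψ T *ᵥ tw σ w q c = tw σ w p (big Ψ T *ᵥ c) := by
  have h1 : ∀ a, FreeAlgebra.lift K T a ∈ Dd σ w := fun a => by
    rw [show T = fun i => (Dd σ w).val ⟨T i, hT i⟩ from rfl, lift_hom]
    exact Subtype.prop _
  have h2 : ∀ (c : q × ZMod N → L) (a : p × ZMod N), (big Ψ T *ᵥ c) a =
      ∑ j, (FreeAlgebra.lift K T (Ψ a.1 j) *ᵥ fun b => c (j, b)) a.2 := fun c a => by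
    rw [mulVec, dotProduct, Fintype.sum_prod_type]
    rfl
  funext a
  change _ = w a.2 * σ ((big Ψ T *ᵥ c) (a.1, a.2 - 1))
  rw [h2, h2, map_sum, Finset.mul_sum]
  exact Finset.sum_congr rfl fun j _ => congrFun (h1 (Ψ a.1 j) fun b => c (j, b)) a.2

lemma span_Dd (σ : L →ₐ[K] L) {w : ZMod N → L} (hw : ∀ a, σ (w a) = w a) (w0 : ∀ a, w a ≠ 0)
    {t : ZMod N → L} (ht : Function.Injective t) (ht' : ∀ a, σ (t (a - 1)) = t a) :
    Submodule.span L (Dd σ w : Set (Matrix (ZMod N) (ZMod N) L)) = ⊤ := by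
  have h1 := eq_top_of_shift (Algebra.adjoin L (Dd σ w : Set (Matrix (ZMod N) (ZMod N) L)))
    (w := w) ht w0
    (Algebra.subset_adjoin fun c => by
      funext a
      simp [mulVec_diagonal, ht', mul_left_comm])
    (Algebra.subset_adjoin fun c => by
      funext a
      simp [mulVec, dotProduct, hw])
  have h2 := Algebra.adjoin_eq_span L (Dd σ w : Set (Matrix (ZMod N) (ZMod N) L))
  rw [h1, show Submonoid.closure (Dd σ w : Set (Matrix (ZMod N) (ZMod N) L)) =
    (Dd σ w).toSubmonoid from Submonoid.closure_eq (Dd σ w).toSubmonoid] at h2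
  exact h2.symm

lemma norm_of_stable {V : Type} [AddCommGroup V] [Module L V] [FiniteDimensional L V]
    (σ : L →+* L) (S : V →ₛₗ[σ] V) (N : ℕ) (u : L) (h : ∀ v, S^[N] v = u • v) (W : Submodule L V)
    (hW : ∀ c ∈ W, S c ∈ W) : ∃ δ : L, ∏ i ∈ Finset.range N, σ^[i] δ = u ^ finrank L W := by
  let S' : W →ₛₗ[σ] W := (S.domRestrict W).codRestrict W fun c => hW c.1 c.2
  have hS : ∀ k (c : W), (S'^[k] c).1 = S^[k] c.1 := fun k c => by
    induction k with
    | zero => rfl
    | succ k ih => rw [Function.iterate_succ_apply', Function.iterate_succ_apply', ← ih]; rfl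
  exact exists_norm σ S' N u fun c => Subtype.ext ((hS N c).trans (h c.1))

lemma exists_norm_rho [Infinite K] {p q : Type} [Fintype p] [Fintype q]
    (Ψ : Matrix p q (FreeAlgebra K (Fin 2))) (σ : L →ₐ[K] L) (hσN : ∀ x, σ^[N] x = x) {u : L}
    (u0 : u ≠ 0) (hu : σ u = u) {t : ZMod N → L} (ht : Function.Injective t)
    (ht' : ∀ a, σ (t (a - 1)) = t a) : ∃ (δ : L) (d : ℕ),
      ∏ i ∈ Finset.range N, σ^[i] δ = u ^ d ∧ rho (ZMod N) Ψ + d = Fintype.card q * N := by
  obtain ⟨w, hw'⟩ : ∃ w : ZMod N → L, ∀ a, w a = if a = 0 then u else 1 := ⟨_, fun _ => rfl⟩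
  have hw : ∀ a, σ (w a) = w a := fun a => by
    rw [hw']
    split_ifs
    · exact hu
    · exact map_one σ
  obtain ⟨f, g, hfg⟩ := exists_minor_rho (ZMod N) Ψ
  obtain ⟨T, hT, hT'⟩ := exists_point_of_span (Dd σ w)
    (span_Dd σ hw (fun a => by rw [hw']; split_ifs <;> simp [u0]) ht ht') hfg
  have hr := rank_eq_rho Ψ hT'
  change (big Ψ T).rank = _ at hr
  obtain ⟨δ, hδ⟩ := norm_of_stable (σ : L →+* L) (tw σ w q) N u (fun c => by
    funext a
    rw [tw_iterate σ hw, hσN, ZMod.natCast_self, sub_zero, Pi.smul_apply, smul_eq_mul,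
      Finset.prod_eq_single_of_mem a.2.val (Finset.mem_range.2 (ZMod.val_lt _))
      fun j hj hne => (hw' _).trans (if_neg fun h => hne (by
        rw [sub_eq_zero.1 h, ZMod.val_cast_of_lt (Finset.mem_range.1 hj)]))]
    simp [hw']) (LinearMap.ker (big Ψ T).mulVecLin) fun c hc => by
      rw [LinearMap.mem_ker, mulVecLin_apply] at hc ⊢
      rw [big_tw Ψ σ w hT, hc, map_zero]
  have h4 := LinearMap.finrank_range_add_finrank_ker (big Ψ T).mulVecLin
  rw [finrank_fintype_fun_eq_card, Fintype.card_prod, ZMod.card] at h4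
  exact ⟨δ, _, hδ, by rw [← hr]; exact h4⟩

end Twist

lemma dvd_of_norm {K τ : Type} [Field K] {e : τ → τ} (he : Function.Injective e) {o : τ}
    (ho : e o = o) {N d : ℕ} (hN : 0 < N) {a b : MvPolynomial τ K} (b0 : b ≠ 0)
    (h1 : ∏ i ∈ Finset.range N, rename e^[i] a =
      X o ^ d * ∏ i ∈ Finset.range N, rename e^[i] b) : N ∣ d := by
  have hne : ∀ (k : ℕ) {a : MvPolynomial τ K}, a ≠ 0 → rename e^[k] a ≠ 0 := fun k a ha =>
    (map_ne_zero_iff _ (rename_injective _ (he.iterate k))).2 ha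
  have hdeg : ∀ {a : MvPolynomial τ K}, a ≠ 0 →
      degreeOf o (∏ i ∈ Finset.range N, rename e^[i] a) = N * degreeOf o a := fun {a} ha => by
    have h : ∀ i, degreeOf o (rename e^[i] a) = degreeOf o a := fun i => by
      have := degreeOf_rename_of_injective (p := a) (he.iterate i) o
      rwa [Function.iterate_fixed ho] at this
    rw [degreeOf_prod_eq _ _ fun i _ => hne i ha]
    simp [h]
  have hb' : ∏ i ∈ Finset.range N, rename e^[i] b ≠ 0 :=
    Finset.prod_ne_zero_iff.2 fun i _ => hne i b0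
  have a0 : a ≠ 0 := by
    rintro rfl
    rw [Finset.prod_eq_zero (Finset.mem_range.2 hN) (by simp)] at h1
    exact mul_ne_zero (pow_ne_zero _ (X_ne_zero _)) hb' h1.symm
  have h2 := hdeg a0
  rw [h1, degreeOf_mul_eq (pow_ne_zero _ (X_ne_zero _)) hb', hdeg b0, degreeOf_X_self_pow] at h2
  exact (Nat.dvd_add_left (dvd_mul_right N _)).1 (h2 ▸ dvd_mul_right N _)

lemma dvd_rho_aux {K p q : Type} [Field K] [Infinite K] [Fintype p] [Fintype q]
    (Ψ : Matrix p q (FreeAlgebra K (Fin 2))) (N : ℕ) [NeZero N] (L : Type) [Field L] [Algebra K L]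
    [Algebra (MvPolynomial (Option (ZMod N)) K) L]
    [IsScalarTower K (MvPolynomial (Option (ZMod N)) K) L]
    [IsFractionRing (MvPolynomial (Option (ZMod N)) K) L] : N ∣ rho (ZMod N) Ψ := by
  let e : Option (ZMod N) ≃ Option (ZMod N) := (Equiv.addRight 1).optionCongr
  obtain ⟨σ, hσ⟩ : ∃ σ : L →ₐ[K] L, ∀ a : MvPolynomial (Option (ZMod N)) K,
      σ (algebraMap _ L a) = algebraMap _ L (rename e a) :=
    ⟨(IsFractionRing.algEquivOfAlgEquiv (renameEquiv K e) : L ≃ₐ[K] L),
      IsFractionRing.algEquivOfAlgEquiv_algebraMap (renameEquiv K e)⟩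
  have hσk : ∀ (k : ℕ) (a : MvPolynomial (Option (ZMod N)) K),
      σ^[k] (algebraMap _ L a) = algebraMap _ L (rename e^[k] a) := by
    intro k a
    induction k with
    | zero => simp
    | succ k ih => rw [Function.iterate_succ_apply', ih, hσ, rename_rename, Function.iterate_succ']
  have hdiv : ∀ (k : ℕ) (x y : L), σ^[k] (x / y) = σ^[k] x / σ^[k] y := fun k x y => by
    induction k with
    | zero => rfl
    | succ k ih => simp only [Function.iterate_succ_apply', ih, map_div₀]
  have he : ∀ (k : ℕ) a, e^[k] (some a) = some (a + k) := fun k a => by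
    induction k with
    | zero => simp
    | succ k ih => rw [Function.iterate_succ_apply', ih]; simp [e, add_assoc]
  have hσN : ∀ x, σ^[N] x = x := fun x => by
    obtain ⟨a, b, -, rfl⟩ :=
      IsFractionRing.div_surjective (A := MvPolynomial (Option (ZMod N)) K) x
    have : e^[N] = id := by
      funext o
      cases o with
      | none => exact Function.iterate_fixed rfl N
      | some a => simp [he]
    simp [hdiv, hσk, this]
  have inj := IsFractionRing.injective (MvPolynomial (Option (ZMod N)) K) L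
  obtain ⟨δ, d, hδ, hd⟩ := exists_norm_rho Ψ σ hσN
    (u := algebraMap (MvPolynomial (Option (ZMod N)) K) L (X none))
    ((map_ne_zero_iff _ inj).2 (X_ne_zero _)) (by rw [hσ, rename_X]; rfl)
    (t := fun a => algebraMap (MvPolynomial (Option (ZMod N)) K) L (X (some a)))
    (fun a b h => Option.some_injective _ (X_injective (inj h)))
    (fun a => by rw [hσ, rename_X]; simp [e])
  obtain ⟨a, b, hb, rfl⟩ := IsFractionRing.div_surjective (A := MvPolynomial (Option (ZMod N)) K) δ
  have b0 : b ≠ 0 := nonZeroDivisors.ne_zero hb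
  have h3 : N ∣ d := dvd_of_norm e.injective (o := none) rfl (NeZero.pos N) (a := a) b0 (inj (by
    simp only [hdiv, hσk, Finset.prod_div_distrib, ← map_prod] at hδ
    rw [map_mul, map_pow, ← div_eq_iff ((map_ne_zero_iff _ inj).2 (Finset.prod_ne_zero_iff.2
      fun i _ => (map_ne_zero_iff _ (rename_injective _ (e.injective.iterate i))).2 b0)), hδ]))
  exact (Nat.dvd_add_left h3).1 (hd ▸ dvd_mul_left N _)

theorem dvd_rho_zmod {K p q : Type} [Field K] [Infinite K] [Fintype p] [Fintype q]
    (Ψ : Matrix p q (FreeAlgebra K (Fin 2))) (N : ℕ) [NeZero N] : N ∣ rho (ZMod N) Ψ :=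
  dvd_rho_aux Ψ N (FractionRing (MvPolynomial (Option (ZMod N)) K))

end Pool.Agent.P.MP_bebcd6_lc.Gn
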