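import Pool.Agent.P.MP_bebcd6_lc.Iface

/-! Nullities of matrices on modules, base change, generic modules. -/

namespace Pool.Agent.P.MP_bebcd6_lc

open scoped TensorProduct

section Ker

variable {K S p q : Type} [Field K] [Ring S] [Algebra K S] [Fintype q]

/-- kernel of a matrix acting on tuples -/
def kerM (Ψ : Matrix p q S) (M : FMod K S) : Submodule K (q → M.C) :=
  LinearMap.ker (matMap K S M.C Ψ)

/-- its dimension -/
noncomputable def nulM (Ψ : Matrix p q S) (M : FMod K S) : ℕ := Module.finrank K (kerM Ψ M)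

omit [Fintype q] in
/-- a map applied to each entry -/
def cmap (q : Type) {M M' : FMod K S} (f : M.C →ₗ[S] M'.C) : (q → M.C) →ₗ[K] (q → M'.C) :=
  (f.restrictScalars K).compLeft q

omit [Fintype q] in
@[simp] theorem cmap_apply {M M' : FMod K S} (f : M.C →ₗ[S] M'.C) (x : q → M.C) (j : q) :
    cmap q f x j = f (x j) := rfl

theorem matMap_cmap (Ψ : Matrix p q S) {M M' : FMod K S} (f : M.C →ₗ[S] M'.C) (x : q → M.C) :
    matMap K S M'.C Ψ (cmap q f x) = cmap p f (matMap K S M.C Ψ x) := by
  ext i; simp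

theorem cmap_mem {Ψ : Matrix p q S} {M M' : FMod K S} (f : M.C →ₗ[S] M'.C) {x : q → M.C}
    (hx : x ∈ kerM Ψ M) : cmap q f x ∈ kerM Ψ M' := by
  have : matMap K S M.C Ψ x = 0 := hx
  change matMap K S M'.C Ψ _ = 0
  rw [matMap_cmap, this, map_zero]

/-- the induced map on kernels -/
def kmap (Ψ : Matrix p q S) {M M' : FMod K S} (f : M.C →ₗ[S] M'.C) :
    kerM Ψ M →ₗ[K] kerM Ψ M' := (cmap q f).restrict fun _ hx => cmap_mem f hx

@[simp] theorem kmap_val (Ψ : Matrix p q S) {M M' : FMod K S} (f : M.C →ₗ[S] M'.C)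
    (x : kerM Ψ M) (j : q) : (kmap Ψ f x).1 j = f (x.1 j) := rfl

theorem kmap_inj (Ψ : Matrix p q S) {M M' : FMod K S} {f : M.C →ₗ[S] M'.C}
    (hf : Function.Injective f) : Function.Injective (kmap Ψ f) := fun _ _ h =>
  Subtype.ext (funext fun j => hf (congrFun (congrArg Subtype.val h) j))

theorem nulM_le_of_inj (Ψ : Matrix p q S) {M M' : FMod K S} {f : M.C →ₗ[S] M'.C}
    (hf : Function.Injective f) : nulM Ψ M ≤ nulM Ψ M' :=
  LinearMap.finrank_le_finrank_of_injective (kmap_inj Ψ hf)

theorem SES.lift {M' M M'' : FMod K S} (s : SES M' M M'') {r : Type} (x : r → M.C)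
    (hx : ∀ j, s.p (x j) = 0) : ∃ y : r → M'.C, ∀ j, s.i (y j) = x j := by
  have : ∀ j, ∃ y, s.i y = x j := fun j => by
    have h : x j ∈ LinearMap.ker s.p := hx j
    rw [← s.exact] at h
    exact h
  choose y hy using this
  exact ⟨y, hy⟩

theorem SES.comp_zero {M' M M'' : FMod K S} (s : SES M' M M'') (x : M'.C) : s.p (s.i x) = 0 := by
  have : s.i x ∈ LinearMap.ker s.p := s.exact ▸ ⟨x, rfl⟩
  exact this

theorem SES.finrank {M' M M'' : FMod K S} (s : SES M' M M'') :
    Module.finrank K M.C = Module.finrank K M'.C + Module.finrank K M''.C := by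
  have h := LinearMap.finrank_range_add_finrank_ker (s.p.restrictScalars K)
  rw [(LinearMap.range_eq_top (f := s.p.restrictScalars K)).2 s.surj, finrank_top,
    LinearMap.ker_restrictScalars, ← s.exact, ← LinearMap.range_restrictScalars,
    LinearMap.finrank_range_of_inj (f := s.i.restrictScalars K) s.inj] at h
  omega

theorem SES.ker_kmap (Ψ : Matrix p q S) {M' M M'' : FMod K S} (s : SES M' M M'') :
    LinearMap.range (kmap Ψ s.i) = LinearMap.ker (kmap Ψ s.p) := by
  ext u
  constructor
  · rintro ⟨y, rfl⟩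
    exact Subtype.ext (funext fun j => s.comp_zero _)
  · intro hu
    obtain ⟨y, hy⟩ := s.lift u.1 fun j => congrFun (congrArg Subtype.val hu) j
    have e : cmap q s.i y = u.1 := funext hy
    refine ⟨⟨y, funext fun i => s.inj ?_⟩, Subtype.ext e⟩
    have h1 := congrFun (matMap_cmap Ψ s.i y) i
    have h2 : matMap K S M.C Ψ u.1 = 0 := u.2
    rw [e, h2] at h1
    rw [Pi.zero_apply, map_zero]
    exact h1.symm

theorem SES.nulM_eq (Ψ : Matrix p q S) {M' M M'' : FMod K S} (s : SES M' M M'') :
    nulM Ψ M = Module.finrank K (LinearMap.range (kmap Ψ s.p)) + nulM Ψ M' := by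
  have h := LinearMap.finrank_range_add_finrank_ker (kmap Ψ s.p)
  rw [← s.ker_kmap, LinearMap.finrank_range_of_inj (kmap_inj Ψ s.inj)] at h
  exact h.symm

theorem SES.nulM_le (Ψ : Matrix p q S) {M' M M'' : FMod K S} (s : SES M' M M'') :
    nulM Ψ M ≤ nulM Ψ M' + nulM Ψ M'' := by
  have := Submodule.finrank_le (LinearMap.range (kmap Ψ s.p))
  rw [s.nulM_eq Ψ, add_comm]
  exact Nat.add_le_add_left this _

theorem SES.ker_surj (Ψ : Matrix p q S) {M' M M'' : FMod K S} (s : SES M' M M'')
    (h : nulM Ψ M' + nulM Ψ M'' ≤ nulM Ψ M) :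
    ∀ w ∈ kerM Ψ M'', ∃ u ∈ kerM Ψ M, cmap q s.p u = w := by
  rw [s.nulM_eq Ψ, add_comm] at h
  have h1 : LinearMap.range (kmap Ψ s.p) = ⊤ :=
    Submodule.eq_top_of_finrank_eq (le_antisymm (Submodule.finrank_le _)
      (Nat.le_of_add_le_add_right h))
  intro w hw
  obtain ⟨u, hu⟩ := LinearMap.range_eq_top.1 h1 ⟨w, hw⟩
  exact ⟨u.1, u.2, congrArg Subtype.val hu⟩

theorem nulM_le_sum (Ψ : Matrix p q S) {J : Type} [Fintype J] {M : FMod K S} {N : J → FMod K S}
    (f : ∀ j, M.C →ₗ[S] (N j).C) (hf : ∀ x, (∀ j, f j x = 0) → x = 0) :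
    nulM Ψ M ≤ ∑ j, nulM Ψ (N j) := by
  have : Function.Injective (LinearMap.pi fun j => kmap Ψ (f j)) := by
    rw [← LinearMap.ker_eq_bot, eq_bot_iff]
    intro x hx
    refine Subtype.ext (funext fun i => hf _ fun j => ?_)
    exact congrFun (congrArg Subtype.val (congrFun hx j)) i
  refine (LinearMap.finrank_le_finrank_of_injective this).trans ?_
  rw [Module.finrank_pi_fintype]
  rfl

theorem nulM_add_le (Ψ : Matrix p q S) {M M₁ M₂ : FMod K S} (i₁ : M₁.C →ₗ[S] M.C)
    (i₂ : M₂.C →ₗ[S] M.C) (h : ∀ x y, i₁ x + i₂ y = 0 → x = 0 ∧ y = 0) :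
    nulM Ψ M₁ + nulM Ψ M₂ ≤ nulM Ψ M := by
  have : Function.Injective ((kmap Ψ i₁).coprod (kmap Ψ i₂)) := by
    rw [← LinearMap.ker_eq_bot, eq_bot_iff]
    intro x hx
    have h' : ∀ j, i₁ (x.1.1 j) + i₂ (x.2.1 j) = 0 := fun j =>
      congrFun (congrArg Subtype.val hx) j
    exact Prod.ext (Subtype.ext (funext fun j => (h _ _ (h' j)).1))
      (Subtype.ext (funext fun j => (h _ _ (h' j)).2))
  have h2 := LinearMap.finrank_le_finrank_of_injective this
  rwa [Module.finrank_prod] at h2

end Ker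

section BC

variable {k : Type} (K : Type) [Field k] [Field K] [Algebra k K]

/-- the operators of a module over the free algebra -/
def ops (M : FMod k (FA k)) (i : Fin 2) : Module.End k M.C :=
  Algebra.lsmul k k M.C (FreeAlgebra.ι k i)

/-- base change of a module over the free algebra -/
noncomputable def bc (M : FMod k (FA k)) : FMod K (FA K) :=
  ⟨RMod fun i => ((ops M i).baseChange K : Module.End K (K ⊗[k] M.C))⟩

variable (k) in
/-- base change of the free algebra -/
def emb : FA k →ₐ[k] FA K := FreeAlgebra.lift k (FreeAlgebra.ι K)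

variable {K}

/-- pure tensors in the base change -/
noncomputable def tm (c : K) {M : FMod k (FA k)} (x : M.C) : (bc K M).C := (c ⊗ₜ[k] x : K ⊗[k] M.C)

theorem tm_add (c : K) {M : FMod k (FA k)} (x y : M.C) : tm c (x + y) = tm c x + tm c y :=
  TensorProduct.tmul_add c x y

theorem add_tm (c c' : K) {M : FMod k (FA k)} (x : M.C) : tm (c + c') x = tm c x + tm c' x :=
  TensorProduct.add_tmul c c' x

theorem tm_zero (c : K) {M : FMod k (FA k)} : tm c (0 : M.C) = 0 := TensorProduct.tmul_zero _ c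

theorem smul_tm (a c : K) {M : FMod k (FA k)} (x : M.C) : a • tm c x = tm (a * c) x :=
  TensorProduct.smul_tmul' a c x

theorem tm_smul (a : k) (c : K) {M : FMod k (FA k)} (x : M.C) : tm c (a • x) = tm (a • c) x :=
  (TensorProduct.smul_tmul a c x).symm

theorem tm_sum {J : Type} (s : Finset J) (c : K) {M : FMod k (FA k)} (x : J → M.C) :
    tm c (∑ j ∈ s, x j) = ∑ j ∈ s, tm c (x j) := TensorProduct.tmul_sum c s x

theorem sum_tm {J : Type} (s : Finset J) (c : J → K) {M : FMod k (FA k)} (x : M.C) :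
    tm (∑ j ∈ s, c j) x = ∑ j ∈ s, tm (c j) x := TensorProduct.sum_tmul s c x

@[elab_as_elim] theorem bc_induction {M : FMod k (FA k)} {P : (bc K M).C → Prop} (u : (bc K M).C)
    (h0 : P 0) (h1 : ∀ c x, P (tm c x)) (h2 : ∀ u v, P u → P v → P (u + v)) : P u :=
  TensorProduct.induction_on (motive := P) u h0 h1 h2

theorem ι_tm (i : Fin 2) (c : K) {M : FMod k (FA k)} (x : M.C) :
    FreeAlgebra.ι K i • tm c x = tm c (FreeAlgebra.ι k i • x) := by
  exact RMod.ι_smul (fun i => ((ops M i).baseChange K : Module.End K (K ⊗[k] M.C))) i (c ⊗ₜ[k] x)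

theorem emb_tm (r : FA k) (c : K) {M : FMod k (FA k)} (x : M.C) :
    emb k K r • tm c x = tm c (r • x) := by
  induction r using FreeAlgebra.induction generalizing x with
  | grade0 a =>
    rw [AlgHom.commutes, IsScalarTower.algebraMap_apply k K (FA K), algebraMap_smul (FA K),
      algebraMap_smul (FA k), smul_tm, tm_smul, Algebra.smul_def]
  | grade1 j => rw [emb, FreeAlgebra.lift_ι_apply, ι_tm]
  | mul a b ha hb => rw [map_mul, mul_smul, mul_smul, hb, ha]
  | add a b ha hb => rw [map_add, add_smul, add_smul, ha, hb, tm_add]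

theorem finrank_bc (M : FMod k (FA k)) : Module.finrank K (bc K M).C = Module.finrank k M.C :=
  Module.finrank_baseChange

variable (K) in
/-- base change of a map -/
noncomputable def bcMap {M M' : FMod k (FA k)} (f : M.C →ₗ[FA k] M'.C) :
    (bc K M).C →ₗ[FA K] (bc K M').C :=
  freeLin (show (bc K M).C →ₗ[K] (bc K M').C from (f.restrictScalars k).baseChange K) fun j u => by
    induction u using bc_induction with
    | h0 => simp
    | h1 c x =>
      rw [ι_tm]
      change tm c (f _) = FreeAlgebra.ι K j • tm c (f x)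
      rw [ι_tm, map_smul]
    | h2 u v hu hv => rw [smul_add, map_add, map_add, smul_add, hu, hv]

@[simp] theorem bcMap_tm {M M' : FMod k (FA k)} (f : M.C →ₗ[FA k] M'.C) (c : K) (x : M.C) :
    bcMap K f (tm c x) = tm c (f x) := rfl

theorem bcMap_inj {M M' : FMod k (FA k)} {f : M.C →ₗ[FA k] M'.C} (hf : Function.Injective f) :
    Function.Injective (bcMap K f) :=
  Module.Flat.lTensor_preserves_injective_linearMap (M := K) (f.restrictScalars k) hf

variable (K) in
/-- base change of a short exact sequence -/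
noncomputable def SES.base {M' M M'' : FMod k (FA k)} (s : SES M' M M'') :
    SES (bc K M') (bc K M) (bc K M'') where
  i := bcMap K s.i
  p := bcMap K s.p
  inj := bcMap_inj s.inj
  surj := LinearMap.lTensor_surjective K (g := s.p.restrictScalars k) s.surj
  exact := by
    have h : Function.Exact (s.i.restrictScalars k) (s.p.restrictScalars k) :=
      (LinearMap.exact_iff (f := s.i) (g := s.p)).2 s.exact.symm
    exact ((LinearMap.exact_iff (f := bcMap K s.i) (g := bcMap K s.p)).1
      (lTensor_exact K h s.surj)).symm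

/-- contraction of the base change with a functional -/
noncomputable def ctr (l : K →ₗ[k] k) (M : FMod k (FA k)) : (bc K M).C →+ M.C :=
  ((TensorProduct.lid k M.C).toLinearMap ∘ₗ l.rTensor M.C).toAddMonoidHom

@[simp] theorem ctr_tm (l : K →ₗ[k] k) {M : FMod k (FA k)} (c : K) (x : M.C) :
    ctr l M (tm c x) = l c • x := rfl

theorem ctr_emb (l : K →ₗ[k] k) {M : FMod k (FA k)} (r : FA k) (u : (bc K M).C) :
    ctr l M (emb k K r • u) = r • ctr l M u := by
  induction u using bc_induction with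
  | h0 => simp
  | h1 c x => rw [emb_tm, ctr_tm, ctr_tm, smul_comm]
  | h2 u v hu hv => rw [smul_add, map_add, map_add, smul_add, hu, hv]

theorem ctr_bcMap (l : K →ₗ[k] k) {M M' : FMod k (FA k)} (f : M.C →ₗ[FA k] M'.C)
    (u : (bc K M).C) : ctr l M' (bcMap K f u) = f (ctr l M u) := by
  induction u using bc_induction with
  | h0 => simp
  | h1 c x => rw [bcMap_tm, ctr_tm, ctr_tm, LinearMap.map_smul_of_tower]
  | h2 u v hu hv => rw [map_add, map_add, map_add, map_add, hu, hv]

end BC

section Gen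

variable {k K p q : Type} [Field k] [Field K] [Algebra k K] [Fintype q]

/-- generic nullity per dimension -/
noncomputable def rho (Ψ : Matrix p q (FA K)) : ℕ := sSup {m | NulLB Ψ m}

theorem nulLB_bdd (Ψ : Matrix p q (FA K)) : BddAbove {m | NulLB Ψ m} := by
  refine ⟨Fintype.card q, fun m hm => ?_⟩
  have h := hm K 0
  rw [Module.finrank_self, mul_one] at h
  refine h.trans ((Submodule.finrank_le _).trans ?_)
  rw [Module.finrank_pi_fintype]
  simp [OfHom.finrank]

theorem nulLB_rho (Ψ : Matrix p q (FA K)) : NulLB Ψ (rho Ψ) :=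
  Nat.sSup_mem (s := {m | NulLB Ψ m}) ⟨0, fun _ _ _ _ _ => by simp⟩ (nulLB_bdd Ψ)

theorem le_rho {Ψ : Matrix p q (FA K)} {m : ℕ} (h : NulLB Ψ m) : m ≤ rho Ψ :=
  le_csSup (nulLB_bdd Ψ) h

theorem rho_le (Ψ : Matrix p q (FA K)) (M : FMod k (FA k)) :
    rho Ψ * Module.finrank k M.C ≤ nulM Ψ (bc K M) := by
  rw [← Module.finrank_baseChange (R := K)]
  exact nulLB_rho Ψ (K ⊗[k] M.C) _

/-- `M` is generic for the matrix `Ψ` -/
def Gen (Ψ : Matrix p q (FA K)) (M : FMod k (FA k)) : Prop :=
  nulM Ψ (bc K M) ≤ rho Ψ * Module.finrank k M.C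

theorem Gen.eq {Ψ : Matrix p q (FA K)} {M : FMod k (FA k)} (h : Gen Ψ M) :
    nulM Ψ (bc K M) = rho Ψ * Module.finrank k M.C := le_antisymm h (rho_le Ψ M)

theorem gen_closed (Ψ : Matrix p q (FA K)) : ExtClosed (Gen (k := k) Ψ) where
  iso M M' e h := by
    have h1 := nulM_le_of_inj Ψ (bcMap_inj (K := K) (f := e.symm.toLinearMap) e.symm.injective)
    have h2 := (e.restrictScalars k).finrank_eq
    unfold Gen at *
    rw [← h2]; exact h1.trans h
  ext M' M M'' s h' h'' := by
    have h1 := (s.base K).nulM_le Ψ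
    unfold Gen at *
    rw [s.finrank, mul_add]; omega
  pi J _ M h := by
    classical
    have h1 := nulM_le_sum Ψ (M := bc K (FMod.pi M)) (N := fun j => bc K (M j))
      (fun j => bcMap K (M := FMod.pi M) (LinearMap.proj j)) fun u hu => by
        have : u = ∑ j, bcMap K (M' := FMod.pi M) (LinearMap.single (FA k) (fun j => (M j).C) j)
            (bcMap K (M := FMod.pi M) (LinearMap.proj j) u) := by
          clear hu
          induction u using bc_induction with
          | h0 => simp
          | h1 c x =>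
            simp only [bcMap_tm, LinearMap.coe_proj, Function.eval, LinearMap.coe_single]
            rw [← tm_sum, Finset.univ_sum_single]
          | h2 u v hu hv =>
            simp only [map_add, Finset.sum_add_distrib]
            rw [← hu, ← hv]
        rw [this]; simp [hu]
    unfold Gen at *
    rw [Module.finrank_pi_fintype, Finset.mul_sum]
    exact h1.trans (Finset.sum_le_sum fun j _ => h j)

theorem Gen.summand {Ψ : Matrix p q (FA K)} {M : FMod k (FA k)} (s t : Submodule (FA k) M.C)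
    (hc : IsCompl s t) (h : Gen Ψ M) : Gen Ψ (M.sub s) := by
  have h1 := nulM_add_le Ψ (bcMap K (M := M.sub s) (M' := M) s.subtype)
    (bcMap K (M := M.sub t) (M' := M) t.subtype) fun x y hxy => by
      have e := bcMap_inj (K := K) (M := (M.sub s).prod (M.sub t)) (M' := M)
        (f := (Submodule.prodEquivOfIsCompl s t hc).toLinearMap)
        (Submodule.prodEquivOfIsCompl s t hc).injective
      let i₁ := bcMap K (M := M.sub s) (M' := (M.sub s).prod (M.sub t)) (LinearMap.inl _ _ _)
      let i₂ := bcMap K (M := M.sub t) (M' := (M.sub s).prod (M.sub t)) (LinearMap.inr _ _ _)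
      let p₁ := bcMap K (M' := M.sub s) (M := (M.sub s).prod (M.sub t)) (LinearMap.fst _ _ _)
      let p₂ := bcMap K (M' := M.sub t) (M := (M.sub s).prod (M.sub t)) (LinearMap.snd _ _ _)
      have a1 : ∀ x, bcMap K (M := (M.sub s).prod (M.sub t)) (M' := M)
          (Submodule.prodEquivOfIsCompl s t hc).toLinearMap (i₁ x) =
          bcMap K (M := M.sub s) (M' := M) s.subtype x ∧ p₁ (i₁ x) = x ∧ p₂ (i₁ x) = 0 := by
        intro x
        induction x using bc_induction with
        | h0 => simp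
        | h1 c x => simp [i₁, p₁, p₂, tm_zero]
        | h2 u v hu hv => simp only [map_add, hu, hv, add_zero, and_self]
      have a2 : ∀ x, bcMap K (M := (M.sub s).prod (M.sub t)) (M' := M)
          (Submodule.prodEquivOfIsCompl s t hc).toLinearMap (i₂ x) =
          bcMap K (M := M.sub t) (M' := M) t.subtype x ∧ p₁ (i₂ x) = 0 ∧ p₂ (i₂ x) = x := by
        intro x
        induction x using bc_induction with
        | h0 => simp
        | h1 c x => simp [i₂, p₁, p₂, tm_zero]
        | h2 u v hu hv => simp only [map_add, hu, hv, add_zero, and_self]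
      have a3 : i₁ x + i₂ y = 0 := e (by rw [map_add, (a1 x).1, (a2 y).1, hxy, map_zero])
      have a4 := congrArg p₁ a3
      have a5 := congrArg p₂ a3
      rw [map_add, (a1 x).2.1, (a2 y).2.1, add_zero, map_zero] at a4
      rw [map_add, (a1 x).2.2, (a2 y).2.2, zero_add, map_zero] at a5
      exact ⟨a4, a5⟩
  have h2 := rho_le Ψ (M.sub t)
  have h3 := ((Submodule.prodEquivOfIsCompl s t hc).restrictScalars k).finrank_eq
  have := (M.sub s).fd
  have := (M.sub t).fd
  rw [Module.finrank_prod] at h3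
  unfold Gen at *
  rw [← h3, mul_add] at h
  change _ ≤ rho Ψ * Module.finrank k s
  change rho Ψ * Module.finrank k t ≤ _ at h2
  omega

theorem matMap_emb (Ψ : Matrix p q (FA k)) {M : FMod k (FA k)} (x : q → M.C) (i : p) :
    matMap K (FA K) (bc K M).C (Ψ.map (emb k K)) (fun j => tm 1 (x j)) i =
      tm 1 (matMap k (FA k) M.C Ψ x i) := by
  simp only [matMap_apply, Matrix.map_apply, emb_tm, tm_sum]

theorem ctr_matMap (l : K →ₗ[k] k) (Ψ : Matrix p q (FA k)) {M : FMod k (FA k)}
    (u : q → (bc K M).C) (i : p) :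
    ctr l M (matMap K (FA K) (bc K M).C (Ψ.map (emb k K)) u i) =
      matMap k (FA k) M.C Ψ (fun j => ctr l M (u j)) i := by
  simp only [matMap_apply, Matrix.map_apply, map_sum, ctr_emb]

theorem exists_ctr (k K : Type) [Field k] [Field K] [Algebra k K] :
    ∃ l : K →ₗ[k] k, l 1 = 1 := by
  obtain ⟨l, hl⟩ := LinearMap.exists_leftInverse_of_injective (Algebra.linearMap k K)
    (LinearMap.ker_eq_bot.2 (algebraMap k K).injective)
  exact ⟨l, by simpa using LinearMap.congr_fun hl 1⟩

theorem SES.ker_surj_of_gen (Ψ : Matrix p q (FA k)) {M' M M'' : FMod k (FA k)} (s : SES M' M M'')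
    (h' : Gen (Ψ.map (emb k K)) M') (h'' : Gen (Ψ.map (emb k K)) M'') :
    ∀ w ∈ kerM Ψ M'', ∃ u ∈ kerM Ψ M, cmap q s.p u = w := by
  intro w hw
  obtain ⟨l, hl⟩ := exists_ctr k K
  have h1 := rho_le (Ψ.map (emb k K)) M
  rw [s.finrank, mul_add, ← h'.eq, ← h''.eq] at h1
  obtain ⟨u, hu, e⟩ := (s.base K).ker_surj _ h1 (fun j => tm 1 (w j)) (funext fun i => by
    have : matMap k (FA k) M''.C Ψ w = 0 := hw
    rw [matMap_emb, this, Pi.zero_apply, tm_zero]; rfl)
  refine ⟨fun j => ctr l M (u j), funext fun i => ?_, funext fun j => ?_⟩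
  · have : matMap K (FA K) (bc K M).C (Ψ.map (emb k K)) u = 0 := hu
    rw [← ctr_matMap, this, Pi.zero_apply, map_zero]; rfl
  · have e' : bcMap K s.p (u j) = tm 1 (w j) := congrFun e j
    rw [cmap_apply, ← ctr_bcMap, e', ctr_tm, hl, one_smul]

end Gen

end Pool.Agent.P.MP_bebcd6_lc
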