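import Pool.Agent.P.MP_bebcd6_lc.FMod

/-! Interfaces between the parts of the proof. -/

namespace Pool.Agent.P.MP_bebcd6_lc

/-- the free algebra on two generators -/
abbrev FA (k : Type) [Field k] : Type := FreeAlgebra k (Fin 2)

section General

variable {K Λ : Type} [Field K] [Ring Λ] [Algebra K Λ]

/-- finite product of bundled modules -/
abbrev FMod.pi {J : Type} [Fintype J] (M : J → FMod K Λ) : FMod K Λ := ⟨∀ j, (M j).C⟩

/-- a submodule as a bundled module -/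
abbrev FMod.sub (C : FMod K Λ) (p : Submodule Λ C.C) : FMod K Λ :=
  @FMod.mk K Λ _ _ _ p _ _ _ _
    (Module.Finite.of_injective (p.subtype.restrictScalars K) p.injective_subtype)

/-- a short exact sequence -/
structure SES (M' M M'' : FMod K Λ) where
  i : M'.C →ₗ[Λ] M.C
  p : M.C →ₗ[Λ] M''.C
  inj : Function.Injective i
  surj : Function.Surjective p
  exact : LinearMap.range i = LinearMap.ker p

/-- closed under isomorphisms, extensions and finite products (the empty one included) -/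
structure ExtClosed (Cls : FMod K Λ → Prop) : Prop where
  iso : ∀ M M' : FMod K Λ, (M.C ≃ₗ[Λ] M'.C) → Cls M → Cls M'
  ext : ∀ M' M M'' : FMod K Λ, SES M' M M'' → Cls M' → Cls M'' → Cls M
  pi : ∀ (J : Type) [Fintype J] (M : J → FMod K Λ), (∀ j, Cls (M j)) → Cls (FMod.pi M)

end General

variable {k Λ ι : Type} [Field k] [Ring Λ] [Algebra k Λ] [Fintype ι] [DecidableEq ι]

/-- the module given by a pair of matrices -/
abbrev matMod {n : ℕ} (L : Fin 2 → Matrix (Fin n) (Fin n) k) : FMod k (FA k) :=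
  ⟨RMod fun i => (Matrix.mulVecLin (L i) : Module.End k (Fin n → k))⟩

/-- `F` reflects isomorphism -/
def H1 (ψ : Λ →ₐ[k] Matrix ι ι (FA k)) : Prop :=
  ∀ M M' : FMod k (FA k), Nonempty (FM ψ M.C ≃ₗ[Λ] FM ψ M'.C) → Nonempty (M.C ≃ₗ[FA k] M'.C)

/-- `F` preserves indecomposability -/
def H2 (ψ : Λ →ₐ[k] Matrix ι ι (FA k)) : Prop :=
  ∀ M : FMod k (FA k), Indec (FA k) M.C → Indec Λ (FM ψ M.C)

/-- many modules `L x` of one dimension, natural flags on `F M`, lowered by maps between modules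
with disjoint supports -/
structure TFam (ψ : Λ →ₐ[k] Matrix ι ι (FA k)) (l n r : ℕ) where
  L : Fin r ⊕ Fin r → Fin 2 → Matrix (Fin n) (Fin n) k
  Cls : Set (Fin r ⊕ Fin r) → FMod k (FA k) → Prop
  φ : ℕ → ∀ M : FMod k (FA k), Submodule k (FM ψ M.C)
  closed : ∀ S, ExtClosed (Cls S)
  mem : ∀ S x, x ∈ S → Cls S (matMod (L x))
  mono : ∀ S S' M, S ⊆ S' → Cls S M → Cls S' M
  zero : ∀ M, φ 0 M = ⊥
  top : ∀ M, φ l M = ⊤
  le_succ : ∀ i M, φ i M ≤ φ (i + 1) M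
  nat : ∀ i (M M' : FMod k (FA k)) (f : FM ψ M.C →ₗ[Λ] FM ψ M'.C), ∀ x ∈ φ i M, f x ∈ φ i M'
  low : ∀ i S S' (M M' : FMod k (FA k)) (f : FM ψ M.C →ₗ[Λ] FM ψ M'.C), Disjoint S S' →
    Cls S M → Cls S' M' → ∀ x ∈ φ (i + 1) M, f x ∈ φ i M'
  epi : ∀ i (M' M M'' : FMod k (FA k)) (s : SES M' M M''), Cls Set.univ M' → Cls Set.univ M'' →
    ∀ z ∈ φ i M'', ∃ x ∈ φ i M, Fmap ψ s.p x = z
  pure : ∀ i (M' M M'' : FMod k (FA k)) (s : SES M' M M''), Cls Set.univ M' → Cls Set.univ M'' →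
    ∀ x, Fmap ψ s.i x ∈ φ i M → x ∈ φ i M'

/-- such families exist with `r` large against `n` -/
def TData (ψ : Λ →ₐ[k] Matrix ι ι (FA k)) : Prop :=
  ∃ l : ℕ, ∀ c : ℕ, ∃ n r : ℕ, 0 < n ∧ c * n ^ 7 < r ∧ Nonempty (TFam ψ l n r)

/-- the input of the layer argument, for `g` operators -/
structure LFam (k Λ : Type) [Field k] [Ring Λ] [Algebra k Λ] (g : ℕ) where
  ι : Type
  P : Type
  E : Type
  [f1 : Fintype ι]
  [d1 : DecidableEq ι]
  [f2 : Fintype P]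
  [d2 : DecidableEq P]
  [acg : AddCommGroup E]
  [mod : Module k E]
  [fd : FiniteDimensional k E]
  lab : ι → P
  snk : ι → Prop
  [d3 : DecidablePred snk]
  hsnk : ∀ i j, lab i = lab j → snk i → snk j
  b : ℕ
  l : ℕ
  hb : ∀ x, Fintype.card {i // lab i = x} ≤ b
  Φ : ℕ → Submodule k (ι → k)
  hmono : Monotone Φ
  h0 : Φ 0 = ⊥
  hl : Φ l = ⊤
  hΦ : ∀ x m, ∀ z ∈ Φ m, (proj k fun i => lab i = x).mulVec z ∈ Φ m
  α : Λ →ₐ[k] Matrix ι ι k
  D : E →ₗ[k] Λ → Matrix ι ι k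
  hα : ∀ a, proj k snk * α a = α a * proj k snk
  hD : ∀ e a, D e a = proj k snk * D e a * (1 - proj k snk)
  D_add : ∀ e a a', D e (a + a') = D e a + D e a'
  D_smul : ∀ e (c : k) a, D e (c • a) = c • D e a
  D_mul : ∀ e a a', D e (a * a') = α a * D e a' + D e a * α a'
  hP : ∀ (F F' : Fam k E) f, Intw α D F F' f → ∀ v y, Par lab Φ (coef v y f)
  hinj : ∀ e, (∃ t : Matrix ι ι k, ∀ a, D e a = α a * t - t * α a) → e = 0
  hcount : 2 * b * l * (b ^ 4 * ((g + 1) * (Fintype.card P * b ^ 2))) < Module.finrank k E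

/-- the hypothesis of `undecidable_of_interp` -/
def Interp (A : Type) [Ring A] : Prop :=
  ∀ (G : Type) [Fintype G],
    ∃ ρ : G → ∀ (N : Type) [AddCommGroup N] [Module Aᵐᵒᵖ N], N → N → Prop,
      (∀ j, Def2 A (ρ j)) ∧ ∀ (T : Type) (f : G → T → T),
        ∃ (N : Type) (_ : AddCommGroup N) (_ : Module Aᵐᵒᵖ N) (S' S'' : AddSubgroup N)
          (Φ : (T → T) → N →+ N) (emb : T → N),
          S'' ≤ S' ∧ (∀ u w, Φ (u ∘ w) = (Φ u).comp (Φ w)) ∧ (∀ u, ∀ x ∈ S', Φ u x ∈ S') ∧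
          (∀ u, ∀ x ∈ S'', Φ u x ∈ S'') ∧ (∀ t, emb t ∈ S') ∧ (∀ u t, Φ u (emb t) = emb (u t)) ∧
          (∀ t t', emb t - emb t' ∈ S'' → t = t') ∧
          ∀ j x y, ρ j N x y ↔ x ∈ S' ∧ y - Φ (f j) x ∈ S''

end Pool.Agent.P.MP_bebcd6_lc
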