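import Pool.Agent.P.MP_bebcd6_lc.LayerE

namespace Pool.Agent.P.MP_bebcd6_lc

open Layer in
theorem layer {k ι P E 𝒜 G : Type} [Field k] [Fintype ι] [DecidableEq ι] [Fintype P]
    [DecidableEq P] [AddCommGroup E] [Module k E] [FiniteDimensional k E] [Fintype G]
    (lab : ι → P) (snk : ι → Prop) [DecidablePred snk]
    (hsnk : ∀ i j, lab i = lab j → snk i → snk j) (b l : ℕ)
    (hb : ∀ x, Fintype.card {i // lab i = x} ≤ b)
    (Φ : ℕ → Submodule k (ι → k)) (hmono : Monotone Φ) (h0 : Φ 0 = ⊥) (hl : Φ l = ⊤)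
    (hΦ : ∀ x m, ∀ z ∈ Φ m, (proj k fun i => lab i = x).mulVec z ∈ Φ m)
    (α : 𝒜 → Matrix ι ι k) (D : E →ₗ[k] 𝒜 → Matrix ι ι k)
    (hα : ∀ a, proj k snk * α a = α a * proj k snk)
    (hD : ∀ e a, D e a = proj k snk * D e a * (1 - proj k snk))
    (hP : ∀ (F F' : Fam k E) f, Intw α D F F' f → ∀ v y, Par lab Φ (coef v y f))
    (hinj : ∀ e, (∃ t : Matrix ι ι k, ∀ a, D e a = α a * t - t * α a) → e = 0)
    (hcount : 2 * b * l * (b ^ 4 * ((Fintype.card G + 1) * (Fintype.card P * b ^ 2))) <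
      Module.finrank k E) :
    ∃ (t : E →ₗ[k] Matrix ι ι k) (e₀ : E) (e : G → E) (S' S'' : Submodule k (ι → k)),
      (∀ x, t x = proj k snk * t x * (1 - proj k snk)) ∧ S'' < S' ∧
      ∀ (V V' : Type) [AddCommGroup V] [Module k V] [AddCommGroup V'] [Module k V']
        (X : G → Module.End k V) (X' : G → Module.End k V') (f : (ι → V) →ₗ[k] (ι → V')),
        Intw α (shiftD α D t) (scaf e₀ e V X) (scaf e₀ e V' X') f → ∀ v y,
          (∀ z ∈ S', (coef v y f).mulVec z ∈ S') ∧ (∀ z ∈ S'', (coef v y f).mulVec z ∈ S'') ∧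
          ∀ j, ∀ z ∈ S', (coef v y (f ∘ₗ tens (X j) 1 - tens (X' j) 1 ∘ₗ f)).mulVec z ∈ S'' := by
  let F : Fl k ι P := ⟨lab, Φ, hmono, h0, hΦ⟩
  have hB : Base F (proj k snk) α D :=
    ⟨Fl.proj_mul_self, Fl.proj_mem_Pp (F := F) hsnk, fun g hg => Fl.upper_mem_Nn (F := F) hsnk hg,
      fun g hg => Fl.lower_mem_Nn (F := F) hsnk hg, hα, hD, hP⟩
  by_contra hcon
  have hno : ∀ t : E →ₗ[k] Matrix ι ι k, (∀ x, t x = proj k snk * t x * (1 - proj k snk)) →
      ¬ Concl α (shiftD α D t) G := by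
    rintro t ht ⟨e₀, e, S', S'', h1, h2⟩
    exact hcon ⟨t, e₀, e, S', S'', ht, h1, h2⟩
  have key : ∀ s : ℕ, ∃ (t : E →ₗ[k] Matrix ι ι k) (T : Submodule k E)
      (Γ : Subalgebra k (Matrix ι ι k)) (J : Submodule k (Matrix ι ι k)),
      (∀ x, t x = proj k snk * t x * (1 - proj k snk)) ∧ (∀ x, t x ∈ F.Nn) ∧
      Good F (proj k snk) α (shiftD α D t) T Γ J s ∧
      Module.finrank k E ≤ Module.finrank k T +
        s * (b ^ 4 * ((Fintype.card G + 1) * (Fintype.card P * b ^ 2))) := by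
    intro s
    induction s with
    | zero =>
      refine ⟨0, ⊤, F.Pp, F.Nn, fun x => by simp, fun x => zero_mem _, ?_, by simp⟩
      rw [shiftD_zero]
      refine ⟨le_rfl, Fl.Nn_id (fun g hg => Fl.Pp_of_Nn hg) le_rfl, hB.mem, ?_, le_rfl,
        ⟨l, Fl.Nn_pow hl⟩, fun e _ => mem_pw.2 fun a => trivial⟩
      rintro _ ⟨F1, F2, f, v, y, -, -, hf, rfl⟩
      exact hB.hP F1 F2 f hf v y
    | succ s ih =>
      obtain ⟨t, T, Γ, J, ht, htN, hG, hd⟩ := ih
      have hB' := hB.shift ht htN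
      obtain ⟨Γ', S, hG', hBt⟩ := hG.refine hB'
      obtain ⟨t', ht', htN', hG''⟩ := hG'.next hB'
      rw [shiftD_shiftD] at hG''
      refine ⟨t + t', _, Γ', S.J, fun x => ?_, fun x => add_mem (htN x) (htN' x), hG'', ?_⟩
      · rw [LinearMap.add_apply, mul_add, add_mul, ← ht, ← ht']
      · by_contra h
        refine hno t ht (big_step (F := F) hb hl hB' S hG' hBt ?_)
        rw [add_mul, one_mul] at h
        omega
  obtain ⟨t, T, Γ, J, -, -, hG, hd⟩ := key (2 * (b * l))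
  have hJ : J ^ (b * l) = ⊥ :=
    Fl.pow_eq_bot (F := F) hb hl (fun g hg => hG.le_P (hG.id.le g hg)) hG.nil
  have hT : T = ⊥ := by
    rw [eq_bot_iff]
    intro e he
    refine hinj e ⟨t e, fun a => ?_⟩
    have := mem_pw.1 (hG.val e he) a
    rw [Fs_eq_bot hJ, Submodule.mem_bot] at this
    exact sub_eq_zero.1 this
  rw [hT, finrank_bot, zero_add, ← mul_assoc 2] at hd
  omega

end Pool.Agent.P.MP_bebcd6_lc
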