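import Pool.Agent.P.MP_bebcd6_lc.Iface
import Pool.Agent.P.MP_bebcd6_lc.Layer
import Pool.Agent.P.MP_bebcd6_lc.Defin

/-! From the layer to definable relations. -/

namespace Pool.Agent.P.MP_bebcd6_lc

section TS

variable {k ι V : Type} [Field k] [AddCommGroup V] [Module k V]

variable (V) in
/-- tuples all of whose contractions lie in `W` -/
def TS (W : Submodule k (ι → k)) : Submodule k (ι → V) where
  carrier := {x | ∀ y : V →ₗ[k] k, (fun i => y (x i)) ∈ W}
  zero_mem' := fun y => by
    simp only [Pi.zero_apply, map_zero]; exact W.zero_mem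
  add_mem' := fun {a b} ha hb y => by
    simp only [Pi.add_apply, map_add]; exact W.add_mem (ha y) (hb y)
  smul_mem' := fun c a ha y => by
    simp only [Pi.smul_apply, map_smul]; exact W.smul_mem c (ha y)

variable [Fintype ι] [DecidableEq ι]

theorem exists_idem (W : Submodule k (ι → k)) :
    ∃ π : Matrix ι ι k, (∀ z, π.mulVec z ∈ W) ∧ ∀ z ∈ W, π.mulVec z = z := by
  obtain ⟨W', h⟩ := W.exists_isCompl
  refine ⟨LinearMap.toMatrix' (W.subtype ∘ₗ W.projectionOnto W' h), fun z => ?_, fun z hz => ?_⟩
  · rw [LinearMap.toMatrix'_mulVec]; exact Subtype.prop _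
  · rw [LinearMap.toMatrix'_mulVec]
    exact congrArg Subtype.val (Submodule.projectionOnto_apply_left h ⟨z, hz⟩)

omit [DecidableEq ι] in
theorem dual_tens (g : Matrix ι ι k) (x : ι → V) (y : V →ₗ[k] k) :
    (fun i => y (tens LinearMap.id g x i)) = g.mulVec fun i => y (x i) := by
  funext i
  simp [Matrix.mulVec, dotProduct]

omit [DecidableEq ι] in
theorem mem_TS {W : Submodule k (ι → k)} {π : Matrix ι ι k} (h1 : ∀ z, π.mulVec z ∈ W)
    (h2 : ∀ z ∈ W, π.mulVec z = z) (x : ι → V) :
    x ∈ TS V W ↔ tens LinearMap.id π x = x := by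
  constructor
  · intro hx
    funext i
    rw [← sub_eq_zero, ← Module.forall_dual_apply_eq_zero_iff k]
    intro y
    rw [map_sub, sub_eq_zero]
    exact congrFun ((dual_tens π x y).trans (h2 _ (hx y))) i
  · intro hx y
    rw [← hx, dual_tens]
    exact h1 _

theorem coef_mulVec {V' : Type} [AddCommGroup V'] [Module k V'] (v : V) (y : V' →ₗ[k] k)
    (f : (ι → V) →ₗ[k] (ι → V')) (z : ι → k) :
    (coef v y f).mulVec z = fun i => y (f (fun a => z a • v) i) := by
  funext i
  have : (fun a => z a • v) = ∑ j, z j • (Pi.single j v : ι → V) := by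
    funext a
    simp [Finset.sum_apply, Pi.single_apply]
  rw [this]
  simp [coef, Matrix.mulVec, dotProduct, mul_comm]

end TS

section Psi

variable {k Λ ι J S : Type} [Field k] [Ring Λ] [Algebra k Λ] [Fintype ι] [DecidableEq ι]
  [Fintype J] [Ring S] [Algebra k S]

variable (S) in
/-- a scalar times a matrix over the ground field -/
def sm (s : S) : Matrix ι ι k →ₗ[k] Matrix ι ι S where
  toFun g i j := g i j • s
  map_add' g g' := by ext i j; exact add_smul _ _ _
  map_smul' c g := by ext i j; exact smul_assoc c (g i j) s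

omit [DecidableEq ι] in
theorem sm_mul (s s' : S) (g g' : Matrix ι ι k) :
    sm S s g * sm S s' g' = sm S (s * s') (g * g') := by
  ext i j
  change ∑ l, (g i l • s) * (g' l j • s') = (∑ l, g i l * g' l j) • (s * s')
  rw [Finset.sum_smul]
  exact Finset.sum_congr rfl fun l _ => smul_mul_smul_comm _ _ _ _

omit [Fintype ι] in
theorem sm_one : sm S 1 (1 : Matrix ι ι k) = 1 := by
  ext i j
  change (1 : Matrix ι ι k) i j • (1 : S) = _
  simp [Matrix.one_apply]

omit [DecidableEq ι] in
theorem matMap_sm {V : Type} [AddCommGroup V] [Module k V] [Module S V] [IsScalarTower k S V]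
    (s : S) (g : Matrix ι ι k) (x : ι → V) :
    matMap k S V (sm S s g) x = tens (Algebra.lsmul k k V s) g x := by
  funext i
  exact Finset.sum_congr rfl fun j _ => smul_assoc _ _ _

/-- the algebra map given by derivations with zero products -/
def psiOf (α : Λ →ₐ[k] Matrix ι ι k) (D : J → Λ → Matrix ι ι k) (s : J → S)
    (h1 : ∀ j a a', D j (a + a') = D j a + D j a') (h2 : ∀ j (c : k) a, D j (c • a) = c • D j a)
    (h3 : ∀ j a a', D j (a * a') = α a * D j a' + D j a * α a')
    (h4 : ∀ j j' a a', D j a * D j' a' = 0) : Λ →ₐ[k] Matrix ι ι S :=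
  AlgHom.ofLinearMap
    { toFun := fun a => sm S 1 (α a) + ∑ j, sm S (s j) (D j a)
      map_add' := fun a a' => by
        simp only [map_add, h1, Finset.sum_add_distrib]; abel
      map_smul' := fun c a => by
        simp only [map_smul, h2, RingHom.id_apply, smul_add, Finset.smul_sum] }
    (by
      have : ∀ j, D j 1 = 0 := fun j => by simpa using h3 j 1 1
      simp [this, sm_one])
    (fun a a' => by
      simp only [LinearMap.coe_mk, AddHom.coe_mk, map_mul, h3, map_add, add_mul, mul_add,
        Finset.sum_mul, Finset.mul_sum, sm_mul, h4, map_zero, one_mul, mul_one,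
        Finset.sum_const_zero, add_zero, Finset.sum_add_distrib]
      abel)

end Psi

theorem interp_of_lfam {k A : Type} [Field k] [Ring A] [Algebra k A]
    (h : ∀ g, Nonempty (LFam k Aᵐᵒᵖ g)) : Interp A := by
  intro G _
  obtain ⟨@⟨ι, P, E, _, _, _, _, _, _, _, lab, snk, _, hsnk, b, l, hb, Φ, hmono, h0, hl, hΦ, α, D,
    hα, hD, Dadd, Dsmul, Dmul, hP, hinj, hcount⟩⟩ := h (Fintype.card G)
  obtain ⟨t, e₀, e, S', S'', ht, hlt, H⟩ :=
    layer (G := G) lab snk hsnk b l hb Φ hmono h0 hl hΦ α D hα hD hP hinj hcount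
  let ε := proj k snk
  have hε : (1 - ε) * ε = 0 := by
    have : ε * ε = ε := by
      simp only [ε, proj, Matrix.diagonal_mul_diagonal]
      congr 1; funext i; split_ifs <;> simp
    rw [sub_mul, one_mul, this, sub_self]
  let D' := shiftD α D t
  have hD' : ∀ x a, D' x a = D x a - (α a * t x - t x * α a) := fun _ _ => rfl
  have up : ∀ x a, D' x a = ε * D' x a * (1 - ε) := by
    intro x a
    have e1 : ε * (α a * t x) * (1 - ε) = α a * t x := by
      rw [← mul_assoc, hα, mul_assoc, mul_assoc, ← mul_assoc ε, ← ht]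
    have e2 : ε * (t x * α a) * (1 - ε) = t x * α a := by
      have : α a * (1 - ε) = (1 - ε) * α a := by rw [mul_sub, sub_mul, hα, mul_one, one_mul]
      rw [mul_assoc, mul_assoc, this, ← mul_assoc, ← mul_assoc, ← ht]
    rw [hD', mul_sub ε, sub_mul, ← hD, mul_sub ε, sub_mul, e1, e2]
  let S := FreeAlgebra k G
  let ψ : Aᵐᵒᵖ →ₐ[k] Matrix ι ι S := psiOf α (fun o : Option G => D' (o.elim e₀ e))
    (fun o => o.elim 1 (FreeAlgebra.ι k))
    (fun o a a' => by simp only [hD', Dadd, map_add, add_mul, mul_add]; abel)
    (fun o c a => by simp only [hD', Dsmul, map_smul, smul_sub, smul_mul_assoc, mul_smul_comm])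
    (fun o a a' => by simp only [hD', Dmul, map_mul, mul_sub, sub_mul, mul_assoc]; abel)
    (fun o o' a a' => by
      rw [up, up _ a', mul_assoc, mul_assoc, ← mul_assoc (1 - ε), ← mul_assoc (1 - ε), hε]
      simp)
  have hact : ∀ (V : Type) [AddCommGroup V] [Module k V] [Module S V] [IsScalarTower k S V]
      (a : Aᵐᵒᵖ) (x : FM ψ V), a • x = Fam.act α D'
        (scaf e₀ e V fun j => Algebra.lsmul k k V (FreeAlgebra.ι k j)) a x := by
    intro V _ _ _ _ a x
    change matAct k S ι V (sm S 1 (α a) + ∑ o : Option G, sm S (o.elim 1 (FreeAlgebra.ι k))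
      (D' (o.elim e₀ e) a)) x = _
    rw [map_add, map_sum, Fam.act, LinearMap.add_apply, LinearMap.add_apply, LinearMap.sum_apply,
      LinearMap.sum_apply]
    congr 1
    · exact (matMap_sm _ _ x).trans (by rw [map_one]; rfl)
    · refine Finset.sum_congr rfl fun o _ => (matMap_sm _ _ x).trans ?_
      cases o with
      | none => rw [Option.elim_none, map_one]; rfl
      | some j => rfl
  obtain ⟨π', a1, a2⟩ := exists_idem S'
  obtain ⟨π'', b1, b2⟩ := exists_idem S''
  have hrel : ∀ (j : G) (V : Type) [AddCommGroup V] [Module k V] [Module S V]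
      [IsScalarTower k S V] (x y : ι → V),
      matMap k S V (Matrix.fromRows (sm S 1 (1 - π')) (sm S (FreeAlgebra.ι k j) (π'' - 1))) x +
        matMap k S V (Matrix.fromRows 0 (sm S 1 (1 - π''))) y = 0 ↔
      x ∈ TS V S' ∧ (y - fun i => FreeAlgebra.ι k j • x i) ∈ TS V S'' := by
    intro j V _ _ _ _ x y
    rw [mem_TS a1 a2, mem_TS b1 b2, funext_iff, Sum.forall, funext_iff, funext_iff]
    refine and_congr (forall_congr' fun i => ?_) (forall_congr' fun i => ?_)
    · change matMap k S V (sm S 1 (1 - π')) x i + matMap k S V (0 : Matrix ι ι S) y i = 0 ↔ _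
      rw [matMap_sm]
      simp [sub_smul, Matrix.one_apply, sub_eq_zero]
      exact eq_comm
    · change matMap k S V (sm S (FreeAlgebra.ι k j) (π'' - 1)) x i +
        matMap k S V (sm S 1 (1 - π'')) y i = 0 ↔ _
      rw [matMap_sm, matMap_sm]
      simp only [tens_apply, Matrix.sub_apply, sub_smul, Matrix.one_apply, Algebra.lsmul_coe,
        ite_smul, one_smul, zero_smul, Finset.sum_sub_distrib, Finset.sum_ite_eq, Finset.mem_univ,
        if_true, LinearMap.id_coe, id_eq, Pi.sub_apply, smul_sub]
      rw [← sub_eq_zero (a := _ - _) (b := y i - _), ← neg_eq_zero]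
      constructor <;> intro h <;> rw [← h] <;> abel
  have hQ := fun j : G => def2_of_natural ψ (Matrix.fromCols (sm S 1 π') 0)
    (Matrix.fromCols (sm S (FreeAlgebra.ι k j) π') (sm S 1 π'')) _ _
    (fun V _ _ _ _ x y hxy => by
      obtain ⟨h1, h2⟩ := (hrel j V x y).1 hxy
      rw [mem_TS a1 a2] at h1
      rw [mem_TS b1 b2] at h2
      refine ⟨Sum.elim x (y - fun i => FreeAlgebra.ι k j • x i), funext fun i => ?_,
        funext fun i => ?_⟩
      · rw [← congrFun h1 i]
        simp [Fintype.sum_sum_type, sm]
      · have e1 := congrArg (fun w => FreeAlgebra.ι k j • w) (congrFun h1 i)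
        have e2 := congrFun h2 i
        simp only [tens_apply, LinearMap.id_coe, id_eq, Finset.smul_sum,
          smul_comm (FreeAlgebra.ι k j)] at e1 e2
        simp only [matMap_apply, Fintype.sum_sum_type, Matrix.fromCols_apply_inl,
          Matrix.fromCols_apply_inr, sm, LinearMap.coe_mk, AddHom.coe_mk, smul_assoc, one_smul,
          Sum.elim_inl, Sum.elim_inr, e1, e2]
        simp)
    (fun V _ _ _ _ f s => by
      refine (hrel j V _ _).2 ?_
      let f₀ : (ι → S) →ₗ[k] (ι → V) := f.restrictScalars k
      have hf := H S V (fun j => Algebra.lsmul k k S (FreeAlgebra.ι k j))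
        (fun j => Algebra.lsmul k k V (FreeAlgebra.ι k j)) f₀ fun a => LinearMap.ext fun x =>
          (congrArg f (hact S a x).symm).trans ((f.map_smul a x).trans (hact V a _))
      cases s with
      | inl c =>
        have hz : (fun a => π' a c) ∈ S' := by
          have := a1 (Pi.single c 1)
          rwa [Matrix.mulVec_single_one] at this
        refine ⟨fun y => ?_, fun y => ?_⟩
        · have := (hf 1 y).1 _ hz
          rw [coef_mulVec] at this
          exact this
        · have := (hf 1 y).2.2 j _ hz
          rw [coef_mulVec] at this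
          convert this using 3 with i
          simp only [LinearMap.sub_apply, LinearMap.comp_apply, Pi.sub_apply]
          congr 1
          · refine congrFun (congrArg f₀ (funext fun a => ?_)) i
            simp [sm, Matrix.one_apply]
          · simp only [tens_apply, Matrix.one_apply, ite_smul, one_smul, zero_smul,
              Finset.sum_ite_eq, Finset.mem_univ, if_true]
            rfl
      | inr c =>
        have hz : (fun a => π'' a c) ∈ S'' := by
          have := b1 (Pi.single c 1)
          rwa [Matrix.mulVec_single_one] at this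
        have e0 : f (fun a => Matrix.fromCols (sm S 1 π') (0 : Matrix ι ι S) a (Sum.inr c)) = 0 :=
          map_zero f
        rw [e0]
        refine ⟨Submodule.zero_mem _, fun y => ?_⟩
        have := (hf 1 y).2.1 _ hz
        rw [coef_mulVec] at this
        convert this using 3 with i
        change f₀ _ i - FreeAlgebra.ι k j • (0 : V) = _
        rw [smul_zero, sub_zero]
        rfl)
  choose ρ hρ1 hρ2 using hQ
  refine ⟨ρ, hρ1, fun T f => ?_⟩
  obtain ⟨z, hz1, hz2⟩ := SetLike.exists_of_lt hlt
  let X : G → Module.End k (T →₀ k) := fun j => Finsupp.lmapDomain k k (f j)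
  refine ⟨FM ψ (RMod X), inferInstance, inferInstance, (TS (T →₀ k) S').toAddSubgroup,
    (TS (T →₀ k) S'').toAddSubgroup,
    fun u => ((Finsupp.lmapDomain k k u).compLeft ι).toAddMonoidHom,
    fun t i => (z i • Finsupp.single t 1 : T →₀ k), fun x hx y => hlt.le (hx y),
    fun u w => AddMonoidHom.ext fun x => funext fun i => Finsupp.mapDomain_comp,
    fun u x hx y => hx (y ∘ₗ Finsupp.lmapDomain k k u),
    fun u x hx y => hx (y ∘ₗ Finsupp.lmapDomain k k u), fun t y => ?_, fun u t => funext fun i => ?_,
    fun t t' htt => ?_, fun j x y => ?_⟩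
  · have := S'.smul_mem (y (Finsupp.single t 1)) hz1
    convert this using 1
    funext i
    rw [map_smul, Pi.smul_apply, smul_eq_mul, smul_eq_mul, mul_comm]
  · change Finsupp.lmapDomain k k u (z i • Finsupp.single t 1) = z i • Finsupp.single (u t) 1
    rw [map_smul, Finsupp.lmapDomain_apply, Finsupp.mapDomain_single]
  · by_contra hne
    apply hz2
    have := htt (Finsupp.lapply t)
    convert this using 1
    funext i
    change z i = (z i • Finsupp.single t 1 - z i • Finsupp.single t' 1 : T →₀ k) t
    simp [Finsupp.single_eq_of_ne hne]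
  · rw [hρ2, hrel]
    have : (fun i => FreeAlgebra.ι k j • x i) = (Finsupp.lmapDomain k k (f j)).compLeft ι x :=
      funext fun i => RMod.ι_smul X j (x i)
    rw [this]
    rfl

end Pool.Agent.P.MP_bebcd6_lc
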