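import Pool.Agent.P.MP_bebcd6_lc.Basic

/-! Linear algebra and the structure lemma used in `layer`. -/

namespace Pool.Agent.P.MP_bebcd6_lc

namespace Layer

open Module

section LinAlg

variable {k V : Type} [Field k] [AddCommGroup V] [Module k V] [FiniteDimensional k V]

theorem exists_finset_inf {X : Type} (T : Submodule k V) (K : X → Submodule k V) :
    ∃ s : Finset X, (∀ x, T ⊓ s.inf K ≤ K x) ∧ s.card + finrank k ↥(T ⊓ s.inf K) ≤ finrank k T := by
  classical
  have hex : ∃ n, ∃ s : Finset X, s.card + finrank k ↥(T ⊓ s.inf K) ≤ finrank k T ∧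
      finrank k ↥(T ⊓ s.inf K) = n :=
    ⟨_, ∅, by rw [Finset.inf_empty, inf_top_eq]; simp, rfl⟩
  obtain ⟨s, hs, hn⟩ := Nat.find_spec hex
  refine ⟨s, fun x => ?_, hs⟩
  by_contra h
  have hx : x ∉ s := fun hx => h (inf_le_right.trans (Finset.inf_le hx))
  have hlt : T ⊓ (insert x s).inf K < T ⊓ s.inf K := by
    rw [Finset.inf_insert]
    refine lt_of_le_of_ne (inf_le_inf_left _ inf_le_right) fun e => h ?_
    rw [← e]; exact inf_le_right.trans inf_le_left
  have h1 := Submodule.finrank_lt_finrank_of_lt hlt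
  have h2 := Nat.find_min' hex ⟨insert x s, by rw [Finset.card_insert_of_notMem hx]; omega, rfl⟩
  omega

theorem codim_inf {X : Type} (T : Submodule k V) (K : X → Submodule k V) (c : ℕ)
    (hK : ∀ x, finrank k T ≤ finrank k ↥(T ⊓ K x) + c) (s : Finset X) :
    finrank k T ≤ finrank k ↥(T ⊓ s.inf K) + c * s.card := by
  classical
  induction s using Finset.induction_on with
  | empty => rw [Finset.inf_empty, inf_top_eq]; simp
  | insert x s hx ih =>
    rw [Finset.card_insert_of_notMem hx, Finset.inf_insert]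
    have h1 := Submodule.finrank_sup_add_finrank_inf_eq (T ⊓ K x) (T ⊓ s.inf K)
    have h2 : finrank k ↥((T ⊓ K x) ⊔ (T ⊓ s.inf K)) ≤ finrank k T :=
      Submodule.finrank_mono (sup_le inf_le_left inf_le_left)
    have h3 : (T ⊓ K x) ⊓ (T ⊓ s.inf K) = T ⊓ (K x ⊓ s.inf K) := (inf_inf_distrib_left _ _ _).symm
    rw [h3] at h1
    have := hK x
    rw [mul_add, mul_one]
    omega

theorem exists_dual_family {X : Type} (T W : Submodule k V) (K : X → Submodule k V) (c N : ℕ)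
    (hK : ∀ x, finrank k T ≤ finrank k ↥(T ⊓ K x) + c)
    (hW : ∀ v ∈ T, (∀ x, v ∈ K x) → v ∈ W) (hN : finrank k W + c * N < finrank k T) :
    ∃ s : Finset X, N < s.card ∧ ∃ ξ : X → V, ∀ x ∈ s,
      ξ x ∈ T ∧ ξ x ∉ K x ∧ ∀ x' ∈ s, x' ≠ x → ξ x ∈ K x' := by
  classical
  obtain ⟨s0, hs0, -⟩ := exists_finset_inf T K
  have hex : ∃ n, ∃ s : Finset X, (∀ x, T ⊓ s.inf K ≤ K x) ∧ s.card = n := ⟨_, s0, hs0, rfl⟩
  obtain ⟨s, hs, hn⟩ := Nat.find_spec hex
  refine ⟨s, ?_, ?_⟩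
  · have h1 := codim_inf T K c hK s
    have h2 : finrank k ↥(T ⊓ s.inf K) ≤ finrank k W :=
      Submodule.finrank_mono fun v hv => hW v hv.1 fun x => hs x hv
    by_contra h
    have : c * s.card ≤ c * N := Nat.mul_le_mul_left _ (by omega)
    omega
  · have : ∀ x, ∃ v : V, x ∈ s → v ∈ T ∧ v ∉ K x ∧ ∀ x' ∈ s, x' ≠ x → v ∈ K x' := by
      intro x
      by_cases hx : x ∈ s
      · by_contra h
        push Not at h
        have h1 : T ⊓ (s.erase x).inf K ≤ K x := by
          intro v hv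
          by_contra hv'
          obtain ⟨x', h2, h3, h4⟩ := (h v).2 hv.1 hv'
          exact h4 ((Finset.inf_le (Finset.mem_erase.2 ⟨h3, h2⟩) : (s.erase x).inf K ≤ K x') hv.2)
        have h2 : T ⊓ (s.erase x).inf K ≤ T ⊓ s.inf K := by
          refine le_inf inf_le_left (Finset.le_inf fun x' hx' => ?_)
          rcases eq_or_ne x' x with rfl | h3
          · exact h1
          · exact inf_le_right.trans (Finset.inf_le (Finset.mem_erase.2 ⟨h3, hx'⟩))
        have h3 := Nat.find_min' hex ⟨s.erase x, fun x' => h2.trans (hs x'), rfl⟩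
        have h4 := Finset.card_erase_lt_of_mem hx
        omega
      · exact ⟨0, fun h => absurd h hx⟩
    choose ξ hξ using this
    exact ⟨ξ, hξ⟩

theorem exists_span_compl (B : Submodule k V) : ∀ (c : ℕ) (A : Submodule k V), A ≤ B →
    finrank k B ≤ finrank k A + c →
    ∃ s : Finset V, s.card ≤ c ∧ (∀ v ∈ s, v ∈ B) ∧ B ≤ A ⊔ Submodule.span k (s : Set V) := by
  classical
  intro c
  induction c with
  | zero =>
    intro A hA h
    refine ⟨∅, le_rfl, by simp, ?_⟩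
    rw [Submodule.eq_of_le_of_finrank_le hA h]; exact le_sup_left
  | succ c ih =>
    intro A hA h
    by_cases hB : B ≤ A
    · exact ⟨∅, by simp, by simp, hB.trans le_sup_left⟩
    · obtain ⟨v, hv, hv'⟩ := SetLike.not_le_iff_exists.1 hB
      have h1 : A < A ⊔ Submodule.span k {v} :=
        lt_of_le_of_ne le_sup_left fun e => hv' (e ▸ Submodule.mem_sup_right
          (Submodule.mem_span_singleton_self v))
      have h2 := Submodule.finrank_lt_finrank_of_lt h1
      obtain ⟨s, h3, h4, h5⟩ := ih (A ⊔ Submodule.span k {v})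
        (sup_le hA ((Submodule.span_singleton_le_iff_mem _ _).2 hv)) (by omega)
      refine ⟨insert v s, (Finset.card_insert_le _ _).trans (by omega), ?_, ?_⟩
      · intro w hw
        rcases Finset.mem_insert.1 hw with rfl | hw
        · exact hv
        · exact h4 w hw
      · rw [Finset.coe_insert, Submodule.span_insert, ← sup_assoc]
        exact h5

theorem finrank_le_inf_ker {W : Type} [AddCommGroup W] [Module k W] [FiniteDimensional k W]
    (T : Submodule k V) (f : V →ₗ[k] W) :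
    finrank k T ≤ finrank k ↥(T ⊓ LinearMap.ker f) + finrank k W := by
  have h1 := (f.domRestrict T).finrank_range_add_finrank_ker
  have h2 : finrank k (LinearMap.range (f.domRestrict T)) ≤ finrank k W := Submodule.finrank_le _
  have h3 : finrank k (LinearMap.ker (f.domRestrict T)) = finrank k ↥(T ⊓ LinearMap.ker f) := by
    rw [← Submodule.finrank_map_subtype_eq, LinearMap.ker_domRestrict, Submodule.map_comap_subtype]
  omega

/-- a linear choice function -/
theorem exists_linear_choice {W : Type} [AddCommGroup W] [Module k W] (T : Submodule k V)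
    (U : Submodule k W) (R : Submodule k (V × W)) (h : ∀ v ∈ T, ∃ w ∈ U, (v, w) ∈ R) :
    ∃ t : V →ₗ[k] W, (∀ v, t v ∈ U) ∧ ∀ v ∈ T, (v, t v) ∈ R := by
  let R' : Submodule k (T × U) := R.comap (T.subtype.prodMap U.subtype)
  let π : R' →ₗ[k] T := (LinearMap.fst k T U).domRestrict R'
  have hπ : LinearMap.range π = ⊤ := by
    rw [LinearMap.range_eq_top]
    intro v
    obtain ⟨w, hw, h1⟩ := h v v.2
    exact ⟨⟨(v, ⟨w, hw⟩), h1⟩, rfl⟩
  obtain ⟨σ, hσ⟩ := π.exists_rightInverse_of_surjective hπ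
  obtain ⟨t, ht⟩ := LinearMap.exists_extend ((LinearMap.snd k T U).domRestrict R' ∘ₗ σ)
  refine ⟨U.subtype ∘ₗ t, fun v => (t v).2, fun v hv => ?_⟩
  have h1 : t v = (σ ⟨v, hv⟩).1.2 := LinearMap.congr_fun ht ⟨v, hv⟩
  have h2 : (σ ⟨v, hv⟩).1.1 = ⟨v, hv⟩ := LinearMap.congr_fun hσ ⟨v, hv⟩
  have h3 : ((σ ⟨v, hv⟩).1.1.1, (σ ⟨v, hv⟩).1.2.1) ∈ R := (σ ⟨v, hv⟩).2
  rw [h2, ← h1] at h3
  exact h3

end LinAlg

section SL

variable {k M : Type} [Field k] [Ring M] [Algebra k M]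

/-- `A` is a two-sided ideal of the subalgebra `Γ` -/
structure IsId (Γ : Subalgebra k M) (A : Submodule k M) : Prop where
  le : ∀ x ∈ A, x ∈ Γ
  left : ∀ g ∈ Γ, ∀ x ∈ A, g * x ∈ A
  right : ∀ g ∈ Γ, ∀ x ∈ A, x * g ∈ A

/-- the data given by the structure theory of a finite dimensional algebra -/
structure SL (Γ : Subalgebra k M) where
  n : ℕ
  J : Submodule k M
  p : Fin n → Submodule k M
  e : Fin n → M
  J_id : IsId Γ J
  p_id : ∀ i, IsId Γ (p i)
  e_mem : ∀ i, e i ∈ Γ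
  nil : ∃ N, J ^ N = ⊥
  sum_e : 1 - ∑ i, e i ∈ J
  e_p : ∀ i, ∀ x ∈ p i, e i * x ∈ J
  p_e : ∀ i, ∀ x ∈ p i, x * e i ∈ J
  e_ne : ∀ i j, i ≠ j → e j ∈ p i
  one_not : ∀ i, (1 : M) ∉ p i
  dich : ∀ A, IsId Γ A → ∀ i, A ≤ p i ∨ ∃ x ∈ A, 1 - x ∈ p i

theorem nonempty_SL [FiniteDimensional k M] (Γ : Subalgebra k M) : Nonempty (SL Γ) := by
  classical
  have : IsArtinianRing Γ := IsArtinianRing.of_finite k Γ
  obtain ⟨n, D, d, _, _, hd, ⟨ψ⟩⟩ :=
    IsSemisimpleRing.exists_algEquiv_pi_matrix_divisionRing k (Γ ⧸ Ring.jacobson Γ)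
  let φ : Γ →ₐ[k] Π i, Matrix (Fin (d i)) (Fin (d i)) (D i) :=
    ψ.toAlgHom.comp (Ideal.Quotient.mkₐ k (Ring.jacobson Γ))
  have hφ : Function.Surjective φ := ψ.surjective.comp Ideal.Quotient.mk_surjective
  have hker : ∀ x, φ x = 0 → x ∈ Ring.jacobson Γ := fun x hx =>
    Ideal.Quotient.eq_zero_iff_mem.1 (ψ.injective (hx.trans (map_zero ψ).symm))
  choose e he using fun i => hφ (Pi.single i 1)
  let J : Submodule k M := (LinearMap.ker φ.toLinearMap).map Γ.val.toLinearMap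
  let p : Fin n → Submodule k M := fun i =>
    (LinearMap.ker ((LinearMap.proj i) ∘ₗ φ.toLinearMap)).map Γ.val.toLinearMap
  have hJ : ∀ x : Γ, (x : M) ∈ J ↔ φ x = 0 := fun x =>
    ⟨fun ⟨y, h1, h2⟩ => (Subtype.ext h2 : y = x) ▸ h1, fun h => ⟨x, h, rfl⟩⟩
  have hp : ∀ i (x : Γ), (x : M) ∈ p i ↔ φ x i = 0 := fun i x =>
    ⟨fun ⟨y, h1, h2⟩ => (Subtype.ext h2 : y = x) ▸ h1, fun h => ⟨x, h, rfl⟩⟩
  have hJΓ : ∀ x ∈ J, x ∈ Γ := by rintro _ ⟨y, -, rfl⟩; exact y.2
  have hpΓ : ∀ i, ∀ x ∈ p i, x ∈ Γ := by rintro i _ ⟨y, -, rfl⟩; exact y.2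
  refine ⟨⟨n, J, p, fun i => e i, ⟨hJΓ, ?_, ?_⟩, fun i => ⟨hpΓ i, ?_, ?_⟩, fun i => (e i).2,
    ?_, ?_, ?_, ?_, ?_, ?_, ?_⟩⟩
  · intro g hg x hx
    refine (hJ (⟨g, hg⟩ * ⟨x, hJΓ x hx⟩)).2 ?_
    rw [map_mul, (hJ ⟨x, hJΓ x hx⟩).1 hx, mul_zero]
  · intro g hg x hx
    refine (hJ (⟨x, hJΓ x hx⟩ * ⟨g, hg⟩)).2 ?_
    rw [map_mul, (hJ ⟨x, hJΓ x hx⟩).1 hx, zero_mul]
  · intro g hg x hx
    refine (hp i (⟨g, hg⟩ * ⟨x, hpΓ i x hx⟩)).2 ?_
    rw [map_mul, Pi.mul_apply, (hp i ⟨x, hpΓ i x hx⟩).1 hx, mul_zero]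
  · intro g hg x hx
    refine (hp i (⟨x, hpΓ i x hx⟩ * ⟨g, hg⟩)).2 ?_
    rw [map_mul, Pi.mul_apply, (hp i ⟨x, hpΓ i x hx⟩).1 hx, zero_mul]
  · obtain ⟨N, hN⟩ := (IsSemiprimaryRing.isNilpotent (R := Γ))
    refine ⟨N + 1, ?_⟩
    have key : ∀ m, ∀ x ∈ J ^ (m + 1), ∃ y ∈ (Ring.jacobson Γ) ^ m, (y : M) = x := by
      intro m
      induction m with
      | zero =>
        intro x hx
        rw [zero_add, pow_one] at hx
        exact ⟨⟨x, hJΓ x hx⟩, by rw [Submodule.pow_zero, Ideal.one_eq_top]; trivial, rfl⟩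
      | succ m ih =>
        intro x hx
        rw [pow_succ] at hx
        refine Submodule.mul_induction_on hx ?_ ?_
        · intro a ha c hc
          obtain ⟨y, hy, rfl⟩ := ih a ha
          refine ⟨y * ⟨c, hJΓ c hc⟩, ?_, rfl⟩
          rw [Submodule.pow_succ]
          exact Ideal.mul_mem_mul hy (hker _ ((hJ ⟨c, hJΓ c hc⟩).1 hc))
        · rintro _ _ ⟨a, ha, rfl⟩ ⟨c, hc, rfl⟩
          exact ⟨a + c, add_mem ha hc, rfl⟩
    rw [eq_bot_iff]
    intro x hx
    obtain ⟨y, hy, rfl⟩ := key N x hx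
    rw [hN] at hy
    have : y = 0 := hy
    simp [this]
  · have := (hJ (1 - ∑ i, e i)).2 (by
      rw [map_sub, map_one, map_sum]
      simp only [he]
      exact sub_eq_zero.2
        (Finset.univ_sum_single (1 : Π i, Matrix (Fin (d i)) (Fin (d i)) (D i))).symm)
    simpa using this
  · intro i x hx
    refine (hJ (e i * ⟨x, hpΓ i x hx⟩)).2 ?_
    have := (hp i ⟨x, hpΓ i x hx⟩).1 hx
    rw [map_mul, he]
    funext j
    rcases eq_or_ne j i with rfl | h
    · simp [this]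
    · simp [h]
  · intro i x hx
    refine (hJ (⟨x, hpΓ i x hx⟩ * e i)).2 ?_
    have := (hp i ⟨x, hpΓ i x hx⟩).1 hx
    rw [map_mul, he]
    funext j
    rcases eq_or_ne j i with rfl | h
    · simp [this]
    · simp [h]
  · intro i j hij
    refine (hp i (e j)).2 ?_
    rw [he]; simp [hij]
  · intro i h
    have := (hp i 1).1 h
    rw [map_one] at this
    have hd' := hd i
    exact one_ne_zero this
  · intro A hA i
    by_cases h : A ≤ p i
    · exact Or.inl h
    right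
    obtain ⟨x, hx, hx'⟩ := SetLike.not_le_iff_exists.1 h
    have hd' := hd i
    let I : TwoSidedIdeal (Matrix (Fin (d i)) (Fin (d i)) (D i)) :=
      TwoSidedIdeal.mk' {z | ∃ y : Γ, (y : M) ∈ A ∧ φ y i = z} ⟨0, by simp, by simp⟩
        (by rintro _ _ ⟨a, ha, rfl⟩ ⟨c, hc, rfl⟩; exact ⟨a + c, add_mem ha hc, by simp⟩)
        (by rintro _ ⟨a, ha, rfl⟩; exact ⟨-a, neg_mem ha, by simp⟩)
        (by
          rintro z _ ⟨a, ha, rfl⟩
          obtain ⟨g, hg⟩ := hφ (Pi.single i z)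
          exact ⟨g * a, hA.left g g.2 a ha, by simp [hg]⟩)
        (by
          rintro _ z ⟨a, ha, rfl⟩
          obtain ⟨g, hg⟩ := hφ (Pi.single i z)
          exact ⟨a * g, hA.right g g.2 a ha, by simp [hg]⟩)
    have h1 : φ ⟨x, hA.le x hx⟩ i ∈ I := by
      rw [TwoSidedIdeal.mem_mk']; exact ⟨_, hx, rfl⟩
    have h2 := IsSimpleRing.one_mem_of_ne_zero_mem I
      (fun h3 => hx' ((hp i ⟨x, hA.le x hx⟩).2 h3)) h1
    rw [TwoSidedIdeal.mem_mk'] at h2
    obtain ⟨y, hy, hy'⟩ := h2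
    refine ⟨y, hy, (hp i (1 - y)).2 ?_⟩
    rw [map_sub, map_one, Pi.sub_apply, hy']; simp

variable {Γ : Subalgebra k M}

theorem IsId.one_sub_pow {B : Submodule k M} (hB : IsId Γ B) {q : M} (hq : q ∈ Γ)
    (h : 1 - q ∈ B) (N : ℕ) : 1 - q ^ N ∈ B := by
  induction N with
  | zero => simp
  | succ N ih =>
    rw [show 1 - q ^ (N + 1) = (1 - q ^ N) * q + (1 - q) by rw [pow_succ]; noncomm_ring]
    exact add_mem (hB.right q hq _ ih) h

theorem exists_prod {X : Type} (A : X → Submodule k M) (hA : ∀ x, IsId Γ (A x))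
    {B : Submodule k M} (hB : IsId Γ B) (h : ∀ x, ∃ y ∈ A x, 1 - y ∈ B) (s : Finset X) :
    ∃ q ∈ Γ, (∀ x ∈ s, q ∈ A x) ∧ 1 - q ∈ B := by
  classical
  induction s using Finset.induction_on with
  | empty => exact ⟨1, Γ.one_mem, by simp, by simp⟩
  | insert x s _ ih =>
    obtain ⟨q, hq, h1, h2⟩ := ih
    obtain ⟨y, hy, h3⟩ := h x
    have hyΓ := (hA x).le y hy
    refine ⟨q * y, mul_mem hq hyΓ, ?_, ?_⟩
    · intro x' hx'
      rcases Finset.mem_insert.1 hx' with rfl | hx'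
      · exact (hA _).left q hq y hy
      · exact (hA x').right y hyΓ q (h1 x' hx')
    · rw [show 1 - q * y = (1 - q) * y + (1 - y) by noncomm_ring]
      exact add_mem (hB.right y hyΓ _ h2) h3

namespace SL

variable (S : SL Γ)

theorem mem_J {x : M} (hx : x ∈ Γ) (h : ∀ i, x ∈ S.p i) : x ∈ S.J := by
  rw [show x = (1 - ∑ i, S.e i) * x + ∑ i, S.e i * x by rw [← Finset.sum_mul]; noncomm_ring]
  exact add_mem (S.J_id.right x hx _ S.sum_e) (Submodule.sum_mem _ fun i _ => S.e_p i x (h i))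

theorem nil_le_p {A : Submodule k M} (hA : IsId Γ A) (hn : ∃ N, A ^ N = ⊥) (i : Fin S.n) :
    A ≤ S.p i := by
  refine (S.dich A hA i).resolve_right ?_
  rintro ⟨x, hx, h⟩
  obtain ⟨N, hN⟩ := hn
  have h1 := (S.p_id i).one_sub_pow (hA.le x hx) h N
  have h2 : x ^ N = 0 := by
    have := Submodule.pow_mem_pow A hx N
    rwa [hN] at this
  rw [h2, sub_zero] at h1
  exact S.one_not i h1

theorem nil_le_J {A : Submodule k M} (hA : IsId Γ A) (hn : ∃ N, A ^ N = ⊥) : A ≤ S.J :=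
  fun x hx => S.mem_J (hA.le x hx) fun i => S.nil_le_p hA hn i hx

theorem J_le_p (i : Fin S.n) : S.J ≤ S.p i := S.nil_le_p S.J_id S.nil i

theorem exists_le_p {A : Submodule k M} (hA : IsId Γ A) (h1 : (1 : M) ∉ A) : ∃ i, A ≤ S.p i := by
  by_contra h
  push Not at h
  obtain ⟨q, hq, h2, h3⟩ := exists_prod S.p S.p_id hA (fun i => by
    obtain ⟨x, hx, h4⟩ := (S.dich A hA i).resolve_left (h i)
    exact ⟨1 - x, h4, by simpa using hx⟩) Finset.univ
  obtain ⟨N, hN⟩ := S.nil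
  have h4 := hA.one_sub_pow hq h3 N
  have h5 : q ^ N = 0 := by
    have := Submodule.pow_mem_pow S.J (S.mem_J hq fun i => h2 i (Finset.mem_univ i)) N
    rwa [hN] at this
  rw [h5, sub_zero] at h4
  exact h1 h4

theorem card_le [FiniteDimensional k M] :
    S.n + finrank k S.J ≤ finrank k (Subalgebra.toSubmodule Γ) := by
  classical
  let f : (Fin S.n → k) →ₗ[k] M := Fintype.linearCombination k S.e
  have hf : ∀ c, f c ∈ S.J → c = 0 := by
    intro c hc
    funext i
    by_contra hi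
    have h1 : f c = c i • S.e i + ∑ j ∈ Finset.univ.erase i, c j • S.e j := by
      rw [Fintype.linearCombination_apply, Finset.add_sum_erase _ (fun j => c j • S.e j)
        (Finset.mem_univ i)]
    have h2 : ∀ c' : Fin S.n → k, ∑ j ∈ Finset.univ.erase i, c' j • S.e j ∈ S.p i := fun c' =>
      Submodule.sum_mem _ fun j hj =>
        Submodule.smul_mem _ _ (S.e_ne i j (Finset.ne_of_mem_erase hj).symm)
    have h3 : c i • S.e i ∈ S.p i := by
      have := sub_mem (S.J_le_p i hc) (h2 c)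
      rwa [h1, add_sub_cancel_right] at this
    have h4 : S.e i ∈ S.p i := (Submodule.smul_mem_iff _ hi).1 h3
    have h5 : ∑ j, S.e j ∈ S.p i := by
      refine Submodule.sum_mem _ fun j _ => ?_
      rcases eq_or_ne i j with rfl | h
      · exact h4
      · exact S.e_ne i j h
    have := add_mem (S.J_le_p i S.sum_e) h5
    rw [sub_add_cancel] at this
    exact S.one_not i this
  have hinj : Function.Injective f := by
    rw [← LinearMap.ker_eq_bot, eq_bot_iff]
    intro c hc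
    exact hf c (by rw [LinearMap.mem_ker.1 hc]; exact zero_mem _)
  have h1 : finrank k (LinearMap.range f) = S.n := by
    rw [LinearMap.finrank_range_of_inj hinj]; simp
  have h2 : LinearMap.range f ⊓ S.J = ⊥ := by
    rw [eq_bot_iff]
    rintro _ ⟨⟨c, rfl⟩, hc⟩
    rw [hf c hc, map_zero]; exact zero_mem _
  have h3 := Submodule.finrank_sup_add_finrank_inf_eq (LinearMap.range f) S.J
  rw [h2, finrank_bot, h1] at h3
  have h4 : finrank k ↥(LinearMap.range f ⊔ S.J) ≤ finrank k (Subalgebra.toSubmodule Γ) := by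
    refine Submodule.finrank_mono (sup_le ?_ fun x hx => S.J_id.le x hx)
    rintro _ ⟨c, rfl⟩
    rw [Fintype.linearCombination_apply]
    exact Submodule.sum_mem _ fun j _ => Submodule.smul_mem _ _ (S.e_mem j)
  omega

end SL

/-- the filtration by words with `s` letters from `J` -/
def Fs (J : Submodule k M) : ℕ → Submodule k M
  | 0 => ⊤
  | s + 1 => J * Fs J s ⊔ Fs J s * J

theorem Fs_mono {J J' : Submodule k M} (h : J ≤ J') : ∀ s, Fs J s ≤ Fs J' s
  | 0 => le_rfl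
  | s + 1 => sup_le_sup (mul_le_mul' h (Fs_mono h s)) (mul_le_mul' (Fs_mono h s) h)

theorem Fs_succ_le (J : Submodule k M) : ∀ s, Fs J (s + 1) ≤ Fs J s
  | 0 => le_top
  | s + 1 => sup_le_sup (mul_le_mul' le_rfl (Fs_succ_le J s)) (mul_le_mul' (Fs_succ_le J s) le_rfl)

theorem Fs_left {J : Submodule k M} (hJ : IsId Γ J) {g : M} (hg : g ∈ Γ) :
    ∀ s, ∀ x ∈ Fs J s, g * x ∈ Fs J s
  | 0, _, _ => trivial
  | s + 1, x, hx => by
    obtain ⟨a, ha, c, hc, rfl⟩ := Submodule.mem_sup.1 hx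
    rw [mul_add]
    refine add_mem (Submodule.mem_sup_left ?_) (Submodule.mem_sup_right ?_)
    · refine Submodule.mul_induction_on ha (fun u hu w hw => ?_) (fun u w hu hw => ?_)
      · rw [← mul_assoc]; exact Submodule.mul_mem_mul (hJ.left g hg u hu) hw
      · rw [mul_add]; exact add_mem hu hw
    · refine Submodule.mul_induction_on hc (fun u hu w hw => ?_) (fun u w hu hw => ?_)
      · rw [← mul_assoc]; exact Submodule.mul_mem_mul (Fs_left hJ hg s u hu) hw
      · rw [mul_add]; exact add_mem hu hw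

theorem Fs_right {J : Submodule k M} (hJ : IsId Γ J) {g : M} (hg : g ∈ Γ) :
    ∀ s, ∀ x ∈ Fs J s, x * g ∈ Fs J s
  | 0, _, _ => trivial
  | s + 1, x, hx => by
    obtain ⟨a, ha, c, hc, rfl⟩ := Submodule.mem_sup.1 hx
    rw [add_mul]
    refine add_mem (Submodule.mem_sup_left ?_) (Submodule.mem_sup_right ?_)
    · refine Submodule.mul_induction_on ha (fun u hu w hw => ?_) (fun u w hu hw => ?_)
      · rw [mul_assoc]; exact Submodule.mul_mem_mul hu (Fs_right hJ hg s w hw)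
      · rw [add_mul]; exact add_mem hu hw
    · refine Submodule.mul_induction_on hc (fun u hu w hw => ?_) (fun u w hu hw => ?_)
      · rw [mul_assoc]; exact Submodule.mul_mem_mul hu (hJ.right g hg w hw)
      · rw [add_mul]; exact add_mem hu hw

theorem Fs_J_left {J : Submodule k M} {g x : M} {s : ℕ} (hg : g ∈ J) (hx : x ∈ Fs J s) :
    g * x ∈ Fs J (s + 1) := Submodule.mem_sup_left (Submodule.mul_mem_mul hg hx)

theorem Fs_J_right {J : Submodule k M} {g x : M} {s : ℕ} (hg : g ∈ J) (hx : x ∈ Fs J s) :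
    x * g ∈ Fs J (s + 1) := Submodule.mem_sup_right (Submodule.mul_mem_mul hx hg)

theorem Fs_eq_bot {J : Submodule k M} {h : ℕ} (hJ : J ^ h = ⊥) : Fs J (2 * h) = ⊥ := by
  have h1 : ∀ i, h ≤ i → J ^ i = ⊥ := fun i hi => by
    obtain ⟨c, rfl⟩ := Nat.exists_eq_add_of_le hi
    rw [pow_add, hJ, Submodule.bot_mul]
  have key : ∀ s i j, 2 * h ≤ i + j + s → J ^ i * Fs J s * J ^ j = ⊥ := by
    intro s
    induction s with
    | zero =>
      intro i j hij
      rcases le_or_gt h i with h2 | h2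
      · rw [h1 i h2, Submodule.bot_mul, Submodule.bot_mul]
      · rw [h1 j (by omega), Submodule.mul_bot]
    | succ s ih =>
      intro i j hij
      have e : Fs J (s + 1) = J * Fs J s ⊔ Fs J s * J := rfl
      rw [e, Submodule.mul_sup, Submodule.sup_mul, ← mul_assoc (J ^ i) J, ← pow_succ,
        ih (i + 1) j (by omega), ← mul_assoc (J ^ i), mul_assoc _ J, ← pow_succ',
        ih i (j + 1) (by omega), bot_sup_eq]
  have := key (2 * h) 0 0 (by omega)
  simpa using this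

end SL

end Layer

end Pool.Agent.P.MP_bebcd6_lc
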