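import Pool.Agent.P.MP_bebcd6_lc.LayerA

/-! Flags, the parabolic algebra and its nilpotent ideal. -/

namespace Pool.Agent.P.MP_bebcd6_lc

namespace Layer

open Module Matrix

/-- a labelled flag -/
structure Fl (k ι P : Type) [Field k] [Fintype ι] [DecidableEq ι] [DecidableEq P] where
  lab : ι → P
  Φ : ℕ → Submodule k (ι → k)
  mono : Monotone Φ
  zero : Φ 0 = ⊥
  stab : ∀ x m, ∀ z ∈ Φ m, (proj k fun i => lab i = x).mulVec z ∈ Φ m

namespace Fl

variable {k ι P : Type} [Field k] [Fintype ι] [DecidableEq ι] [Fintype P] [DecidableEq P]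
  (F : Fl k ι P)

/-- the projection to a label -/
def ex (x : P) : Matrix ι ι k := proj k fun i => F.lab i = x

theorem sum_ex : ∑ x, F.ex x = 1 := by
  ext i j
  simp only [ex, proj, Matrix.sum_apply, diagonal_apply, one_apply]
  split_ifs <;> simp

omit [Fintype P] in
theorem ex_mul_ne {x y : P} (h : x ≠ y) : F.ex x * F.ex y = 0 := by
  simp only [ex, proj, diagonal_mul_diagonal]
  rw [← diagonal_zero]
  congr 1
  funext i
  split_ifs with h1 h2
  · exact absurd (h1.symm.trans h2) h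
  all_goals simp

omit [Fintype P] in
theorem ex_mul_self (x : P) : F.ex x * F.ex x = F.ex x := by
  simp only [ex, proj, diagonal_mul_diagonal]
  congr 1
  funext i
  split_ifs <;> simp

/-- `g` preserves the flag -/
def Pres (g : Matrix ι ι k) : Prop := ∀ m, ∀ z ∈ F.Φ m, g.mulVec z ∈ F.Φ m

/-- the matrices lowering the flag -/
def Nn : Submodule k (Matrix ι ι k) where
  carrier := {g | Lowers F.Φ g}
  add_mem' ha hb m z hz := by rw [add_mulVec]; exact add_mem (ha m z hz) (hb m z hz)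
  zero_mem' m z _ := by rw [zero_mulVec]; exact zero_mem _
  smul_mem' c g hg m z hz := by rw [smul_mulVec]; exact Submodule.smul_mem _ _ (hg m z hz)

variable {F}

omit [Fintype P] in
theorem Pres.mul {g h : Matrix ι ι k} (hg : F.Pres g) (hh : F.Pres h) : F.Pres (g * h) :=
  fun m z hz => by rw [← mulVec_mulVec]; exact hg m _ (hh m z hz)

omit [Fintype P] in
theorem Pres.mul_Nn {g h : Matrix ι ι k} (hg : F.Pres g) (hh : h ∈ F.Nn) : g * h ∈ F.Nn :=
  fun m z hz => by rw [← mulVec_mulVec]; exact hg m _ (hh m z hz)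

omit [Fintype P] in
theorem Pres.Nn_mul {g h : Matrix ι ι k} (hh : F.Pres h) (hg : g ∈ F.Nn) : g * h ∈ F.Nn :=
  fun m z hz => by rw [← mulVec_mulVec]; exact hg m _ (hh _ z hz)

omit [Fintype P] in
theorem pres_of_Nn {g : Matrix ι ι k} (hg : g ∈ F.Nn) : F.Pres g := fun m z hz =>
  hg m z (F.mono (Nat.le_succ m) hz)

omit [Fintype P] in
theorem pres_ex (x : P) : F.Pres (F.ex x) := F.stab x

omit [Fintype P] in
theorem Pres.one_sub {g : Matrix ι ι k} (hg : F.Pres g) : F.Pres (1 - g) := fun m z hz => by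
  rw [sub_mulVec, one_mulVec]; exact sub_mem hz (hg m z hz)

variable (F)

/-- the parabolic algebra -/
def Pp : Subalgebra k (Matrix ι ι k) where
  carrier := {g | Par F.lab F.Φ g}
  mul_mem' {g h} hg hh := by
    refine ⟨Pres.mul hg.1 hh.1, fun x y hxy => ?_⟩
    show F.ex x * (g * h) * F.ex y ∈ F.Nn
    have e : F.ex x * (g * h) * F.ex y = ∑ z, (F.ex x * g * F.ex z) * (F.ex z * h * F.ex y) := by
      have : ∀ z, (F.ex x * g * F.ex z) * (F.ex z * h * F.ex y) =
          F.ex x * g * F.ex z * (h * F.ex y) := fun z => by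
        rw [mul_assoc (F.ex z) h, ← mul_assoc _ (F.ex z) (h * F.ex y), mul_assoc _ (F.ex z) (F.ex z),
          ex_mul_self]
      simp only [this]
      rw [← Finset.sum_mul, ← Finset.mul_sum, sum_ex]; noncomm_ring
    rw [e]
    refine Submodule.sum_mem _ fun z _ => ?_
    rcases eq_or_ne x z with rfl | hz
    · exact (((pres_ex x).mul hg.1).mul (pres_ex x)).mul_Nn (hh.2 x y hxy)
    · exact (((pres_ex z).mul hh.1).mul (pres_ex y)).Nn_mul (hg.2 x z hz)
  add_mem' {g h} hg hh := by
    refine ⟨fun m z hz => by rw [add_mulVec]; exact add_mem (hg.1 m z hz) (hh.1 m z hz),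
      fun x y hxy => ?_⟩
    show F.ex x * (g + h) * F.ex y ∈ F.Nn
    rw [mul_add, add_mul]
    exact add_mem (hg.2 x y hxy) (hh.2 x y hxy)
  algebraMap_mem' c := by
    rw [Algebra.algebraMap_eq_smul_one]
    refine ⟨fun m z hz => by rw [smul_mulVec, one_mulVec]; exact Submodule.smul_mem _ _ hz,
      fun x y hxy => ?_⟩
    show F.ex x * (c • 1) * F.ex y ∈ F.Nn
    rw [mul_smul_comm, mul_one, smul_mul_assoc, F.ex_mul_ne hxy, smul_zero]
    exact zero_mem _

variable {F}

theorem mem_Pp {g : Matrix ι ι k} : g ∈ F.Pp ↔ Par F.lab F.Φ g := Iff.rfl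

theorem pres_of_Pp {g : Matrix ι ι k} (hg : g ∈ F.Pp) : F.Pres g := hg.1

theorem off_diag {g : Matrix ι ι k} (hg : g ∈ F.Pp) {x y : P} (h : x ≠ y) :
    F.ex x * g * F.ex y ∈ F.Nn := hg.2 x y h

theorem Pp_of_Nn {g : Matrix ι ι k} (hg : g ∈ F.Nn) : g ∈ F.Pp :=
  ⟨pres_of_Nn hg, fun x y _ => (pres_ex y).Nn_mul ((pres_ex x).mul_Nn hg)⟩

theorem Nn_id {Γ : Subalgebra k (Matrix ι ι k)} (h1 : ∀ g ∈ F.Nn, g ∈ Γ) (h2 : Γ ≤ F.Pp) :
    IsId Γ F.Nn :=
  ⟨h1, fun _ hg _ hx => (pres_of_Pp (h2 hg)).mul_Nn hx,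
    fun _ hg _ hx => (pres_of_Pp (h2 hg)).Nn_mul hx⟩

omit [Fintype P] in
theorem Nn_pow {l : ℕ} (hl : F.Φ l = ⊤) : F.Nn ^ l = ⊥ := by
  have key : ∀ a, ∀ g ∈ F.Nn ^ a, ∀ m, ∀ z ∈ F.Φ (m + a), g.mulVec z ∈ F.Φ m := by
    intro a
    induction a with
    | zero =>
      intro g hg m z hz
      rw [pow_zero, Submodule.mem_one] at hg
      obtain ⟨c, rfl⟩ := hg
      rw [Algebra.algebraMap_eq_smul_one, smul_mulVec, one_mulVec]
      exact Submodule.smul_mem _ _ hz
    | succ a ih =>
      intro g hg m z hz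
      rw [pow_succ] at hg
      refine Submodule.mul_induction_on hg (fun u hu w hw => ?_) (fun u w hu hw => ?_)
      · rw [← mulVec_mulVec]; exact ih u hu m _ (hw (m + a) z hz)
      · rw [add_mulVec]; exact add_mem hu hw
  rw [eq_bot_iff]
  intro g hg
  rw [Submodule.mem_bot]
  apply Matrix.ext_of_mulVec_single
  intro i
  have := key l g hg 0 (Pi.single i 1) (by rw [zero_add, hl]; trivial)
  rw [F.zero, Submodule.mem_bot] at this
  rw [this, zero_mulVec]

theorem eq_sum_sum (g : Matrix ι ι k) : g = ∑ x, ∑ y, F.ex x * g * F.ex y := by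
  simp only [← Finset.mul_sum, ← Finset.sum_mul, sum_ex, mul_one, one_mul]

theorem mul_ex_eq (g : Matrix ι ι k) (x : P) : g * F.ex x = ∑ y, F.ex y * g * F.ex x := by
  simp only [← Finset.sum_mul, sum_ex, one_mul]

theorem mul_ex_sub {g : Matrix ι ι k} (hg : g ∈ F.Pp) (x : P) :
    g * F.ex x - F.ex x * g * F.ex x ∈ F.Nn := by
  rw [F.mul_ex_eq g x, ← Finset.add_sum_erase _ _ (Finset.mem_univ x), add_sub_cancel_left]
  exact Submodule.sum_mem _ fun y hy => off_diag hg (Finset.ne_of_mem_erase hy)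

theorem pow_le_Nn {b : ℕ} (hb : ∀ x, Fintype.card {i // F.lab i = x} ≤ b)
    {J : Submodule k (Matrix ι ι k)} (hJ : ∀ g ∈ J, g ∈ F.Pp) (hn : ∃ N, J ^ N = ⊥) :
    J ^ b ≤ F.Nn := by
  intro g hg m z hz
  have e : g.mulVec z = ∑ x, g.mulVec ((F.ex x).mulVec z) := by
    rw [← mulVec_sum, ← sum_mulVec, sum_ex, one_mulVec]
  rw [e]
  refine Submodule.sum_mem _ fun x _ => ?_
  let f : Matrix ι ι k →ₗ[k] (ι → k) →ₗ[k] (ι → k) := Matrix.toLin'.toLinearMap
  have hf : ∀ g z, f g z = g.mulVec z := fun g z => rfl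
  let T : Submodule k (ι → k) := (F.Φ (m + 1)).map (F.ex x).mulVecLin
  obtain ⟨L, L0, Ls⟩ : ∃ L : ℕ → Submodule k (ι → k), L 0 = T ⊔ F.Φ m ∧
      ∀ a, L (a + 1) = Submodule.map₂ f J (L a) ⊔ F.Φ m :=
    ⟨fun a => Nat.rec (T ⊔ F.Φ m) (fun _ L => Submodule.map₂ f J L ⊔ F.Φ m) a, rfl, fun _ => rfl⟩
  have hge : ∀ a, F.Φ m ≤ L a := fun a => by
    cases a
    · rw [L0]; exact le_sup_right
    · rw [Ls]; exact le_sup_right
  have hanti : ∀ a, L (a + 1) ≤ L a := by
    intro a
    induction a with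
    | zero =>
      rw [Ls, L0]
      refine sup_le (Submodule.map₂_le.2 fun u hu w hw => ?_) le_sup_right
      obtain ⟨_, ⟨w1, hw1, rfl⟩, w2, hw2, rfl⟩ := Submodule.mem_sup.1 hw
      rw [hf, mulVec_add]
      refine add_mem ?_ (Submodule.mem_sup_right (pres_of_Pp (hJ u hu) m w2 hw2))
      have e2 : u.mulVec ((F.ex x).mulVecLin w1) = (F.ex x).mulVecLin ((u * F.ex x).mulVec w1) +
          (u * F.ex x - F.ex x * u * F.ex x).mulVec w1 := by
        simp only [mulVecLin_apply, mulVec_mulVec, sub_mulVec, mul_assoc]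
        abel
      rw [e2]
      exact add_mem (Submodule.mem_sup_left ⟨_, ((pres_of_Pp (hJ u hu)).mul (pres_ex x)) _ _ hw1, rfl⟩)
        (Submodule.mem_sup_right (mul_ex_sub (hJ u hu) x m w1 hw1))
    | succ a ih =>
      calc L (a + 1 + 1) = Submodule.map₂ f J (L (a + 1)) ⊔ F.Φ m := Ls (a + 1)
        _ ≤ Submodule.map₂ f J (L a) ⊔ F.Φ m :=
          sup_le_sup_right (Submodule.map₂_le_map₂_right ih) _
        _ = L (a + 1) := (Ls a).symm
  have hpow : ∀ a, ∀ g ∈ J ^ a, ∀ w ∈ L 0, g.mulVec w ∈ L a := by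
    intro a
    induction a with
    | zero =>
      intro g hg w hw
      rw [pow_zero, Submodule.mem_one] at hg
      obtain ⟨c, rfl⟩ := hg
      rw [Algebra.algebraMap_eq_smul_one, smul_mulVec, one_mulVec]
      exact Submodule.smul_mem _ _ hw
    | succ a ih =>
      intro g hg w hw
      rw [pow_succ'] at hg
      refine Submodule.mul_induction_on hg (fun u hu v hv => ?_) (fun u v hu hv => ?_)
      · rw [← mulVec_mulVec, Ls]
        exact Submodule.mem_sup_left (Submodule.apply_mem_map₂ f hu (ih v hv w hw))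
      · rw [add_mulVec]; exact add_mem hu hv
  have hup : ∀ a, L a ≤ Submodule.map₂ f (J ^ a) ⊤ ⊔ F.Φ m := by
    intro a
    induction a with
    | zero =>
      intro w _
      refine Submodule.mem_sup_left ?_
      have := Submodule.apply_mem_map₂ f (Submodule.pow_mem_pow J (zero_mem J) 0)
        (Submodule.mem_top (x := w))
      rwa [pow_zero (0 : Matrix ι ι k), hf, one_mulVec] at this
    | succ a ih =>
      rw [Ls]
      refine sup_le (Submodule.map₂_le.2 fun u hu w hw => ?_) le_sup_right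
      obtain ⟨w1, hw1, w2, hw2, rfl⟩ := Submodule.mem_sup.1 (ih hw)
      rw [map_add]
      refine add_mem (Submodule.mem_sup_left ?_)
        (Submodule.mem_sup_right (pres_of_Pp (hJ u hu) m w2 hw2))
      have : Submodule.map₂ f (J ^ a) ⊤ ≤
          (Submodule.map₂ f (J ^ (a + 1)) ⊤).comap (f u) := by
        refine Submodule.map₂_le.2 fun v hv w _ => ?_
        rw [Submodule.mem_comap, hf, hf, mulVec_mulVec, ← hf]
        refine Submodule.apply_mem_map₂ f ?_ Submodule.mem_top
        rw [pow_succ']; exact Submodule.mul_mem_mul hu hv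
      exact this hw1
  obtain ⟨N, hN⟩ := hn
  have hLN : L N = F.Φ m := by
    refine le_antisymm ?_ (hge N)
    have := hup N
    rwa [hN, Submodule.map₂_bot_left, bot_sup_eq] at this
  have hA : Antitone L := antitone_nat_of_succ_le hanti
  have hstall : ∀ a, L (a + 1) = L a → ∀ c, L (a + c) = L a := by
    intro a h c
    induction c with
    | zero => rfl
    | succ c ih => rw [← add_assoc, Ls, ih, ← Ls, h]
  have hdim : ∀ a : ℕ, L a = F.Φ m ∨ finrank k ↥(L a) + a ≤ finrank k ↥(L 0) := by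
    intro a
    induction a with
    | zero => right; simp
    | succ a ih =>
      rcases ih with h | h
      · left; exact le_antisymm (h ▸ hanti a) (hge _)
      · by_cases h2 : L (a + 1) = L a
        · left
          rw [h2, ← hstall a h2 N]
          exact le_antisymm (hLN ▸ hA (Nat.le_add_left N a)) (hge _)
        · right
          have := Submodule.finrank_lt_finrank_of_lt (lt_of_le_of_ne (hanti a) h2)
          omega
  have hT : finrank k T ≤ b := by
    have h1 := finrank_le_inf_ker T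
      (LinearMap.funLeft k k (Subtype.val : {i // F.lab i = x} → ι))
    have h2 : T ⊓ LinearMap.ker (LinearMap.funLeft k k (Subtype.val : {i // F.lab i = x} → ι)) = ⊥ := by
      rw [eq_bot_iff]
      rintro _ ⟨⟨w, -, rfl⟩, hw⟩
      rw [Submodule.mem_bot]
      funext i
      by_cases hi : F.lab i = x
      · exact congrFun hw ⟨i, hi⟩
      · simp [ex, proj, mulVec_diagonal, hi]
    rw [h2, finrank_bot, finrank_fintype_fun_eq_card] at h1
    have := hb x
    omega
  have hL0 : finrank k ↥(L 0) ≤ b + finrank k ↥(F.Φ m) := by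
    have := Submodule.finrank_add_le_finrank_add_finrank T (F.Φ m)
    rw [L0]; omega
  have hLb : L b = F.Φ m := by
    rcases hdim b with h | h
    · exact h
    · exact (Submodule.eq_of_le_of_finrank_le (hge b) (by omega)).symm
  rw [← hLb]
  exact hpow b g hg _ (by rw [L0]; exact Submodule.mem_sup_left ⟨z, hz, rfl⟩)

theorem pow_eq_bot {b l : ℕ} (hb : ∀ x, Fintype.card {i // F.lab i = x} ≤ b) (hl : F.Φ l = ⊤)
    {J : Submodule k (Matrix ι ι k)} (hJ : ∀ g ∈ J, g ∈ F.Pp) (hn : ∃ N, J ^ N = ⊥) :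
    J ^ (b * l) = ⊥ := by
  rw [pow_mul, eq_bot_iff, ← Nn_pow hl]
  exact pow_le_pow_left' (pow_le_Nn hb hJ hn) l

variable (F)

/-- the diagonal block of a label -/
def block (x : P) : Matrix ι ι k →ₗ[k] Matrix {i // F.lab i = x} {i // F.lab i = x} k where
  toFun g := g.submatrix Subtype.val Subtype.val
  map_add' _ _ := rfl
  map_smul' _ _ := rfl

variable {F}

omit [Fintype P] in
theorem block_eq_zero {x : P} {g : Matrix ι ι k} (h : F.block x g = 0) :
    F.ex x * g * F.ex x = 0 := by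
  ext i j
  simp only [ex, proj, mul_diagonal, diagonal_mul, Matrix.zero_apply]
  split_ifs with h1 h2
  · have : g i j = 0 := congrFun (congrFun h ⟨i, h1⟩) ⟨j, h2⟩
    simp [this]
  all_goals simp

omit [Fintype P] in
theorem finrank_block {b : ℕ} (hb : ∀ x, Fintype.card {i // F.lab i = x} ≤ b) (x : P) :
    finrank k (Matrix {i // F.lab i = x} {i // F.lab i = x} k) ≤ b ^ 2 := by
  rw [finrank_matrix, finrank_self, mul_one, pow_two]
  exact Nat.mul_le_mul (hb x) (hb x)

theorem finrank_le {b : ℕ} (hb : ∀ x, Fintype.card {i // F.lab i = x} ≤ b)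
    {Γ : Subalgebra k (Matrix ι ι k)} (h2 : Γ ≤ F.Pp) :
    finrank k (Subalgebra.toSubmodule Γ) ≤ finrank k F.Nn + Fintype.card P * b ^ 2 := by
  have h1 := finrank_le_inf_ker (Subalgebra.toSubmodule Γ) (LinearMap.pi F.block)
  have h3 : finrank k ↥(Subalgebra.toSubmodule Γ ⊓ LinearMap.ker (LinearMap.pi F.block)) ≤
      finrank k F.Nn := by
    refine Submodule.finrank_mono fun g hg => ?_
    rw [F.eq_sum_sum g]
    refine Submodule.sum_mem _ fun x _ => Submodule.sum_mem _ fun y _ => ?_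
    rcases eq_or_ne x y with rfl | h
    · rw [block_eq_zero (congrFun hg.2 x)]; exact zero_mem _
    · exact off_diag (h2 hg.1) h
  have h4 : finrank k (Π x, Matrix {i // F.lab i = x} {i // F.lab i = x} k) ≤
      Fintype.card P * b ^ 2 := by
    rw [finrank_pi_fintype]
    exact (Finset.sum_le_card_nsmul _ _ _ fun x _ => finrank_block hb x).trans (by simp)
  omega

theorem SL_facts {b l : ℕ} (hb : ∀ x, Fintype.card {i // F.lab i = x} ≤ b) (hl : F.Φ l = ⊤)
    {Γ : Subalgebra k (Matrix ι ι k)} (h1 : ∀ g ∈ F.Nn, g ∈ Γ) (h2 : Γ ≤ F.Pp) (S : SL Γ) :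
    S.n ≤ Fintype.card P * b ^ 2 ∧ ∀ i, ∃ s : Finset (Matrix ι ι k), s.card ≤ b ^ 2 ∧
      (∀ g ∈ s, g ∈ Γ) ∧ ∀ g ∈ Γ, g ∈ S.p i ⊔ Submodule.span k (s : Set (Matrix ι ι k)) := by
  have hN : F.Nn ≤ S.J := S.nil_le_J (Nn_id h1 h2) ⟨l, Nn_pow hl⟩
  refine ⟨?_, fun i => ?_⟩
  · have h3 := S.card_le
    have h4 := finrank_le hb h2
    have h5 := Submodule.finrank_mono hN
    omega
  · let K : P → Submodule k (Matrix ι ι k) := fun x =>
      Subalgebra.toSubmodule Γ ⊓ F.Nn.comap (LinearMap.mulRight k (F.ex x))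
    have hK : ∀ x, IsId Γ (K x) := by
      intro x
      refine ⟨fun g hg => hg.1, fun g hg u hu => ⟨Γ.mul_mem hg hu.1, ?_⟩,
        fun g hg u hu => ⟨Γ.mul_mem hu.1 hg, ?_⟩⟩
      · show g * u * F.ex x ∈ F.Nn
        rw [mul_assoc]; exact (pres_of_Pp (h2 hg)).mul_Nn hu.2
      · show u * g * F.ex x ∈ F.Nn
        rw [show u * g * F.ex x = (u * F.ex x) * (g * F.ex x) +
          u * (g * F.ex x - F.ex x * g * F.ex x) by noncomm_ring]
        exact add_mem (((pres_of_Pp (h2 hg)).mul (pres_ex x)).Nn_mul hu.2)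
          ((pres_of_Pp (h2 hu.1)).mul_Nn (mul_ex_sub (h2 hg) x))
    obtain ⟨x, hx⟩ : ∃ x, K x ≤ S.p i := by
      by_contra h
      push Not at h
      obtain ⟨q, -, h3, h4⟩ := exists_prod K hK (S.p_id i)
        (fun x => (S.dich _ (hK x) i).resolve_left (h x)) Finset.univ
      have h5 : q ∈ F.Nn := by
        rw [← mul_one q, ← F.sum_ex, Finset.mul_sum]
        exact Submodule.sum_mem _ fun x _ => (h3 x (Finset.mem_univ x)).2
      have := add_mem h4 (S.J_le_p i (hN h5))
      rw [sub_add_cancel] at this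
      exact S.one_not i this
    have h3 := finrank_le_inf_ker (Subalgebra.toSubmodule Γ) (F.block x)
    have h4 : finrank k ↥(Subalgebra.toSubmodule Γ ⊓ LinearMap.ker (F.block x)) ≤
        finrank k (S.p i) := by
      refine Submodule.finrank_mono fun g hg => hx ⟨hg.1, ?_⟩
      have := mul_ex_sub (h2 hg.1) x
      rwa [block_eq_zero hg.2, sub_zero] at this
    have h5 := finrank_block hb x
    exact exists_span_compl (Subalgebra.toSubmodule Γ) (b ^ 2) (S.p i)
      (fun g hg => (S.p_id i).le g hg) (by omega)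

section Snk

variable {snk : ι → Prop} [DecidablePred snk] (hsnk : ∀ i j, F.lab i = F.lab j → snk i → snk j)

omit [Fintype P] in
theorem proj_mul_self : proj k snk * proj k snk = proj k snk := by
  simp only [proj, diagonal_mul_diagonal]
  congr 1
  funext i
  split_ifs <;> simp

omit [Fintype P] in
theorem proj_comm (x : P) : proj k snk * F.ex x = F.ex x * proj k snk := by
  simp only [ex, proj, diagonal_mul_diagonal]
  congr 1
  funext i
  exact mul_comm _ _

include hsnk

omit [Fintype P] in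
theorem proj_mul_ex (x : P) : proj k snk * F.ex x = F.ex x ∨ proj k snk * F.ex x = 0 := by
  by_cases h : ∃ i, F.lab i = x ∧ snk i
  · left
    obtain ⟨i0, h1, h2⟩ := h
    simp only [ex, proj, diagonal_mul_diagonal]
    congr 1
    funext i
    by_cases hi : F.lab i = x
    · simp [hi, hsnk i0 i (h1.trans hi.symm) h2]
    · simp [hi]
  · right
    simp only [ex, proj, diagonal_mul_diagonal]
    rw [← diagonal_zero]
    congr 1
    funext i
    by_cases hi : F.lab i = x
    · have : ¬ snk i := fun h2 => h ⟨i, hi, h2⟩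
      simp [this]
    · simp [hi]

theorem pres_proj : F.Pres (proj k snk) := by
  intro m z hz
  rw [← mul_one (proj k snk), ← F.sum_ex, Finset.mul_sum, sum_mulVec]
  refine Submodule.sum_mem _ fun x _ => ?_
  rcases proj_mul_ex hsnk x with h | h
  · rw [h]; exact pres_ex x m z hz
  · rw [h, zero_mulVec]; exact zero_mem _

theorem proj_mem_Pp : proj k snk ∈ F.Pp := by
  refine ⟨pres_proj hsnk, fun x y hxy => ?_⟩
  show F.ex x * proj k snk * F.ex y ∈ F.Nn
  rw [← proj_comm, mul_assoc, F.ex_mul_ne hxy, mul_zero]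
  exact zero_mem _

theorem upper_mem_Nn {g : Matrix ι ι k} (hg : g ∈ F.Pp) :
    proj k snk * g * (1 - proj k snk) ∈ F.Nn := by
  rw [F.eq_sum_sum g]
  simp only [Finset.mul_sum, Finset.sum_mul]
  refine Submodule.sum_mem _ fun x _ => Submodule.sum_mem _ fun y _ => ?_
  rcases eq_or_ne x y with rfl | h
  · have e : proj k snk * (F.ex x * g * F.ex x) * (1 - proj k snk) =
        (proj k snk * F.ex x) * g * (F.ex x - proj k snk * F.ex x) := by
      rw [proj_comm (F := F) x, ← proj_comm (F := F) x]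
      nth_rewrite 2 [proj_comm (F := F) x]
      noncomm_ring
    rw [e]
    rcases proj_mul_ex hsnk x with h | h <;> rw [h] <;> simp
  · exact (pres_proj hsnk).one_sub.Nn_mul ((pres_proj hsnk).mul_Nn (off_diag hg h))

theorem lower_mem_Nn {g : Matrix ι ι k} (hg : g ∈ F.Pp) :
    (1 - proj k snk) * g * proj k snk ∈ F.Nn := by
  rw [F.eq_sum_sum g]
  simp only [Finset.mul_sum, Finset.sum_mul]
  refine Submodule.sum_mem _ fun x _ => Submodule.sum_mem _ fun y _ => ?_
  rcases eq_or_ne x y with rfl | h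
  · have e : (1 - proj k snk) * (F.ex x * g * F.ex x) * proj k snk =
        (F.ex x - proj k snk * F.ex x) * g * (proj k snk * F.ex x) := by
      nth_rewrite 2 [proj_comm (F := F) x]
      noncomm_ring
    rw [e]
    rcases proj_mul_ex hsnk x with h | h <;> rw [h] <;> simp
  · exact (pres_proj hsnk).Nn_mul ((pres_proj hsnk).one_sub.mul_Nn (off_diag hg h))

end Snk

end Fl

end Layer

end Pool.Agent.P.MP_bebcd6_lc
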