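import Pool.Agent.P.MP_bebcd6_lc.LayerB

/-! Coefficients of intertwiners and the shift lemma. -/

namespace Pool.Agent.P.MP_bebcd6_lc

namespace Layer

variable {k ι : Type} [Field k] [Fintype ι] [DecidableEq ι]
  {V V' V'' : Type} [AddCommGroup V] [Module k V] [AddCommGroup V'] [Module k V']
  [AddCommGroup V''] [Module k V'']

omit [Fintype ι] in
theorem coef_add (v : V) (y : V' →ₗ[k] k) (f f' : (ι → V) →ₗ[k] (ι → V')) :
    coef v y (f + f') = coef v y f + coef v y f' := by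
  ext i j; simp [coef]

omit [Fintype ι] in
theorem coef_sub (v : V) (y : V' →ₗ[k] k) (f f' : (ι → V) →ₗ[k] (ι → V')) :
    coef v y (f - f') = coef v y f - coef v y f' := by
  ext i j; simp [coef]

omit [Fintype ι] in
theorem coef_sum {J : Type} [Fintype J] (v : V) (y : V' →ₗ[k] k)
    (f : J → (ι → V) →ₗ[k] (ι → V')) : coef v y (∑ j, f j) = ∑ j, coef v y (f j) := by
  ext i j; simp [coef, Matrix.sum_apply]

theorem coef_comp_tens (v : V) (y : V'' →ₗ[k] k) (f : (ι → V') →ₗ[k] (ι → V'')) (X : V →ₗ[k] V')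
    (g : Matrix ι ι k) : coef v y (f ∘ₗ tens X g) = coef (X v) y f * g := by
  ext i j
  have e : tens X g (Pi.single j v) = ∑ i', g i' j • (Pi.single i' (X v) : ι → V') := by
    funext i'
    simp [Pi.single_apply, apply_ite X, Finset.sum_apply]
  simp [coef, e, Matrix.mul_apply, mul_comm]

theorem coef_tens_comp (v : V) (y : V'' →ₗ[k] k) (f : (ι → V) →ₗ[k] (ι → V')) (X : V' →ₗ[k] V'')
    (g : Matrix ι ι k) : coef v y (tens X g ∘ₗ f) = g * coef v (y ∘ₗ X) f := by
  ext i j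
  simp [coef, Matrix.mul_apply]

omit [DecidableEq ι] in
theorem tens_comp (X : V' →ₗ[k] V'') (X' : V →ₗ[k] V') (g g' : Matrix ι ι k) :
    tens X g ∘ₗ tens X' g' = tens (X ∘ₗ X') (g * g') := by
  refine LinearMap.ext fun x => funext fun i => ?_
  simp only [LinearMap.comp_apply, tens_apply, map_sum, map_smul, Matrix.mul_apply,
    Finset.sum_smul, Finset.smul_sum, mul_smul]
  rw [Finset.sum_comm]

omit [DecidableEq ι] in
theorem tens_zero (X : V →ₗ[k] V') : tens X (0 : Matrix ι ι k) = 0 := by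
  refine LinearMap.ext fun x => funext fun i => ?_
  simp

omit [DecidableEq ι] in
theorem tens_sub (X : V →ₗ[k] V') (g g' : Matrix ι ι k) :
    tens X (g - g') = tens X g - tens X g' := by
  refine LinearMap.ext fun x => funext fun i => ?_
  simp [sub_smul, Finset.sum_sub_distrib]

theorem comp_sum' {J : Type} [Fintype J] (g : V' →ₗ[k] V'') (f : J → V →ₗ[k] V') :
    g ∘ₗ (∑ j, f j) = ∑ j, g ∘ₗ f j := by
  refine LinearMap.ext fun x => ?_
  simp [map_sum]

theorem sum_comp' {J : Type} [Fintype J] (g : J → V' →ₗ[k] V'') (f : V →ₗ[k] V') :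
    (∑ j, g j) ∘ₗ f = ∑ j, g j ∘ₗ f := by
  refine LinearMap.ext fun x => ?_
  simp

theorem ring_ids {R : Type} [Ring R] (A δ τ : R) (tt : τ * τ = 0) (tδ : τ * δ = 0)
    (δt : δ * τ = 0) (tAt : τ * A * τ = 0) :
    (1 + τ) * (A + δ) = (A + δ - (A * τ - τ * A)) * (1 + τ) ∧
      (1 - τ) * (A + δ - (A * τ - τ * A)) = (A + δ) * (1 - τ) := by
  constructor
  · calc (1 + τ) * (A + δ) = A + δ + τ * A + τ * δ := by noncomm_ring
      _ = A + δ + τ * A + δ * τ - A * (τ * τ) + τ * A * τ := by rw [tδ, δt, tt, tAt]; simp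
      _ = _ := by noncomm_ring
  · calc (1 - τ) * (A + δ - (A * τ - τ * A))
        = A + δ - A * τ - τ * δ + τ * A * τ - (τ * τ) * A + (τ * A - τ * A) := by noncomm_ring
      _ = A + δ - A * τ - δ * τ := by rw [tδ, δt, tt, tAt]; simp
      _ = _ := by noncomm_ring

variable {E 𝒜 : Type} [AddCommGroup E] [Module k E]

/-- two-sided multiplication on families of matrices -/
def sand (g g' : Matrix ι ι k) : (𝒜 → Matrix ι ι k) →ₗ[k] (𝒜 → Matrix ι ι k) where
  toFun c a := g * c a * g'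
  map_add' c c' := by funext a; simp [mul_add, add_mul]
  map_smul' r c := by funext a; simp

@[simp] theorem sand_apply (g g' : Matrix ι ι k) (c : 𝒜 → Matrix ι ι k) (a : 𝒜) :
    sand g g' c a = g * c a * g' := rfl

/-- the coboundary -/
def dL (α : 𝒜 → Matrix ι ι k) : Matrix ι ι k →ₗ[k] (𝒜 → Matrix ι ι k) where
  toFun t a := α a * t - t * α a
  map_add' t t' := by funext a; simp [mul_add, add_mul]; abel
  map_smul' r t := by funext a; simp [smul_sub]

@[simp] theorem dL_apply (α : 𝒜 → Matrix ι ι k) (t : Matrix ι ι k) (a : 𝒜) :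
    dL α t a = α a * t - t * α a := rfl

theorem shiftD_eq (α : 𝒜 → Matrix ι ι k) (D : E →ₗ[k] 𝒜 → Matrix ι ι k)
    (t : E →ₗ[k] Matrix ι ι k) (e : E) : shiftD α D t e = D e - dL α (t e) := rfl

theorem shiftD_shiftD (α : 𝒜 → Matrix ι ι k) (D : E →ₗ[k] 𝒜 → Matrix ι ι k)
    (t t' : E →ₗ[k] Matrix ι ι k) : shiftD α (shiftD α D t) t' = shiftD α D (t + t') := by
  refine LinearMap.ext fun e => ?_
  rw [shiftD_eq, shiftD_eq, shiftD_eq, LinearMap.add_apply, map_add, sub_sub]

theorem shiftD_zero (α : 𝒜 → Matrix ι ι k) (D : E →ₗ[k] 𝒜 → Matrix ι ι k) :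
    shiftD α D 0 = D := by
  refine LinearMap.ext fun e => ?_
  rw [shiftD_eq, LinearMap.zero_apply, map_zero, sub_zero]

theorem star_eq {α : 𝒜 → Matrix ι ι k} {D : E →ₗ[k] 𝒜 → Matrix ι ι k} {F F' : Fam k E}
    {f : (ι → F.V) →ₗ[k] (ι → F'.V)} (hf : Intw α D F F' f) (v : F.V) (y : F'.V →ₗ[k] k) :
    dL α (coef v y f) = ∑ j, sand (coef (F.X j v) y f) 1 (D (F.e j)) -
      ∑ j, sand 1 (coef v (y ∘ₗ F'.X j) f) (D (F'.e j)) := by
  funext a
  have h := congrArg (coef v y) (hf a)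
  unfold Fam.act at h
  rw [LinearMap.comp_add, LinearMap.add_comp, comp_sum', sum_comp',
    coef_add, coef_add, coef_sum, coef_sum] at h
  simp only [coef_comp_tens, coef_tens_comp, LinearMap.id_apply, LinearMap.comp_id] at h
  simp only [dL_apply, Pi.sub_apply, Finset.sum_apply, sand_apply, mul_one, one_mul]
  rw [sub_eq_sub_iff_add_eq_add, ← h, add_comm]

section Shift

variable {ε : Matrix ι ι k} (hε : ε * ε = ε) {α : 𝒜 → Matrix ι ι k}
  {D : E →ₗ[k] 𝒜 → Matrix ι ι k} (hα : ∀ a, ε * α a = α a * ε)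
  (hD : ∀ e a, D e a = ε * D e a * (1 - ε)) {t : E →ₗ[k] Matrix ι ι k}
  (ht : ∀ e, t e = ε * t e * (1 - ε))

include hε in
theorem upper_mul {g h c : Matrix ι ι k} (hg : g = ε * g * (1 - ε)) (hh : h = ε * h * (1 - ε))
    (hc : ε * c = c * ε) : g * c * h = 0 := by
  have e : (1 - ε) * c * ε = 0 := by
    rw [mul_assoc, ← hc, ← mul_assoc, sub_mul, one_mul, hε, sub_self, zero_mul]
  rw [hg, hh]
  calc ε * g * (1 - ε) * c * (ε * h * (1 - ε)) = ε * g * ((1 - ε) * c * ε) * (h * (1 - ε)) := by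
        simp only [mul_assoc]
    _ = 0 := by rw [e]; simp

/-- the correcting operator -/
def tau (t : E →ₗ[k] Matrix ι ι k) (F : Fam k E) : Module.End k (ι → F.V) :=
  ∑ j, tens (F.X j) (t (F.e j))

include hε hα hD ht in
theorem shift_ids (F : Fam k E) :
    (1 + tau t F) * (1 - tau t F) = 1 ∧ ∀ a,
      (1 + tau t F) * F.act α D a = F.act α (shiftD α D t) a * (1 + tau t F) ∧
      (1 - tau t F) * F.act α (shiftD α D t) a = F.act α D a * (1 - tau t F) := by
  have z : ∀ (g h : F.J → Matrix ι ι k) (c : Matrix ι ι k), (∀ j, g j = ε * g j * (1 - ε)) →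
      (∀ j, h j = ε * h j * (1 - ε)) → ε * c = c * ε →
      (∑ j, tens (F.X j) (g j) : Module.End k (ι → F.V)) * tens LinearMap.id c *
        ∑ j, tens (F.X j) (h j) = 0 := by
    intro g h c hg hh hc
    simp only [Finset.sum_mul, Finset.mul_sum, Module.End.mul_eq_comp, tens_comp]
    refine Finset.sum_eq_zero fun j _ => Finset.sum_eq_zero fun j' _ => ?_
    rw [upper_mul hε (hg _) (hh _) hc, tens_zero]
  have one : (tens LinearMap.id (1 : Matrix ι ι k) : Module.End k (ι → F.V)) = 1 := by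
    refine LinearMap.ext fun x => funext fun i => ?_
    simp [Matrix.one_apply]
  have tt : tau t F * tau t F = 0 := by
    have := z (fun j => t (F.e j)) (fun j => t (F.e j)) 1 (fun j => ht _) (fun j => ht _) (by simp)
    rwa [one, mul_one] at this
  refine ⟨by rw [add_mul, one_mul, mul_sub, mul_one, tt]; abel, fun a => ?_⟩
  set A : Module.End k (ι → F.V) := tens LinearMap.id (α a) with hA
  set δ : Module.End k (ι → F.V) := ∑ j, tens (F.X j) (D (F.e j) a) with hδ
  have tδ : tau t F * δ = 0 := by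
    have := z (fun j => t (F.e j)) (fun j => D (F.e j) a) 1 (fun j => ht _) (fun j => hD _ _)
      (by simp)
    rwa [one, mul_one] at this
  have δt : δ * tau t F = 0 := by
    have := z (fun j => D (F.e j) a) (fun j => t (F.e j)) 1 (fun j => hD _ _) (fun j => ht _)
      (by simp)
    rwa [one, mul_one] at this
  have tAt : tau t F * A * tau t F = 0 :=
    z (fun j => t (F.e j)) (fun j => t (F.e j)) (α a) (fun j => ht _) (fun j => ht _) (hα a)
  have e1 : F.act α D a = A + δ := rfl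
  have e2 : F.act α (shiftD α D t) a = A + δ - (A * tau t F - tau t F * A) := by
    unfold Fam.act tau
    simp only [shiftD_eq, Pi.sub_apply, dL_apply, tens_sub, Finset.sum_sub_distrib,
      Finset.sum_mul, Finset.mul_sum, Module.End.mul_eq_comp, hA, tens_comp, LinearMap.id_comp,
      LinearMap.comp_id, hδ]
    abel
  rw [e1, e2]
  exact ring_ids A δ (tau t F) tt tδ δt tAt

include hε hα hD ht in
theorem coef_shift_mem (Γ : Subalgebra k (Matrix ι ι k)) (htΓ : ∀ e, t e ∈ Γ) (F F' : Fam k E)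
    (h : ∀ f0, Intw α D F F' f0 → ∀ v y, coef v y f0 ∈ Γ) (f : (ι → F.V) →ₗ[k] (ι → F'.V))
    (hf : Intw α (shiftD α D t) F F' f) : ∀ v y, coef v y f ∈ Γ := by
  obtain ⟨i1, i2⟩ := shift_ids hε hα hD ht F
  obtain ⟨j1, j2⟩ := shift_ids hε hα hD ht F'
  have r : ∀ f : (ι → F.V) →ₗ[k] (ι → F'.V), (∀ v y, coef v y f ∈ Γ) →
      ∀ v y, coef v y (f ∘ₗ (1 - tau t F)) ∈ Γ := by
    intro f hf v y
    unfold tau
    rw [LinearMap.comp_sub, comp_sum', coef_sub, coef_sum]
    refine sub_mem (hf v y) (sum_mem fun j _ => ?_)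
    rw [coef_comp_tens]; exact mul_mem (hf _ _) (htΓ _)
  have l : ∀ f : (ι → F.V) →ₗ[k] (ι → F'.V), (∀ v y, coef v y f ∈ Γ) →
      ∀ v y, coef v y ((1 + tau t F') ∘ₗ f) ∈ Γ := by
    intro f hf v y
    unfold tau
    rw [LinearMap.add_comp, sum_comp', coef_add, coef_sum]
    refine add_mem (hf v y) (sum_mem fun j _ => ?_)
    rw [coef_tens_comp]; exact mul_mem (htΓ _) (hf _ _)
  have h0 : Intw α D F F' ((1 - tau t F') ∘ₗ f ∘ₗ (1 + tau t F)) := by
    intro a
    have a1 := (i2 a).1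
    have a2 := (j2 a).2
    have a3 := hf a
    rw [Module.End.mul_eq_comp, Module.End.mul_eq_comp] at a1 a2
    rw [LinearMap.comp_assoc, LinearMap.comp_assoc, a1, ← LinearMap.comp_assoc _ _ f, a3,
      LinearMap.comp_assoc, ← LinearMap.comp_assoc _ _ (1 - tau t F'), a2, LinearMap.comp_assoc]
  have e : f = (1 + tau t F') ∘ₗ (((1 - tau t F') ∘ₗ f ∘ₗ (1 + tau t F)) ∘ₗ (1 - tau t F)) := by
    rw [Module.End.mul_eq_comp] at i1 j1
    rw [LinearMap.comp_assoc, LinearMap.comp_assoc, i1, ← LinearMap.comp_assoc, j1]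
    rfl
  rw [e]
  exact l _ (r _ (h _ h0))

end Shift

end Layer

end Pool.Agent.P.MP_bebcd6_lc
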