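import Pool.Agent.P.MP_bebcd6_lc.LayerC

/-! The inductive state and the bimodule attached to one step. -/

namespace Pool.Agent.P.MP_bebcd6_lc

namespace Layer

open Module

variable {k ι P E 𝒜 : Type} [Field k] [Fintype ι] [DecidableEq ι] [Fintype P] [DecidableEq P]
  [AddCommGroup E] [Module k E]

/-- families with all values in `A` -/
def pw (𝒜 : Type) (A : Submodule k (Matrix ι ι k)) : Submodule k (𝒜 → Matrix ι ι k) :=
  Submodule.pi Set.univ fun _ => A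

omit [Fintype ι] [DecidableEq ι] in
theorem mem_pw {A : Submodule k (Matrix ι ι k)} {c : 𝒜 → Matrix ι ι k} :
    c ∈ pw 𝒜 A ↔ ∀ a, c a ∈ A := by
  simp [pw, Submodule.mem_pi]

omit [Fintype ι] [DecidableEq ι] in
theorem pw_mono {A B : Submodule k (Matrix ι ι k)} (h : A ≤ B) : pw 𝒜 A ≤ pw 𝒜 B :=
  fun _ hc => mem_pw.2 fun a => h (mem_pw.1 hc a)

theorem sand_sand (g g' h h' : Matrix ι ι k) (c : 𝒜 → Matrix ι ι k) :
    sand g g' (sand h h' c) = sand (g * h) (h' * g') c := by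
  funext a; simp only [sand_apply, mul_assoc]

theorem sand_one (c : 𝒜 → Matrix ι ι k) : sand 1 1 c = c := by
  funext a; simp

/-- `sand` as a linear map in the left factor -/
def sandL (g' : Matrix ι ι k) (c : 𝒜 → Matrix ι ι k) : Matrix ι ι k →ₗ[k] (𝒜 → Matrix ι ι k) where
  toFun g := sand g g' c
  map_add' g h := by funext a; simp [add_mul]
  map_smul' r g := by funext a; simp

/-- `sand` as a linear map in the right factor -/
def sandR (g : Matrix ι ι k) (c : 𝒜 → Matrix ι ι k) : Matrix ι ι k →ₗ[k] (𝒜 → Matrix ι ι k) where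
  toFun g' := sand g g' c
  map_add' g h := by funext a; simp [mul_add]
  map_smul' r g := by funext a; simp

@[simp] theorem sandL_apply (g g' : Matrix ι ι k) (c : 𝒜 → Matrix ι ι k) :
    sandL g' c g = sand g g' c := rfl

@[simp] theorem sandR_apply (g g' : Matrix ι ι k) (c : 𝒜 → Matrix ι ι k) :
    sandR g c g' = sand g g' c := rfl

section

variable {Γ : Subalgebra k (Matrix ι ι k)} {J : Submodule k (Matrix ι ι k)} (hJ : IsId Γ J)

include hJ in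
theorem sand_pw {g g' : Matrix ι ι k} (hg : g ∈ Γ) (hg' : g' ∈ Γ) {s : ℕ} {c : 𝒜 → Matrix ι ι k}
    (hc : c ∈ pw 𝒜 (Fs J s)) : sand g g' c ∈ pw 𝒜 (Fs J s) :=
  mem_pw.2 fun a => Fs_right hJ hg' s _ (Fs_left hJ hg s _ (mem_pw.1 hc a))

include hJ in
theorem sand_pw_left {g g' : Matrix ι ι k} (hg : g ∈ J) (hg' : g' ∈ Γ) {s : ℕ}
    {c : 𝒜 → Matrix ι ι k} (hc : c ∈ pw 𝒜 (Fs J s)) : sand g g' c ∈ pw 𝒜 (Fs J (s + 1)) :=
  mem_pw.2 fun a => Fs_right hJ hg' _ _ (Fs_J_left hg (mem_pw.1 hc a))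

include hJ in
theorem sand_pw_right {g g' : Matrix ι ι k} (hg : g ∈ Γ) (hg' : g' ∈ J) {s : ℕ}
    {c : 𝒜 → Matrix ι ι k} (hc : c ∈ pw 𝒜 (Fs J s)) : sand g g' c ∈ pw 𝒜 (Fs J (s + 1)) :=
  mem_pw.2 fun a => Fs_J_right hg' (Fs_left hJ hg s _ (mem_pw.1 hc a))

end

/-- coefficients of intertwiners between families with values in `T` -/
def Co (α : 𝒜 → Matrix ι ι k) (D : E →ₗ[k] 𝒜 → Matrix ι ι k) (T : Submodule k E) :
    Set (Matrix ι ι k) :=
  {g | ∃ (F F' : Fam k E) (f : (ι → F.V) →ₗ[k] (ι → F'.V)) (v : F.V) (y : F'.V →ₗ[k] k),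
    (∀ j, F.e j ∈ T) ∧ (∀ j, F'.e j ∈ T) ∧ Intw α D F F' f ∧ g = coef v y f}

/-- the standing hypotheses on the cocycle -/
structure Base (F : Fl k ι P) (ε : Matrix ι ι k) (α : 𝒜 → Matrix ι ι k)
    (D : E →ₗ[k] 𝒜 → Matrix ι ι k) : Prop where
  idem : ε * ε = ε
  mem : ε ∈ F.Pp
  upper : ∀ g ∈ F.Pp, ε * g * (1 - ε) ∈ F.Nn
  lower : ∀ g ∈ F.Pp, (1 - ε) * g * ε ∈ F.Nn
  hα : ∀ a, ε * α a = α a * ε
  hD : ∀ e a, D e a = ε * D e a * (1 - ε)
  hP : ∀ (F1 F2 : Fam k E) f, Intw α D F1 F2 f → ∀ v y, coef v y f ∈ F.Pp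

/-- the inductive state -/
structure Good (F : Fl k ι P) (ε : Matrix ι ι k) (α : 𝒜 → Matrix ι ι k)
    (D : E →ₗ[k] 𝒜 → Matrix ι ι k) (T : Submodule k E) (Γ : Subalgebra k (Matrix ι ι k))
    (J : Submodule k (Matrix ι ι k)) (s : ℕ) : Prop where
  le_P : Γ ≤ F.Pp
  id : IsId Γ J
  eps : ε ∈ Γ
  co : ∀ g ∈ Co α D T, g ∈ Γ
  N_le : F.Nn ≤ J
  nil : ∃ N, J ^ N = ⊥
  val : ∀ e ∈ T, D e ∈ pw 𝒜 (Fs J s)

variable {F : Fl k ι P} {ε : Matrix ι ι k} {α : 𝒜 → Matrix ι ι k}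
  {D : E →ₗ[k] 𝒜 → Matrix ι ι k} {T : Submodule k E} {Γ : Subalgebra k (Matrix ι ι k)}
  {J : Submodule k (Matrix ι ι k)} {s : ℕ}

theorem Base.dL_upper (hB : Base F ε α D) (g : Matrix ι ι k) :
    dL α (ε * g * (1 - ε)) = sand ε (1 - ε) (dL α g) := by
  funext a
  have h := hB.hα a
  simp only [dL_apply, sand_apply]
  calc α a * (ε * g * (1 - ε)) - ε * g * (1 - ε) * α a
      = (α a * ε) * g * (1 - ε) - ε * g * α a + ε * g * (ε * α a) := by noncomm_ring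
    _ = (ε * α a) * g * (1 - ε) - ε * g * α a + ε * g * (α a * ε) := by rw [h]
    _ = _ := by noncomm_ring

theorem Base.sand_D (hB : Base F ε α D) (e : E) : sand ε (1 - ε) (D e) = D e := by
  funext a; exact (hB.hD e a).symm

theorem Base.idem' (hB : Base F ε α D) : (1 - ε) * (1 - ε) = 1 - ε := by
  rw [sub_mul, one_mul, mul_sub, mul_one, hB.idem, sub_self, sub_zero]

theorem Base.shift (hB : Base F ε α D) {t : E →ₗ[k] Matrix ι ι k}
    (ht : ∀ e, t e = ε * t e * (1 - ε)) (htN : ∀ e, t e ∈ F.Nn) : Base F ε α (shiftD α D t) where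
  idem := hB.idem
  mem := hB.mem
  upper := hB.upper
  lower := hB.lower
  hα := hB.hα
  hD e a := by
    have : sand ε (1 - ε) (shiftD α D t e) = shiftD α D t e := by
      rw [shiftD_eq, map_sub, hB.sand_D, ← hB.dL_upper, ← ht]
    exact (congrFun this a).symm
  hP F1 F2 f hf :=
    coef_shift_mem hB.idem hB.hα hB.hD ht F.Pp (fun e => Fl.Pp_of_Nn (htN e)) F1 F2
      (hB.hP F1 F2) f hf

/-- the bimodule attached to a step -/
def Bt (F : Fl k ι P) (α : 𝒜 → Matrix ι ι k) (J : Submodule k (Matrix ι ι k)) (s : ℕ) :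
    Submodule k (𝒜 → Matrix ι ι k) :=
  pw 𝒜 (Fs J (s + 1)) ⊔ (pw 𝒜 (Fs J s) ⊓ F.Nn.map (dL α))

omit [Fintype P] in
theorem W_le_Bt : pw 𝒜 (Fs J (s + 1)) ≤ Bt F α J s := le_sup_left

omit [Fintype P] in
theorem Bt_le_U : Bt F α J s ≤ pw 𝒜 (Fs J s) := sup_le (pw_mono (Fs_succ_le J s)) inf_le_left

theorem Good.dL_co (hG : Good F ε α D T Γ J s) {g : Matrix ι ι k} (hg : g ∈ Co α D T) :
    dL α g ∈ pw 𝒜 (Fs J s) := by
  obtain ⟨F1, F2, f, v, y, h1, h2, hf, rfl⟩ := hg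
  rw [star_eq hf]
  refine sub_mem (sum_mem fun j _ => ?_) (sum_mem fun j _ => ?_)
  · exact sand_pw hG.id (hG.co _ ⟨F1, F2, f, _, _, h1, h2, hf, rfl⟩) Γ.one_mem (hG.val _ (h1 j))
  · exact sand_pw hG.id Γ.one_mem (hG.co _ ⟨F1, F2, f, _, _, h1, h2, hf, rfl⟩) (hG.val _ (h2 j))

theorem Good.dL_co_Bt (hB : Base F ε α D) (hG : Good F ε α D T Γ J s) {g : Matrix ι ι k}
    (hg : g ∈ Co α D T) : dL α g ∈ Bt F α J s := by
  have h0 : sand ε (1 - ε) (dL α g) ∈ Bt F α J s :=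
    Submodule.mem_sup_right ⟨sand_pw hG.id hG.eps (sub_mem Γ.one_mem hG.eps) (hG.dL_co hg),
      _, hB.upper g (hG.le_P (hG.co g hg)), hB.dL_upper g⟩
  rw [show dL α g = sand ε (1 - ε) (dL α g) +
    (LinearMap.id - sand ε (1 - ε) : (𝒜 → Matrix ι ι k) →ₗ[k] _) (dL α g) by simp]
  refine add_mem h0 (W_le_Bt ?_)
  obtain ⟨F1, F2, f, v, y, h1, h2, hf, rfl⟩ := hg
  rw [star_eq hf, map_sub, map_sum, map_sum]
  refine sub_mem (sum_mem fun j _ => ?_) (sum_mem fun j _ => ?_)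
  · have hu := hG.co _ ⟨F1, F2, f, F1.X j v, y, h1, h2, hf, rfl⟩
    generalize coef (F1.X j v) y f = u at hu
    have e : (LinearMap.id - sand ε (1 - ε) : (𝒜 → Matrix ι ι k) →ₗ[k] _) (sand u 1 (D (F1.e j))) =
        sand ((1 - ε) * u * ε) 1 (D (F1.e j)) := by
      rw [← hB.sand_D (F1.e j), LinearMap.sub_apply, LinearMap.id_apply]
      simp only [sand_sand, mul_one, hB.idem', mul_assoc _ ε ε, hB.idem]
      funext a
      simp only [Pi.sub_apply, sand_apply]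
      noncomm_ring
    rw [e]
    exact sand_pw_left hG.id (hG.N_le (hB.lower u (hG.le_P hu))) Γ.one_mem (hG.val _ (h1 j))
  · have hu := hG.co _ ⟨F1, F2, f, v, y ∘ₗ F2.X j, h1, h2, hf, rfl⟩
    generalize coef v (y ∘ₗ F2.X j) f = u at hu
    have e : (LinearMap.id - sand ε (1 - ε) : (𝒜 → Matrix ι ι k) →ₗ[k] _) (sand 1 u (D (F2.e j))) =
        sand 1 ((1 - ε) * u * ε) (D (F2.e j)) := by
      rw [← hB.sand_D (F2.e j), LinearMap.sub_apply, LinearMap.id_apply]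
      simp only [sand_sand, one_mul, ← mul_assoc (1 - ε), hB.idem', hB.idem]
      funext a
      simp only [Pi.sub_apply, sand_apply]
      noncomm_ring
    rw [e]
    exact sand_pw_right hG.id Γ.one_mem (hG.N_le (hB.lower u (hG.le_P hu))) (hG.val _ (h2 j))

theorem Good.gen_Bt (hG : Good F ε α D T Γ J s) {g : Matrix ι ι k} (hg : g ∈ Γ)
    (h : g ∈ J ∨ dL α g ∈ pw 𝒜 (Fs J s)) {c : 𝒜 → Matrix ι ι k} (hc : c ∈ Bt F α J s) :
    sand g 1 c ∈ Bt F α J s ∧ sand 1 g c ∈ Bt F α J s := by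
  rcases h with h | h
  · exact ⟨W_le_Bt (sand_pw_left hG.id h Γ.one_mem (Bt_le_U hc)),
      W_le_Bt (sand_pw_right hG.id Γ.one_mem h (Bt_le_U hc))⟩
  obtain ⟨w, hw, _, ⟨hu, n, hn, rfl⟩, rfl⟩ := Submodule.mem_sup.1 hc
  have hN := Fl.Nn_id (fun x hx => hG.id.le x (hG.N_le hx)) hG.le_P
  rw [map_add, map_add]
  constructor
  · refine add_mem (W_le_Bt (sand_pw hG.id hg Γ.one_mem hw)) ?_
    have h1 : sand 1 n (dL α g) ∈ pw 𝒜 (Fs J (s + 1)) :=
      sand_pw_right hG.id Γ.one_mem (hG.N_le hn) h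
    have e : dL α (g * n) = sand g 1 (dL α n) + sand 1 n (dL α g) := by
      funext a; simp only [dL_apply, sand_apply, Pi.add_apply]; noncomm_ring
    rw [eq_sub_of_add_eq e.symm]
    refine sub_mem (Submodule.mem_sup_right ⟨?_, _, hN.left g hg n hn, rfl⟩) (W_le_Bt h1)
    rw [e]
    exact add_mem (sand_pw hG.id hg Γ.one_mem hu) (pw_mono (Fs_succ_le J s) h1)
  · refine add_mem (W_le_Bt (sand_pw hG.id Γ.one_mem hg hw)) ?_
    have h1 : sand n 1 (dL α g) ∈ pw 𝒜 (Fs J (s + 1)) :=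
      sand_pw_left hG.id (hG.N_le hn) Γ.one_mem h
    have e : dL α (n * g) = sand 1 g (dL α n) + sand n 1 (dL α g) := by
      funext a; simp only [dL_apply, sand_apply, Pi.add_apply]; noncomm_ring
    rw [eq_sub_of_add_eq e.symm]
    refine sub_mem (Submodule.mem_sup_right ⟨?_, _, hN.right g hg n hn, rfl⟩) (W_le_Bt h1)
    rw [e]
    exact add_mem (sand_pw hG.id Γ.one_mem hg hu) (pw_mono (Fs_succ_le J s) h1)

/-- refine the state so that `J` is the radical and `Bt` is a bimodule -/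
theorem Good.refine (hB : Base F ε α D) (hG : Good F ε α D T Γ J s) :
    ∃ (Γ' : Subalgebra k (Matrix ι ι k)) (S : SL Γ'), Good F ε α D T Γ' S.J s ∧
      ∀ g ∈ Γ', ∀ g' ∈ Γ', ∀ c ∈ Bt F α S.J s, sand g g' c ∈ Bt F α S.J s := by
  let Γ' : Subalgebra k (Matrix ι ι k) := Algebra.adjoin k (Co α D T ∪ {ε} ∪ J)
  have hle : Γ' ≤ Γ := by
    refine Algebra.adjoin_le ?_
    rintro g ((hg | hg) | hg)
    · exact hG.co g hg
    · rw [hg]; exact hG.eps
    · exact hG.id.le g hg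
  obtain ⟨S⟩ := nonempty_SL Γ'
  have hJ : IsId Γ' J := ⟨fun x hx => Algebra.subset_adjoin (Or.inr hx),
    fun g hg => hG.id.left g (hle hg), fun g hg => hG.id.right g (hle hg)⟩
  have hJS : J ≤ S.J := S.nil_le_J hJ hG.nil
  have hG' : Good F ε α D T Γ' S.J s :=
    ⟨hle.trans hG.le_P, S.J_id, Algebra.subset_adjoin (Or.inl (Or.inr rfl)),
      fun g hg => Algebra.subset_adjoin (Or.inl (Or.inl hg)), hG.N_le.trans hJS, S.nil,
      fun e he => pw_mono (Fs_mono hJS s) (hG.val e he)⟩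
  refine ⟨Γ', S, hG', ?_⟩
  have key : ∀ g ∈ Γ', ∀ c ∈ Bt F α S.J s, sand g 1 c ∈ Bt F α S.J s ∧ sand 1 g c ∈ Bt F α S.J s := by
    intro g hg
    induction hg using Algebra.adjoin_induction with
    | mem g hg =>
      intro c hc
      refine hG'.gen_Bt (Algebra.subset_adjoin hg) ?_ hc
      rcases hg with (hg | hg) | hg
      · exact Or.inr (hG'.dL_co hg)
      · right
        rw [hg, show dL α ε = 0 from funext fun a => by simp [hB.hα a]]
        exact zero_mem _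
      · exact Or.inl (hJS hg)
    | algebraMap r =>
      intro c hc
      rw [Algebra.algebraMap_eq_smul_one, ← sandL_apply, ← sandR_apply 1 (r • 1), map_smul,
        map_smul, sandL_apply, sandR_apply, sand_one]
      exact ⟨Submodule.smul_mem _ _ hc, Submodule.smul_mem _ _ hc⟩
    | add g h _ _ ihg ihh =>
      intro c hc
      rw [← sandL_apply, ← sandR_apply 1 (g + h), map_add, map_add]
      exact ⟨add_mem (ihg c hc).1 (ihh c hc).1, add_mem (ihg c hc).2 (ihh c hc).2⟩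
    | mul g h _ _ ihg ihh =>
      intro c hc
      have h1 := (ihg _ (ihh c hc).1).1
      have h2 := (ihh _ (ihg c hc).2).2
      rw [sand_sand, mul_one] at h1 h2
      exact ⟨h1, h2⟩
  intro g hg g' hg' c hc
  have := (key g hg _ (key g' hg' c hc).2).1
  rwa [sand_sand, mul_one, mul_one] at this

/-- the next state -/
theorem Good.next [FiniteDimensional k E] (hB : Base F ε α D) (hG : Good F ε α D T Γ J s) :
    ∃ t : E →ₗ[k] Matrix ι ι k, (∀ e, t e = ε * t e * (1 - ε)) ∧ (∀ e, t e ∈ F.Nn) ∧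
      Good F ε α (shiftD α D t) (T ⊓ (Bt F α J s).comap D) Γ J (s + 1) := by
  let up : Matrix ι ι k →ₗ[k] Matrix ι ι k :=
    LinearMap.id - LinearMap.mulRight k (1 - ε) ∘ₗ LinearMap.mulLeft k ε
  have hup : ∀ g, up g = 0 ↔ g = ε * g * (1 - ε) := fun g => sub_eq_zero
  have hN := Fl.Nn_id (fun x hx => hG.id.le x (hG.N_le hx)) hG.le_P
  obtain ⟨t, ht1, ht2⟩ := exists_linear_choice (T ⊓ (Bt F α J s).comap D)
    (F.Nn ⊓ LinearMap.ker up)
    ((pw 𝒜 (Fs J (s + 1))).comap (D ∘ₗ LinearMap.fst k _ _ - dL α ∘ₗ LinearMap.snd k _ _)) (by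
      rintro e ⟨-, he⟩
      obtain ⟨w, hw, _, ⟨-, n, hn, rfl⟩, h⟩ := Submodule.mem_sup.1 he
      refine ⟨ε * n * (1 - ε), ⟨hB.upper n (Fl.Pp_of_Nn hn), (hup _).2 ?_⟩, ?_⟩
      · rw [← mul_assoc, ← mul_assoc, hB.idem, mul_assoc _ (1 - ε), hB.idem']
      · show D e - dL α (ε * n * (1 - ε)) ∈ pw 𝒜 (Fs J (s + 1))
        rw [hB.dL_upper, ← hB.sand_D e, ← map_sub, ← h, add_sub_cancel_right]
        exact sand_pw hG.id hG.eps (sub_mem Γ.one_mem hG.eps) hw)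
  have h1 : ∀ e, t e = ε * t e * (1 - ε) := fun e => (hup _).1 (ht1 e).2
  refine ⟨t, h1, fun e => (ht1 e).1, hG.le_P, hG.id, hG.eps, ?_, hG.N_le, hG.nil, ht2⟩
  rintro _ ⟨F1, F2, f, v, y, h2, h3, hf, rfl⟩
  exact coef_shift_mem hB.idem hB.hα hB.hD h1 Γ (fun e => hN.le _ (ht1 e).1) F1 F2
    (fun f0 h0 v y => hG.co _ ⟨F1, F2, f0, v, y, fun j => (h2 j).1, fun j => (h3 j).1, h0, rfl⟩)
    f hf v y

end Layer

end Pool.Agent.P.MP_bebcd6_lc
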