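import Pool.Agent.P.MP_bebcd6_lc.LayerD

/-! The step with a large drop of dimension. -/

namespace Pool.Agent.P.MP_bebcd6_lc

namespace Layer

open Module

variable {k ι P E 𝒜 : Type} [Field k] [Fintype ι] [DecidableEq ι] [Fintype P] [DecidableEq P]
  [AddCommGroup E] [Module k E]

theorem vanish {M : Type} [AddCommGroup M] [Module k M] (φ : M →ₗ[k] k) {A : Submodule k M}
    {s : Set M} (h1 : ∀ g ∈ A, φ g = 0) (h2 : ∀ g ∈ s, φ g = 0) {g : M}
    (hg : g ∈ A ⊔ Submodule.span k s) : φ g = 0 :=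
  (sup_le (fun g hg => h1 g hg) (Submodule.span_le.2 fun g hg => h2 g hg) :
    A ⊔ Submodule.span k s ≤ LinearMap.ker φ) hg

/-- a proper two-sided ideal moves some vector out of its orbit -/
theorem exists_vec {Θ : Subalgebra k (Matrix ι ι k)} {p : Submodule k (Matrix ι ι k)}
    (hp : IsId Θ p) (h1 : (1 : Matrix ι ι k) ∉ p) : ∃ z : ι → k, ∀ q ∈ p, q.mulVec z ≠ z := by
  by_contra h
  push Not at h
  have key : ∀ s : Finset ι, ∃ r ∈ Θ, 1 - r ∈ p ∧ ∀ i ∈ s, r.mulVec (Pi.single i 1) = 0 := by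
    intro s
    induction s using Finset.induction_on with
    | empty => exact ⟨1, Θ.one_mem, by simp, by simp⟩
    | insert i s _ ih =>
      obtain ⟨r, hr, h2, h3⟩ := ih
      obtain ⟨q, hq, h4⟩ := h (r.mulVec (Pi.single i 1))
      refine ⟨(1 - q) * r, mul_mem (sub_mem Θ.one_mem (hp.le q hq)) hr, ?_, fun j hj => ?_⟩
      · rw [show 1 - (1 - q) * r = (1 - r) + q * r by noncomm_ring]
        exact add_mem h2 (hp.right r hr q hq)
      · rw [← Matrix.mulVec_mulVec]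
        rcases Finset.mem_insert.1 hj with rfl | hj
        · rw [Matrix.sub_mulVec, Matrix.one_mulVec, h4, sub_self]
        · rw [h3 j hj, Matrix.mulVec_zero]
  obtain ⟨r, -, h2, h3⟩ := key Finset.univ
  have : r = 0 := Matrix.ext_of_mulVec_single fun i => by
    rw [h3 i (Finset.mem_univ i), Matrix.zero_mulVec]
  rw [this, sub_zero] at h2
  exact h1 h2

/-- the conclusion of the theorem for a fixed cocycle -/
def Concl (α : 𝒜 → Matrix ι ι k) (D : E →ₗ[k] 𝒜 → Matrix ι ι k) (G : Type) [Fintype G] : Prop :=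
  ∃ (e₀ : E) (e : G → E) (S' S'' : Submodule k (ι → k)), S'' < S' ∧
    ∀ (V V' : Type) [AddCommGroup V] [Module k V] [AddCommGroup V'] [Module k V']
      (X : G → Module.End k V) (X' : G → Module.End k V') (f : (ι → V) →ₗ[k] (ι → V')),
      Intw α D (scaf e₀ e V X) (scaf e₀ e V' X') f → ∀ v y,
        (∀ z ∈ S', (coef v y f).mulVec z ∈ S') ∧ (∀ z ∈ S'', (coef v y f).mulVec z ∈ S'') ∧
        ∀ j, ∀ z ∈ S', (coef v y (f ∘ₗ tens (X j) 1 - tens (X' j) 1 ∘ₗ f)).mulVec z ∈ S''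

theorem concl_of {α : 𝒜 → Matrix ι ι k} {D : E →ₗ[k] 𝒜 → Matrix ι ι k} {G : Type} [Fintype G]
    {Θ : Subalgebra k (Matrix ι ι k)} {p : Submodule k (Matrix ι ι k)}
    (hp : IsId Θ p) (h1 : (1 : Matrix ι ι k) ∉ p) (e₀ : E) (e : G → E)
    (h : ∀ (V V' : Type) [AddCommGroup V] [Module k V] [AddCommGroup V'] [Module k V']
      (X : G → Module.End k V) (X' : G → Module.End k V') (f : (ι → V) →ₗ[k] (ι → V')),
      Intw α D (scaf e₀ e V X) (scaf e₀ e V' X') f → ∀ v y, coef v y f ∈ Θ ∧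
        ∀ j, coef (X j v) y f - coef v (y ∘ₗ X' j) f ∈ p) : Concl α D G := by
  obtain ⟨z, hz⟩ := exists_vec hp h1
  let ev : Matrix ι ι k →ₗ[k] (ι → k) := Matrix.mulVecBilin k k |>.flip z
  have hev : ∀ g, ev g = g.mulVec z := fun g => rfl
  refine ⟨e₀, e, (Subalgebra.toSubmodule Θ).map ev, p.map ev, ?_, ?_⟩
  · refine lt_of_le_of_ne (Submodule.map_mono hp.le) fun h2 => ?_
    have h3 : z ∈ (Subalgebra.toSubmodule Θ).map ev := ⟨1, Θ.one_mem, Matrix.one_mulVec z⟩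
    rw [← h2] at h3
    obtain ⟨q, hq, h4⟩ := h3
    exact hz q hq h4
  · intro V V' _ _ _ _ X X' f hf v y
    obtain ⟨h2, h3⟩ := h V V' X X' f hf v y
    refine ⟨?_, ?_, fun j => ?_⟩
    · rintro _ ⟨g, hg, rfl⟩
      exact ⟨_, Θ.mul_mem h2 hg, by rw [hev, hev, Matrix.mulVec_mulVec]⟩
    · rintro _ ⟨g, hg, rfl⟩
      exact ⟨_, hp.left _ h2 g hg, by rw [hev, hev, Matrix.mulVec_mulVec]⟩
    · rintro _ ⟨g, hg, rfl⟩
      rw [coef_sub, coef_comp_tens, coef_tens_comp, mul_one, one_mul]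
      exact ⟨_, hp.right g hg _ (h3 j), by rw [hev, hev, Matrix.mulVec_mulVec]⟩

variable {F : Fl k ι P} {ε : Matrix ι ι k} {α : 𝒜 → Matrix ι ι k}
  {D : E →ₗ[k] 𝒜 → Matrix ι ι k} {T : Submodule k E} {Γ : Subalgebra k (Matrix ι ι k)} {s : ℕ}

/-- separate a point from `Bt` by a bimodule of small codimension -/
theorem separate [FiniteDimensional k E] {b l : ℕ}
    (hb : ∀ x, Fintype.card {i // F.lab i = x} ≤ b) (hl : F.Φ l = ⊤) (S : SL Γ)
    (hG : Good F ε α D T Γ S.J s)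
    (hBt : ∀ g ∈ Γ, ∀ g' ∈ Γ, ∀ c ∈ Bt F α S.J s, sand g g' c ∈ Bt F α S.J s)
    {x : 𝒜 → Matrix ι ι k} (hx : x ∈ pw 𝒜 (Fs S.J s)) (hx' : x ∉ Bt F α S.J s) :
    ∃ K : Submodule k (𝒜 → Matrix ι ι k), x ∉ K ∧ Bt F α S.J s ≤ K ∧
      (∀ g ∈ Γ, ∀ g' ∈ Γ, ∀ c ∈ K, sand g g' c ∈ K) ∧
      finrank k T ≤ finrank k ↥(T ⊓ K.comap D) + b ^ 4 := by
  obtain ⟨y, hy1, hy2⟩ := Submodule.exists_dual_map_eq_bot_of_notMem hx' inferInstance
  have hy : ∀ c ∈ Bt F α S.J s, y c = 0 := fun c hc => by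
    have : y c ∈ (Bt F α S.J s).map y := ⟨c, hc, rfl⟩
    rwa [hy2] at this
  have hW : ∀ c ∈ pw 𝒜 (Fs S.J (s + 1)), y c = 0 := fun c hc => hy c (W_le_Bt hc)
  have hsum : (∑ i, S.e i) ∈ Γ := sum_mem fun i _ => S.e_mem i
  obtain ⟨i, j, hij⟩ : ∃ i j, y (sand (S.e i) (S.e j) x) ≠ 0 := by
    by_contra h
    push Not at h
    apply hy1
    have e1 : x = sand (1 - ∑ i, S.e i) 1 x + sand (∑ i, S.e i) (1 - ∑ i, S.e i) x +
        sand (∑ i, S.e i) (∑ i, S.e i) x := by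
      funext a; simp only [Pi.add_apply, sand_apply]; noncomm_ring
    have e2 : y (sand (∑ i, S.e i) (∑ i, S.e i) x) = 0 := by
      rw [← sandL_apply, map_sum, map_sum]
      refine Finset.sum_eq_zero fun i _ => ?_
      rw [sandL_apply, ← sandR_apply, map_sum, map_sum]
      exact Finset.sum_eq_zero fun j _ => h i j
    rw [e1, map_add, map_add, e2, hW _ (sand_pw_left S.J_id S.sum_e Γ.one_mem hx),
      hW _ (sand_pw_right S.J_id hsum S.sum_e hx)]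
    simp
  obtain ⟨-, hs⟩ := Fl.SL_facts hb hl (fun g hg => S.J_id.le g (hG.N_le hg)) hG.le_P S
  obtain ⟨s1, c1, m1, sp1⟩ := hs i
  obtain ⟨s2, c2, m2, sp2⟩ := hs j
  let K : Submodule k (𝒜 → Matrix ι ι k) :=
    { carrier := {c | ∀ g ∈ Γ, ∀ g' ∈ Γ, y (sand (S.e i * g) (g' * S.e j) c) = 0}
      add_mem' := fun hc hc' g hg g' hg' => by
        rw [map_add, map_add, hc g hg g' hg', hc' g hg g' hg', add_zero]
      zero_mem' := fun g _ g' _ => by rw [map_zero, map_zero]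
      smul_mem' := fun r c hc g hg g' hg' => by
        rw [map_smul, map_smul, hc g hg g' hg', smul_zero] }
  refine ⟨K, fun h => hij ?_, fun c hc g hg g' hg' => hy _ ?_, fun h hh h' hh' c hc g hg g' hg' => ?_,
    ?_⟩
  · simpa using h 1 Γ.one_mem 1 Γ.one_mem
  · exact hBt _ (mul_mem (S.e_mem i) hg) _ (mul_mem hg' (S.e_mem j)) c hc
  · rw [sand_sand, mul_assoc, ← mul_assoc h']
    exact hc _ (mul_mem hg hh) _ (mul_mem hh' hg')
  · let φ : E →ₗ[k] (s1 × s2 → k) :=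
      LinearMap.pi fun q => y ∘ₗ sand (S.e i * q.1.1) (q.2.1 * S.e j) ∘ₗ D
    have h1 := finrank_le_inf_ker T φ
    have h2 : finrank k ↥(T ⊓ LinearMap.ker φ) ≤ finrank k ↥(T ⊓ K.comap D) := by
      refine Submodule.finrank_mono fun e he => ⟨he.1, ?_⟩
      have hv := hG.val e he.1
      have h3 : ∀ g ∈ s1, ∀ g' ∈ Γ, y (sand (S.e i * g) (g' * S.e j) (D e)) = 0 := by
        intro g hg g' hg'
        refine vanish (y ∘ₗ sandR (S.e i * g) (D e) ∘ₗ LinearMap.mulRight k (S.e j))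
          (fun u hu => ?_) (fun u hu => ?_) (sp2 g' hg')
        · exact hW _ (sand_pw_right S.J_id (mul_mem (S.e_mem i) (m1 g hg)) (S.p_e j u hu) hv)
        · exact congrFun he.2 (⟨g, hg⟩, ⟨u, hu⟩)
      intro g hg g' hg'
      refine vanish (y ∘ₗ sandL (g' * S.e j) (D e) ∘ₗ LinearMap.mulLeft k (S.e i))
        (fun u hu => ?_) (fun u hu => ?_) (sp1 g hg)
      · exact hW _ (sand_pw_left S.J_id (S.e_p i u hu) (mul_mem hg' (S.e_mem j)) hv)
      · exact h3 u hu g' hg'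
    have h3 : finrank k (s1 × s2 → k) ≤ b ^ 4 := by
      rw [finrank_fintype_fun_eq_card, Fintype.card_prod, Fintype.card_coe, Fintype.card_coe,
        show b ^ 4 = b ^ 2 * b ^ 2 by ring]
      exact Nat.mul_le_mul c1 c2
    omega

theorem star_scaf {G V V' : Type} [Fintype G] [AddCommGroup V] [Module k V] [AddCommGroup V']
    [Module k V'] {e₀ : E} {e : G → E} {X : G → Module.End k V} {X' : G → Module.End k V'}
    {f : (ι → V) →ₗ[k] (ι → V')} (hf : Intw α D (scaf e₀ e V X) (scaf e₀ e V' X') f)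
    (v : V) (y : V' →ₗ[k] k) : dL α (coef v y f) =
      (sand (coef v y f) 1 (D e₀) + ∑ j, sand (coef (X j v) y f) 1 (D (e j))) -
        (sand 1 (coef v y f) (D e₀) + ∑ j, sand 1 (coef v (y ∘ₗ X' j) f) (D (e j))) := by
  have e1 := Fintype.sum_option fun o : Option G =>
    sand (coef ((o.elim 1 X : Module.End k V) v) y f) 1 (D (o.elim e₀ e))
  have e2 := Fintype.sum_option fun o : Option G =>
    sand 1 (coef v (y ∘ₗ (o.elim 1 X' : Module.End k V')) f) (D (o.elim e₀ e))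
  exact (star_eq hf v y).trans (congrArg₂ (· - ·) e1 e2)

/-- the commutator with a family -/
def cm (c : 𝒜 → Matrix ι ι k) : Matrix ι ι k →ₗ[k] (𝒜 → Matrix ι ι k) := sandL 1 c - sandR 1 c

theorem cm_apply (c : 𝒜 → Matrix ι ι k) (g : Matrix ι ι k) : cm c g = sand g 1 c - sand 1 g c := rfl

theorem big_step [FiniteDimensional k E] {G : Type} [Fintype G] {b l : ℕ}
    (hb : ∀ x, Fintype.card {i // F.lab i = x} ≤ b) (hl : F.Φ l = ⊤) (hB : Base F ε α D) (S : SL Γ)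
    (hG : Good F ε α D T Γ S.J s)
    (hBt : ∀ g ∈ Γ, ∀ g' ∈ Γ, ∀ c ∈ Bt F α S.J s, sand g g' c ∈ Bt F α S.J s)
    (hbig : finrank k ↥(T ⊓ (Bt F α S.J s).comap D) +
      b ^ 4 * ((Fintype.card G + 1) * (Fintype.card P * b ^ 2)) < finrank k T) :
    Concl α D G := by
  classical
  let X : Type := {K : Submodule k (𝒜 → Matrix ι ι k) // Bt F α S.J s ≤ K ∧
      (∀ g ∈ Γ, ∀ g' ∈ Γ, ∀ c ∈ K, sand g g' c ∈ K) ∧
      finrank k T ≤ finrank k ↥(T ⊓ K.comap D) + b ^ 4}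
  obtain ⟨I, hI, ξ, hξ⟩ := exists_dual_family (X := X) T (T ⊓ (Bt F α S.J s).comap D)
    (fun x => x.1.comap D) (b ^ 4) _ (fun x => x.2.2.2) (fun v hv h => ⟨hv, by
      by_contra h1
      obtain ⟨K, h2, h3⟩ := separate hb hl S hG hBt (hG.val v hv) h1
      exact h2 (h ⟨K, h3⟩)⟩) hbig
  have hNΓ : ∀ g ∈ F.Nn, g ∈ Γ := fun g hg => S.J_id.le g (hG.N_le hg)
  have hNc : ∀ g ∈ F.Nn, ∀ i ∈ I, cm (D (ξ i)) g ∈ i.1 := fun g hg i hi =>
    i.2.1 (W_le_Bt (sub_mem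
      (sand_pw_left S.J_id (hG.N_le hg) Γ.one_mem (hG.val _ (hξ i hi).1))
      (sand_pw_right S.J_id Γ.one_mem (hG.N_le hg) (hG.val _ (hξ i hi).1))))
  obtain ⟨Sg, hSg, hcard⟩ := exists_finset_inf (X := I) (Subalgebra.toSubmodule Γ)
    (fun i => i.1.1.comap (cm (D (ξ i))))
  have hSgc : Sg.card ≤ Fintype.card P * b ^ 2 := by
    have h1 := Fl.finrank_le hb hG.le_P
    have h2 : finrank k F.Nn ≤ finrank k ↥(Subalgebra.toSubmodule Γ ⊓
        Sg.inf fun i => i.1.1.comap (cm (D (ξ i)))) :=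
      Submodule.finrank_mono (le_inf hNΓ (Finset.le_inf fun i _ g hg => hNc g hg i i.2))
    omega
  let Θ : Subalgebra k (Matrix ι ι k) :=
    { carrier := {g | g ∈ Γ ∧ ∀ i ∈ I, cm (D (ξ i)) g ∈ i.1}
      mul_mem' := fun {g h} hg hh => ⟨mul_mem hg.1 hh.1, fun i hi => by
        rw [show cm (D (ξ i)) (g * h) = sand g 1 (cm (D (ξ i)) h) + sand 1 h (cm (D (ξ i)) g) by
          funext a; simp only [cm_apply, Pi.add_apply, Pi.sub_apply, sand_apply]; noncomm_ring]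
        exact add_mem (i.2.2.1 g hg.1 1 Γ.one_mem _ (hh.2 i hi))
          (i.2.2.1 1 Γ.one_mem h hh.1 _ (hg.2 i hi))⟩
      add_mem' := fun {g h} hg hh => ⟨add_mem hg.1 hh.1, fun i hi => by
        rw [map_add]; exact add_mem (hg.2 i hi) (hh.2 i hi)⟩
      algebraMap_mem' := fun r => ⟨Γ.algebraMap_mem r, fun i _ => by
        rw [Algebra.algebraMap_eq_smul_one, map_smul, cm_apply, sub_self, smul_zero]
        exact zero_mem _⟩ }
  have hΘ : ∀ g ∈ Γ, (∀ i ∈ Sg, cm (D (ξ i)) g ∈ i.1.1) → g ∈ Θ := fun g hg h =>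
    ⟨hg, fun i hi => hSg ⟨i, hi⟩ ⟨hg, (Submodule.mem_finsetInf).2 h⟩⟩
  obtain ⟨S2⟩ := nonempty_SL Θ
  obtain ⟨hn, -⟩ := Fl.SL_facts hb hl (Γ := Θ) (fun g hg => ⟨hNΓ g hg, hNc g hg⟩)
    (fun g hg => hG.le_P hg.1) S2
  let Ann : I → Submodule k (Matrix ι ι k) := fun i =>
    Subalgebra.toSubmodule Θ ⊓ i.1.1.comap (sandL 1 (D (ξ i)))
  have hAnn : ∀ i, IsId Θ (Ann i) := fun i =>
    ⟨fun g hg => hg.1, fun h hh g hg => ⟨Θ.mul_mem hh hg.1, by
      have := i.1.2.2.1 h hh.1 1 Γ.one_mem _ hg.2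
      rwa [sandL_apply, sand_sand, mul_one] at this⟩,
    fun h hh g hg => ⟨Θ.mul_mem hg.1 hh, by
      show sand (g * h) 1 (D (ξ i)) ∈ i.1.1
      rw [show sand (g * h) 1 (D (ξ i)) = sand g 1 (cm (D (ξ i)) h) + sand 1 h (sand g 1 (D (ξ i))) by
        funext a; simp only [cm_apply, Pi.add_apply, Pi.sub_apply, sand_apply]; noncomm_ring]
      exact add_mem (i.1.2.2.1 g hg.1.1 1 Γ.one_mem _ (hh.2 i i.2))
        (i.1.2.2.1 1 Γ.one_mem h hh.1 _ hg.2)⟩⟩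
  have hAnn1 : ∀ i, (1 : Matrix ι ι k) ∉ Ann i := fun i h => by
    have h1 : sand 1 1 (D (ξ i)) ∈ i.1.1 := h.2
    rw [sand_one] at h1
    exact (hξ i i.2).2.1 h1
  choose cl hcl using fun i => S2.exists_le_p (hAnn i) (hAnn1 i)
  obtain ⟨c, -, hc⟩ := Finset.exists_lt_card_fiber_of_mul_lt_card_of_maps_to
    (s := Finset.univ \ Sg) (t := Finset.univ) (f := cl) (n := Fintype.card G)
    (fun _ _ => Finset.mem_univ _) (by
      rw [Finset.card_univ, Fintype.card_fin, Finset.card_univ_sdiff, Fintype.card_coe]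
      have h1 : S2.n * Fintype.card G ≤ Fintype.card G * (Fintype.card P * b ^ 2) := by
        rw [mul_comm]; exact Nat.mul_le_mul_left _ hn
      rw [add_mul, one_mul] at hI
      omega)
  obtain ⟨emb⟩ := Function.Embedding.nonempty_of_card_le (α := G)
    (β := {x // x ∈ (Finset.univ \ Sg).filter fun x => cl x = c}) (by
      rw [Fintype.card_coe]; exact hc.le)
  let r : G → I := fun j => (emb j).1
  have r_inj : Function.Injective r := fun j j' h => emb.injective (Subtype.ext h)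
  have r_not : ∀ j, r j ∉ Sg := fun j =>
    (Finset.mem_sdiff.1 (Finset.mem_filter.1 (emb j).2).1).2
  have r_cl : ∀ j, cl (r j) = c := fun j => (Finset.mem_filter.1 (emb j).2).2
  have hne : ∀ i i' : I, i ≠ i' → D (ξ i') ∈ i.1.1 := fun i i' h =>
    (hξ i' i'.2).2.2 i i.2 fun h1 => h (Subtype.ext h1)
  refine concl_of (S2.p_id c) (S2.one_not c) (∑ i ∈ Sg, ξ i) (fun j => ξ (r j)) ?_
  intro V V' _ _ _ _ X X' f hf
  have hco : ∀ v y, coef v y f ∈ Co α D T := by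
    intro v y
    have h1 : ∑ i ∈ Sg, ξ i ∈ T := sum_mem fun i _ => (hξ i i.2).1
    refine ⟨scaf (∑ i ∈ Sg, ξ i) (fun j => ξ (r j)) V X,
      scaf (∑ i ∈ Sg, ξ i) (fun j => ξ (r j)) V' X', f, v, y, ?_, ?_, hf, rfl⟩
    · rintro (_ | j)
      · exact h1
      · exact (hξ _ (r j).2).1
    · rintro (_ | j)
      · exact h1
      · exact (hξ _ (r j).2).1
  have hΓ : ∀ v y, coef v y f ∈ Γ := fun v y => hG.co _ (hco v y)
  have hZ : ∀ v y, ∑ i ∈ Sg, cm (D (ξ i)) (coef v y f) +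
      ∑ j, (sand (coef (X j v) y f) 1 (D (ξ (r j))) - sand 1 (coef v (y ∘ₗ X' j) f) (D (ξ (r j)))) ∈
      Bt F α S.J s := by
    intro v y
    have h2 := hG.dL_co_Bt hB (hco v y)
    rw [star_scaf hf] at h2
    convert h2 using 1
    simp only [cm_apply, map_sum, Finset.sum_sub_distrib]
    abel
  have hcm : ∀ (i i' : I), i ≠ i' → ∀ g ∈ Γ, ∀ g' ∈ Γ,
      sand g 1 (D (ξ i')) - sand 1 g' (D (ξ i')) ∈ i.1.1 := fun i i' h g hg g' hg' =>
    sub_mem (i.1.2.2.1 g hg 1 Γ.one_mem _ (hne i i' h)) (i.1.2.2.1 1 Γ.one_mem g' hg' _ (hne i i' h))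
  have hΘ' : ∀ v y, coef v y f ∈ Θ := by
    intro v y
    refine hΘ _ (hΓ v y) fun i hi => ?_
    have h1 := i.1.2.1 (hZ v y)
    rw [← Finset.add_sum_erase _ _ hi, add_assoc] at h1
    refine (Submodule.add_mem_iff_left _ (add_mem (sum_mem fun i' hi' => ?_)
      (sum_mem fun j _ => ?_))).1 h1
    · exact hcm i i' (Finset.ne_of_mem_erase hi').symm _ (hΓ v y) _ (hΓ v y)
    · exact hcm i (r j) (fun h => r_not j (h ▸ hi)) _ (hΓ _ _) _ (hΓ _ _)
  intro v y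
  refine ⟨hΘ' v y, fun j => ?_⟩
  rw [← r_cl j]
  refine hcl (r j) ⟨sub_mem (hΘ' _ _) (hΘ' _ _), ?_⟩
  have h1 := (r j).1.2.1 (hZ v y)
  rw [← Finset.add_sum_erase _ _ (Finset.mem_univ j), add_left_comm] at h1
  have h2 := (Submodule.add_mem_iff_left _ (add_mem (sum_mem fun i' hi' =>
    hcm (r j) i' (fun h => r_not j (h ▸ hi')) _ (hΓ v y) _ (hΓ v y)) (sum_mem fun j' hj' =>
    hcm (r j) (r j') (fun h => Finset.ne_of_mem_erase hj' (r_inj h).symm) _ (hΓ _ _) _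
      (hΓ _ _)))).1 h1
  have h3 := sub_mem h2 ((hΘ' v (y ∘ₗ X' j)).2 (r j) (r j).2)
  rw [cm_apply, sub_sub_sub_cancel_right] at h3
  show sandL 1 (D (ξ (r j))) (coef (X j v) y f - coef v (y ∘ₗ X' j) f) ∈ (r j).1.1
  rw [map_sub]
  exact h3

end Layer

end Pool.Agent.P.MP_bebcd6_lc
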