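import Pool.Agent.P.MP_b2749c_lc.Univ

/-! Semigroup relations that simulate a while program. -/

namespace Pool.Agent.P.MP_bebcd6_lc

open Pool.Agent.P.MP_b2749c_lc
open Function (update)

/-- the letters -/
inductive Let
  | z | h | a (i : ℕ) | d (i : ℕ) | t (i : ℕ) | l (i : ℕ) (b : Prog)

/-- the word of a program -/
def word : Prog → List Let
  | .inc i => [.a i]
  | .dec i => [.d i]
  | .seq p q => word p ++ word q
  | .loop i b => [.l i b]

/-- the registers of a program -/
def regs : Prog → List ℕ
  | .inc i => [i]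
  | .dec i => [i]
  | .seq p q => regs p ++ regs q
  | .loop i b => i :: regs b

/-- the loops of a program -/
def loops : Prog → List (ℕ × Prog)
  | .inc _ => []
  | .dec _ => []
  | .seq p q => loops p ++ loops q
  | .loop i b => (i, b) :: loops b

/-- the relations between nonempty words -/
inductive Rl (I : List ℕ) (L : List (ℕ × Prog)) : Let × List Let → Let × List Let → Prop
  | zt {i} : i ∈ I → Rl I L (.z, [.t i]) (.z, [])
  | td {i} : i ∈ I → Rl I L (.t i, [.d i]) (.t i, [])
  | ah {i} : i ∈ I → Rl I L (.a i, [.h]) (.h, [])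
  | zad {i} : i ∈ I → Rl I L (.z, [.a i, .d i]) (.z, [])
  | aa {i j} : i ∈ I → j ∈ I → Rl I L (.a i, [.a j]) (.a j, [.a i])
  | aad {i j} : i ∈ I → j ∈ I → Rl I L (.a j, [.a i, .d i]) (.a j, [])
  | ta {i j} : i ∈ I → j ∈ I → i ≠ j → Rl I L (.t i, [.a j]) (.a j, [.t i])
  | tl {i b} : (i, b) ∈ L → Rl I L (.t i, [.l i b]) (.t i, [])
  | al {i b} : (i, b) ∈ L → Rl I L (.a i, [.l i b]) (.a i, word b ++ [.l i b])

theorem rl_finite (I : List ℕ) (L : List (ℕ × Prog)) :
    {r : (Let × List Let) × (Let × List Let) | Rl I L r.1 r.2}.Finite := by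
  have hI : {i | i ∈ I}.Finite := List.finite_toSet I
  have hL : {i | i ∈ L}.Finite := List.finite_toSet L
  have hII := hI.prod hI
  refine ((((((((hI.image fun i => ((Let.z, [Let.t i]), (Let.z, []))).union
    (hI.image fun i => ((.t i, [.d i]), (.t i, [])))).union
    (hI.image fun i => ((.a i, [.h]), (.h, [])))).union
    (hI.image fun i => ((.z, [.a i, .d i]), (.z, [])))).union
    (hII.image fun e => ((.a e.1, [.a e.2]), (.a e.2, [.a e.1])))).union
    (hII.image fun e => ((.a e.2, [.a e.1, .d e.1]), (.a e.2, [])))).union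
    (hII.image fun e => ((.t e.1, [.a e.2]), (.a e.2, [.t e.1])))).union
    (hL.image fun e => ((.t e.1, [.l e.1 e.2]), (.t e.1, [])))).union
    (hL.image fun e => ((.a e.1, [.l e.1 e.2]), (.a e.1, word e.2 ++ [.l e.1 e.2]))) |>.subset ?_
  rintro ⟨x, y⟩ h
  simp only [Set.mem_union]
  cases h with
  | zt h => exact .inl <| .inl <| .inl <| .inl <| .inl <| .inl <| .inl <| .inl ⟨_, h, rfl⟩
  | td h => exact .inl <| .inl <| .inl <| .inl <| .inl <| .inl <| .inl <| .inr ⟨_, h, rfl⟩
  | ah h => exact .inl <| .inl <| .inl <| .inl <| .inl <| .inl <| .inr ⟨_, h, rfl⟩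
  | zad h => exact .inl <| .inl <| .inl <| .inl <| .inl <| .inr ⟨_, h, rfl⟩
  | aa h h' => exact .inl <| .inl <| .inl <| .inl <| .inr ⟨(_, _), ⟨h, h'⟩, rfl⟩
  | aad h h' => exact .inl <| .inl <| .inl <| .inr ⟨(_, _), ⟨h, h'⟩, rfl⟩
  | ta h h' _ => exact .inl <| .inl <| .inr ⟨(_, _), ⟨h, h'⟩, rfl⟩
  | tl h => exact .inl <| .inr ⟨(_, _), h, rfl⟩
  | al h => exact .inr ⟨(_, _), h, rfl⟩

section Derive

variable {M : Type} [Monoid M] (g : Let → M)

/-- the value of a nonempty word -/
def ev (w : Let × List Let) : M := g w.1 * (w.2.map g).prod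

/-- the value of the word of a state -/
def st (l : List ℕ) : M := g .z * (l.map fun i => g (.a i)).prod

variable {g} {I : List ℕ} {L : List (ℕ × Prog)}

theorem st_snoc (l : List ℕ) (i : ℕ) : st g (l ++ [i]) = st g l * g (.a i) := by
  simp [st, mul_assoc]

variable (H : ∀ x y, Rl I L x y → ev g x = ev g y)
include H

theorem st_t {l : List ℕ} (hl : l ⊆ I) {i : ℕ} (hi : i ∈ I) (hn : i ∉ l) :
    st g l * g (.t i) = st g l := by
  induction l using List.reverseRecOn with
  | nil => simpa [st, ev] using H _ _ (.zt hi)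
  | append_singleton l j ih =>
    have h1 := H _ _ (.ta hi (hl (by simp : j ∈ l ++ [j])) (fun e => hn (by simp [e])))
    simp only [ev, List.map_cons, List.map_nil, List.prod_cons, List.prod_nil, mul_one] at h1
    rw [st_snoc, mul_assoc, ← h1, ← mul_assoc,
      ih (fun x hx => hl (by simp [hx])) (fun hx => hn (by simp [hx]))]

theorem st_erase {l : List ℕ} (hl : l ⊆ I) {i : ℕ} (hi : i ∈ l) :
    st g l = st g (l.erase i) * g (.a i) := by
  rw [← st_snoc]
  unfold st
  congr 1
  refine List.Perm.prod_eq' (List.Perm.map _ ?_) ?_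
  · exact (List.perm_cons_erase hi).trans (List.perm_append_singleton i _).symm
  · rw [List.pairwise_map]
    refine List.pairwise_of_forall_mem_list fun x hx y hy => ?_
    simpa [ev, commute_iff_eq] using H _ _ (.aa (hl hx) (hl hy))

theorem st_ad {l : List ℕ} (hl : l ⊆ I) {i : ℕ} (hi : i ∈ I) :
    st g l * g (.a i) * g (.d i) = st g l := by
  induction l using List.reverseRecOn with
  | nil => simpa [st, ev, mul_assoc] using H _ _ (.zad hi)
  | append_singleton l j _ =>
    have h1 := H _ _ (.aad hi (hl (by simp : j ∈ l ++ [j])))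
    simp only [ev, List.map_cons, List.map_nil, List.prod_cons, List.prod_nil, mul_one] at h1
    rw [st_snoc, mul_assoc, mul_assoc, h1]

theorem st_h {l : List ℕ} (hl : l ⊆ I) : st g l * g .h = g .z * g .h := by
  induction l using List.reverseRecOn with
  | nil => simp [st]
  | append_singleton l j ih =>
    have h1 := H _ _ (.ah (hl (by simp : j ∈ l ++ [j])))
    simp only [ev, List.map_cons, List.map_nil, List.prod_cons, List.prod_nil, mul_one] at h1
    rw [st_snoc, mul_assoc, h1, ih fun x hx => hl (by simp [hx])]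

theorem st_big {p : Prog} {s s' : ℕ → ℕ} (hb : Big p s s') (hr : regs p ⊆ I) (hL : loops p ⊆ L)
    {l : List ℕ} (hl : l ⊆ I) (hs : ∀ i, l.count i = s i) :
    ∃ l', l' ⊆ I ∧ (∀ i, l'.count i = s' i) ∧ st g l * ((word p).map g).prod = st g l' := by
  induction hb generalizing l with
  | inc i s =>
    refine ⟨l ++ [i], List.append_subset.2 ⟨hl, hr⟩, fun j => ?_, by simp [word, st_snoc]⟩
    by_cases e : j = i
    · subst e
      simp [hs]
    · simp [e, hs, Ne.symm e]
  | dec i s =>
    have hi : i ∈ I := hr (by simp [regs])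
    by_cases hm : i ∈ l
    · refine ⟨l.erase i, List.Subset.trans List.erase_subset hl, fun j => ?_, ?_⟩
      · by_cases e : j = i
        · subst e
          simp [hs]
        · simp [e, hs, List.count_erase_of_ne e]
      · simp only [word, List.map_cons, List.map_nil, List.prod_cons, List.prod_nil, mul_one]
        rw [st_erase H hl hm, st_ad H (List.Subset.trans List.erase_subset hl) hi]
    · refine ⟨l, hl, fun j => ?_, ?_⟩
      · by_cases e : j = i
        · subst e
          simp [← hs, List.count_eq_zero_of_not_mem hm]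
        · simp [e, hs]
      · have h1 := H _ _ (.td hi)
        simp only [ev, word, List.map_cons, List.map_nil, List.prod_cons, List.prod_nil,
          mul_one] at h1 ⊢
        rw [← st_t H hl hi hm, mul_assoc, h1]
  | seq _ _ ih1 ih2 =>
    obtain ⟨l1, a1, a2, a3⟩ := ih1 (fun x hx => hr (by simp [regs, hx]))
      (fun x hx => hL (by simp [loops, hx])) hl hs
    obtain ⟨l2, b1, b2, b3⟩ := ih2 (fun x hx => hr (by simp [regs, hx]))
      (fun x hx => hL (by simp [loops, hx])) a1 a2
    exact ⟨l2, b1, b2, by rw [word, List.map_append, List.prod_append, ← mul_assoc, a3, b3]⟩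
  | @loop0 i b s h0 =>
    have hi : i ∈ I := hr (by simp [regs])
    have hm : i ∉ l := fun hm => by
      have := List.count_pos_iff.2 hm
      rw [hs] at this
      omega
    have h1 := H _ _ (.tl (hL (by simp [loops] : (i, b) ∈ loops (.loop i b))))
    refine ⟨l, hl, hs, ?_⟩
    simp only [ev, word, List.map_cons, List.map_nil, List.prod_cons, List.prod_nil,
      mul_one] at h1 ⊢
    rw [← st_t H hl hi hm, mul_assoc, h1]
  | @loopS i b s s1 s2 h0 _ _ ih1 ih2 =>
    have hm : i ∈ l := List.count_pos_iff.1 (by rw [hs]; exact h0)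
    obtain ⟨l1, a1, a2, a3⟩ := ih1 (fun x hx => hr (by simp [regs, hx]))
      (fun x hx => hL (by simp [loops, hx])) hl hs
    obtain ⟨l2, b1, b2, b3⟩ := ih2 hr hL a1 a2
    have h1 := H _ _ (.al (hL (by simp [loops] : (i, b) ∈ loops (.loop i b))))
    refine ⟨l2, b1, b2, ?_⟩
    simp only [ev, word, List.map_cons, List.map_nil, List.prod_cons, List.prod_nil,
      mul_one, List.map_append, List.prod_append] at h1 b3 ⊢
    rw [← b3, ← a3, st_erase H hl hm, mul_assoc, h1]
    simp only [mul_assoc]

end Derive

section Model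

open Classical in
/-- the result of a program, or the point `1` if it does not halt -/
noncomputable def res (p : Prog) (s : ℕ → ℕ) : (ℕ → ℕ) ⊕ Fin 3 :=
  if h : ∃ s', Big p s s' then .inl h.choose else .inr 1

theorem res_of_big {p : Prog} {s s' : ℕ → ℕ} (h : Big p s s') : res p s = .inl s' := by
  have h' : ∃ s', Big p s s' := ⟨s', h⟩
  rw [res, dif_pos h', h'.choose_spec.det h]

theorem res_of_not {p : Prog} {s : ℕ → ℕ} (h : ¬ ∃ s', Big p s s') : res p s = .inr 1 := by
  rw [res, dif_neg h]

/-- the action of the letters on the standard model -/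
noncomputable def act : Let → (ℕ → ℕ) ⊕ Fin 3 → (ℕ → ℕ) ⊕ Fin 3
  | .z, _ => .inl fun _ => 0
  | .h, .inl _ => .inr 0
  | .a i, .inl s => .inl (update s i (s i + 1))
  | .d i, .inl s => .inl (update s i (s i - 1))
  | .t i, .inl s => if s i = 0 then .inl s else .inr 2
  | .l i b, .inl s => res (.loop i b) s
  | _, .inr c => .inr c

/-- the action of a word -/
noncomputable def actW (w : List Let) (x : (ℕ → ℕ) ⊕ Fin 3) : (ℕ → ℕ) ⊕ Fin 3 :=
  w.foldl (fun y j => act j y) x

theorem actW_append (u w : List Let) (x) : actW (u ++ w) x = actW w (actW u x) :=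
  List.foldl_append

theorem actW_word_inr (p : Prog) (c : Fin 3) : actW (word p) (.inr c) = .inr c := by
  induction p with
  | seq p q ih1 ih2 => rw [word, actW_append, ih1, ih2]
  | _ => rfl

theorem actW_word (p : Prog) (s : ℕ → ℕ) : actW (word p) (.inl s) = res p s := by
  induction p generalizing s with
  | inc i => exact (res_of_big (.inc i s)).symm
  | dec i => exact (res_of_big (.dec i s)).symm
  | loop i b _ => rfl
  | seq p q ih1 ih2 =>
    rw [word, actW_append, ih1]
    by_cases h1 : ∃ s', Big p s s'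
    · obtain ⟨s1, h1⟩ := h1
      rw [res_of_big h1, ih2]
      by_cases h2 : ∃ s', Big q s1 s'
      · obtain ⟨s2, h2⟩ := h2
        rw [res_of_big h2, res_of_big (.seq h1 h2)]
      · rw [res_of_not h2, res_of_not]
        rintro ⟨s2, h⟩
        cases h with
        | seq a b => exact h2 ⟨_, h1.det a ▸ b⟩
    · rw [res_of_not h1, actW_word_inr, res_of_not]
      rintro ⟨s2, h⟩
      cases h with
      | seq a b => exact h1 ⟨_, a⟩

theorem res_loop {i : ℕ} {b : Prog} {s : ℕ → ℕ} (h0 : 0 < s i) :
    res (.loop i b) s = act (.l i b) (res b s) := by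
  by_cases h1 : ∃ s', Big b s s'
  · obtain ⟨s1, h1⟩ := h1
    rw [res_of_big h1]
    change _ = res (.loop i b) s1
    by_cases h2 : ∃ s', Big (.loop i b) s1 s'
    · obtain ⟨s2, h2⟩ := h2
      rw [res_of_big h2, res_of_big (.loopS h0 h1 h2)]
    · rw [res_of_not h2, res_of_not]
      rintro ⟨s2, h⟩
      cases h with
      | loop0 h => omega
      | loopS _ a b => exact h2 ⟨_, h1.det a ▸ b⟩
  · rw [res_of_not h1, res_of_not]
    · rfl
    · rintro ⟨s2, h⟩
      cases h with
      | loop0 h => omega
      | loopS _ a b => exact h1 ⟨_, a⟩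

theorem model_rl {I : List ℕ} {L : List (ℕ × Prog)} {x y : Let × List Let} (h : Rl I L x y) :
    actW (x.1 :: x.2) = actW (y.1 :: y.2) := by
  funext o
  cases h with
  | zt => simp [actW, act]
  | @td i =>
    rcases o with s | c
    · by_cases h : s i = 0
      · simp only [actW, act, List.foldl_cons, List.foldl_nil, h, if_true, Sum.inl.injEq]
        rw [Nat.zero_sub, ← h, Function.update_eq_self]
      · simp [actW, act, h]
    · rfl
  | ah => rcases o with s | c <;> rfl
  | zad => simp [actW, act]
  | @aa i j =>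
    rcases o with s | c
    · by_cases e : i = j
      · rw [e]
      · simp only [actW, act, List.foldl_cons, List.foldl_nil, Sum.inl.injEq]
        rw [Function.update_of_ne e, Function.update_of_ne (Ne.symm e), Function.update_comm e]
    · rfl
  | aad =>
    rcases o with s | c
    · simp [actW, act]
    · rfl
  | @ta i j _ _ e =>
    rcases o with s | c
    · by_cases h : s i = 0 <;> simp [actW, act, h, e]
    · rfl
  | @tl i b =>
    rcases o with s | c
    · by_cases h : s i = 0
      · simp only [actW, act, List.foldl_cons, List.foldl_nil, h, if_true]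
        exact res_of_big (.loop0 h.le)
      · simp [actW, act, h]
    · rfl
  | @al i b =>
    rcases o with s | c
    · change res _ _ = actW (word b ++ [.l i b]) (.inl _)
      rw [actW_append, actW_word, res_loop (by simp)]
      rfl
    · change _ = actW (word b ++ [.l i b]) (.inr c)
      rw [actW_append, actW_word_inr]
      rfl

theorem actW_replicate (m : ℕ) (s : ℕ → ℕ) :
    actW (List.replicate m (.a 0)) (.inl s) = .inl (update s 0 (s 0 + m)) := by
  induction m generalizing s with
  | zero => simp [actW]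
  | succ m ih =>
    change actW (List.replicate m (.a 0)) (.inl (update s 0 (s 0 + 1))) = _
    rw [ih, Function.update_idem, Function.update_self, add_assoc, add_comm 1]

end Model

end Pool.Agent.P.MP_bebcd6_lc
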