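import Pool.Agent.P.MP_bebcd6_lc.DefLib
import Pool.Agent.P.MP_bebcd6_lc.Semi

/-! Undecidability from a definable interpretation of arbitrary systems of maps. -/

namespace Pool.Agent.P.MP_bebcd6_lc

open Pool.Agent.P.MP_b2749c_lc
open Function (update)

section Code

variable {A : Type} {e : A → ℕ}

theorem Term.code_inj (he : Function.Injective e) {s t : Term A} (h : s.code e = t.code e) :
    s = t := by
  induction s generalizing t with
  | var n => cases t <;> simp_all [Term.code, Nat.pair_eq_pair]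
  | zero => cases t <;> simp_all [Term.code, Nat.pair_eq_pair]
  | add s1 s2 ih1 ih2 =>
    cases t with
    | add t1 t2 =>
      simp only [Term.code, Nat.pair_eq_pair, true_and] at h
      rw [ih1 h.1, ih2 h.2]
    | _ => simp [Term.code, Nat.pair_eq_pair] at h
  | act a s ih =>
    cases t with
    | act b t =>
      simp only [Term.code, Nat.pair_eq_pair, true_and] at h
      rw [he h.1, ih h.2]
    | _ => simp [Term.code, Nat.pair_eq_pair] at h

theorem Formula.code_inj (he : Function.Injective e) {p q : Formula A}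
    (h : p.code e = q.code e) : p = q := by
  induction p generalizing q with
  | eq s t =>
    cases q with
    | eq s' t' =>
      simp only [Formula.code, Nat.pair_eq_pair, true_and] at h
      rw [Term.code_inj he h.1, Term.code_inj he h.2]
    | _ => simp [Formula.code, Nat.pair_eq_pair] at h
  | bot => cases q <;> simp_all [Formula.code, Nat.pair_eq_pair]
  | imp p1 p2 ih1 ih2 =>
    cases q with
    | imp q1 q2 =>
      simp only [Formula.code, Nat.pair_eq_pair, true_and] at h
      rw [ih1 h.1, ih2 h.2]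
    | _ => simp [Formula.code, Nat.pair_eq_pair] at h
  | all n p ih =>
    cases q with
    | all m q =>
      simp only [Formula.code, Nat.pair_eq_pair, true_and] at h
      rw [h.1, ih h.2]
    | _ => simp [Formula.code, Nat.pair_eq_pair] at h

/-- the iterated context -/
def iter (pa p₀ : Formula A) : ℕ → Formula A
  | 0 => p₀
  | m + 1 => .all 2 (.imp pa (.all 1 (.imp (.eq (.var 1) (.var 2)) (iter pa p₀ m))))

theorem free_iter (pa p₀ : Formula A) (m : ℕ) :
    (iter pa p₀ m).free ⊆ pa.free ∪ p₀.free := by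
  induction m with
  | zero => exact Finset.subset_union_right
  | succ m ih =>
    intro n hn
    simp only [iter, Formula.free, Term.vars, Finset.mem_erase, Finset.mem_union,
      Finset.mem_singleton] at hn
    rcases hn with ⟨h2, h | ⟨h1, (h | h) | h⟩⟩
    · exact Finset.mem_union_left _ h
    · exact absurd h h1
    · exact absurd h h2
    · exact ih h

theorem primrec_pair_const (c : ℕ) {f : ℕ → ℕ} (hf : Primrec f) :
    Primrec fun n => Nat.pair c (f n) :=
  Primrec₂.natPair.comp (Primrec.const c) hf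

theorem primrec_iter (pa p₀ : Formula A) : Primrec fun m => (iter pa p₀ m).code e := by
  let F : ℕ → ℕ := fun c => Nat.pair 3 (Nat.pair 2 (Nat.pair 2 (Nat.pair (pa.code e) (Nat.pair 3
    (Nat.pair 1 (Nat.pair 2 (Nat.pair ((Formula.eq (.var 1) (.var 2) : Formula A).code e) c)))))))
  have hF : Primrec F := by
    iterate 8 refine primrec_pair_const _ ?_
    exact Primrec.id
  refine (Primrec.nat_iterate Primrec.id (Primrec.const (p₀.code e))
    (hF.comp Primrec.snd).to₂).of_eq fun m => ?_
  induction m with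
  | zero => rfl
  | succ m ih =>
    simp only [id] at ih ⊢
    rw [Function.iterate_succ_apply', ih]
    rfl

theorem primrec_allL (l : List ℕ) {p : ℕ → Formula A} (hp : Primrec fun m => (p m).code e) :
    Primrec fun m => (allL l (p m)).code e := by
  induction l with
  | nil => exact hp
  | cons a l ih => exact primrec_pair_const 3 (primrec_pair_const a ih)

end Code

/-- binary relations under composition -/
def RelM (N : Type) : Type := N → N → Prop

instance (N : Type) : Monoid (RelM N) where
  mul P Q := fun x z => ∃ y, P x y ∧ Q y z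
  one := fun x y => x = y
  mul_assoc P Q R := funext fun x => funext fun w => propext
    ⟨fun ⟨z, ⟨y, a, b⟩, c⟩ => ⟨y, a, z, b, c⟩, fun ⟨y, a, z, b, c⟩ => ⟨z, ⟨y, a, b⟩, c⟩⟩
  one_mul P := funext fun x => funext fun y => propext
    ⟨fun ⟨_, a, b⟩ => (show x = _ from a) ▸ b, fun a => ⟨x, rfl, a⟩⟩
  mul_one P := funext fun x => funext fun y => propext
    ⟨fun ⟨_, a, b⟩ => (show _ = y from b) ▸ a, fun a => ⟨y, a, rfl⟩⟩

theorem RelM.mul_iff {N : Type} (P Q : RelM N) (x z : N) : (P * Q) x z ↔ ∃ y, P x y ∧ Q y z :=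
  Iff.rfl

section Defn

variable {A : Type} [Ring A] {P Q : ∀ (N : Type) [AddCommGroup N] [Module Aᵐᵒᵖ N], RelM N}

theorem Def2.mul (hP : Def2 A P) (hQ : Def2 A Q) : Def2 A fun N _ _ => P N * Q N := by
  refine DefI.def2 (((hP.defI (Sum.inl false : Bool ⊕ Unit) (.inr ())).and
    (hQ.defI (.inr ()) (.inl true))).ex.congr fun N _ _ w => ?_)
  exact ⟨fun ⟨u, a, b⟩ => ⟨u (), a, b⟩, fun ⟨y, a, b⟩ => ⟨fun _ => y, a, b⟩⟩

theorem Def2.prod {g : Let → ∀ (N : Type) [AddCommGroup N] [Module Aᵐᵒᵖ N], RelM N}
    (hg : ∀ j, Def2 A (g j)) (w : List Let) :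
    Def2 A fun N _ _ => (w.map fun j => g j N).prod := by
  induction w with
  | nil => exact DefI.def2 ((DefT.var false).eq (DefT.var true))
  | cons j w ih => exact (hg j).mul ih

theorem Def2.eq_rel (hP : Def2 A P) (hQ : Def2 A Q) : DefI A Bool fun N _ _ _ => P N = Q N := by
  refine ((hP.defI (Sum.inr false : Bool ⊕ Bool) (.inr true)).iff
    (hQ.defI (.inr false) (.inr true))).all.congr fun N _ _ w => ?_
  exact ⟨fun h => funext fun x => funext fun y => propext (h fun b => cond b y x),
    fun h u => by rw [h]⟩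

theorem sat_iter {N : Type} [AddCommGroup N] [Module Aᵐᵒᵖ N] {pa p₀ : Formula A} {a χ : RelM N}
    (ha : ∀ v : ℕ → N, pa.Sat v ↔ a (v 1) (v 2)) (h₀ : ∀ v : ℕ → N, p₀.Sat v ↔ χ (v 0) (v 1))
    (m : ℕ) (v : ℕ → N) : (iter pa p₀ m).Sat v ↔ ∀ y, (a ^ m) (v 1) y → χ (v 0) y := by
  induction m generalizing v with
  | zero =>
    rw [pow_zero]
    exact (h₀ v).trans ⟨fun h y (e : v 1 = y) => e ▸ h, fun h => h _ rfl⟩
  | succ m ih =>
    simp only [iter, Formula.Sat, Term.eval, ha, ih, pow_succ', RelM.mul_iff]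
    simp only [Function.update_self, ne_eq, OfNat.ofNat_ne_one, not_false_eq_true,
      Function.update_of_ne, OfNat.one_ne_ofNat, zero_ne_one, OfNat.zero_ne_ofNat]
    exact ⟨fun h y ⟨w, a, b⟩ => h w a w rfl y b, fun h w a x e y b => h y ⟨w, a, e ▸ b⟩⟩

end Defn

section Special

variable {N T : Type} [AddCommGroup N] (S' S'' : AddSubgroup N) (Φ : (T → T) → N →+ N)

/-- the relation attached to a map -/
def relOf (f : T → T) : RelM N := fun x y => x ∈ S' ∧ y - Φ f x ∈ S''

variable {S' S'' Φ}

theorem relOf_mul (h2 : ∀ u w, Φ (u ∘ w) = (Φ u).comp (Φ w))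
    (h3 : ∀ u, ∀ x ∈ S', Φ u x ∈ S') (h4 : ∀ u, ∀ x ∈ S'', Φ u x ∈ S'') (f g : T → T) :
    relOf S' S'' Φ f * relOf S' S'' Φ g = relOf S' S'' Φ (g ∘ f) := by
  refine funext fun x => funext fun z => propext ⟨?_, ?_⟩
  · rintro ⟨y, ⟨a, b⟩, -, c⟩
    refine ⟨a, ?_⟩
    have := add_mem c (h4 g _ b)
    rw [map_sub, sub_add_sub_cancel] at this
    rw [h2]
    exact this
  · rintro ⟨a, b⟩
    rw [h2] at b
    exact ⟨Φ f x, ⟨a, by rw [sub_self]; exact zero_mem _⟩, h3 f x a, b⟩

end Special

theorem undecidable_of_interp (A : Type) [Ring A] (e : A → ℕ) (he : Function.Injective e)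
    (H : ∀ (G : Type) [Fintype G],
      ∃ ρ : G → ∀ (N : Type) [AddCommGroup N] [Module Aᵐᵒᵖ N], N → N → Prop,
        (∀ j, Def2 A (ρ j)) ∧ ∀ (T : Type) (f : G → T → T),
          ∃ (N : Type) (_ : AddCommGroup N) (_ : Module Aᵐᵒᵖ N) (S' S'' : AddSubgroup N)
            (Φ : (T → T) → N →+ N) (emb : T → N),
            S'' ≤ S' ∧ (∀ u w, Φ (u ∘ w) = (Φ u).comp (Φ w)) ∧ (∀ u, ∀ x ∈ S', Φ u x ∈ S') ∧
            (∀ u, ∀ x ∈ S'', Φ u x ∈ S'') ∧ (∀ t, emb t ∈ S') ∧ (∀ u t, Φ u (emb t) = emb (u t)) ∧
            (∀ t t', emb t - emb t' ∈ S'' → t = t') ∧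
            ∀ j x y, ρ j N x y ↔ x ∈ S' ∧ y - Φ (f j) x ∈ S'') :
    ¬ ComputablePred fun m : ℕ => ∃ p ∈ theory A, p.code e = m := by
  classical
  intro hcomp
  obtain ⟨U, hU⟩ := exists_universal
  have hfin := rl_finite (0 :: regs U) (loops U)
  let Lt : Set Let := (⋃ r ∈ hfin.toFinset, {j | j ∈ (r.1.1 :: r.1.2) ++ (r.2.1 :: r.2.2)}) ∪
    {j | j ∈ [Let.z, .h, .a 0] ++ word U}
  have hLt : Lt.Finite := (Set.Finite.biUnion (Finset.finite_toSet _)
    fun r _ => List.finite_toSet _).union (List.finite_toSet _)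
  have := hLt.fintype
  obtain ⟨ρ, hρ, hmod⟩ := H Lt
  let g : Let → ∀ (N : Type) [AddCommGroup N] [Module Aᵐᵒᵖ N], RelM N :=
    fun j N _ _ => if h : j ∈ Lt then ρ ⟨j, h⟩ N else fun _ _ => False
  have hg : ∀ j, Def2 A (g j) := by
    intro j
    by_cases h : j ∈ Lt
    · simpa [g, h] using hρ ⟨j, h⟩
    · simp only [g, h, dif_neg, not_false_eq_true]
      exact DefI.def2 DefI.bot
  have hev : ∀ w, Def2 A fun N _ _ => ev (M := RelM N) (fun j => g j N) w :=
    fun w => (hg w.1).mul (Def2.prod hg w.2)
  obtain ⟨pH, hpH⟩ := DefI.conj hfin.toFinset (fun r _ => (hev r.1).eq_rel (hev r.2))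
    fun b => cond b 1 0
  obtain ⟨pz, hpz⟩ := hg .z 0 1
  obtain ⟨pa, hpa⟩ := hg (.a 0) 1 2
  have hχ : Def2 A fun N _ _ x y => ∀ w, (((word U).map fun j => g j N).prod * g .h N) y w →
      (g .z N * g .h N) x w := by
    refine DefI.def2 (((((Def2.prod hg (word U)).mul (hg .h)).defI
      (Sum.inl true : Bool ⊕ Unit) (.inr ())).imp
      (((hg .z).mul (hg .h)).defI (.inl false) (.inr ()))).all.congr fun N _ _ w => ?_)
    exact ⟨fun h y => h fun _ => y, fun h u => h (u ())⟩
  obtain ⟨p₀, hp₀⟩ := hχ 0 1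
  let l := (pH.free ∪ (pz.free ∪ (pa.free ∪ p₀.free))).toList
  let θ : ℕ → Formula A := fun n => allL l (.imp pH (.imp pz (iter pa p₀ (n + 1))))
  have hθ : Primrec fun n => (θ n).code e := by
    refine primrec_allL l ?_
    iterate 4 refine primrec_pair_const _ ?_
    exact (primrec_iter pa p₀).comp Primrec.succ
  have hsem : ∀ n, θ n ∈ theory A ↔ ∀ (N : Type) [AddCommGroup N] [Module Aᵐᵒᵖ N],
      (∀ x y, Rl (0 :: regs U) (loops U) x y → ev (fun j => g j N) x = ev (fun j => g j N) y) →
      ∀ x w, (g .z N * g (.a 0) N ^ (n + 1) * (((word U).map fun j => g j N).prod * g .h N)) x w →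
        (g .z N * g .h N) x w := by
    intro n
    have key : ∀ (N : Type) [AddCommGroup N] [Module Aᵐᵒᵖ N] (v : ℕ → N),
        (Formula.imp pH (.imp pz (iter pa p₀ (n + 1)))).Sat v ↔
        ((∀ x y, Rl (0 :: regs U) (loops U) x y → ev (fun j => g j N) x = ev (fun j => g j N) y) →
          g .z N (v 0) (v 1) → ∀ y, (g (.a 0) N ^ (n + 1)) (v 1) y → ∀ w,
            (((word U).map fun j => g j N).prod * g .h N) y w → (g .z N * g .h N) (v 0) w) := by
      intro N _ _ v
      refine imp_congr ((hpH N v).trans ?_) (imp_congr (hpz N v)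
        (sat_iter (χ := fun x y => ∀ w, (((word U).map fun j => g j N).prod * g .h N) y w →
          (g .z N * g .h N) x w) (hpa N) (hp₀ N) (n + 1) v))
      simp only [Set.Finite.mem_toFinset, Set.mem_ofPred_eq, Prod.forall]
    constructor
    · rintro ⟨-, h⟩ N _ _ hR x w ⟨y, ⟨y0, a, b⟩, c⟩
      have := (sat_allL _ _ _).1 (h N fun i => if i = 0 then x else y0) _ fun _ _ => rfl
      exact (key N _).1 this hR a y b w c
    · intro h
      refine ⟨?_, fun N _ _ v => (sat_allL _ _ _).2 fun v' _ => (key N v').2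
        fun hR a y b w c => h N hR _ w ⟨y, ⟨_, a, b⟩, c⟩⟩
      rw [free_allL, Finset.toList_toFinset, Finset.sdiff_eq_empty_iff_subset]
      exact Finset.union_subset_union_right (Finset.union_subset_union_right (free_iter pa p₀ _))
  have hiff : ∀ n, θ n ∈ theory A ↔ ∃ σ', Big U (update (fun _ => 0) 0 (n + 1)) σ' := by
    intro n
    rw [hsem]
    constructor
    · intro h
      by_contra hn
      obtain ⟨N, _, _, S', S'', Φ, emb, -, h2, h3, h4, h5, h6, h7, h8⟩ := hmod _ fun j => act j.1
      have hj : ∀ j ∈ Lt, g j N = relOf S' S'' Φ (act j) := by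
        intro j hj
        simp only [g, hj, dif_pos]
        exact funext fun x => funext fun y => propext (h8 _ x y)
      have hw : ∀ w : List Let, (∀ j ∈ w, j ∈ Lt) → ∀ f, relOf S' S'' Φ f *
          (w.map fun j => g j N).prod = relOf S' S'' Φ (actW w ∘ f) := by
        intro w hw
        induction w with
        | nil => exact fun f => mul_one _
        | cons j w ih =>
          intro f
          rw [List.map_cons, List.prod_cons, ← mul_assoc, hj j (hw j (by simp)),
            relOf_mul h2 h3 h4, ih fun i hi => hw i (by simp [hi])]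
          rfl
      have hev : ∀ w : Let × List Let, (∀ j ∈ w.1 :: w.2, j ∈ Lt) →
          ev (fun j => g j N) w = relOf S' S'' Φ (actW (w.1 :: w.2)) := by
        intro w h
        rw [ev, hj _ (h _ (by simp)), hw _ fun j hj => h j (by simp [hj])]
        rfl
      have hR : ∀ x y, Rl (0 :: regs U) (loops U) x y →
          ev (fun j => g j N) x = ev (fun j => g j N) y := by
        intro x y hxy
        have hm : ∀ j ∈ (x.1 :: x.2) ++ (y.1 :: y.2), j ∈ Lt := fun j hj =>
          Or.inl (Set.mem_biUnion (x := (x, y)) (hfin.mem_toFinset.2 hxy) hj)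
        rw [hev x fun j hj => hm j (List.mem_append_left _ hj),
          hev y fun j hj => hm j (List.mem_append_right _ hj), model_rl hxy]
      have hm : ∀ j ∈ [Let.z, .h, .a 0] ++ word U, j ∈ Lt := fun j hj => Or.inr hj
      have e1 := hev (.z, List.replicate (n + 1) (.a 0) ++ (word U ++ [.h])) (by
        intro j hj
        refine hm j ?_
        simp only [List.mem_cons, List.mem_append, List.mem_replicate] at hj ⊢
        tauto)
      have e2 := hev (.z, [.h]) (by
        intro j hj
        refine hm j ?_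
        simp only [List.mem_cons, List.mem_append] at hj ⊢
        tauto)
      simp only [ev, List.map_append, List.prod_append, List.map_replicate, List.prod_replicate,
        List.map_cons, List.map_nil, List.prod_cons, List.prod_nil, mul_one] at e1 e2
      have := h N hR (emb (.inr 0)) (emb (.inr 1))
      rw [mul_assoc, e1, e2] at this
      have h9 := this ⟨h5 _, by
        have : actW (.z :: (List.replicate (n + 1) (.a 0) ++ (word U ++ [.h]))) (.inr 0) =
            .inr 1 := by
          change actW (List.replicate (n + 1) (.a 0) ++ (word U ++ [.h])) (.inl fun _ => 0) = _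
          rw [actW_append, actW_append, actW_replicate, actW_word, zero_add, res_of_not hn]
          rfl
        rw [h6, this, sub_self]
        exact zero_mem _⟩
      have h10 := h9.2
      rw [h6] at h10
      exact absurd (h7 _ _ h10) (by simp [actW, act])
    · rintro ⟨σ', hb⟩ N _ _ hR x w
      obtain ⟨l', a1, -, a3⟩ := st_big hR hb (List.subset_cons_self _ _) (List.Subset.refl _)
        (l := List.replicate (n + 1) 0) (fun j hj => by simp [List.eq_of_mem_replicate hj])
        (fun i => by
          by_cases e : i = 0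
          · simp [e]
          · simp [e, List.count_replicate, Ne.symm e])
      have a4 := st_h hR a1
      rw [← a3, st, List.map_replicate, List.prod_replicate, mul_assoc] at a4
      rw [a4]
      exact id
  refine ComputablePred.halting_problem 0 (ComputablePred.computable_of_manyOneReducible
    ⟨fun c => (θ (Encodable.encode c)).code e, (hθ.comp Primrec.encode).to_comp, fun c => ?_⟩ hcomp)
  have := hU (Encodable.encode c)
  rw [Denumerable.ofNat_encode] at this
  refine this.symm.trans ((hiff _).symm.trans ?_)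
  exact ⟨fun h => ⟨_, h, rfl⟩, fun ⟨p, hp, h⟩ => Formula.code_inj he h ▸ hp⟩

end Pool.Agent.P.MP_bebcd6_lc
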