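import Pool.Agent.P.MP_bebcd6_lc.Iface

/-! A bound for the dimension of an indecomposable module whose base change has a given
direct summand. -/

namespace Pool.Agent.P.MP_bebcd6_lc

open scoped TensorProduct

namespace Rt

section Core

variable {k Λ N : Type} [Field k] [Ring Λ] [Algebra k Λ] [AddCommGroup N] [Module k N]
  [Module Λ N] [IsScalarTower k Λ N] [FiniteDimensional k N]

include k in
lemma nilp_of_not_inj (hN : Indec Λ N) (f : Module.End Λ N) (hf : ¬ Function.Injective f) :
    IsNilpotent f := by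
  have h1 : IsArtinian Λ N := isArtinian_of_tower k inferInstance
  have h2 : IsNoetherian Λ N := isNoetherian_of_tower k inferInstance
  obtain ⟨n, hn, hn1⟩ := ((LinearMap.eventually_isCompl_ker_pow_range_pow f).and
    (Filter.eventually_ge_atTop 1)).exists
  rcases hN.2 _ _ hn with h | h
  · exfalso
    apply hf
    rw [← LinearMap.ker_eq_bot, eq_bot_iff, ← h]
    have := (LinearMap.iterateKer f).monotone hn1
    simpa [LinearMap.iterateKer] using this
  · exact ⟨n, LinearMap.range_eq_bot.1 h⟩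

include k in
lemma mem_jac (hN : Indec Λ N) (f : Module.End Λ N) (hf : ¬ Function.Injective f) :
    f ∈ Ideal.jacobson (⊥ : Ideal (Module.End Λ N)) := by
  rw [Ideal.mem_jacobson_iff]
  intro y
  have h : ¬ Function.Injective (y * f) := fun h => hf (Function.Injective.of_comp (f := y) h)
  obtain ⟨u, hu⟩ := (nilp_of_not_inj (k := k) hN _ h).isUnit_add_one
  refine ⟨(u⁻¹ : (Module.End Λ N)ˣ), ?_⟩
  rw [Ideal.mem_bot, mul_assoc, ← mul_add_one, ← hu, Units.inv_mul, sub_self]

theorem core {V W μ : Type} (hN : Indec Λ N) [AddCommGroup V] [Module k V] [AddCommGroup W]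
    [Module k W] [FiniteDimensional k W] (σ : Λ → V → V)
    (T : μ → V →ₗ[k] N) (I : μ → N →ₗ[k] V) (hT : ∀ ν a u, T ν (σ a u) = a • T ν u)
    (hI : ∀ ν a x, I ν (a • x) = σ a (I ν x))
    (hsum : ∀ u, ∃ s : Finset μ, u = ∑ ν ∈ s, I ν (T ν u))
    (Q1 : V →ₗ[k] W) (Q2 : W →ₗ[k] V) (hQ : ∀ a u, Q2 (Q1 (σ a u)) = σ a (Q2 (Q1 u)))
    (u0 : V) (hu0 : u0 ≠ 0) (hfix : Q2 (Q1 u0) = u0) :
    Module.finrank k N ≤ Module.finrank k W := by
  by_contra hlt
  push Not at hlt
  have hA : IsArtinianRing (Module.End Λ N) := IsArtinianRing.of_finite k _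
  obtain ⟨m, hm⟩ := IsArtinianRing.isNilpotent_jacobson_bot (R := Module.End Λ N)
  set J := Ideal.jacobson (⊥ : Ideal (Module.End Λ N)) with hJ
  let e : μ → μ → Module.End Λ N := fun ν ν' =>
    { toFun := fun x => T ν (Q2 (Q1 (I ν' x)))
      map_add' := fun x y => by simp
      map_smul' := fun a x => by rw [hI, hQ, hT]; rfl }
  have he : ∀ ν ν', e ν ν' ∈ J := by
    intro ν ν'
    refine mem_jac (k := k) hN _ fun hinj => ?_
    have h1 : Function.Injective (Q1 ∘ₗ I ν') := by
      intro x y hxy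
      apply hinj
      change T ν (Q2 (Q1 (I ν' x))) = T ν (Q2 (Q1 (I ν' y)))
      exact congrArg (fun w => T ν (Q2 w)) hxy
    exact absurd (LinearMap.finrank_le_finrank_of_injective h1) (by omega)
  have key : ∀ n : ℕ, ∀ ν, T ν u0 ∈ J ^ n • (⊤ : Submodule (Module.End Λ N) N) := by
    intro n
    induction n with
    | zero => intro ν; rw [Submodule.pow_zero, Ideal.one_eq_top, Submodule.top_smul]; trivial
    | succ n ih =>
      intro ν
      obtain ⟨s, hs⟩ := hsum u0
      have h1 : T ν u0 = ∑ ν' ∈ s, e ν ν' • T ν' u0 := by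
        conv_lhs => rw [← hfix, hs]
        simp only [map_sum]
        rfl
      rw [h1, Ideal.IsTwoSided.pow_succ, Submodule.mul_smul]
      exact Submodule.sum_mem _ fun ν' _ => Submodule.smul_mem_smul (he ν ν') (ih ν')
  apply hu0
  obtain ⟨s, hs⟩ := hsum u0
  rw [hs]
  refine Finset.sum_eq_zero fun ν _ => ?_
  have := key m ν
  rw [hm] at this
  simp only [Submodule.zero_eq_bot, Submodule.bot_smul, Submodule.mem_bot] at this
  rw [this, map_zero]

end Core

section BC

variable {k K N N' : Type} [Field k] [Field K] [Algebra k K] [AddCommGroup N] [Module k N]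
  [AddCommGroup N'] [Module K N'] [Module k N'] [IsScalarTower k K N'] {j : N →ₗ[k] N'}

/-- the contraction of the base change along a functional -/
noncomputable def contr (h : IsBaseChange K j) (l : K →ₗ[k] k) : N' →ₗ[k] N :=
  (TensorProduct.lid k N).toLinearMap ∘ₗ l.rTensor N ∘ₗ (h.equiv.symm.toLinearMap.restrictScalars k)

lemma contr_apply (h : IsBaseChange K j) (l : K →ₗ[k] k) (c : K) (x : N) :
    contr h l (c • j x) = l c • x := by
  have : h.equiv.symm (c • j x) = c ⊗ₜ[k] x := by
    rw [← h.equiv_tmul, LinearEquiv.symm_apply_apply]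
  change (TensorProduct.lid k N) (l.rTensor N (h.equiv.symm (c • j x))) = _
  rw [this]
  simp

lemma bc_ind (h : IsBaseChange K j) {P : N' → Prop} (h0 : P 0) (h1 : ∀ (c : K) x, P (c • j x))
    (h2 : ∀ u v, P u → P v → P (u + v)) (u : N') : P u := by
  obtain ⟨z, rfl⟩ := h.equiv.surjective u
  induction z using TensorProduct.induction_on with
  | zero => simpa using h0
  | tmul c x => rw [h.equiv_tmul]; exact h1 c x
  | add x y hx hy => rw [map_add]; exact h2 _ _ hx hy

lemma bc_sum (h : IsBaseChange K j) {μ : Type} (κ : Module.Basis μ k K) (u : N') :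
    ∃ s : Finset μ, ∀ s', s ⊆ s' → u = ∑ ν ∈ s', κ ν • j (contr h (κ.coord ν) u) := by
  classical
  refine bc_ind h (P := fun u => ∃ s : Finset μ, ∀ s', s ⊆ s' →
    u = ∑ ν ∈ s', κ ν • j (contr h (κ.coord ν) u)) ⟨∅, fun s' _ => by simp⟩ ?_ ?_ u
  · intro c x
    refine ⟨(κ.repr c).support, fun s' hs => ?_⟩
    have h1 : c = ∑ ν ∈ s', κ.repr c ν • κ ν := by
      conv_lhs => rw [← κ.linearCombination_repr c, Finsupp.linearCombination_apply,
        Finsupp.sum_of_support_subset _ hs _ (by simp)]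
    conv_lhs => rw [h1, Finset.sum_smul]
    refine Finset.sum_congr rfl fun ν _ => ?_
    rw [contr_apply, map_smul, smul_assoc, smul_comm]
    rfl
  · rintro u v ⟨s, hs⟩ ⟨t, ht⟩
    refine ⟨s ∪ t, fun s' hs' => ?_⟩
    simp only [map_add, smul_add, Finset.sum_add_distrib]
    rw [← hs s' (Finset.subset_union_left.trans hs'), ← ht s' (Finset.subset_union_right.trans hs')]

end BC

end Rt

open Rt in
/-- S8a -/
theorem dim_le_of_retract {k K Λ : Type} [Field k] [Field K] [Algebra k K]
    [Algebra.IsAlgebraic k K] [Ring Λ] [Algebra k Λ] [FiniteDimensional k Λ]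
    (C : FMod K (K ⊗[k] Λ)) [Nontrivial C.C] :
    ∃ B : ℕ, ∀ (N : FMod k Λ) (N' : FMod K (K ⊗[k] Λ)) [Module k N'.C] [IsScalarTower k K N'.C]
      (j : N.C →ₗ[k] N'.C), IsBaseChange K j →
      (∀ (a : Λ) (x : N.C), j (a • x) = ((1 : K) ⊗ₜ[k] a) • j x) → Indec Λ N.C →
      ∀ (i : C.C →ₗ[K ⊗[k] Λ] N'.C) (r : N'.C →ₗ[K ⊗[k] Λ] C.C), r ∘ₗ i = LinearMap.id →
      Module.finrank k N.C ≤ B := by
  classical
  let b := Module.finBasis K C.C
  let α := Module.finBasis k Λ
  let S : Set K := Set.range fun z : Fin (Module.finrank k Λ) × Fin (Module.finrank K C.C) ×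
    Fin (Module.finrank K C.C) => b.repr (((1 : K) ⊗ₜ[k] α z.1) • b z.2.1) z.2.2
  have hS : Finite S := Set.finite_range _
  let K0 := IntermediateField.adjoin k S
  have hK0 : FiniteDimensional k K0 := IntermediateField.finiteDimensional_adjoin
    fun x _ => (Algebra.IsAlgebraic.isAlgebraic x).isIntegral
  obtain ⟨π, hπ⟩ := (Algebra.linearMap K0 K).exists_leftInverse_of_injective
    (LinearMap.ker_eq_bot.2 (algebraMap K0 K).injective)
  have hπ1 : ∀ x : K0, π (x : K) = x := fun x => LinearMap.congr_fun hπ x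
  have hmem : ∀ (a : Λ) s s', b.repr (((1 : K) ⊗ₜ[k] a) • b s) s' ∈ K0 := by
    intro a s s'
    rw [← α.sum_repr a, TensorProduct.tmul_sum, Finset.sum_smul, map_sum, Finsupp.finsetSum_apply]
    refine sum_mem fun t _ => ?_
    have : ((1 : K) ⊗ₜ[k] (α.repr a t • α t)) =
        algebraMap k K (α.repr a t) • ((1 : K) ⊗ₜ[k] α t) := by
      rw [TensorProduct.tmul_smul, algebraMap_smul]
    rw [this, smul_assoc, map_smul, Finsupp.smul_apply, smul_eq_mul]
    exact mul_mem (K0.algebraMap_mem _) (IntermediateField.subset_adjoin k S ⟨(t, s, s'), rfl⟩)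
  let P : C.C →+ C.C :=
    { toFun := fun c => ∑ s, (π (b.repr c s) : K) • b s
      map_zero' := by simp
      map_add' := fun x y => by simp [add_smul, Finset.sum_add_distrib] }
  have hP1 : ∀ (x : K) (c : C.C), (∀ s, b.repr c s ∈ K0) → P (x • c) = (π x : K) • c := by
    intro x c hc
    change ∑ s, (π (b.repr (x • c) s) : K) • b s = _
    conv_rhs => rw [← b.sum_repr c, Finset.smul_sum]
    refine Finset.sum_congr rfl fun s _ => ?_
    have : b.repr (x • c) s = (⟨_, hc s⟩ : K0) • x := by
      rw [map_smul, Finsupp.smul_apply, smul_eq_mul, mul_comm]; rfl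
    rw [this, map_smul, smul_smul, mul_comm]
    rfl
  have hb : ∀ s s', b.repr (b s) s' ∈ K0 := by
    intro s s'
    rw [b.repr_self, Finsupp.single_apply]
    split_ifs
    · exact one_mem _
    · exact zero_mem _
  have hP : ∀ (a : Λ) (c : C.C), P (((1 : K) ⊗ₜ[k] a) • c) = ((1 : K) ⊗ₜ[k] a) • P c := by
    intro a c
    rw [← b.sum_repr c, Finset.smul_sum, map_sum, map_sum, Finset.smul_sum]
    refine Finset.sum_congr rfl fun s _ => ?_
    rw [smul_comm, hP1 _ _ (hmem a s), hP1 _ _ (hb s), smul_comm]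
  refine ⟨Module.finrank k (Fin (Module.finrank K C.C) → K0), ?_⟩
  intro N N' _ _ j hj hja hN i r hri
  let κ := Module.Basis.ofVectorSpace k K
  let Q1 : N'.C →ₗ[k] (Fin (Module.finrank K C.C) → K0) :=
    { toFun := fun u s => π (b.repr (r u) s)
      map_add' := fun x y => by ext s; simp
      map_smul' := fun c u => by
        funext s
        rw [← algebraMap_smul K c u, r.map_smul_of_tower, map_smul, Finsupp.smul_apply,
          algebraMap_smul, π.map_smul_of_tower]
        rfl }
  let Q2 : (Fin (Module.finrank K C.C) → K0) →ₗ[k] N'.C :=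
    { toFun := fun w => i (∑ s, (w s : K) • b s)
      map_add' := fun x y => by simp [add_smul, Finset.sum_add_distrib]
      map_smul' := fun c w => by
        rw [RingHom.id_apply, ← algebraMap_smul K c (i _), ← i.map_smul_of_tower, Finset.smul_sum]
        congr 1
        refine Finset.sum_congr rfl fun s _ => ?_
        rw [smul_smul, ← Algebra.smul_def]
        rfl }
  have hQ : ∀ u, Q2 (Q1 u) = i (P (r u)) := fun u => rfl
  have hpos : 0 < Module.finrank K C.C := Module.finrank_pos
  have hri' : ∀ c, r (i c) = c := fun c => LinearMap.congr_fun hri c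
  refine core hN (fun a u => ((1 : K) ⊗ₜ[k] a) • u) (fun ν => contr hj (κ.coord ν))
    (fun ν => κ ν • j) ?_ ?_ ?_ Q1 Q2 ?_ (i (b ⟨0, hpos⟩)) ?_ ?_
  · intro ν a u
    refine bc_ind hj (P := fun u => contr hj (κ.coord ν) (((1 : K) ⊗ₜ[k] a) • u) =
      a • contr hj (κ.coord ν) u) (by simp) ?_ ?_ u
    · intro c x
      rw [smul_comm, ← hja, contr_apply, contr_apply, smul_comm]
    · intro u v hu hv
      rw [smul_add, map_add, map_add, smul_add, hu, hv]
  · intro ν a x
    rw [LinearMap.smul_apply, LinearMap.smul_apply, hja, smul_comm]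
  · intro u
    obtain ⟨s, hs⟩ := bc_sum hj κ u
    exact ⟨s, hs s le_rfl⟩
  · intro a u
    rw [hQ, hQ, map_smul, hP, map_smul]
  · intro h
    have := congrArg r h
    rw [hri', map_zero] at this
    exact b.ne_zero _ this
  · rw [hQ, hri', ← one_smul K (b _), hP1 _ _ (hb _)]
    have := hπ1 1
    simp only [OneMemClass.coe_one] at this
    rw [this]
    rfl

end Pool.Agent.P.MP_bebcd6_lc
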