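import Pool.Agent.P.MP_bebcd6_lc.Dich

/-! Spectra of definable endomorphisms. -/

namespace Pool.Agent.P.MP_bebcd6_lc

variable {K Λ : Type} [Field K] [Ring Λ] [Algebra K Λ]

instance homFD (C N : FMod K Λ) : FiniteDimensional K (C.C →ₗ[Λ] N.C) :=
  Module.Finite.of_injective (LinearMap.restrictScalarsₗ K Λ C.C N.C K)
    (LinearMap.restrictScalars_injective K)

theorem finrank_hom_le (C N : FMod K Λ) :
    Module.finrank K (C.C →ₗ[Λ] N.C) ≤ Module.finrank K C.C * Module.finrank K N.C := by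
  rw [← Module.finrank_linearMap K K]
  exact LinearMap.finrank_le_finrank_of_injective (f := LinearMap.restrictScalarsₗ K Λ C.C N.C K)
    (LinearMap.restrictScalars_injective K)

theorem Fn.exists_lift {ψ φ : Pt K Λ} {D : FMod K Λ} {c c' : D.C} {N : FMod K Λ}
    (H : Fn ψ φ D c c' N) : ∃ T : Module.End K (D.C →ₗ[Λ] N.C),
      ∀ h, T h c - h c' ∈ ψ.ev N.C := by
  let e := (ψ.ev N.C).mkQ ∘ₗ evalAt K Λ N.C c
  let e' := (ψ.ev N.C).mkQ ∘ₗ evalAt K Λ N.C c'
  have hmem : ∀ h, e' h ∈ LinearMap.range e := fun h => by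
    obtain ⟨g, hg⟩ := H.2.1 _ (H.1 h).2
    exact ⟨g, (Submodule.Quotient.eq _).2 hg⟩
  obtain ⟨T, hT⟩ := Module.projective_lifting_property e.rangeRestrict
    (e'.codRestrict _ hmem) e.surjective_rangeRestrict
  refine ⟨T, fun h => (Submodule.Quotient.eq _).1 ?_⟩
  exact congrArg Subtype.val (LinearMap.congr_fun hT h)

theorem comap_le_of_le {V : Type} [AddCommGroup V] [Module K V] [FiniteDimensional K V]
    (S : Module.End K V) {p q : Submodule K V} (hpq : p ≤ q) (hp : p ≤ p.comap S)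
    (hq : q ≤ q.comap S) (h : p.comap S ≤ p) : q.comap S ≤ q := by
  have h1 : Function.Injective (p.mapQ p S hp) := by
    rw [← LinearMap.ker_eq_bot, eq_bot_iff]
    intro z hz
    obtain ⟨z, rfl⟩ := p.mkQ_surjective z
    have hz' : S z ∈ p := (Submodule.Quotient.mk_eq_zero p).1 hz
    exact (Submodule.Quotient.mk_eq_zero _).2 (h hz')
  have h2 := LinearMap.injective_iff_surjective.1 h1
  have h3 : Function.Surjective (q.mapQ q S hq) := by
    intro z
    obtain ⟨z, rfl⟩ := q.mkQ_surjective z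
    obtain ⟨y, hy⟩ := h2 (p.mkQ z)
    obtain ⟨y, rfl⟩ := p.mkQ_surjective y
    exact ⟨q.mkQ y, (Submodule.Quotient.eq _).2 (hpq ((Submodule.Quotient.eq _).1 hy))⟩
  have h4 := LinearMap.injective_iff_surjective.2 h3
  intro z hz
  refine (Submodule.Quotient.mk_eq_zero _).1 (h4 ?_)
  rw [map_zero]
  exact (Submodule.Quotient.mk_eq_zero _).2 hz

theorem lower [IsAlgClosed K] {ψ φ : Pt K Λ} {D : FMod K Λ} {c c' : D.C} {N N' : FMod K Λ}
    (H : Fn ψ φ D c c' N) (H' : Fn ψ φ D c c' N')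
    (hd : ∀ a : K, Inj ψ D c c' a N ∨ Inj ψ D c c' a N') (f : N.C →ₗ[Λ] N'.C) :
    ∀ x ∈ φ.ev N.C, f x ∈ ψ.ev N'.C := by
  obtain ⟨T, hT⟩ := H.exists_lift
  let p : Submodule K (D.C →ₗ[Λ] N.C) := (ψ.ev N.C).comap (evalAt K Λ N.C c)
  let q : Submodule K (D.C →ₗ[Λ] N.C) := (ψ.ev N'.C).comap (f.restrictScalars K ∘ₗ evalAt K Λ N.C c)
  have hq0 : ∀ h, h ∈ q ↔ f (h c) ∈ ψ.ev N'.C := fun h => Iff.rfl
  have hp0 : ∀ h, h ∈ p ↔ h c ∈ ψ.ev N.C := fun h => Iff.rfl
  have hpq : p ≤ q := fun h hh => Pt.map_mem hh f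
  have hp : ∀ h ∈ p, T h ∈ p := fun h hh => by
    have := Submodule.add_mem _ (hT h) (H.2.2 h hh)
    rwa [sub_add_cancel] at this
  have hq : ∀ h ∈ q, T h ∈ q := fun h hh => by
    have := Submodule.add_mem _ (Pt.map_mem (hT h) f) (H'.2.2 (f ∘ₗ h) hh)
    rwa [map_sub, LinearMap.comp_apply, sub_add_cancel] at this
  have htop : q = ⊤ := by
    by_contra hne
    have : Nontrivial ((D.C →ₗ[Λ] N.C) ⧸ q) := Submodule.Quotient.nontrivial_iff.2 hne
    obtain ⟨a, ha⟩ := Module.End.exists_eigenvalue (q.mapQ q T hq)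
    obtain ⟨v, hv⟩ := ha.exists_hasEigenvector
    obtain ⟨h, rfl⟩ := q.mkQ_surjective v
    have h1 : h ∉ q := fun hh => hv.2 ((Submodule.Quotient.mk_eq_zero _).2 hh)
    have h2 : T h - a • h ∈ q := (Submodule.Quotient.eq _).1 hv.apply_eq_smul
    rcases hd a with hI | hI
    · refine h1 (comap_le_of_le (T - a • LinearMap.id) hpq (fun g hg => ?_) (fun g hg => ?_)
        (fun g hg => ?_) h2)
      · exact p.sub_mem (hp g hg) (p.smul_mem a hg)
      · exact q.sub_mem (hq g hg) (q.smul_mem a hg)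
      · refine hI g ?_
        have h3 : T g c - a • g c ∈ ψ.ev N.C := hg
        have := Submodule.sub_mem _ h3 (hT g)
        convert this using 1; abel
    · refine h1 (hI (f ∘ₗ h) ?_)
      have h3 : f (T h c - a • h c) ∈ ψ.ev N'.C := h2
      have := Submodule.sub_mem _ h3 (Pt.map_mem (hT h) f)
      convert this using 1
      simp only [LinearMap.comp_apply, map_sub, LinearMap.map_smul_of_tower]; abel
  intro x hx
  obtain ⟨h, hh⟩ := H.2.1 x hx
  have h1 : f (h c) ∈ ψ.ev N'.C := (hq0 h).1 (htop ▸ Submodule.mem_top)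
  have := Submodule.sub_mem _ h1 (Pt.map_mem hh f)
  rwa [map_sub, sub_sub_cancel] at this

theorem spec_card {ψ φ : Pt K Λ} {D : FMod K Λ} {c c' : D.C} {N : FMod K Λ}
    (H : Fn ψ φ D c c' N) : ∃ s : Finset K,
      s.card ≤ Module.finrank K D.C * Module.finrank K N.C ∧ ∀ a ∉ s, Inj ψ D c c' a N := by
  classical
  obtain ⟨T, hT⟩ := H.exists_lift
  let p : Submodule K (D.C →ₗ[Λ] N.C) := (ψ.ev N.C).comap (evalAt K Λ N.C c)
  have hp : ∀ h ∈ p, T h ∈ p := fun h hh => by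
    have := Submodule.add_mem _ (hT h) (H.2.2 h hh)
    rwa [sub_add_cancel] at this
  let S : Module.End K ((D.C →ₗ[Λ] N.C) ⧸ p) := p.mapQ p T hp
  refine ⟨S.charpoly.roots.toFinset, ?_, fun a ha h hh => ?_⟩
  · refine (Multiset.toFinset_card_le _).trans ((Polynomial.card_roots' _).trans ?_)
    rw [LinearMap.charpoly_natDegree]
    exact (Submodule.finrank_quotient_le p).trans (finrank_hom_le D N)
  · by_contra hn
    apply ha
    rw [Multiset.mem_toFinset, Polynomial.mem_roots S.charpoly_monic.ne_zero,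
      ← Module.End.hasEigenvalue_iff_isRoot_charpoly]
    refine Module.End.hasEigenvalue_of_hasEigenvector (x := p.mkQ h) ⟨?_, fun h0 => hn ?_⟩
    · rw [Module.End.mem_eigenspace_iff]
      refine (Submodule.Quotient.eq _).2 ?_
      have := Submodule.add_mem _ (hT h) hh
      change T h c - a • h c ∈ ψ.ev N.C
      convert this using 1; abel
    · exact (Submodule.Quotient.mk_eq_zero p).1 h0

theorem nu_prod (ψ : Pt K Λ) (D : FMod K Λ) (y : D.C) (N : FMod K Λ) :
    (Pt.mk (D.prod ψ.M) (y, -ψ.c)).nu N.C =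
      Module.finrank K ((ψ.ev N.C).comap (evalAt K Λ N.C y)) + ψ.nu N.C := by
  let W := LinearMap.ker (evalAt K Λ N.C ((y, -ψ.c) : (D.prod ψ.M).C))
  have hW : ∀ g : (D.prod ψ.M).C →ₗ[Λ] N.C, g ∈ W ↔ g (y, 0) = g (0, ψ.c) := fun g => by
    have : ((y, -ψ.c) : (D.prod ψ.M).C) = (y, 0) - (0, ψ.c) := by ext <;> simp
    rw [LinearMap.mem_ker, evalAt_apply, this, map_sub, sub_eq_zero]
  let π : W →ₗ[K] (D.C →ₗ[Λ] N.C) :=
    pre K N.C (LinearMap.inl Λ D.C ψ.M.C) ∘ₗ W.subtype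
  have h1 : LinearMap.range π = (ψ.ev N.C).comap (evalAt K Λ N.C y) := by
    ext h
    constructor
    · rintro ⟨g, rfl⟩
      exact ⟨g.1 ∘ₗ LinearMap.inr Λ _ _, ((hW g.1).1 g.2).symm⟩
    · rintro ⟨g, hg⟩
      refine ⟨⟨h.coprod g, (hW _).2 ?_⟩, LinearMap.ext fun z => ?_⟩
      · simpa using hg.symm
      · simp [π]
  let σ : LinearMap.ker (evalAt K Λ N.C ψ.c) →ₗ[K] W :=
    (pre K N.C (LinearMap.snd Λ D.C ψ.M.C) ∘ₗ Submodule.subtype _).codRestrict W fun g => by
      rw [hW]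
      have : g.1 ψ.c = 0 := g.2
      simp [this]
  have h2 : Function.Injective σ := fun g g' h => by
    refine Subtype.ext (LinearMap.ext fun z => ?_)
    exact LinearMap.congr_fun (congrArg Subtype.val h) (0, z)
  have h3 : LinearMap.range σ = LinearMap.ker π := by
    ext g
    constructor
    · rintro ⟨g, rfl⟩
      refine LinearMap.ext fun z => ?_
      simp [π, σ]
    · intro hg
      have hg' : ∀ z, g.1 (z, 0) = 0 := fun z => LinearMap.congr_fun hg z
      refine ⟨⟨g.1 ∘ₗ LinearMap.inr Λ _ _, ?_⟩, Subtype.ext (LinearMap.ext fun z => ?_)⟩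
      · exact ((hW g.1).1 g.2).symm.trans (hg' y)
      · change g.1 (0, z.2) = g.1 z
        have : z = (z.1, 0) + (0, z.2) := by ext <;> simp
        conv_rhs => rw [this, map_add, hg', zero_add]
  have h4 := LinearMap.finrank_range_add_finrank_ker π
  rw [h1, ← h3, LinearMap.finrank_range_of_inj h2] at h4
  exact h4.symm

theorem inj_iff_nu {ψ φ : Pt K Λ} {D : FMod K Λ} {c c' : D.C} {N : FMod K Λ}
    (H : Fn ψ φ D c c' N) (a : K) : Inj ψ D c c' a N ↔
      (Pt.mk (D.prod ψ.M) (c' - a • c, -ψ.c)).nu N.C = (Pt.mk (D.prod ψ.M) (c, -ψ.c)).nu N.C := by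
  rw [nu_prod, nu_prod, Nat.add_right_cancel_iff]
  have hle : (ψ.ev N.C).comap (evalAt K Λ N.C c) ≤
      (ψ.ev N.C).comap (evalAt K Λ N.C (c' - a • c)) := fun h hh => by
    change h (c' - a • c) ∈ ψ.ev N.C
    rw [map_sub, LinearMap.map_smul_of_tower]
    exact Submodule.sub_mem _ (H.2.2 h hh) (Submodule.smul_mem _ a hh)
  constructor
  · intro hI
    refine congrArg (fun p : Submodule K _ => Module.finrank K p) (le_antisymm (fun h hh => ?_) hle)
    refine hI h ?_
    have : h (c' - a • c) ∈ ψ.ev N.C := hh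
    rwa [map_sub, LinearMap.map_smul_of_tower] at this
  · intro he h hh
    have := Submodule.eq_of_le_of_finrank_eq hle he.symm
    change h ∈ (ψ.ev N.C).comap (evalAt K Λ N.C c)
    rw [this]
    change h (c' - a • c) ∈ ψ.ev N.C
    rwa [map_sub, LinearMap.map_smul_of_tower]

end Pool.Agent.P.MP_bebcd6_lc
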