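import Pool.Agent.P.MP_bebcd6_lc.Iface

/-! Wildness in terms of matrices over the free algebra. -/

namespace Pool.Agent.P.MP_bebcd6_lc

open scoped TensorProduct
open MulOpposite

namespace WI

lemma indec_of_orderIso {S S' M M' : Type} [Ring S] [Ring S'] [AddCommGroup M] [Module S M]
    [AddCommGroup M'] [Module S' M'] (e : Submodule S M ≃o Submodule S' M') (h : Indec S M) :
    Indec S' M' := by
  refine ⟨?_, fun p q hpq => ?_⟩
  · have := (Submodule.nontrivial_iff S).2 h.1
    exact (Submodule.nontrivial_iff S').1 e.injective.nontrivial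
  · rcases h.2 _ _ (e.symm.isCompl hpq) with h1 | h1
    · exact Or.inl (e.symm.injective (h1.trans e.symm.map_bot.symm))
    · exact Or.inr (e.symm.injective (h1.trans e.symm.map_bot.symm))

variable {k R : Type} [Field k] [Ring R] [Algebra k R] (σ : Rᵐᵒᵖ ≃ₐ[k] R)

/-- a left module as a right module -/
abbrev Opm (M : FMod k R) : Type := OfHom ((Algebra.lsmul k k M.C).comp σ.toAlgHom)

/-- the identity -/
def un {M : FMod k R} (m : Opm σ M) : M.C := m

lemma Opm.smul_eq (M : FMod k R) (r : Rᵐᵒᵖ) (m : Opm σ M) : un σ (r • m) = σ r • un σ m := rfl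

/-- the two structures have the same submodules -/
def subIso (M : FMod k R) : Submodule R M.C ≃o Submodule Rᵐᵒᵖ (Opm σ M) where
  toFun p := { p.toAddSubmonoid with smul_mem' := fun r _ hx => p.smul_mem (σ r) hx }
  invFun p := { p.toAddSubmonoid with
    smul_mem' := fun r x hx => by
      obtain ⟨r, rfl⟩ := σ.surjective r
      exact p.smul_mem r hx }
  left_inv _ := rfl
  right_inv _ := rfl
  map_rel_iff' := Iff.rfl

/-- the two structures have the same isomorphisms -/
def unopIso {M M' : FMod k R} (e : Opm σ M ≃ₗ[Rᵐᵒᵖ] Opm σ M') : M.C ≃ₗ[R] M'.C :=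
  { e.toAddEquiv with
    map_smul' := fun r x => by
      obtain ⟨r, rfl⟩ := σ.surjective r
      exact e.map_smul r x }

variable {A B ι : Type} [Ring A] [Algebra k A] [AddCommGroup B] [Module k B] [Module R B]
  [Module Aᵐᵒᵖ B] [IsScalarTower k R B] [IsScalarTower k Aᵐᵒᵖ B] [SMulCommClass R Aᵐᵒᵖ B]
  [Fintype ι] [DecidableEq ι] (b : Module.Basis ι R B)

omit [Algebra k R] [Algebra k A] [Module k B] [IsScalarTower k R B] [IsScalarTower k Aᵐᵒᵖ B]
  [DecidableEq ι] in
lemma repr_act (a : Aᵐᵒᵖ) (β : B) (j : ι) :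
    b.repr (a • β) j = ∑ i, b.repr β i * b.repr (a • b i) j := by
  conv_lhs => rw [← b.sum_repr β]
  simp only [Finset.smul_sum, ← smul_comm _ a, map_sum, map_smul, Finsupp.finsetSum_apply,
    Finsupp.smul_apply, smul_eq_mul]

omit [DecidableEq ι] [Fintype ι] in
lemma repr_ksmul (c : k) (β : B) (j : ι) : b.repr (c • β) j = c • b.repr β j := by
  rw [← algebraMap_smul R c β, map_smul, Finsupp.smul_apply, algebraMap_smul]

/-- the matrices of the right action -/
noncomputable def psi : Aᵐᵒᵖ →ₐ[k] Matrix ι ι R where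
  toFun a := Matrix.of fun j i => σ (op (b.repr (a • b i) j))
  map_one' := by
    ext j i
    by_cases h : i = j <;> simp [Matrix.one_apply, h, eq_comm (a := j)]
  map_mul' a a' := by
    ext j i
    simp only [Matrix.mul_apply, mul_smul, repr_act b a (a' • b i), Finset.op_sum, map_sum, op_mul,
      map_mul, Matrix.of_apply]
  map_zero' := by ext j i; simp
  map_add' a a' := by ext j i; simp [add_smul]
  commutes' c := by
    ext j i
    by_cases h : i = j <;>
      simp [repr_ksmul, h, eq_comm (a := j), Algebra.algebraMap_eq_smul_one]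

lemma psi_apply (a : Aᵐᵒᵖ) (j i : ι) : psi σ b a j i = σ (op (b.repr (a • b i) j)) := rfl

/-- coordinates on the tensor product over the field -/
noncomputable def G0 (M : FMod k R) : B ⊗[k] Opm σ M →ₗ[Aᵐᵒᵖ] FM (psi σ b (A := A)) M.C :=
  TensorProduct.AlgebraTensorModule.lift
    { toFun := fun β =>
        { toFun := fun m i => σ (op (b.repr β i)) • un σ m
          map_add' := fun m m' => funext fun i => smul_add _ _ _
          map_smul' := fun c m => funext fun i => by
            have := smul_comm (σ (op (b.repr β i))) c (un σ m)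
            exact this }
      map_add' := fun β β' => LinearMap.ext fun m => funext fun i => by
        change σ (op (b.repr (β + β') i)) • un σ m =
          σ (op (b.repr β i)) • un σ m + σ (op (b.repr β' i)) • un σ m
        simp [add_smul]
      map_smul' := fun a β => LinearMap.ext fun m => funext fun j => by
        change σ (op (b.repr (a • β) j)) • un σ m =
          ∑ i, psi σ b a j i • σ (op (b.repr β i)) • un σ m
        simp only [repr_act b a β, psi_apply, Finset.op_sum, Finset.sum_smul, mul_smul, map_sum,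
          op_mul, map_mul] }

lemma G0_tmul (M : FMod k R) (β : B) (m : Opm σ M) (i : ι) :
    G0 σ b (A := A) M (β ⊗ₜ m) i = σ (op (b.repr β i)) • un σ m := rfl

theorem exists_equiv (M : FMod k R) :
    Nonempty (Ten k R A (Opm σ M) B ≃ₗ[Aᵐᵒᵖ] FM (psi σ b (A := A)) M.C) := by
  set p := Submodule.span Aᵐᵒᵖ {z : B ⊗[k] Opm σ M | ∃ (s : R) (β : B) (m : Opm σ M),
    z = (s • β) ⊗ₜ[k] m - β ⊗ₜ[k] (op s • m)} with hp
  have h1 : p ≤ LinearMap.ker (G0 σ b (A := A) M) := by
    refine Submodule.span_le.2 ?_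
    rintro _ ⟨s, β, m, rfl⟩
    rw [SetLike.mem_coe, LinearMap.mem_ker, map_sub, sub_eq_zero]
    funext i
    rw [G0_tmul, G0_tmul, Opm.smul_eq]
    simp [mul_smul]
  have h2 : ∀ z : B ⊗[k] Opm σ M,
      p.mkQ z = ∑ i, p.mkQ (b i ⊗ₜ[k] (show Opm σ M from G0 σ b (A := A) M z i)) := by
    intro z
    induction z using TensorProduct.induction_on with
    | zero =>
      rw [map_zero, map_zero]
      exact (Finset.sum_eq_zero fun i _ =>
        (congrArg p.mkQ (TensorProduct.tmul_zero _ _)).trans (map_zero _)).symm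
    | tmul β m =>
      conv_lhs => rw [← b.sum_repr β, TensorProduct.sum_tmul, map_sum]
      exact Finset.sum_congr rfl fun i _ =>
        (Submodule.Quotient.eq p).2 (Submodule.subset_span ⟨_, _, _, rfl⟩)
    | add x y hx hy =>
      rw [map_add, hx, hy, map_add, ← Finset.sum_add_distrib]
      exact Finset.sum_congr rfl fun i _ => by
        rw [← map_add, ← TensorProduct.tmul_add]
        rfl
  refine ⟨LinearEquiv.ofBijective (p.liftQ _ h1) ⟨?_, fun m => ?_⟩⟩
  · rw [injective_iff_map_eq_zero]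
    intro z hz
    obtain ⟨z, rfl⟩ := p.mkQ_surjective z
    have hz' : G0 σ b (A := A) M z = 0 := hz
    rw [h2, hz']
    exact Finset.sum_eq_zero fun i _ =>
      (congrArg p.mkQ (TensorProduct.tmul_zero _ _)).trans (map_zero _)
  · refine ⟨p.mkQ (∑ i, b i ⊗ₜ[k] (show Opm σ M from m i)), ?_⟩
    change G0 σ b (A := A) M _ = m
    funext j
    rw [map_sum]
    refine (Finset.sum_apply j Finset.univ _).trans ?_
    simp only [G0_tmul]
    rw [Finset.sum_eq_single j (fun i _ hi => by simp [hi]) (by simp)]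
    simp [un]

end WI

open WI

theorem wild_internal {k A : Type} [Field k] [Ring A] [Algebra k A] (hw : Wild k A) :
    ∃ (d : ℕ) (ψ : Aᵐᵒᵖ →ₐ[k] Matrix (Fin d) (Fin d) (FA k)), H1 ψ ∧ H2 ψ := by
  obtain ⟨B, _, _, _, _, _, _, _, hf, hfin, h2, h1⟩ := hw
  let σ : (FA k)ᵐᵒᵖ ≃ₐ[k] FA k := FreeAlgebra.starHom.symm
  let b := (Module.Free.chooseBasis (FA k) B).reindex (Fintype.equivFin _)
  refine ⟨_, psi σ b, fun M M' ⟨e⟩ => ?_, fun M hM => ?_⟩
  · obtain ⟨e1⟩ := exists_equiv σ b (A := A) M
    obtain ⟨e2⟩ := exists_equiv σ b (A := A) M'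
    obtain ⟨e3⟩ := h1 (Opm σ M) (Opm σ M') ⟨(e1.trans e).trans e2.symm⟩
    exact ⟨unopIso σ e3⟩
  · obtain ⟨e1⟩ := exists_equiv σ b (A := A) M
    exact indec_of_orderIso (Submodule.orderIsoMapComap e1)
      (h2 (Opm σ M) (indec_of_orderIso (subIso σ M) hM))

end Pool.Agent.P.MP_bebcd6_lc
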